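import Mathlib

/-! # A1: abstract representation theory -/

namespace Pool.Agent.MP_467141

section eigen

variable {F V : Type*} [Field F] [AddCommGroup V] [Module F V]

/-- common eigenvector of operators commuting on an invariant subspace -/
theorem exists_common_eigenvector [IsAlgClosed F] [FiniteDimensional F V] (W : Submodule F V)
    (hW : W ≠ ⊥) (S : Set (Module.End F V)) (hS : ∀ T ∈ S, ∀ w ∈ W, T w ∈ W)
    (hc : ∀ T ∈ S, ∀ T' ∈ S, ∀ w ∈ W, T (T' w) = T' (T w)) :
    ∃ v ∈ W, v ≠ 0 ∧ ∀ T ∈ S, ∃ c : F, T v = c • v := by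
  induction hn : Module.finrank F W using Nat.strong_induction_on generalizing W with
  | _ n ih =>
    by_cases hall : ∀ T ∈ S, ∃ c : F, ∀ w ∈ W, T w = c • w
    · obtain ⟨v, hv, hv0⟩ := W.exists_mem_ne_zero_of_ne_bot hW
      refine ⟨v, hv, hv0, fun T hT => ?_⟩
      obtain ⟨c, hc'⟩ := hall T hT
      exact ⟨c, hc' v hv⟩
    · push Not at hall
      obtain ⟨T, hT, hTne⟩ := hall
      have : Nontrivial W := Submodule.nontrivial_iff_ne_bot.2 hW
      obtain ⟨c, hcT⟩ := Module.End.exists_eigenvalue (T.restrict (hS T hT))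
      obtain ⟨u, hu⟩ := hcT.exists_hasEigenvector
      have hu1 : T (u : V) = c • (u : V) := by
        have := congrArg Subtype.val hu.apply_eq_smul
        simpa using this
      let W' : Submodule F V := W ⊓ LinearMap.ker (T - c • (1 : Module.End F V))
      have hmem : ∀ w, w ∈ W' ↔ w ∈ W ∧ T w = c • w := by
        intro w
        simp only [W', Submodule.mem_inf, LinearMap.mem_ker, LinearMap.sub_apply,
          LinearMap.smul_apply, Module.End.one_apply, sub_eq_zero]
      have hlt : W' < W := by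
        refine lt_of_le_of_ne inf_le_left fun h => ?_
        obtain ⟨w, hw, hne⟩ := hTne c
        rw [← h, hmem] at hw
        exact hne hw.2
      have hW' : W' ≠ ⊥ := by
        intro h
        have h1 : (u : V) ∈ W' := (hmem _).2 ⟨u.2, hu1⟩
        rw [h, Submodule.mem_bot] at h1
        exact hu.2 (Subtype.ext h1)
      obtain ⟨v, hv, hv0, hv1⟩ := ih (Module.finrank F W')
        (hn ▸ Submodule.finrank_lt_finrank_of_lt hlt) W' hW'
        (fun T' hT' w hw => by
          rw [hmem] at hw ⊢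
          exact ⟨hS T' hT' w hw.1, by rw [hc T hT T' hT' w hw.1, hw.2, map_smul]⟩)
        (fun T' hT' T'' hT'' w hw => hc T' hT' T'' hT'' w ((hmem w).1 hw).1) rfl
      exact ⟨v, ((hmem v).1 hv).1, hv0, hv1⟩

variable {G : Type*} [Group G] (ρ : Representation F G V) {E : Type*} [AddCommGroup E]
  (X : E → G) (hX : ∀ t u, X (t + u) = X t * X u)

include hX in
theorem exists_addChar {v : V} (hv : v ≠ 0) (h : ∀ t, ∃ c : F, ρ (X t) v = c • v) :
    ∃ ψ : AddChar E F, ∀ t, ρ (X t) v = ψ t • v := by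
  choose c hc using h
  have hX0 : X 0 = 1 := by
    have := hX 0 0
    rw [add_zero] at this
    exact mul_eq_left.1 this.symm
  refine ⟨⟨c, ?_, fun t u => ?_⟩, hc⟩
  · have h1 := hc 0
    rw [hX0, map_one, Module.End.one_apply] at h1
    have h2 : (1 - c 0) • v = 0 := by rw [sub_smul, one_smul, ← h1, sub_self]
    exact (sub_eq_zero.1 ((smul_eq_zero.1 h2).resolve_right hv)).symm
  · have h1 := hc (t + u)
    rw [hX, map_mul, Module.End.mul_apply, hc u, map_smul, hc t, smul_smul] at h1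
    have h2 : (c u * c t - c (t + u)) • v = 0 := by rw [sub_smul, ← h1, sub_self]
    rw [← sub_eq_zero.1 ((smul_eq_zero.1 h2).resolve_right hv), mul_comm]

include hX in
/-- if `X` acts nontrivially there is an eigenvector with a nontrivial character -/
theorem exists_nontrivial_eigenvector [IsAlgClosed F] [FiniteDimensional F V] (p : ℕ)
    (hp : (p : F) ≠ 0) (hE : ∀ t : E, p • t = 0) (hnt : ∃ t, ρ (X t) ≠ 1) :
    ∃ v : V, v ≠ 0 ∧ ∃ ψ : AddChar E F, ψ ≠ 1 ∧ ∀ t, ρ (X t) v = ψ t • v := by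
  obtain ⟨t0, ht0⟩ := hnt
  have hX0 : X 0 = 1 := by
    have := hX 0 0
    rw [add_zero] at this
    exact mul_eq_left.1 this.symm
  have hcomm : ∀ t u w, ρ (X t) (ρ (X u) w) = ρ (X u) (ρ (X t) w) := by
    intro t u w
    rw [← Module.End.mul_apply, ← Module.End.mul_apply, ← map_mul, ← map_mul, ← hX, ← hX,
      add_comm]
  let W : Submodule F V := LinearMap.range (ρ (X t0) - 1)
  have hW : W ≠ ⊥ := by
    intro h
    rw [LinearMap.range_eq_bot, sub_eq_zero] at h
    exact ht0 h
  obtain ⟨v, ⟨u, hu⟩, hv0, hv⟩ := exists_common_eigenvector W hW (Set.range fun t => ρ (X t))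
    (by
      rintro _ ⟨t, rfl⟩ _ ⟨u, rfl⟩
      refine ⟨ρ (X t) u, ?_⟩
      simp only [LinearMap.sub_apply, Module.End.one_apply, map_sub, hcomm t t0])
    (by
      rintro _ ⟨t, rfl⟩ _ ⟨t', rfl⟩ w _
      exact hcomm t t' w)
  obtain ⟨ψ, hψ⟩ := exists_addChar ρ X hX hv0 fun t => hv _ ⟨t, rfl⟩
  refine ⟨v, hv0, ψ, fun h1 => ?_, hψ⟩
  have ha : ρ (X t0) v = v := by rw [hψ, h1, AddChar.one_apply, one_smul]
  have hu' : ρ (X t0) u = u + v := by
    rw [← hu, LinearMap.sub_apply, Module.End.one_apply]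
    abel
  have key : ∀ n : ℕ, ρ (X (n • t0)) u = u + n • v := by
    intro n
    induction n with
    | zero => simp [hX0]
    | succ n ih =>
      rw [succ_nsmul, hX, map_mul, Module.End.mul_apply, hu', map_add, ih, succ_nsmul]
      have : ∀ n : ℕ, ρ (X (n • t0)) v = v := by
        intro n
        induction n with
        | zero => simp [hX0]
        | succ n ih => rw [succ_nsmul, hX, map_mul, Module.End.mul_apply, ha, ih]
      rw [this]
      abel
  have h2 := key p
  rw [hE, hX0, map_one, Module.End.one_apply, left_eq_add, ← Nat.cast_smul_eq_nsmul F] at h2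
  exact (smul_eq_zero.1 h2).elim hp hv0

end eigen

section clifford

variable {F V : Type*} [Field F] [AddCommGroup V] [Module F V]
variable {G : Type*} [Group G] (ρ : Representation F G V)

/-- `v` is an eigenvector of `M` with character `χ`, `X` normalises `M`; if the stabiliser of `χ`
in `X` fixes `v` (and `Ω = 1` there) then there is an eigenvector of `X` with character `Ω`. -/
theorem exists_induced_eigenvector (X M : Subgroup G) [Finite X] [Finite M]
    (hX : (Nat.card X : F) ≠ 0) (hM : (Nat.card M : F) ≠ 0)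
    (hn : ∀ x ∈ X, ∀ m ∈ M, x * m * x⁻¹ ∈ M) {v : V} (hv : v ≠ 0)
    (hMv : ∀ m ∈ M, ∃ c : F, ρ m v = c • v) (Ω : G → F) (hΩ1 : Ω 1 = 1)
    (hΩ : ∀ x ∈ X, ∀ y ∈ X, Ω (x * y) = Ω x * Ω y)
    (hst : ∀ x ∈ X, (∀ m ∈ M, ρ (x * m * x⁻¹) v = ρ m v) → ρ x v = v ∧ Ω x = 1) :
    ∃ w : V, w ≠ 0 ∧ ∀ x ∈ X, ρ x w = Ω x • w := by
  classical
  have := Fintype.ofFinite X
  have := Fintype.ofFinite M
  have hΩinv : ∀ x ∈ X, Ω x⁻¹ * Ω x = 1 := by
    intro x hx
    rw [← hΩ _ (inv_mem hx) _ hx, inv_mul_cancel, hΩ1]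
  have hΩ0 : ∀ x ∈ X, Ω x ≠ 0 := fun x hx h => by
    have := hΩinv x hx
    rw [h, mul_zero] at this
    exact zero_ne_one this
  have hΩinv' : ∀ x ∈ X, Ω x⁻¹ = (Ω x)⁻¹ := fun x hx =>
    eq_inv_of_mul_eq_one_left (hΩinv x hx)
  choose! χ hχ using hMv
  have hχ_mul : ∀ m ∈ M, ∀ n ∈ M, χ (m * n) = χ m * χ n := by
    intro m hm n hn
    have h1 := hχ (m * n) (mul_mem hm hn)
    rw [map_mul, Module.End.mul_apply, hχ n hn, map_smul, hχ m hm, smul_smul] at h1
    have h2 : (χ n * χ m - χ (m * n)) • v = 0 := by rw [sub_smul, ← h1, sub_self]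
    rw [← sub_eq_zero.1 ((smul_eq_zero.1 h2).resolve_right hv), mul_comm]
  have hχ_one : χ 1 = 1 := by
    have h1 := hχ 1 (one_mem _)
    rw [map_one, Module.End.one_apply] at h1
    have h2 : (1 - χ 1) • v = 0 := by rw [sub_smul, one_smul, ← h1, sub_self]
    exact (sub_eq_zero.1 ((smul_eq_zero.1 h2).resolve_right hv)).symm
  have hχ0 : ∀ m ∈ M, χ m ≠ 0 := fun m hm h => by
    have := hχ_mul m hm m⁻¹ (inv_mem hm)
    rw [mul_inv_cancel, hχ_one, h, zero_mul] at this
    exact one_ne_zero this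
  -- conjugation by inverse
  have hn' : ∀ x ∈ X, ∀ m ∈ M, x⁻¹ * m * x ∈ M := by
    intro x hx m hm
    have := hn x⁻¹ (inv_mem hx) m hm
    rwa [inv_inv] at this
  let Stab : Subgroup X :=
    { carrier := {x | ∀ m ∈ M, χ ((x : G) * m * (x : G)⁻¹) = χ m}
      one_mem' := by intro m _; simp
      mul_mem' := by
        intro x y hx hy m hm
        have h1 := hx _ (hn y y.2 m hm)
        rw [← hy m hm, ← h1]
        congr 1
        rw [Subgroup.coe_mul]
        group
      inv_mem' := by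
        intro x hx m hm
        have h1 := hx _ (hn' x x.2 m hm)
        rw [Subgroup.coe_inv, inv_inv, ← h1]
        congr 1
        group }
  have hStab : (Nat.card Stab : F) ≠ 0 := by
    intro h
    apply hX
    obtain ⟨d, hd⟩ := Subgroup.card_subgroup_dvd_card Stab
    rw [hd, Nat.cast_mul, h, zero_mul]
  have hStab1 : ∀ x : X, x ∈ Stab → ρ (x : G) v = v ∧ Ω x = 1 := by
    intro x hx
    refine hst x x.2 fun m hm => ?_
    rw [hχ _ (hn x x.2 m hm), hχ m hm, hx m hm]
  let w : V := ∑ x : X, (Ω x)⁻¹ • ρ (x : G) v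
  refine ⟨w, ?_, ?_⟩
  · intro hw
    -- apply the projector
    have h1 : ∑ m : M, (χ m)⁻¹ • ρ (m : G) w = 0 := by
      rw [hw]
      simp
    have h2 : ∀ x : X, ∑ m : M, (χ m)⁻¹ • ρ (m : G) (ρ (x : G) v) =
        if x ∈ Stab then (Nat.card M : F) • ρ (x : G) v else 0 := by
      intro x
      have h3 : ∀ m : M, (χ m)⁻¹ • ρ (m : G) (ρ (x : G) v) =
          ((χ m)⁻¹ * χ ((x : G)⁻¹ * m * x)) • ρ (x : G) v := by
        intro m
        have h4 : ρ (m : G) (ρ (x : G) v) = ρ (x : G) (ρ ((x : G)⁻¹ * m * x) v) := by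
          rw [← Module.End.mul_apply, ← Module.End.mul_apply, ← map_mul, ← map_mul]
          congr 2
          group
        rw [h4, hχ _ (hn' x x.2 m m.2), map_smul, smul_smul]
      rw [Finset.sum_congr rfl fun m _ => h3 m, ← Finset.sum_smul]
      let f : M →* F :=
        { toFun := fun m => (χ m)⁻¹ * χ ((x : G)⁻¹ * m * x)
          map_one' := by simp [hχ_one]
          map_mul' := by
            intro m m'
            have h5 : (x : G)⁻¹ * ((m * m' : M) : G) * x =
                ((x : G)⁻¹ * m * x) * ((x : G)⁻¹ * m' * x) := by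
              rw [Subgroup.coe_mul]
              group
            rw [h5, hχ_mul _ (hn' x x.2 m m.2) _ (hn' x x.2 m' m'.2), Subgroup.coe_mul,
              hχ_mul _ m.2 _ m'.2, mul_inv]
            ring }
      have h6 := sum_hom_units f
      have h7 : f = 1 ↔ x ∈ Stab := by
        constructor
        · intro hf m hm
          have h8 := DFunLike.congr_fun hf ⟨(x : G) * m * (x : G)⁻¹, hn x x.2 m hm⟩
          simp only [f, MonoidHom.coe_mk, OneHom.coe_mk, MonoidHom.one_apply] at h8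
          have h9 : (x : G)⁻¹ * ((x : G) * m * (x : G)⁻¹) * x = m := by group
          rw [h9, inv_mul_eq_one₀ (hχ0 _ (hn x x.2 m hm))] at h8
          exact h8
        · intro hx
          ext m
          simp only [f, MonoidHom.coe_mk, OneHom.coe_mk, MonoidHom.one_apply]
          have h8 := hx _ (hn' x x.2 m m.2)
          have h9 : (x : G) * ((x : G)⁻¹ * m * x) * (x : G)⁻¹ = m := by group
          rw [h9] at h8
          rw [← h8]
          exact inv_mul_cancel₀ (hχ0 _ m.2)
      have h10 : ∑ m : M, (χ m)⁻¹ * χ ((x : G)⁻¹ * m * x) =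
          if x ∈ Stab then (Nat.card M : F) else 0 := by
        have : ∑ m : M, (χ m)⁻¹ * χ ((x : G)⁻¹ * m * x) = ∑ m : M, f m := rfl
        rw [this, h6]
        by_cases hx : x ∈ Stab
        · rw [if_pos hx, if_pos (h7.2 hx), Nat.card_eq_fintype_card]
        · rw [if_neg hx, if_neg (fun h => hx (h7.1 h))]
          simp
      rw [h10]
      split_ifs <;> simp
    have h11 : ∑ m : M, (χ m)⁻¹ • ρ (m : G) w =
        ∑ x : X, (Ω x)⁻¹ • ∑ m : M, (χ m)⁻¹ • ρ (m : G) (ρ (x : G) v) := by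
      simp only [w, map_sum, map_smul, Finset.smul_sum]
      rw [Finset.sum_comm]
      refine Finset.sum_congr rfl fun x _ => Finset.sum_congr rfl fun m _ => ?_
      rw [smul_comm]
    rw [h11] at h1
    simp only [h2] at h1
    have h12 : ∀ x : X, (Ω x)⁻¹ • (if x ∈ Stab then (Nat.card M : F) • ρ (x : G) v else 0) =
        if x ∈ Stab then (Nat.card M : F) • v else 0 := by
      intro x
      split_ifs with hx
      · rw [(hStab1 x hx).1, (hStab1 x hx).2, inv_one, one_smul]
      · rw [smul_zero]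
    simp only [h12] at h1
    rw [← Finset.sum_filter, Finset.sum_const, ← Nat.cast_smul_eq_nsmul F] at h1
    have h13 : (Finset.univ.filter fun x => x ∈ Stab).card = Nat.card Stab := by
      rw [Nat.card_eq_fintype_card, Fintype.card_subtype]
    rw [h13] at h1
    rcases smul_eq_zero.1 h1 with h | h
    · exact hStab h
    · rcases smul_eq_zero.1 h with h | h
      · exact hM h
      · exact hv h
  · intro y hy
    simp only [w, map_sum, map_smul, Finset.smul_sum]
    rw [← Equiv.sum_comp (Equiv.mulLeft (⟨y, hy⟩ : X)) fun x : X => Ω y • (Ω x)⁻¹ • ρ (x : G) v]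
    refine Finset.sum_congr rfl fun x _ => ?_
    simp only [Equiv.coe_mulLeft, Subgroup.coe_mul]
    rw [hΩ y hy x x.2, mul_inv, smul_smul, ← mul_assoc, mul_inv_cancel₀ (hΩ0 y hy), one_mul,
      map_mul, Module.End.mul_apply]

/-- `w` eigenvector of `X` with character `Ω`; `x0` in general position. -/
theorem coeff_one_eq_zero {H : Type*} [Group H] [Fintype H] (i : H →* G) (X : Subgroup G)
    [Finite X] (hX : (Nat.card X : F) ≠ 0) (Ω : G → F) (hΩ1 : Ω 1 = 1)
    (hΩ : ∀ x ∈ X, ∀ y ∈ X, Ω (x * y) = Ω x * Ω y) {w : V} (hw0 : w ≠ 0)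
    (hw : ∀ x ∈ X, ρ x w = Ω x • w) (x0 : G)
    (hgen : ∀ h : H, h ≠ 1 → ∃ x ∈ X, (x0⁻¹ * i h * x0)⁻¹ * x * (x0⁻¹ * i h * x0) ∈ X ∧
      Ω ((x0⁻¹ * i h * x0)⁻¹ * x * (x0⁻¹ * i h * x0)) ≠ Ω x) (c : H → F)
    (hc : ∑ h, c h • ρ (i h) = 0) : c 1 = 0 := by
  classical
  have := Fintype.ofFinite X
  have hΩ0 : ∀ x ∈ X, Ω x ≠ 0 := fun x hx h => by
    have := hΩ _ (inv_mem hx) _ hx
    rw [inv_mul_cancel, hΩ1, h, mul_zero] at this
    exact one_ne_zero this
  let E : Module.End F V := ∑ x : X, (Ω x)⁻¹ • ρ (x : G)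
  have hE : ∀ x ∈ X, E * ρ x = Ω x • E := by
    intro y hy
    simp only [E, Finset.sum_mul, Finset.smul_sum]
    rw [← Equiv.sum_comp (Equiv.mulRight (⟨y, hy⟩ : X)) fun x : X => Ω y • (Ω x)⁻¹ • ρ (x : G)]
    refine Finset.sum_congr rfl fun x _ => ?_
    simp only [Equiv.coe_mulRight, Subgroup.coe_mul]
    rw [hΩ x x.2 y hy, mul_inv, smul_smul, mul_comm (Ω x)⁻¹, ← mul_assoc,
      mul_inv_cancel₀ (hΩ0 y hy), one_mul, map_mul, smul_mul_assoc]
  have hEw : E w = (Nat.card X : F) • w := by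
    simp only [E, LinearMap.sum_apply, LinearMap.smul_apply]
    rw [Finset.sum_congr rfl fun (x : X) _ => by
      rw [hw x x.2, smul_smul, inv_mul_cancel₀ (hΩ0 x x.2), one_smul]]
    rw [Finset.sum_const, Finset.card_univ, ← Nat.card_eq_fintype_card, Nat.cast_smul_eq_nsmul]
  have hEy : ∀ h : H, h ≠ 1 → E (ρ (x0⁻¹ * i h * x0) w) = 0 := by
    intro h hh
    obtain ⟨x, hx, hx', hne⟩ := hgen h hh
    set y := x0⁻¹ * i h * x0 with hy
    have h1 : E (ρ x (ρ y w)) = Ω x • E (ρ y w) := by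
      rw [← Module.End.mul_apply, hE x hx, LinearMap.smul_apply]
    have h2 : ρ x (ρ y w) = Ω (y⁻¹ * x * y) • ρ y w := by
      rw [← map_smul, ← hw _ hx', ← Module.End.mul_apply, ← Module.End.mul_apply, ← map_mul,
        ← map_mul]
      congr 2
      group
    rw [h2, map_smul] at h1
    have h3 : (Ω (y⁻¹ * x * y) - Ω x) • E (ρ y w) = 0 := by rw [sub_smul, h1, sub_self]
    exact (smul_eq_zero.1 h3).resolve_left (sub_ne_zero.2 hne)
  have h1 : E (ρ x0⁻¹ ((∑ h, c h • ρ (i h)) (ρ x0 w))) = 0 := by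
    rw [hc]
    simp
  simp only [LinearMap.sum_apply, LinearMap.smul_apply, map_sum, map_smul] at h1
  rw [Finset.sum_eq_single 1] at h1
  · have h2 : ρ x0⁻¹ (ρ x0 w) = w := by
      rw [← Module.End.mul_apply, ← map_mul, inv_mul_cancel, map_one, Module.End.one_apply]
    rw [map_one, map_one, Module.End.one_apply, h2, hEw, smul_smul] at h1
    rcases smul_eq_zero.1 h1 with h | h
    · exact (mul_eq_zero.1 h).resolve_right hX
    · exact absurd h hw0
  · intro h _ hh
    have h2 := hEy h hh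
    rw [map_mul, map_mul, Module.End.mul_apply, Module.End.mul_apply] at h2
    rw [h2, smul_zero]
  · intro h
    exact absurd (Finset.mem_univ _) h

/-- Cauchy -/
theorem card_cast_ne_zero_of_forall_prime {X : Type*} [Group X] [Finite X] {F : Type*} [Field F]
    (h : ∀ ℓ : ℕ, ℓ.Prime → (ℓ : F) = 0 → ∀ x : X, x ^ ℓ = 1 → x = 1) :
    (Nat.card X : F) ≠ 0 := by
  intro h0
  have h1 : ringChar F ∣ Nat.card X := ringChar.dvd h0
  have hne : ringChar F ≠ 0 := by
    intro h2
    rw [h2, zero_dvd_iff] at h1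
    exact Nat.card_pos.ne' h1
  have hp : (ringChar F).Prime := (CharP.char_is_prime_or_zero F (ringChar F)).resolve_right hne
  have : Fact (ringChar F).Prime := ⟨hp⟩
  obtain ⟨x, hx⟩ := exists_prime_orderOf_dvd_card' (ringChar F) h1
  have h2 := h (ringChar F) hp (CharP.cast_eq_zero F _) x (by rw [← hx, pow_orderOf_eq_one])
  rw [h2, orderOf_one] at hx
  exact hp.one_lt.ne hx

end clifford

end Pool.Agent.MP_467141
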