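import Pool.Agent.Lib.MP_467141_H17.Fields

/-! # A2: moves in characteristic `2` and `3` -/

namespace Pool.Agent.MP_467141

variable {K : Type*} [Field K] [Finite K] {F : Type*} [Field F]

/-- in characteristic `2` some multiple of `τ` is invariant under Frobenius -/
theorem exists_frobenius_invariant (h2 : (2 : K) = 0) {τ : AddChar K F} (hτ : τ ≠ 1) :
    ∃ c : K, c ≠ 0 ∧ ∀ x, τ (c * x ^ 2) = τ (c * x) := by
  have hsq : ∀ x y : K, (x + y) ^ 2 = x ^ 2 + y ^ 2 := by
    intro x y
    linear_combination (x * y) * h2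
  let μ : AddChar K F :=
    ⟨fun x => τ (x ^ 2), by simp, fun x y => by rw [hsq, τ.map_add_eq_mul]⟩
  obtain ⟨κ, hκ⟩ := exists_mulShift hτ μ
  have hκ' : ∀ t, τ (κ * t) = τ (t ^ 2) := hκ
  have hκ0 : κ ≠ 0 := by
    rintro rfl
    apply hτ
    have hinj : Function.Injective fun x : K => x ^ 2 := by
      intro x y hxy
      have h3 : (x - y) ^ 2 = 0 := by
        simp only at hxy
        linear_combination hxy - (x * y - y ^ 2) * h2
      exact sub_eq_zero.1 (pow_eq_zero_iff two_ne_zero |>.1 h3)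
    ext z
    obtain ⟨x, hx⟩ := (Finite.injective_iff_surjective.1 hinj) z
    rw [← hx, AddChar.one_apply]
    change τ (x ^ 2) = 1
    rw [← hκ', zero_mul, AddChar.map_zero_eq_one]
  refine ⟨κ ^ 2, pow_ne_zero 2 hκ0, fun x => ?_⟩
  rw [← mul_pow, ← hκ']
  congr 1
  ring

section two

variable (h2 : (2 : K) = 0) {τ : AddChar K F}

omit [Finite K] in
include h2 in
lemma a2_char_values (χ : AddChar K F) (x : K) : χ x = 1 ∨ χ x = -1 := by
  have h : χ x * χ x = 1 := by
    rw [← χ.map_add_eq_mul, ← two_mul, h2, zero_mul, χ.map_zero_eq_one]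
  exact mul_self_eq_one_iff.1 h

include h2 in
/-- the kernel of a character has index at most two -/
lemma a2_card_le (A : AddSubgroup K) (χ : AddChar K F) :
    Nat.card A ≤ 2 * Nat.card {x : K // x ∈ A ∧ χ x = 1} := by
  classical
  by_cases h : ∀ x ∈ A, χ x = 1
  · have : Nat.card A ≤ Nat.card {x : K // x ∈ A ∧ χ x = 1} :=
      Nat.card_le_card_of_injective (fun x : A => ⟨x.1, x.2, h x.1 x.2⟩)
        (fun x y hxy => Subtype.ext (congrArg (fun z => z.1) hxy))
    omega
  · push Not at h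
    obtain ⟨x1, hx1, hne⟩ := h
    have hx1' : χ x1 = -1 := (a2_char_values h2 χ x1).resolve_left hne
    have key : Nat.card A ≤ Nat.card (Bool × {x : K // x ∈ A ∧ χ x = 1}) := by
      refine Nat.card_le_card_of_injective (fun x : A => if hx : χ x = 1 then
        (true, ⟨x.1, x.2, hx⟩) else (false, ⟨x.1 + x1, add_mem x.2 hx1, ?_⟩)) ?_
      · rw [χ.map_add_eq_mul, (a2_char_values h2 χ x).resolve_left hx, hx1']
        norm_num
      · intro x y hxy
        simp only at hxy
        by_cases hx : χ x = 1 <;> by_cases hy : χ y = 1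
        · rw [dif_pos hx, dif_pos hy] at hxy
          have := congrArg (fun z => (z.2 : K)) hxy
          exact Subtype.ext this
        · rw [dif_pos hx, dif_neg hy] at hxy
          simp at hxy
        · rw [dif_neg hx, dif_pos hy] at hxy
          simp at hxy
        · rw [dif_neg hx, dif_neg hy] at hxy
          have := congrArg (fun z => (z.2 : K)) hxy
          exact Subtype.ext (add_right_cancel this)
    rw [Nat.card_prod] at key
    simpa using key

include h2 in
/-- Hilbert 90, additive form -/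
lemma a2_exists_artin (hτ : τ ≠ 1) (hfrob : ∀ x, τ (x ^ 2) = τ x) {z : K} (hz : τ z = 1) :
    ∃ W : K, W ^ 2 + W = z := by
  let φ : K →+ K :=
    { toFun := fun W => W ^ 2 + W
      map_zero' := by simp
      map_add' := fun x y => by linear_combination (x * y) * h2 }
  have hφ : ∀ W, φ W = W ^ 2 + W := fun _ => rfl
  have hker : Nat.card φ.ker = 2 := by
    have h1 : (φ.ker : Set K) = {0, 1} := by
      ext W
      simp only [SetLike.mem_coe, AddMonoidHom.mem_ker, hφ, Set.mem_insert_iff,
        Set.mem_singleton_iff]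
      constructor
      · intro h
        have h3 : W * (W - 1) = 0 := by linear_combination h - W * h2
        rcases mul_eq_zero.1 h3 with h | h
        · exact Or.inl h
        · exact Or.inr (sub_eq_zero.1 h)
      · rintro (rfl | rfl)
        · simp
        · linear_combination h2
    have h3 : Nat.card φ.ker = (φ.ker : Set K).ncard := rfl
    rw [h3, h1, Set.ncard_pair zero_ne_one]
  have hindex : φ.range.index = 2 := by
    have h1 := φ.ker.card_mul_index
    rw [AddSubgroup.index_ker, hker] at h1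
    have h3 := φ.range.card_mul_index
    have h4 : 0 < Nat.card φ.range := Nat.card_pos
    have h5 : Nat.card φ.range * φ.range.index = Nat.card φ.range * 2 := by
      rw [h3, ← h1, mul_comm]
    exact Nat.eq_of_mul_eq_mul_left h4 h5
  have hle : ∀ W, τ (W ^ 2 + W) = 1 := by
    intro W
    rw [τ.map_add_eq_mul, hfrob, ← τ.map_add_eq_mul, ← two_mul, h2, zero_mul,
      τ.map_zero_eq_one]
  by_contra hcon
  have hz' : z ∉ φ.range := fun ⟨W, hW⟩ => hcon ⟨W, hW⟩
  obtain ⟨z1, hz1⟩ := AddChar.ne_one_iff.1 hτ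
  have hz1' : z1 ∉ φ.range := by
    rintro ⟨W, rfl⟩
    exact hz1 (hle W)
  have h3 : z + z1 ∈ φ.range := by
    rw [AddSubgroup.add_mem_iff_of_index_two hindex]
    exact iff_of_false hz' hz1'
  obtain ⟨W, hW⟩ := h3
  have h4 := hle W
  rw [← hφ, hW, τ.map_add_eq_mul, hz, one_mul] at h4
  exact hz1 h4

/-- `H = (k K0')^⊥` -/
def a2H (τ : AddChar K F) {K0' : Type*} [Field K0'] (k : K0' →+* K) : AddSubgroup K where
  carrier := {z | ∀ x, τ (z * k x) = 1}
  zero_mem' := by intro x; simp
  add_mem' := by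
    intro a c ha hc x
    rw [add_mul, τ.map_add_eq_mul, ha, hc, one_mul]
  neg_mem' := by
    intro a ha x
    rw [neg_mul, AddChar.map_neg_eq_inv, ha, inv_one]

omit [Finite K] in
lemma mem_a2H {K0' : Type*} [Field K0'] {k : K0' →+* K} {z : K} :
    z ∈ a2H τ k ↔ ∀ x, τ (z * k x) = 1 := Iff.rfl

lemma a2_card_H {K0' : Type*} [Field K0'] (k : K0' →+* K)
    (hcard : Nat.card K = Nat.card K0' ^ 3) : Nat.card K0' ^ 2 ≤ Nat.card (a2H τ k) := by
  have hfin : Finite K0' := Finite.of_injective _ k.injective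
  have := finite_addChar K0' F
  have hpos : 0 < Nat.card K0' := Nat.card_pos
  let f : K →+ Additive (AddChar K0' F) :=
    { toFun := fun z => Additive.ofMul ⟨fun x => τ (z * k x), by simp, fun x y => by
        rw [map_add, mul_add, τ.map_add_eq_mul]⟩
      map_zero' := by
        apply Additive.toMul.injective
        ext x
        simp
      map_add' := by
        intro a c
        apply Additive.toMul.injective
        ext x
        simp [add_mul, τ.map_add_eq_mul] }
  have hker : f.ker = a2H τ k := by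
    ext z
    rw [AddMonoidHom.mem_ker, mem_a2H]
    constructor
    · intro h x
      have h3 : (f z).toMul = 1 := congrArg Additive.toMul h
      exact DFunLike.congr_fun h3 x
    · intro h
      apply Additive.toMul.injective
      ext x
      exact h x
  have h1 := f.ker.card_mul_index
  rw [AddSubgroup.index_ker, hker, hcard] at h1
  have h3 : Nat.card f.range ≤ Nat.card K0' := by
    refine le_trans (Nat.card_le_card_of_injective (fun z : f.range => Additive.toMul z.1)
      fun x y hxy => Subtype.ext (Additive.toMul.injective hxy)) (card_addChar_le K0' F)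
  have h4 : Nat.card K0' ^ 2 * Nat.card K0' ≤ Nat.card (a2H τ k) * Nat.card K0' := by
    calc Nat.card K0' ^ 2 * Nat.card K0' = Nat.card (a2H τ k) * Nat.card f.range := by
          rw [h1]; ring
      _ ≤ _ := Nat.mul_le_mul_left _ h3
  exact Nat.le_of_mul_le_mul_right h4 hpos

/-- `H^⊥ = k K0'` -/
lemma a2_perp (hτ : τ ≠ 1) {K0' : Type*} [Field K0'] (k : K0' →+* K) {y : K}
    (hy : ∀ z ∈ a2H τ k, τ (z * y) = 1) : ∃ x, k x = y := by
  by_contra! hcon
  let _ : Algebra K0' K := k.toAlgebra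
  -- a linear functional with `P 1 = 0`, `P y = 1`
  have hli : LinearIndependent K0' ![(1 : K), y] := by
    rw [LinearIndependent.pair_iff]
    intro s t hst
    have hst' : k s + k t * y = 0 := by
      have h1 : s • (1 : K) = k s := by rw [Algebra.smul_def, mul_one]; rfl
      have h3 : t • y = k t * y := by rw [Algebra.smul_def]; rfl
      rw [← h1, ← h3]
      exact hst
    by_cases ht : t = 0
    · refine ⟨?_, ht⟩
      rw [ht, map_zero, zero_mul, add_zero] at hst'
      exact (map_eq_zero k).1 hst'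
    · exfalso
      apply hcon (-(t⁻¹ * s))
      have hkt : k t ≠ 0 := (map_ne_zero k).2 ht
      rw [map_neg, map_mul, map_inv₀]
      field_simp
      linear_combination -hst'
  obtain ⟨P, hP⟩ : ∃ P : K →ₗ[K0'] K0', P 1 = 0 ∧ P y = 1 := by
    let v : Fin 2 → K0' := ![0, 1]
    obtain ⟨P, hP⟩ := LinearMap.exists_extend
      ((Module.Basis.span hli).constr K0' v : Submodule.span K0' (Set.range ![(1 : K), y]) →ₗ[K0'] K0')
    have h3 : ∀ i, P (![(1 : K), y] i) = v i := by
      intro i
      have h4 := (Module.Basis.span hli).constr_basis K0' v i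
      rw [← hP] at h4
      rw [← h4, LinearMap.comp_apply, Submodule.subtype_apply, Module.Basis.span_apply]
    exact ⟨P, h3 0, h3 1⟩
  -- a nontrivial character of `K0'`
  obtain ⟨a, ha⟩ := AddChar.ne_one_iff.1 hτ
  let ψ0 : AddChar K0' F := ⟨fun x => τ (a * k x), by simp, fun x y => by
        rw [map_add, mul_add, τ.map_add_eq_mul]⟩
  have hψ0 : ψ0 1 ≠ 1 := by
    change τ (a * k 1) ≠ 1
    rwa [map_one, mul_one]
  obtain ⟨κ, hκ⟩ := exists_mulShift hτ (ψ0.compAddMonoidHom P.toAddMonoidHom)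
  have hκ' : ∀ t, τ (κ * t) = ψ0 (P t) := hκ
  have hPk : ∀ x z, P (k x * z) = x * P z := by
    intro x z
    have : k x * z = x • z := by rw [Algebra.smul_def]; rfl
    rw [this, map_smul, smul_eq_mul]
  have hκH : κ ∈ a2H τ k := by
    intro x
    rw [hκ', ← mul_one (k x), hPk, hP.1, mul_zero, ψ0.map_zero_eq_one]
  have h5 := hy κ hκH
  rw [hκ', hP.2] at h5
  exact hψ0 h5

end two

set_option linter.unusedVariables false in
/-- the moves `(s, s') ↦ (s + u s' + √(bu), s')`, `(s, s') ↦ (s, s' + u s + √(bu))` -/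
theorem exists_of_moves_two (h2 : (2 : K) = 0) {τ : AddChar K F} (hτ : τ ≠ 1)
    (hfrob : ∀ x, τ (x ^ 2) = τ x) {K0' : Type*} [Field K0'] (k : K0' →+* K)
    (hcard : Nat.card K = Nat.card K0' ^ 3) (hlt : 2 < Nat.card K0') {b : K} (hb : b ≠ 0)
    (hbk : ∀ t, τ (b * k t) = 1) (ψ ψ' : AddChar K0' F) (R : K → K → Prop)
    (h1 : ∀ s s' u e, e ^ 2 = b * u → R s s' → R (s + u * s' + e) s')
    (h1' : ∀ s s' u e, e ^ 2 = b * u → R s s' → R s (s' + u * s + e))
    (h0 : ∃ s s', R s s') :
    ∃ t t', R t t' ∧ (∀ x, τ (t * k x) = ψ x) ∧ ∀ x, τ (t' * k x) = ψ' x := by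
  have hfin : Finite K0' := Finite.of_injective _ k.injective
  -- the moves
  have hmove : ∀ s y : K, τ (y * (s / b)) = 1 → ∃ u e, e ^ 2 = b * u ∧ y = u * s + e := by
    intro s y hy
    by_cases hs : s = 0
    · exact ⟨y ^ 2 / b, y, by field_simp, by rw [hs]; ring⟩
    · obtain ⟨W, hW⟩ := a2_exists_artin h2 hτ hfrob hy
      refine ⟨b * W ^ 2 / s ^ 2, b * W / s, by field_simp, ?_⟩
      have hsb : s / b ≠ 0 := div_ne_zero hs hb
      field_simp at hW ⊢
      linear_combination -hW
  have m1 : ∀ s s' y, τ (y * (s' / b)) = 1 → R s s' → R (s + y) s' := by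
    intro s s' y hy hR
    obtain ⟨u, e, he, rfl⟩ := hmove s' y hy
    rw [← add_assoc]
    exact h1 s s' u e he hR
  have m2 : ∀ s s' y, τ (y * (s / b)) = 1 → R s s' → R s (s' + y) := by
    intro s s' y hy hR
    obtain ⟨u, e, he, rfl⟩ := hmove s y hy
    rw [← add_assoc]
    exact h1' s s' u e he hR
  -- counting: a set which is a translate of a kernel on a large subgroup is not in `b k K0'`
  have hcount : ∀ (A : AddSubgroup K), 2 * Nat.card K0' < Nat.card A → ∀ (χ : AddChar K F)
      (z : K), ∃ x ∈ A, χ x = 1 ∧ ∀ w, b * k w ≠ z + x := by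
    intro A hA χ z
    by_contra! hcon
    have h3 := a2_card_le h2 A χ
    have h4 : Nat.card {x : K // x ∈ A ∧ χ x = 1} ≤ Nat.card K0' := by
      choose! w hw using hcon
      refine Nat.card_le_card_of_injective (fun x => w x.1) fun x y hxy => ?_
      have h5 := hw x.1 x.2.1 x.2.2
      have h6 := hw y.1 y.2.1 y.2.2
      simp only at hxy
      rw [hxy, h6] at h5
      exact Subtype.ext (add_left_cancel h5).symm
    omega
  obtain ⟨s, s', hR⟩ := h0
  -- step 1
  obtain ⟨s'1, hR1, hs'1⟩ : ∃ s'1, R s s'1 ∧ ∀ w, b * k w ≠ s'1 := by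
    obtain ⟨y, -, hy, hyw⟩ := hcount ⊤ (by
      have : Nat.card (⊤ : AddSubgroup K) = Nat.card K := Nat.card_congr AddSubgroup.topEquiv.toEquiv
      rw [this, hcard]
      nlinarith [hlt, Nat.mul_le_mul hlt.le hlt.le]) (τ.mulShift (s / b)) s'
    refine ⟨s' + y, m2 s s' y ?_ hR, hyw⟩
    rw [mul_comm]
    exact hy
  obtain ⟨t0, ht0⟩ := exists_mulShift_sub hτ k ψ
  obtain ⟨t0', ht0'⟩ := exists_mulShift_sub hτ k ψ'
  have hperp : ∀ z, (∀ w, b * k w ≠ z) → ∀ v, ∃ h ∈ a2H τ k, τ ((v + h) * (z / b)) = 1 := by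
    intro z hz v
    by_cases hv : τ (v * (z / b)) = 1
    · exact ⟨0, zero_mem _, by rwa [add_zero]⟩
    · have h3 : ¬ ∀ h ∈ a2H τ k, τ (h * (z / b)) = 1 := by
        intro h4
        obtain ⟨x, hx⟩ := a2_perp hτ k h4
        apply hz x
        rw [hx]
        field_simp
      push Not at h3
      obtain ⟨h, hh, hne⟩ := h3
      refine ⟨h, hh, ?_⟩
      rw [add_mul, τ.map_add_eq_mul, (a2_char_values h2 τ _).resolve_left hv,
        (a2_char_values h2 τ _).resolve_left hne]
      norm_num
  -- step 2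
  obtain ⟨t, hRt, htb, htψ⟩ : ∃ t, R t s'1 ∧ (∀ w, b * k w ≠ t) ∧ ∀ x, τ (t * k x) = ψ x := by
    obtain ⟨h, hh, hh1⟩ := hperp s'1 hs'1 (t0 - s)
    obtain ⟨g, hg, hg1, hgw⟩ := hcount (a2H τ k) (by
      have := a2_card_H (τ := τ) k hcard
      nlinarith) (τ.mulShift (s'1 / b)) (t0 + h)
    refine ⟨t0 + h + g, ?_, hgw, fun x => ?_⟩
    · have h3 := m1 s s'1 (t0 - s + h + g) (by
        rw [add_mul, τ.map_add_eq_mul, hh1, one_mul, mul_comm]
        exact hg1) hR1
      convert h3 using 1
      ring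
    · rw [add_mul, add_mul, τ.map_add_eq_mul, τ.map_add_eq_mul, hh x, hg x, ht0, mul_one,
        mul_one]
  -- step 3
  obtain ⟨h, hh, hh1⟩ := hperp t htb (t0' - s'1)
  refine ⟨t, t0' + h, ?_, htψ, fun x => ?_⟩
  · have h3 := m2 t s'1 (t0' - s'1 + h) hh1 hRt
    convert h3 using 1
    ring
  · rw [add_mul, τ.map_add_eq_mul, hh x, ht0', mul_one]

omit [Finite K] in
/-- linear moves -/
theorem exists_of_moves_three {τ : AddChar K F} {K0' : Type*} [Field K0'] (k : K0' →+* K)
    {b : K} (hb : b ≠ 0) (hbk : ∀ t, τ (b * k t) = 1) (R : K → K → Prop)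
    (h1 : ∀ s s' u, R s s' → R (s + u * s') s') (h1' : ∀ s s' u, R s s' → R s (s' + u * s))
    (h0 : ∃ s s', R s s') :
    ∃ t t', R t t' ∧ (∀ x, τ (t * k x) = 1) ∧ ∀ x, τ (t' * k x) = 1 := by
  obtain ⟨s, s', hR⟩ := h0
  by_cases hs' : s' = 0
  · by_cases hs : s = 0
    · subst hs
      subst hs'
      exact ⟨0, 0, hR, by simp, by simp⟩
    · have h3 := h1' s s' (b / s) hR
      rw [hs', zero_add, div_mul_cancel₀ b hs] at h3
      have h4 := h1 s b ((b - s) / b) h3
      rw [div_mul_cancel₀ _ hb, add_sub_cancel] at h4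
      exact ⟨b, b, h4, hbk, hbk⟩
  · have h3 := h1 s s' ((b - s) / s') hR
    rw [div_mul_cancel₀ _ hs', add_sub_cancel] at h3
    have h4 := h1' b s' ((b - s') / b) h3
    rw [div_mul_cancel₀ _ hb, add_sub_cancel] at h4
    exact ⟨b, b, h4, hbk, hbk⟩

end Pool.Agent.MP_467141
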