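import Mathlib

/-!
# T9: finite field and additive character lemmas
-/

namespace Pool.Agent.MP_467141

universe u v w

section Tower

/-- intermediate fields of finite fields -/
lemma exists_intermediateField (L : Type u) [Field L] [Finite L] (L1 : Type v) [Field L1]
    [Algebra L L1] [Finite L1] (n : ℕ) (hn : 1 ≤ n) (h : n ∣ Module.finrank L L1) :
    ∃ E : IntermediateField L L1, Nat.card E = Nat.card L ^ n ∧ Module.finrank L E = n := by
  have hp : Fact (ringChar L).Prime := ⟨CharP.char_is_prime L (ringChar L)⟩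
  have : NeZero n := ⟨by omega⟩
  have hfin : Module.finrank L (FiniteField.Extension L (ringChar L) n) ∣ Module.finrank L L1 := by
    rw [FiniteField.finrank_extension]
    exact h
  obtain ⟨f⟩ := FiniteField.nonempty_algHom_of_finrank_dvd hfin
  refine ⟨f.fieldRange, ?_, ?_⟩
  · rw [← FiniteField.natCard_extension L (ringChar L) n]
    exact (Nat.card_congr (AlgEquiv.ofInjectiveField f).toEquiv).symm
  · exact ((AlgEquiv.ofInjectiveField f).toLinearEquiv.finrank_eq).symm.trans
      (FiniteField.finrank_extension L (ringChar L) n)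

/-- primitive roots of unity of prime order in finite fields -/
lemma exists_primitiveRoot (L : Type u) [Field L] [Finite L] (r : ℕ) (hr : r.Prime)
    (h : r ∣ Nat.card L - 1) : ∃ ζ : L, IsPrimitiveRoot ζ r := by
  have hr' : Fact r.Prime := ⟨hr⟩
  have := Fintype.ofFinite L
  have h1 : r ∣ Nat.card Lˣ := by
    rw [Nat.card_units]
    exact h
  obtain ⟨x, hx⟩ := exists_prime_orderOf_dvd_card' (G := Lˣ) r h1
  refine ⟨x, ?_⟩
  rw [IsPrimitiveRoot.coe_units_iff, ← hx]
  exact IsPrimitiveRoot.orderOf x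

lemma dvd_pow_sub_one {q r M : ℕ} (hr : r.Prime) (hq : ¬ r ∣ q) (hM : (r - 1) ∣ M) :
    r ∣ q ^ M - 1 := by
  obtain ⟨t, rfl⟩ := hM
  have hcop : q.Coprime r := ((Nat.Prime.coprime_iff_not_dvd hr).2 hq).symm
  have h1 : q ^ (r - 1) ≡ 1 [MOD r] := by
    have := Nat.ModEq.pow_totient hcop
    rwa [Nat.totient_prime hr] at this
  have h2 : q ^ ((r - 1) * t) ≡ 1 [MOD r] := by
    have := h1.pow t
    rwa [one_pow, ← pow_mul] at this
  have hq0 : q ≠ 0 := fun h => hq (h ▸ dvd_zero r)
  exact (Nat.modEq_iff_dvd' (Nat.one_le_pow _ _ (Nat.pos_of_ne_zero hq0))).1 h2.symm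

theorem exists_tower (K : Type u) [Field K] [Finite K] (p : ℕ) [Fact p.Prime] [CharP K p]
    (D d : ℕ) :
    ∃ m, 1 ≤ m ∧ ∀ (K1 : Type v) [Field K1] [Algebra K K1], Module.finrank K K1 = m →
      ∃ (K0 K0' : Type v) (_ : Field K0) (_ : Field K0') (i : K →+* K0) (j : K0 →+* K0')
        (k : K0' →+* K1), algebraMap K K1 = (k.comp j).comp i ∧ Finite K1 ∧ D < Nat.card K0 ∧
        Nat.card K0 ^ d ≤ Nat.card K0' ∧ Nat.card K1 = Nat.card K0' ^ 3 ∧
        ∀ r ∈ ({5, 7, 11} : Finset ℕ), r ≠ p → ∃ ζ : K0, IsPrimitiveRoot ζ r := by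
  refine ⟨240 * (D + 1) * ((d + 1) * 3), Nat.succ_le_of_lt (by positivity), ?_⟩
  intro K1 _ _ hm
  have hpos : 0 < Module.finrank K K1 := by rw [hm]; positivity
  have hfd : Module.Finite K K1 := Module.finite_of_finrank_pos hpos
  have hK1 : Finite K1 := Module.finite_of_finite K
  obtain ⟨E0, hE0c, hE0r⟩ := exists_intermediateField K K1 (240 * (D + 1)) (by omega)
    (by rw [hm]; exact dvd_mul_right _ _)
  have hfinE0 : Finite E0 := Finite.of_injective _ (algebraMap E0 K1).injective
  have hE0K1 : Module.finrank E0 K1 = (d + 1) * 3 := by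
    have h1 := Module.finrank_mul_finrank K E0 K1
    rw [hE0r, hm] at h1
    exact Nat.eq_of_mul_eq_mul_left (by positivity) h1
  obtain ⟨E1, hE1c, hE1r⟩ := exists_intermediateField E0 K1 (d + 1) (by omega)
    (by rw [hE0K1]; exact dvd_mul_right _ _)
  have hfinE1 : Finite E1 := Finite.of_injective _ (algebraMap E1 K1).injective
  have hE1K1 : Module.finrank E1 K1 = 3 := by
    have h1 := Module.finrank_mul_finrank E0 E1 K1
    rw [hE1r, hE0K1] at h1
    exact Nat.eq_of_mul_eq_mul_left (by positivity) h1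
  have hq : 2 ≤ Nat.card K := Finite.one_lt_card
  refine ⟨E0, E1, inferInstance, inferInstance, algebraMap K E0, algebraMap E0 E1,
    algebraMap E1 K1, ?_, hK1, ?_, ?_, ?_, ?_⟩
  · rfl
  · rw [hE0c]
    calc D < 2 ^ D := Nat.lt_two_pow_self
      _ ≤ 2 ^ (240 * (D + 1)) := Nat.pow_le_pow_right (by norm_num) (by omega)
      _ ≤ Nat.card K ^ (240 * (D + 1)) := Nat.pow_le_pow_left hq _
  · rw [hE1c]
    exact Nat.pow_le_pow_right Nat.card_pos (by omega)
  · rw [Module.natCard_eq_pow_finrank (K := E1) (V := K1), hE1K1]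
  · intro r hr hrp
    have hrprime : r.Prime := by
      simp only [Finset.mem_insert, Finset.mem_singleton] at hr
      rcases hr with rfl | rfl | rfl <;> norm_num
    have hr240 : (r - 1) ∣ 240 * (D + 1) := by
      simp only [Finset.mem_insert, Finset.mem_singleton] at hr
      rcases hr with rfl | rfl | rfl
      · exact Dvd.dvd.mul_right (by norm_num) _
      · exact Dvd.dvd.mul_right (by norm_num) _
      · exact Dvd.dvd.mul_right (by norm_num) _
    apply exists_primitiveRoot E0 r hrprime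
    rw [hE0c]
    apply dvd_pow_sub_one hrprime ?_ hr240
    intro hdvd
    let _ : Algebra (ZMod p) K := ZMod.algebra K p
    rw [← FiniteField.pow_finrank_eq_natCard p K] at hdvd
    exact hrp ((Nat.prime_dvd_prime_iff_eq hrprime (Fact.out : p.Prime)).1
      (hrprime.dvd_of_dvd_pow hdvd))

end Tower

section Chars

lemma finite_addChar (E : Type*) [AddCommGroup E] [Finite E] (F : Type*) [Field F] :
    Finite (AddChar E F) := by
  have hli := linearIndependent_monoidHom (Multiplicative E) F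
  have : Finite (Multiplicative E →* F) := hli.finite
  exact Finite.of_equiv _ (AddChar.toMonoidHomEquiv (A := E) (M := F)).symm

lemma card_addChar_le (E : Type*) [AddCommGroup E] [Finite E] (F : Type*) [Field F] :
    Nat.card (AddChar E F) ≤ Nat.card E := by
  classical
  have hli := linearIndependent_monoidHom (Multiplicative E) F
  have hfin : Finite (Multiplicative E →* F) := hli.finite
  have := Fintype.ofFinite (Multiplicative E →* F)
  have := Fintype.ofFinite E
  rw [Nat.card_congr (AddChar.toMonoidHomEquiv (A := E) (M := F)), Nat.card_eq_fintype_card]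
  have h1 := hli.fintype_card_le_finrank
  rw [Module.finrank_fintype_fun_eq_card] at h1
  rw [Nat.card_eq_fintype_card]
  refine h1.trans (le_of_eq ?_)
  exact Fintype.card_congr Multiplicative.toAdd

variable {K1 : Type u} [Field K1] [Finite K1] {F : Type v} [Field F]

/-- every additive character is a shift of a nontrivial one -/
theorem exists_mulShift {τ : AddChar K1 F} (hτ : τ ≠ 1) (μ : AddChar K1 F) :
    ∃ κ : K1, ∀ t, τ (κ * t) = μ t := by
  have hprim : τ.IsPrimitive := AddChar.IsPrimitive.of_ne_one hτ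
  have hinj : Function.Injective (fun κ : K1 => τ.mulShift κ) :=
    AddChar.to_mulShift_inj_of_isPrimitive hprim
  have := finite_addChar K1 F
  have hbij := hinj.bijective_of_nat_card_le (card_addChar_le K1 F)
  obtain ⟨κ, hκ⟩ := hbij.2 μ
  refine ⟨κ, fun t => ?_⟩
  rw [← hκ]
  rfl

/-- (b1) -/
theorem exists_mulShift_sub {τ : AddChar K1 F} (hτ : τ ≠ 1) {K0' : Type w} [Field K0']
    (k : K0' →+* K1) (μ : AddChar K0' F) : ∃ κ : K1, ∀ t, τ (κ * k t) = μ t := by
  let _ : Algebra K0' K1 := k.toAlgebra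
  obtain ⟨P, hP⟩ := LinearMap.exists_leftInverse_of_injective (Algebra.linearMap K0' K1)
    (LinearMap.ker_eq_bot.2 (algebraMap K0' K1).injective)
  have hP' : ∀ t, P (k t) = t := fun t => LinearMap.congr_fun hP t
  let μ' : AddChar K1 F := μ.compAddMonoidHom P.toAddMonoidHom
  obtain ⟨κ, hκ⟩ := exists_mulShift hτ μ'
  refine ⟨κ, fun t => ?_⟩
  rw [hκ]
  change μ (P (k t)) = μ t
  rw [hP']

/-- a nonzero element of the annihilator of a subfield -/
theorem exists_annihilator (τ : AddChar K1 F) {K0' : Type w} [Field K0']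
    (k : K0' →+* K1) (hcard : Nat.card K0' < Nat.card K1) :
    ∃ z : K1, z ≠ 0 ∧ ∀ t, τ (z * k t) = 1 := by
  have hfin : Finite K0' := Finite.of_injective _ k.injective
  have := finite_addChar K0' F
  let Φ : K1 → AddChar K0' F := fun z => (τ.mulShift z).compAddMonoidHom k.toAddMonoidHom
  have hΦ : ¬ Function.Injective Φ := by
    intro h
    have h1 := Nat.card_le_card_of_injective _ h
    have h2 := card_addChar_le K0' F
    omega
  rw [Function.not_injective_iff] at hΦ
  obtain ⟨z1, z2, h12, hne⟩ := hΦ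
  refine ⟨z1 - z2, sub_ne_zero.2 hne, fun t => ?_⟩
  have h3 : τ (z1 * k t) = τ (z2 * k t) := DFunLike.congr_fun h12 t
  rw [sub_mul, AddChar.map_sub_eq_div, h3, div_self]
  exact (AddChar.val_isUnit τ _).ne_zero

lemma not_isSquare_map {K0' : Type w} [Field K0'] [Finite K0']
    (k : K0' →+* K1) (hcard : Nat.card K1 = Nat.card K0' ^ 3) (hchar : ringChar K1 ≠ 2)
    {ε : K0'} (hε : ¬ IsSquare ε) : ¬ IsSquare (k ε) := by
  have inst1 := Fintype.ofFinite K1
  have inst0 := Fintype.ofFinite K0'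
  have hchar0 : ringChar K0' ≠ 2 := by
    have : CharP K1 (ringChar K0') := charP_of_injective_ringHom k.injective (ringChar K0')
    rwa [ringChar.eq K1 (ringChar K0')] at hchar
  have hε0 : ε ≠ 0 := fun h => hε (h ▸ IsSquare.zero)
  have hkε0 : k ε ≠ 0 := (map_ne_zero k).2 hε0
  rw [FiniteField.isSquare_iff hchar hkε0]
  rw [FiniteField.isSquare_iff hchar0 hε0] at hε
  have h1 := FiniteField.pow_dichotomy hchar0 hε0
  have h2 : ε ^ (Fintype.card K0' / 2) = -1 := h1.resolve_left hε
  rw [Nat.card_eq_fintype_card, Nat.card_eq_fintype_card] at hcard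
  have hodd : Fintype.card K0' % 2 = 1 := FiniteField.odd_card_of_char_ne_two hchar0
  obtain ⟨s, hs⟩ : ∃ s, Fintype.card K0' = 2 * s + 1 := ⟨Fintype.card K0' / 2, by omega⟩
  have h3 : Fintype.card K0' / 2 = s := by omega
  have h4 : Fintype.card K1 / 2 = s * (4 * s ^ 2 + 6 * s + 3) := by
    rw [hcard, hs]
    have : (2 * s + 1) ^ 3 = 2 * (s * (4 * s ^ 2 + 6 * s + 3)) + 1 := by ring
    omega
  rw [h4, pow_mul, ← map_pow, ← h3, h2, map_neg, map_one]
  have hoddexp : Odd (4 * (Fintype.card K0' / 2) ^ 2 + 6 * (Fintype.card K0' / 2) + 3) := by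
    refine ⟨2 * (Fintype.card K0' / 2) ^ 2 + 3 * (Fintype.card K0' / 2) + 1, by ring⟩
  rw [hoddexp.neg_one_pow]
  intro h
  exact Ring.neg_one_ne_one_of_char_ne_two hchar h

/-- (b2) -/
theorem exists_square_annihilator (τ : AddChar K1 F) {K0' : Type w} [Field K0'] [Finite K0']
    (k : K0' →+* K1) (hcard : Nat.card K1 = Nat.card K0' ^ 3) (b0 : K1) (hb0 : b0 ≠ 0) :
    ∃ u : K1, u ≠ 0 ∧ ∀ t, τ (b0 * u ^ 2 * k t) = 1 := by
  have h2 : 2 ≤ Nat.card K0' := Finite.one_lt_card
  have hlt : Nat.card K0' < Nat.card K1 := by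
    rw [hcard]
    exact lt_self_pow₀ h2 (by norm_num)
  obtain ⟨z, hz0, hz⟩ := exists_annihilator τ k hlt
  -- it is enough to find a nonzero `c` with `z * k c / b0` a square
  have key : ∀ c : K0', c ≠ 0 → IsSquare (z * k c * b0⁻¹) →
      ∃ u : K1, u ≠ 0 ∧ ∀ t, τ (b0 * u ^ 2 * k t) = 1 := by
    rintro c hc ⟨u, hu⟩
    have hne : z * k c * b0⁻¹ ≠ 0 :=
      mul_ne_zero (mul_ne_zero hz0 ((map_ne_zero k).2 hc)) (inv_ne_zero hb0)
    refine ⟨u, ?_, fun t => ?_⟩
    · rintro rfl
      rw [mul_zero] at hu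
      exact hne hu
    · have : b0 * u ^ 2 * k t = z * k (c * t) := by
        rw [pow_two, ← hu, map_mul]
        field_simp
      rw [this]
      exact hz _
  by_cases hchar : ringChar K1 = 2
  · refine key 1 one_ne_zero ?_
    exact FiniteField.isSquare_of_char_two hchar _
  · by_cases hsq : IsSquare (z * b0⁻¹)
    · refine key 1 one_ne_zero ?_
      rwa [map_one, mul_one]
    · have hchar0 : ringChar K0' ≠ 2 := by
        have : CharP K1 (ringChar K0') := charP_of_injective_ringHom k.injective (ringChar K0')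
        rwa [ringChar.eq K1 (ringChar K0')] at hchar
      obtain ⟨ε, hε⟩ := FiniteField.exists_nonsquare hchar0
      have hkε := not_isSquare_map k hcard hchar hε
      have hε0 : ε ≠ 0 := fun h => hε (h ▸ IsSquare.zero)
      refine key ε hε0 ?_
      have inst1 := Fintype.ofFinite K1
      have hne1 : z * b0⁻¹ ≠ 0 := mul_ne_zero hz0 (inv_ne_zero hb0)
      have hne2 : k ε ≠ 0 := (map_ne_zero k).2 hε0
      have e1 : z * k ε * b0⁻¹ = (z * b0⁻¹) * k ε := by ring
      rw [e1, FiniteField.isSquare_iff hchar (mul_ne_zero hne1 hne2), mul_pow]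
      rw [FiniteField.isSquare_iff hchar hne1] at hsq
      rw [FiniteField.isSquare_iff hchar hne2] at hkε
      rw [(FiniteField.pow_dichotomy hchar hne1).resolve_left hsq,
        (FiniteField.pow_dichotomy hchar hne2).resolve_left hkε]
      ring

/-- nontrivial additive characters exist -/
theorem exists_addChar_ne_one (K : Type u) [Field K] [Finite K] (p : ℕ) [hp : Fact p.Prime]
    [CharP K p] (F : Type v) [Field F] [IsAlgClosed F] (hpF : (p : F) ≠ 0) :
    ∃ τ : AddChar K F, τ ≠ 1 := by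
  have : NeZero (p : F) := ⟨hpF⟩
  obtain ⟨ζ, hζ⟩ := HasEnoughRootsOfUnity.exists_primitiveRoot F p
  let χ : AddChar (ZMod p) F := AddChar.zmodChar p hζ.pow_eq_one
  have hχ : ∀ a : ZMod p, χ a = 1 → a = 0 := by
    intro a ha
    have h1 : ζ ^ a.val = 1 := ha
    have h2 := (hζ.pow_eq_one_iff_dvd _).1 h1
    have h3 : a.val = 0 := Nat.eq_zero_of_dvd_of_lt h2 (ZMod.val_lt a)
    exact (ZMod.val_eq_zero a).1 h3
  let _ : Algebra (ZMod p) K := ZMod.algebra K p
  obtain ⟨φ, hφ⟩ : ∃ φ : Module.Dual (ZMod p) K, φ 1 ≠ 0 := by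
    by_contra hcon
    push Not at hcon
    exact one_ne_zero ((Module.forall_dual_apply_eq_zero_iff (ZMod p) (1 : K)).1 hcon)
  refine ⟨χ.compAddMonoidHom φ.toAddMonoidHom, ?_⟩
  intro h
  have h1 : χ (φ 1) = 1 := DFunLike.congr_fun h 1
  exact hφ (hχ _ h1)

lemma addChar_map_sum {E : Type*} [AddCommMonoid E] {M : Type*} [CommMonoid M] (ψ : AddChar E M)
    {ι : Type*} (s : Finset ι) (f : ι → E) : ψ (∑ i ∈ s, f i) = ∏ i ∈ s, ψ (f i) := by
  classical
  induction s using Finset.induction_on with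
  | empty => simp
  | insert a s ha ih =>
    rw [Finset.sum_insert ha, Finset.prod_insert ha, AddChar.map_add_eq_mul, ih]

/-- (c) -/
theorem exists_generic_chars {K0 : Type u} {K0' : Type v} [Field K0] [Field K0'] [Finite K0]
    [Finite K0'] {F : Type w} [Field F] {τ' : AddChar K0' F} (hτ' : τ' ≠ 1) (j : K0 →+* K0')
    (s : Type*) [Fintype s] [DecidableEq s]
    (hcard : Nat.card K0 ^ (Fintype.card s + 1) ≤ Nat.card K0') :
    ∃ Ψ : s → AddChar K0' F, (∀ β t, Ψ β (j t) = 1) ∧
      ∀ a : s → s → K0, (∀ β t, ∏ δ, Ψ δ (j (a δ β) * t) = Ψ β t) →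
        ∀ δ β, a δ β = if δ = β then 1 else 0 := by
  classical
  let _ : Algebra K0 K0' := j.toAlgebra
  have hj : ∀ x, algebraMap K0 K0' x = j x := fun _ => rfl
  let S : Submodule K0 K0' :=
    { carrier := {κ | ∀ t, τ' (κ * j t) = 1}
      add_mem' := by
        intro x y hx hy t
        rw [add_mul, AddChar.map_add_eq_mul, hx t, hy t, one_mul]
      zero_mem' := by
        intro t
        rw [zero_mul, AddChar.map_zero_eq_one]
      smul_mem' := by
        intro c x hx t
        have : c • x * j t = x * j (c * t) := by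
          rw [Algebra.smul_def, hj, map_mul]
          ring
        rw [this]
        exact hx _ }
  have hSmem : ∀ κ, κ ∈ S ↔ ∀ t, τ' (κ * j t) = 1 := fun κ => Iff.rfl
  have hfin1 := finite_addChar K0 F
  -- the quotient embeds in the characters of `K0`
  have hquot : Nat.card (K0' ⧸ S) ≤ Nat.card K0 := by
    refine le_trans ?_ (card_addChar_le K0 F)
    let Φ : K0' ⧸ S → AddChar K0 F := Quotient.lift
      (fun z : K0' => (τ'.mulShift z).compAddMonoidHom j.toAddMonoidHom) (by
        intro x y hxy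
        have h1 : x - y ∈ S := (Submodule.quotientRel_def S).1 hxy
        ext t
        have h2 := (hSmem _).1 h1 t
        rw [sub_mul, AddChar.map_sub_eq_div, div_eq_one_iff_eq
          (AddChar.val_isUnit τ' _).ne_zero] at h2
        exact h2)
    apply Nat.card_le_card_of_injective Φ
    intro x y
    induction x using Submodule.Quotient.induction_on with
    | H x =>
      induction y using Submodule.Quotient.induction_on with
      | H y =>
        intro h
        rw [Submodule.Quotient.eq, hSmem]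
        intro t
        have h1 : τ' (x * j t) = τ' (y * j t) := DFunLike.congr_fun h t
        rw [sub_mul, AddChar.map_sub_eq_div, h1, div_self]
        exact (AddChar.val_isUnit τ' _).ne_zero
  have hS : Nat.card K0 ^ Fintype.card s ≤ Nat.card S := by
    have h1 := Submodule.card_eq_card_quotient_mul_card S
    have h2 : 0 < Nat.card K0 := Nat.card_pos
    have h3 : Nat.card K0 ^ (Fintype.card s) * Nat.card K0 ≤ Nat.card S * Nat.card K0 := by
      rw [← pow_succ]
      refine hcard.trans ?_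
      rw [h1]
      exact Nat.mul_le_mul_left _ hquot
    exact Nat.le_of_mul_le_mul_right h3 h2
  have hrank : Fintype.card s ≤ Module.finrank K0 S := by
    rw [Module.natCard_eq_pow_finrank (K := K0) (V := S)] at hS
    exact (Nat.pow_le_pow_iff_right (Finite.one_lt_card)).1 hS
  let B := Module.finBasis K0 S
  let e : s ↪ Fin (Module.finrank K0 S) :=
    (Fintype.equivFin s).toEmbedding.trans (Fin.castLEEmb hrank)
  let κ : s → K0' := fun β => (B (e β) : K0')
  have hκS : ∀ β, κ β ∈ S := fun β => (B (e β)).2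
  have hκ : LinearIndependent K0 κ := by
    have h1 : LinearIndependent K0 (fun β => B (e β)) := B.linearIndependent.comp e e.injective
    exact h1.map' S.subtype (Submodule.ker_subtype S)
  refine ⟨fun β => τ'.mulShift (κ β), fun β t => (hSmem _).1 (hκS β) t, ?_⟩
  intro a ha δ β
  have h1 : ∀ t, τ' ((∑ δ, a δ β • κ δ) * t) = τ' (κ β * t) := by
    intro t
    have h2 := ha β t
    simp only [AddChar.mulShift_apply] at h2
    rw [← h2, ← addChar_map_sum]
    congr 1
    rw [Finset.sum_mul]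
    refine Finset.sum_congr rfl fun δ _ => ?_
    rw [Algebra.smul_def, hj]
    ring
  have h3 : ∑ δ, a δ β • κ δ = κ β := by
    apply AddChar.to_mulShift_inj_of_isPrimitive (AddChar.IsPrimitive.of_ne_one hτ')
    ext t
    exact h1 t
  have h4 : ∑ δ, (a δ β - if δ = β then 1 else 0) • κ δ = 0 := by
    simp only [sub_smul, Finset.sum_sub_distrib, h3, ite_smul, one_smul, zero_smul,
      Finset.sum_ite_eq', Finset.mem_univ, if_true, sub_self]
  have h5 := Fintype.linearIndependent_iff.1 hκ _ h4 δ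
  exact sub_eq_zero.1 h5

/-- (d) -/
theorem exists_theta {K0 : Type u} [Field K0] {F : Type v} [Field F] [IsAlgClosed F] {r : ℕ}
    (hr : r.Prime) (hrF : (r : F) ≠ 0) {ζ : K0} (hζ : IsPrimitiveRoot ζ r) :
    ∃ θ : K0 → F, θ 1 = 1 ∧ (∀ x y, x ^ r = 1 → y ^ r = 1 → θ (x * y) = θ x * θ y) ∧
      (∀ x, x ^ r = 1 → θ x ^ r = 1) ∧ ∀ i : ℕ, θ (ζ ^ i) = 1 ↔ r ∣ i := by
  classical
  have : NeZero (r : F) := ⟨hrF⟩
  have : NeZero r := ⟨hr.ne_zero⟩
  obtain ⟨ξ, hξ⟩ := HasEnoughRootsOfUnity.exists_primitiveRoot F r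
  have hex : ∀ x : K0, x ^ r = 1 → ∃ i, ζ ^ i = x := by
    intro x hx
    obtain ⟨i, _, hi⟩ := hζ.eq_pow_of_pow_eq_one hx
    exact ⟨i, hi⟩
  let θ : K0 → F := fun x => if h : x ^ r = 1 then ξ ^ (hex x h).choose else 1
  have hpow : ∀ i j : ℕ, ζ ^ i = ζ ^ j → ξ ^ i = ξ ^ j := by
    intro i j hij
    rw [← pow_mod_orderOf ζ i, ← pow_mod_orderOf ζ j, ← hζ.eq_orderOf] at hij
    have h1 : i % r = j % r := hζ.pow_inj (Nat.mod_lt _ hr.pos) (Nat.mod_lt _ hr.pos) hij
    rw [← pow_mod_orderOf ξ i, ← pow_mod_orderOf ξ j, ← hξ.eq_orderOf, h1]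
  have hθ : ∀ i : ℕ, θ (ζ ^ i) = ξ ^ i := by
    intro i
    have h1 : (ζ ^ i) ^ r = 1 := by rw [← pow_mul, mul_comm, pow_mul, hζ.pow_eq_one, one_pow]
    simp only [θ, dif_pos h1]
    exact hpow _ _ (hex _ h1).choose_spec
  refine ⟨θ, ?_, ?_, ?_, ?_⟩
  · have := hθ 0
    simpa using this
  · intro x y hx hy
    obtain ⟨i, rfl⟩ := hex x hx
    obtain ⟨j, rfl⟩ := hex y hy
    rw [← pow_add, hθ, hθ, hθ, pow_add]
  · intro x hx
    obtain ⟨i, rfl⟩ := hex x hx
    rw [hθ, ← pow_mul, mul_comm, pow_mul, hξ.pow_eq_one, one_pow]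
  · intro i
    rw [hθ]
    exact hξ.pow_eq_one_iff_dvd i

end Chars

end Pool.Agent.MP_467141
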