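import Pool.Agent.Lib.MP_467141_H17.A1
import Pool.Agent.Lib.MP_467141_H17.A2
import Pool.Agent.Lib.MP_467141_H17.Fields

/-! # A3: eigenvectors with prescribed characters for (degenerate) Heisenberg groups -/

namespace Pool.Agent.MP_467141


/-- abstract Heisenberg-like data -/
structure HeisData (G : Type*) [Group G] (K : Type*) [Field K] (s : Type*) where
  X : s → K → G
  Z : K → G
  op : s → s
  N : s → ℤ
  X_add : ∀ β t u, X β (t + u) = X β t * X β u
  Z_add : ∀ t u, Z (t + u) = Z t * Z u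
  op_op : ∀ β, op (op β) = β
  op_ne : ∀ β, op β ≠ β
  N_op : ∀ β, (N β : K) = 0 → (N (op β) : K) = 0
  Z_X : ∀ β z t, Z z * X β t = X β t * Z z
  X_X : ∀ β γ, γ ≠ op β → ∀ t u, X β t * X γ u = X γ u * X β t
  X_op : ∀ β t u, X β t * X (op β) u = X (op β) u * X β t * Z ((N β : K) * t * u)
  sp2 : ∀ β, (N β : K) = 0 → (2 : K) = 0 → ∃ Y : K → G, (∀ u z, Y u * Z z = Z z * Y u) ∧
    (∀ u t, Y u * X β t * (Y u)⁻¹ = X β t * X (op β) (u * t) * Z (u * t ^ 2)) ∧
    ∀ δ, (N δ : K) = 0 → δ ≠ β → ∀ u t, Y u * X δ t = X δ t * Y u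
  sp3 : ∀ β, (N β : K) = 0 → (2 : K) ≠ 0 → ∃ (Y : K → G) (c : K), c ≠ 0 ∧
    (∀ u z, Y u * Z z = Z z * Y u) ∧
    (∀ u t, Y u * X β t * (Y u)⁻¹ = X β t * X (op β) (c * u * t)) ∧
    (∀ u t, Y u * X (op β) t = X (op β) t * Y u) ∧
    ∀ δ, (N δ : K) = 0 → δ = β ∨ δ = op β

namespace HeisData

variable {G : Type*} [Group G] {K : Type*} [Field K] {s : Type*} (D : HeisData G K s)

lemma X_zero (β : s) : D.X β 0 = 1 := by
  have h := D.X_add β 0 0
  rw [add_zero] at h
  exact (left_eq_mul.1 h)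

lemma Z_zero : D.Z 0 = 1 := by
  have h := D.Z_add 0 0
  rw [add_zero] at h
  exact (left_eq_mul.1 h)

lemma N_op_iff (β : s) : (D.N (D.op β) : K) = 0 ↔ (D.N β : K) = 0 := by
  refine ⟨fun h => ?_, D.N_op β⟩
  have := D.N_op _ h
  rwa [D.op_op] at this

lemma op_ne_of_special {β γ : s} (hβ : (D.N β : K) = 0) (hγ : (D.N γ : K) ≠ 0) : γ ≠ D.op β := by
  rintro rfl
  exact hγ (D.N_op _ hβ)

lemma X_comm_of_special {β : s} (hβ : (D.N β : K) = 0) (γ : s) (t u : K) :
    D.X β t * D.X γ u = D.X γ u * D.X β t := by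
  by_cases h : γ = D.op β
  · subst h
    rw [D.X_op, hβ, zero_mul, zero_mul, D.Z_zero, mul_one]
  · exact D.X_X β γ h t u

variable {F V : Type*} [Field F] [AddCommGroup V] [Module F V] (ρ : Representation F G V)
  (τ : AddChar K F) (b : K)

/-- `v` is an eigenvector for the centre and the special root groups -/
structure Good (σ : s → K) (v : V) : Prop where
  ne_zero : v ≠ 0
  z : ∀ z, ρ (D.Z z) v = τ (b * z) • v
  x : ∀ β, (D.N β : K) = 0 → ∀ t, ρ (D.X β t) v = τ (σ β * t) • v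

variable {ρ τ b}

lemma exists_good [IsAlgClosed F] [FiniteDimensional F V] [Finite K] (hτ : τ ≠ 1)
    {v0 : V} (hv0 : v0 ≠ 0) (hz : ∀ z, ρ (D.Z z) v0 = τ (b * z) • v0) :
    ∃ σ v, D.Good ρ τ b σ v := by
  let W : Submodule F V :=
    { carrier := {v | ∀ z, ρ (D.Z z) v = τ (b * z) • v}
      add_mem' := by
        intro x y hx hy z
        rw [map_add, hx, hy, smul_add]
      zero_mem' := by
        intro z
        rw [map_zero, smul_zero]
      smul_mem' := by
        intro c x hx z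
        rw [map_smul, hx, smul_comm] }
  have hW : W ≠ ⊥ := by
    intro h
    have : v0 ∈ W := hz
    rw [h, Submodule.mem_bot] at this
    exact hv0 this
  obtain ⟨v, hvW, hv0, hv⟩ := exists_common_eigenvector W hW
    {T | ∃ β, (D.N β : K) = 0 ∧ ∃ t, T = ρ (D.X β t)} (by
      rintro _ ⟨β, hβ, t, rfl⟩ w hw z
      rw [← Module.End.mul_apply, ← map_mul, D.Z_X, map_mul, Module.End.mul_apply, hw z, map_smul])
    (by
      rintro _ ⟨β, hβ, t, rfl⟩ _ ⟨γ, hγ, u, rfl⟩ w hw
      rw [← Module.End.mul_apply, ← Module.End.mul_apply, ← map_mul, ← map_mul,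
        D.X_comm_of_special hβ])
  have hσ : ∀ β, ∃ κ : K, (D.N β : K) = 0 → ∀ t, ρ (D.X β t) v = τ (κ * t) • v := by
    intro β
    by_cases hβ : (D.N β : K) = 0
    · obtain ⟨ψ, hψ⟩ := exists_addChar ρ (D.X β) (D.X_add β) hv0
        (fun t => hv _ ⟨β, hβ, t, rfl⟩)
      obtain ⟨κ, hκ⟩ := exists_mulShift hτ ψ
      exact ⟨κ, fun _ t => by rw [hψ, hκ]⟩
    · exact ⟨0, fun h => absurd h hβ⟩
  choose σ hσ using hσ
  exact ⟨σ, v, hv0, hvW, fun β hβ t => hσ β hβ t⟩

/-- conjugating -/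
lemma rho_inv_conj (x y : G) (v : V) : ρ x (ρ y⁻¹ v) = ρ y⁻¹ (ρ (y * x * y⁻¹) v) := by
  rw [← Module.End.mul_apply, ← Module.End.mul_apply, ← map_mul, ← map_mul]
  congr 2
  group

lemma rho_inv_ne_zero (y : G) {v : V} (hv : v ≠ 0) : ρ y⁻¹ v ≠ 0 := by
  intro h
  apply hv
  have : ρ y (ρ y⁻¹ v) = v := by
    rw [← Module.End.mul_apply, ← map_mul, mul_inv_cancel, map_one, Module.End.one_apply]
  rw [← this, h, map_zero]

lemma conj_eq_of_comm {x y : G} (h : y * x = x * y) : y * x * y⁻¹ = x := by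
  rw [h, mul_inv_cancel_right]

variable [DecidableEq s]

lemma Good.move_two (h2 : (2 : K) = 0) (hfrob : ∀ x, τ (x ^ 2) = τ x) {σ : s → K} {v : V}
    (hv : D.Good ρ τ b σ v) {β : s} (hβ : (D.N β : K) = 0) (u e : K) (he : e ^ 2 = b * u) :
    ∃ v', D.Good ρ τ b (Function.update σ β (σ β + u * σ (D.op β) + e)) v' := by
  obtain ⟨Y, hY1, hY2, hY3⟩ := D.sp2 β hβ h2
  refine ⟨ρ (Y u)⁻¹ v, rho_inv_ne_zero _ hv.ne_zero, fun z => ?_, fun γ hγ t => ?_⟩
  · rw [rho_inv_conj, conj_eq_of_comm (hY1 u z), hv.z, map_smul]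
  · by_cases hγβ : γ = β
    · subst hγβ
      rw [rho_inv_conj, hY2, Function.update_self, map_mul, map_mul, Module.End.mul_apply,
        Module.End.mul_apply, hv.z]
      simp only [map_smul, hv.x _ (D.N_op _ hβ), hv.x _ hβ, smul_smul]
      congr 1
      have h1 : τ (b * (u * t ^ 2)) = τ (e * t) := by
        rw [← hfrob (e * t)]
        congr 1
        rw [mul_pow, he]
        ring
      rw [h1, ← AddChar.map_add_eq_mul, ← AddChar.map_add_eq_mul]
      congr 1
      ring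
    · rw [rho_inv_conj, conj_eq_of_comm (hY3 γ hγ hγβ u t), hv.x _ hγ, map_smul,
        Function.update_of_ne hγβ]

lemma Good.move_three (h2 : (2 : K) ≠ 0) {σ : s → K} {v : V}
    (hv : D.Good ρ τ b σ v) {β : s} (hβ : (D.N β : K) = 0) (u : K) :
    ∃ v', D.Good ρ τ b (Function.update σ β (σ β + u * σ (D.op β))) v' := by
  obtain ⟨Y, c, hc, hY1, hY2, hY3, hY4⟩ := D.sp3 β hβ h2
  refine ⟨ρ (Y (c⁻¹ * u))⁻¹ v, rho_inv_ne_zero _ hv.ne_zero, fun z => ?_, fun γ hγ t => ?_⟩
  · rw [rho_inv_conj, conj_eq_of_comm (hY1 _ z), hv.z, map_smul]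
  · by_cases hγβ : γ = β
    · subst hγβ
      rw [rho_inv_conj, hY2, Function.update_self, map_mul, Module.End.mul_apply]
      simp only [map_smul, hv.x _ (D.N_op _ hβ), hv.x _ hβ, smul_smul]
      congr 1
      rw [← AddChar.map_add_eq_mul]
      congr 1
      field_simp
      ring
    · obtain rfl : γ = D.op β := by
        rcases hY4 γ hγ with h | h
        · exact absurd h hγβ
        · exact h
      rw [rho_inv_conj, conj_eq_of_comm (hY3 _ t), hv.x _ hγ, map_smul,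
        Function.update_of_ne hγβ]

/-- adjusting the special eigenvalues in characteristic `2` -/
lemma exists_good_two [Finite K] (h2 : (2 : K) = 0) (hτ : τ ≠ 1) (hfrob : ∀ x, τ (x ^ 2) = τ x)
    {K0' : Type*} [Field K0'] (k : K0' →+* K)
    (hcard : Nat.card K = Nat.card K0' ^ 3) (hlt : 2 < Nat.card K0') (hb : b ≠ 0)
    (hbk : ∀ t, τ (b * k t) = 1) (ψ : s → AddChar K0' F)
    (h0 : ∃ σ v, D.Good ρ τ b σ v) (A : Finset s) :
    ∃ σ v, D.Good ρ τ b σ v ∧ ∀ β ∈ A, (D.N β : K) = 0 →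
      (∀ x, τ (σ β * k x) = ψ β x) ∧ ∀ x, τ (σ (D.op β) * k x) = ψ (D.op β) x := by
  induction A using Finset.induction_on with
  | empty =>
    obtain ⟨σ, v, h⟩ := h0
    exact ⟨σ, v, h, by simp⟩
  | insert β A hβA ih =>
    obtain ⟨σ, v, hv, hA⟩ := ih
    by_cases hβ : (D.N β : K) = 0
    swap
    · refine ⟨σ, v, hv, fun γ hγ hγN => ?_⟩
      rcases Finset.mem_insert.1 hγ with rfl | hγ
      · exact absurd hγN hβ
      · exact hA γ hγ hγN
    by_cases hop : D.op β ∈ A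
    · refine ⟨σ, v, hv, fun γ hγ hγN => ?_⟩
      rcases Finset.mem_insert.1 hγ with rfl | hγ
      · have := hA _ hop (D.N_op _ hβ)
        rw [D.op_op] at this
        exact ⟨this.2, this.1⟩
      · exact hA γ hγ hγN
    obtain ⟨t, t', ⟨σ', v', hv', rfl, rfl, hoff⟩, ht, ht'⟩ :=
      exists_of_moves_two h2 hτ hfrob k hcard hlt hb hbk (ψ β) (ψ (D.op β))
      (fun x x' => ∃ σ' v', D.Good ρ τ b σ' v' ∧ σ' β = x ∧ σ' (D.op β) = x' ∧
        ∀ γ, γ ≠ β → γ ≠ D.op β → σ' γ = σ γ)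
      (by
        rintro x x' u e he ⟨σ', v', hv', rfl, rfl, hoff⟩
        obtain ⟨v'', hv''⟩ := hv'.move_two D h2 hfrob hβ u e he
        refine ⟨_, v'', hv'', Function.update_self _ _ _,
          Function.update_of_ne (D.op_ne β) _ _, fun γ h1 h2 => ?_⟩
        rw [Function.update_of_ne h1]
        exact hoff γ h1 h2)
      (by
        rintro x x' u e he ⟨σ', v', hv', rfl, rfl, hoff⟩
        obtain ⟨v'', hv''⟩ := hv'.move_two D h2 hfrob (D.N_op _ hβ) u e he
        rw [D.op_op] at hv''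
        refine ⟨_, v'', hv'', Function.update_of_ne (D.op_ne β).symm _ _,
          Function.update_self _ _ _, fun γ h1 h2 => ?_⟩
        rw [Function.update_of_ne h2]
        exact hoff γ h1 h2)
      ⟨_, _, σ, v, hv, rfl, rfl, fun _ _ _ => rfl⟩
    refine ⟨σ', v', hv', fun γ hγ hγN => ?_⟩
    rcases Finset.mem_insert.1 hγ with rfl | hγ'
    · exact ⟨ht, ht'⟩
    · have h1 : γ ≠ β := by
        rintro rfl
        exact hβA hγ'
      have h2 : γ ≠ D.op β := by
        rintro rfl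
        exact hop hγ'
      have h3 : D.op γ ≠ β := by
        intro h
        apply h2
        rw [← h, D.op_op]
      have h4 : D.op γ ≠ D.op β := by
        intro h
        apply h1
        rw [← D.op_op γ, h, D.op_op]
      rw [hoff γ h1 h2, hoff _ h3 h4]
      exact hA γ hγ' hγN

/-- adjusting the special eigenvalues, odd characteristic -/
lemma exists_good_three (h2 : (2 : K) ≠ 0)
    {K0' : Type*} [Field K0'] (k : K0' →+* K) (hb : b ≠ 0)
    (hbk : ∀ t, τ (b * k t) = 1)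
    (h0 : ∃ σ v, D.Good ρ τ b σ v) [Finite K] :
    ∃ σ v, D.Good ρ τ b σ v ∧ ∀ β, (D.N β : K) = 0 → ∀ x, τ (σ β * k x) = 1 := by
  by_cases hex : ∃ β, (D.N β : K) = 0
  swap
  · obtain ⟨σ, v, h⟩ := h0
    exact ⟨σ, v, h, fun β hβ => absurd ⟨β, hβ⟩ hex⟩
  obtain ⟨β, hβ⟩ := hex
  obtain ⟨σ, v, hv⟩ := h0
  obtain ⟨t, t', ⟨σ', v', hv', rfl, rfl⟩, ht, ht'⟩ :=
      exists_of_moves_three k hb hbk
      (fun x x' => ∃ σ' v', D.Good ρ τ b σ' v' ∧ σ' β = x ∧ σ' (D.op β) = x')
      (by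
        rintro x x' u ⟨σ', v', hv', rfl, rfl⟩
        obtain ⟨v'', hv''⟩ := hv'.move_three D h2 hβ u
        exact ⟨_, v'', hv'', Function.update_self _ _ _,
          Function.update_of_ne (D.op_ne β) _ _⟩)
      (by
        rintro x x' u ⟨σ', v', hv', rfl, rfl⟩
        obtain ⟨v'', hv''⟩ := hv'.move_three D h2 (D.N_op _ hβ) u
        rw [D.op_op] at hv''
        exact ⟨_, v'', hv'', Function.update_of_ne (D.op_ne β).symm _ _,
          Function.update_self _ _ _⟩)
      ⟨_, _, σ, v, hv, rfl, rfl⟩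
  refine ⟨σ', v', hv', fun γ hγ => ?_⟩
  obtain ⟨-, -, -, -, -, -, hY⟩ := D.sp3 β hβ h2
  rcases hY γ hγ with rfl | rfl
  · exact ht
  · exact ht'

/-- the main step with a `Good` vector for which the special eigenvalues are right -/
lemma exists_eigenvector_aux [IsAlgClosed F] [FiniteDimensional F V] [Finite K] [Fintype s]
    (hτ : τ ≠ 1) {K0' : Type*} [Field K0'] (k : K0' →+* K)
    (hb : b ≠ 0) (hbk : ∀ t, τ (b * k t) = 1) (ψ : s → AddChar K0' F) {σ : s → K} {v : V}
    (hv : D.Good ρ τ b σ v) :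
    ∃ v : V, D.Good ρ τ b σ v ∧ ∀ β, (D.N β : K) ≠ 0 → ∀ t, ρ (D.X β (k t)) v = ψ β t • v := by
  let W : Submodule F V :=
    { carrier := {v | (∀ z, ρ (D.Z z) v = τ (b * z) • v) ∧
        ∀ β, (D.N β : K) = 0 → ∀ t, ρ (D.X β t) v = τ (σ β * t) • v}
      add_mem' := by
        intro x y hx hy
        refine ⟨fun z => ?_, fun β hβ t => ?_⟩
        · rw [map_add, hx.1, hy.1, smul_add]
        · rw [map_add, hx.2 β hβ, hy.2 β hβ, smul_add]
      zero_mem' := by
        refine ⟨fun z => ?_, fun β hβ t => ?_⟩ <;> rw [map_zero, smul_zero]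
      smul_mem' := by
        intro c x hx
        refine ⟨fun z => ?_, fun β hβ t => ?_⟩
        · rw [map_smul, hx.1, smul_comm]
        · rw [map_smul, hx.2 β hβ, smul_comm] }
  have hW : W ≠ ⊥ := by
    intro h
    have : v ∈ W := ⟨hv.z, hv.x⟩
    rw [h, Submodule.mem_bot] at this
    exact hv.ne_zero this
  obtain ⟨v2, hvW, hv20, hv2⟩ := exists_common_eigenvector W hW
    {T | ∃ β, (D.N β : K) ≠ 0 ∧ ∃ t, T = ρ (D.X β (k t))} (by
      rintro _ ⟨β, hβ, t, rfl⟩ w hw
      refine ⟨fun z => ?_, fun γ hγ u => ?_⟩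
      · rw [← Module.End.mul_apply, ← map_mul, D.Z_X, map_mul, Module.End.mul_apply, hw.1 z,
          map_smul]
      · rw [← Module.End.mul_apply, ← map_mul, D.X_comm_of_special hγ, map_mul,
          Module.End.mul_apply, hw.2 γ hγ, map_smul])
    (by
      rintro _ ⟨β, hβ, t, rfl⟩ _ ⟨γ, hγ, u, rfl⟩ w hw
      rw [← Module.End.mul_apply, ← Module.End.mul_apply, ← map_mul, ← map_mul]
      by_cases h : γ = D.op β
      · subst h
        have h1 : (D.N β : K) * k t * k u = k (D.N β * t * u) := by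
          rw [map_mul, map_mul, map_intCast]
        rw [D.X_op, map_mul _ _ (D.Z _), Module.End.mul_apply, hw.1, h1, hbk, one_smul]
      · rw [D.X_X β γ h])
  have hchar : ∀ β, ∃ a : K, (D.N β : K) ≠ 0 → ∀ t, ρ (D.X β (k t)) v2 = τ (a * k t) • v2 := by
    intro β
    by_cases hβ : (D.N β : K) = 0
    · exact ⟨0, fun h => absurd hβ h⟩
    · obtain ⟨φ, hφ⟩ := exists_addChar ρ (fun t => D.X β (k t)) (fun t u => by
        rw [map_add, D.X_add]) hv20 (fun t => hv2 _ ⟨β, hβ, t, rfl⟩)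
      obtain ⟨a, ha⟩ := exists_mulShift_sub hτ k φ
      exact ⟨a, fun _ t => by rw [hφ, ha]⟩
  choose a ha using hchar
  have htarget : ∀ β, ∃ c : K, ∀ t, τ (c * k t) = ψ β t :=
    fun β => exists_mulShift_sub hτ k (ψ β)
  choose c hc using htarget
  -- adjust one root at a time
  have key : ∀ A : Finset s, ∃ (a : s → K) (v : V), D.Good ρ τ b σ v ∧
      (∀ β, (D.N β : K) ≠ 0 → ∀ t, ρ (D.X β (k t)) v = τ (a β * k t) • v) ∧
      ∀ β ∈ A, (D.N β : K) ≠ 0 → a β = c β := by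
    intro A
    induction A using Finset.induction_on with
    | empty => exact ⟨a, v2, ⟨hv20, hvW.1, hvW.2⟩, ha, by simp⟩
    | insert β A hβA ih =>
      obtain ⟨a, v, hv, ha, hA⟩ := ih
      by_cases hβ : (D.N β : K) = 0
      · refine ⟨a, v, hv, ha, fun γ hγ hγN => ?_⟩
        rcases Finset.mem_insert.1 hγ with rfl | hγ
        · exact absurd hβ hγN
        · exact hA γ hγ hγN
      obtain ⟨y, hy⟩ : ∃ y : K, a β + b * (D.N β : K) * (-y) = c β := by
        refine ⟨-((c β - a β) / (b * (D.N β : K))), ?_⟩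
        field_simp
        ring
      -- the new vector is `ρ (X (op β) y)⁻¹ v`; conjugation by `X (op β) y`
      have hconj : ∀ t, D.X (D.op β) y * D.X β t * (D.X (D.op β) y)⁻¹ =
          D.X β t * D.Z ((D.N β : K) * t * (-y)) := by
        intro t
        rw [mul_inv_eq_iff_eq_mul, mul_assoc, D.Z_X, ← mul_assoc, D.X_op, mul_assoc, ← D.Z_add]
        have : (D.N β : K) * t * y + (D.N β : K) * t * (-y) = 0 := by ring
        rw [this, D.Z_zero, mul_one]
      refine ⟨Function.update a β (c β), ρ (D.X (D.op β) y)⁻¹ v,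
        ⟨rho_inv_ne_zero _ hv.ne_zero, fun z => ?_, fun γ hγ t => ?_⟩, fun γ hγ t => ?_,
        fun γ hγ hγN => ?_⟩
      · rw [rho_inv_conj, conj_eq_of_comm (D.Z_X _ _ _).symm, hv.z, map_smul]
      · rw [rho_inv_conj, conj_eq_of_comm (D.X_comm_of_special hγ _ _ _).symm, hv.x γ hγ, map_smul]
      · by_cases hγβ : γ = β
        · subst hγβ
          rw [rho_inv_conj, hconj, map_mul, Module.End.mul_apply, hv.z, map_smul, ha _ hγ,
            Function.update_self]
          simp only [map_smul, smul_smul]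
          congr 1
          rw [← AddChar.map_add_eq_mul, ← hy]
          congr 1
          ring
        · have h1 : D.op β ≠ D.op γ := by
            intro h
            apply hγβ
            rw [← D.op_op γ, ← h, D.op_op]
          rw [rho_inv_conj, conj_eq_of_comm (D.X_X γ (D.op β) h1 _ _).symm, ha γ hγ, map_smul,
            Function.update_of_ne hγβ]
      · by_cases hγβ : γ = β
        · subst hγβ
          rw [Function.update_self]
        · rw [Function.update_of_ne hγβ]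
          exact hA γ (Finset.mem_of_mem_insert_of_ne hγ hγβ) hγN
  obtain ⟨a, v, hv, ha, hA⟩ := key Finset.univ
  refine ⟨v, hv, fun β hβ t => ?_⟩
  rw [ha β hβ, hA β (Finset.mem_univ _) hβ, hc]

/-- main result: an eigenvector with prescribed characters. -/
theorem exists_eigenvector [IsAlgClosed F] [FiniteDimensional F V] [Finite K] [Fintype s]
    (hτ : τ ≠ 1) {K0' : Type*} [Field K0'] (k : K0' →+* K)
    (hcard : Nat.card K = Nat.card K0' ^ 3) (hlt : 2 < Nat.card K0')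
    (hb : b ≠ 0) (hbk : ∀ t, τ (b * k t) = 1) (ψ : s → AddChar K0' F)
    (hψ : ∀ β, (D.N β : K) = 0 → (2 : K) ≠ 0 → ψ β = 1)
    {v0 : V} (hv0 : v0 ≠ 0) (hz : ∀ z, ρ (D.Z z) v0 = τ (b * z) • v0) :
    ∃ v : V, v ≠ 0 ∧ (∀ z, ρ (D.Z z) v = τ (b * z) • v) ∧
      ∀ β t, ρ (D.X β (k t)) v = ψ β t • v := by
  by_cases h2 : (2 : K) = 0
  · -- replace `τ` by a Frobenius invariant character
    obtain ⟨c, hc0, hc⟩ := exists_frobenius_invariant h2 hτ
    let τ' : AddChar K F := τ.mulShift c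
    have hτ'v : ∀ x, τ' x = τ (c * x) := fun x => rfl
    have hb' : ∀ x, τ' (b / c * x) = τ (b * x) := by
      intro x
      rw [hτ'v]
      congr 1
      field_simp
    have hτ' : τ' ≠ 1 := by
      intro h
      apply hτ
      ext x
      have h1 : τ' (c⁻¹ * x) = 1 := by rw [h, AddChar.one_apply]
      rw [hτ'v, mul_inv_cancel_left₀ hc0] at h1
      rw [h1, AddChar.one_apply]
    obtain ⟨σ, v, hv, hA⟩ := D.exists_good_two (ρ := ρ) (τ := τ') (b := b / c) h2 hτ'
      (fun x => by rw [hτ'v, hτ'v, hc]) k hcard hlt (div_ne_zero hb hc0)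
      (fun t => by rw [hb', hbk]) ψ
      (D.exists_good hτ' hv0 (fun z => by rw [hb', hz])) Finset.univ
    obtain ⟨v', hv', h3⟩ := D.exists_eigenvector_aux hτ' k (div_ne_zero hb hc0)
      (fun t => by rw [hb', hbk]) ψ hv
    refine ⟨v', hv'.ne_zero, fun z => by rw [hv'.z, hb'], fun β t => ?_⟩
    by_cases hβ : (D.N β : K) = 0
    · rw [hv'.x β hβ, (hA β (Finset.mem_univ _) hβ).1]
    · exact h3 β hβ t
  · obtain ⟨σ, v, hv, hA⟩ := D.exists_good_three (ρ := ρ) (τ := τ) (b := b) h2 k hb hbk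
      (D.exists_good hτ hv0 hz)
    obtain ⟨v', hv', h3⟩ := D.exists_eigenvector_aux hτ k hb hbk ψ hv
    refine ⟨v', hv'.ne_zero, hv'.z, fun β t => ?_⟩
    by_cases hβ : (D.N β : K) = 0
    · rw [hv'.x β hβ, hA β hβ, hψ β hβ h2, AddChar.one_apply]
    · exact h3 β hβ t

end HeisData

end Pool.Agent.MP_467141
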