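import Pool.Agent.Lib.MP_467141_H17.Defs

/-!
# MP_467141: auxiliary definitions used in the proofs
-/

open Matrix

noncomputable section

namespace Pool.Agent.MP_467141

variable {ι k M N : Type*} [Field k] [CharZero k] [AddCommGroup M] [Module k M]
  [AddCommGroup N] [Module k N] [Fintype ι] [DecidableEq ι]

/-- the index of the negative of a root -/
def neg (P : RootPairing ι k M N) (α : ι) : ι := P.reflectionPerm α α

/-- weight of a basis index -/
def wt {P : RootPairing ι k M N} (b : P.Base) : b.support ⊕ ι → M :=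
  Sum.elim (fun _ => 0) P.root

/-- standard basis vectors -/
def ev {P : RootPairing ι k M N} (b : P.Base) (R : Type*) [CommRing R] (j : b.support ⊕ ι) :
    b.support ⊕ ι → R := Pi.single j 1

/-- integral pairing `⟨α, β^∨⟩` -/
abbrev pr (P : RootPairing ι k M N) [P.IsCrystallographic] (α β : ι) : ℤ := P.pairingIn ℤ α β

namespace ChevalleyBasis

variable {P : RootPairing ι k M N} [P.IsCrystallographic] {b : P.Base} {L : Type*} [LieRing L]
  (B : ChevalleyBasis P b L)

/-- integer matrix of `ad` of a basis element -/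
def adI (i : b.support ⊕ ι) : Matrix (b.support ⊕ ι) (b.support ⊕ ι) ℤ :=
  LinearMap.toMatrix B.basis B.basis
    ((LieAlgebra.ad ℤ L (B.basis i) : Module.End ℤ L) : L →ₗ[ℤ] L)

/-- matrix of `ad z` on `R ⊗ L` -/
def adM (R : Type*) [CommRing R] (z : b.support ⊕ ι → R) :
    Matrix (b.support ⊕ ι) (b.support ⊕ ι) R :=
  ∑ i, z i • (B.adI i).map (Int.castRingHom R)

/-- coordinates of the coroot `α^∨` in the simple coroots -/
def cc (α : ι) (i : b.support) : ℤ := B.adE α (.inl i) (.inr (neg P α))

/-- the vector `h_α` -/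
def hvec (R : Type*) [CommRing R] (α : ι) : b.support ⊕ ι → R :=
  Sum.elim (fun i => (B.cc α i : R)) 0

/-- torus element acting by `c^⟨β, α^∨⟩` on `e_β` -/
def tor (_B : ChevalleyBasis P b L) (R : Type*) [CommRing R] (α : ι) (c : Rˣ) :
    GL (b.support ⊕ ι) R where
  val := Matrix.diagonal (Sum.elim (fun _ => 1) fun β => ((c ^ pr P β α : Rˣ) : R))
  inv := Matrix.diagonal (Sum.elim (fun _ => 1) fun β => ((c ^ (-pr P β α) : Rˣ) : R))
  val_inv := by
    rw [Matrix.diagonal_mul_diagonal, ← Matrix.diagonal_one]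
    congr 1
    ext (i | i)
    · simp
    · simp only [Sum.elim_inr]
      rw [← Units.val_mul, ← _root_.zpow_add, add_neg_cancel, zpow_zero, Units.val_one]
  inv_val := by
    rw [Matrix.diagonal_mul_diagonal, ← Matrix.diagonal_one]
    congr 1
    ext (i | i)
    · simp
    · simp only [Sum.elim_inr]
      rw [← Units.val_mul, ← _root_.zpow_add, neg_add_cancel, zpow_zero, Units.val_one]

end ChevalleyBasis

end Pool.Agent.MP_467141
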