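import Pool.Agent.Lib.MP_467141_H17.Defs

/-!
# Existence of Chevalley bases

`exists_chevalleyBasis`: every irreducible reduced crystallographic root system `P` over an
algebraically closed field of characteristic zero (e.g. `ℂ`), with base `b`, has a Chevalley basis,
i.e. `ChevalleyBasis P b L` is inhabited for some Lie ring `L`.

Proof: Mathlib's Geck construction gives a Lie algebra with nondegenerate Killing form whose root
system is `P`, together with an involution acting as `-1` on the Cartan subalgebra. Choose root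
vectors `E α` with `σ (E α) = -E (-α)` and `[E α, E (-α)] = α^∨`; then the structure constants are
`± (r+1)` (Chevalley; see Carter, Simple groups of Lie type, Theorem 4.1.2).
-/

open LieAlgebra LieAlgebra.IsKilling LieModule Module

noncomputable section

set_option linter.unusedSectionVars false

namespace Pool.Agent.MP_467141.CB

section Ratio

variable {ι K M N : Type*} [Field K] [CharZero K] [AddCommGroup M] [Module K M]
  [AddCommGroup N] [Module K N] [Finite ι]
  (P : RootPairing ι K M N) [P.IsCrystallographic] [P.IsReduced]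

/-- `(r+1) (β,β) = q (α+β, α+β)` -/
lemma ratio {i j k : ι} (hk : P.root k = P.root i + P.root j) (A B C : K)
    (hAB : (P.pairingIn ℤ j i : K) * A = P.pairingIn ℤ i j * B)
    (hAC : (P.pairingIn ℤ k i : K) * A = P.pairingIn ℤ i k * C)
    (hC : C = A + B + P.pairingIn ℤ j i * A) :
    ((P.chainBotCoeff i j : K) + 1) * B = P.chainTopCoeff i j * C := by
  have hmem : P.root i + P.root j ∈ Set.range P.root := ⟨k, hk⟩
  have hli := P.linearIndependent_of_add_mem_range_root' hmem
  have h1 := P.chainBotCoeff_sub_chainTopCoeff hli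
  have h3 := P.chainBotCoeff_add_chainTopCoeff_le_three (i := i) (j := j)
  have hq := P.one_le_chainTopCoeff_of_root_add_mem hmem
  have hki : P.pairingIn ℤ k i = 2 + P.pairingIn ℤ j i := by
    have : P.pairing k i = 2 + P.pairing j i := by
      rw [← P.root_coroot_eq_pairing, hk, map_add, LinearMap.add_apply, P.root_coroot_eq_pairing,
        P.root_coroot_eq_pairing, P.pairing_same]
    have h2 : ((P.pairingIn ℤ k i : ℤ) : K) = ((2 + P.pairingIn ℤ j i : ℤ) : K) := by
      push_cast
      simpa [← P.algebraMap_pairingIn ℤ] using this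
    exact_mod_cast h2
  have hne : ∀ m : ι, P.root i + P.root j = P.root m → P.root i ≠ P.root m ∧
      P.root i ≠ -P.root m := by
    intro m hm
    constructor
    · intro h
      have : P.root j = 0 := by
        have h2 := hm
        rw [← h] at h2
        simpa using h2
      exact P.ne_zero j this
    · intro h
      have h2 : P.root j = (-2 : K) • P.root i := by
        have h3 : P.root m = -P.root i := by rw [h, neg_neg]
        rw [h3] at hm
        have : P.root j = -P.root i - P.root i := by rw [← hm]; abel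
        rw [this]; module
      have h4 := (LinearIndependent.pair_iff.1 hli) 2 1 (by rw [h2]; module)
      simp at h4
  have hneij : P.root i ≠ P.root j ∧ P.root i ≠ -P.root j := by
    constructor
    · intro h
      have h4 := (LinearIndependent.pair_iff.1 hli) 1 (-1) (by rw [h]; module)
      simp at h4
    · intro h
      have h4 := (LinearIndependent.pair_iff.1 hli) 1 1 (by rw [h]; module)
      simp at h4
  have hij := P.pairingIn_pairingIn_mem_set_of_isCrystal_of_isRed' i j hneij.1 hneij.2
  have hik := P.pairingIn_pairingIn_mem_set_of_isCrystal_of_isRed' i k (hne k hk.symm).1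
    (hne k hk.symm).2
  set r := P.chainBotCoeff i j
  set q := P.chainTopCoeff i j
  set a := P.pairingIn ℤ j i
  set a' := P.pairingIn ℤ i j
  set c := P.pairingIn ℤ k i
  set c' := P.pairingIn ℤ i k
  have hr : r ≤ 2 := by omega
  have hq3 : q ≤ 3 := by omega
  clear_value r q a a' c c'
  subst hki
  interval_cases r <;> interval_cases q <;> (try omega) <;>
    (norm_num at h1; subst h1; norm_num at hij hik hAB hAC hC; )
  · rw [hC]; simp
  · subst hij
    have : B = 2 * A := by push_cast at hAB; linear_combination hAB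
    rw [hC, this]; push_cast; ring
  · subst hij
    have : B = 3 * A := by push_cast at hAB; linear_combination hAB
    rw [hC, this]; push_cast; ring
  · subst hik
    have : C = 2 * A := by push_cast at hAC; linear_combination -hAC
    have hBA : B = A := by rw [this] at hC; linear_combination -hC
    rw [this, hBA]; push_cast; ring
  · rw [hC]; norm_num
  · subst hik
    have : C = 3 * A := by push_cast at hAC; linear_combination -hAC
    have hBA : B = A := by rw [this] at hC; linear_combination -hC
    rw [this, hBA]; push_cast; ring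

end Ratio

section Killing

variable {K L : Type*} [Field K] [CharZero K] [LieRing L] [LieAlgebra K L]
  [IsKilling K L] [FiniteDimensional K L]
  {H : LieSubalgebra K L} [H.IsCartanSubalgebra] [IsTriangularizable K H L]

lemma mem_rootSpace_iff (α : Weight K H L) (x : L) :
    x ∈ rootSpace H α ↔ ∀ h : H, ⁅(h : L), x⁆ = α h • x := by
  constructor
  · intro hx h
    exact lie_eq_smul_of_mem_rootSpace hx h
  · intro h
    exact (mem_genWeightSpace L α x).mpr fun y ↦ ⟨1, by simp [← h y]⟩

lemma exists_smul_of_mem {α : Weight K H L} (hα : α.IsNonZero) {x y : L}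
    (hx : x ∈ rootSpace H α) (hx0 : x ≠ 0) (hy : y ∈ rootSpace H α) : ∃ c : K, y = c • x := by
  obtain ⟨c, hc⟩ : ∃ c : K, c • x = y := by
    simpa using (finrank_eq_one_iff_of_nonzero' ⟨x, hx⟩ (by simpa using hx0)).mp
      (finrank_rootSpace_eq_one _ hα) ⟨_, hy⟩
  exact ⟨c, hc.symm⟩

variable (σ : L →ₗ⁅K⁆ L) (hσ : ∀ x, σ (σ x) = x) (hσH : ∀ h : H, σ h = -h)

include hσH in
lemma sigma_mem {α : Weight K H L} {x : L} (hx : x ∈ rootSpace H α) :
    σ x ∈ rootSpace H (-α : Weight K H L) := by
  rw [mem_rootSpace_iff] at hx ⊢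
  intro h
  have h1 : ((h : H) : L) = σ (-h : H) := by
    rw [hσH]; simp
  rw [h1, ← LieHom.map_lie, show ((-h : H) : L) = -(h : L) from rfl, neg_lie, hx h, map_neg,
    map_smul]
  simp

include hσ hσH in
lemma exists_e [IsAlgClosed K] {α : Weight K H L} (hα : α.IsNonZero) :
    ∃ e ∈ rootSpace H α, ⁅e, σ e⁆ = -(coroot α : L) := by
  obtain ⟨h, e, f, t, he, hf⟩ := exists_isSl2Triple_of_weight_isNonZero hα
  obtain rfl := t.h_eq_coroot hα he hf
  have hs := sigma_mem σ hσH he
  obtain ⟨c, hc⟩ := exists_smul_of_mem (α := -α) (by simpa using hα) hf t.f_ne_zero hs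
  have hc0 : c ≠ 0 := by
    rintro rfl
    rw [zero_smul] at hc
    apply t.e_ne_zero
    rw [← hσ e, hc, map_zero]
  obtain ⟨z, hz⟩ := IsAlgClosed.exists_pow_nat_eq (-c⁻¹) (n := 2) (by norm_num)
  refine ⟨z • e, Submodule.smul_mem _ _ he, ?_⟩
  rw [map_smul, hc, smul_lie, lie_smul, lie_smul, t.lie_e_f, smul_smul, smul_smul]
  have : z * z * c = -1 := by
    rw [← pow_two, hz]; field_simp
  rw [this, neg_one_smul]

/-- Root vectors `E α`, adapted to the involution `σ`. -/
structure Vectors (H : LieSubalgebra K L) [H.IsCartanSubalgebra] [IsTriangularizable K H L]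
    (σ : L →ₗ⁅K⁆ L) where
  E : Weight K H L → L
  mem : ∀ α : Weight K H L, E α ∈ rootSpace H α
  neg : ∀ α : Weight K H L, α.IsNonZero → σ (E α) = - E (-α)
  lie : ∀ α : Weight K H L, α.IsNonZero → ⁅E α, E (-α)⁆ = coroot α

include hσ hσH in
lemma exists_vectors [IsAlgClosed K] : Nonempty (Vectors H σ) := by
  classical
  choose c hc1 hc2 using fun (α : Weight K H L) (hα : α.IsNonZero) =>
    exists_e σ hσ hσH (α := α) hα
  let r : Weight K H L → Weight K H L → Prop := WellOrderingRel
  have hneg : ∀ α : Weight K H L, α.IsNonZero → (-α).IsNonZero := fun α h => by simpa using h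
  have hne : ∀ α : Weight K H L, α.IsNonZero → α ≠ -α := by
    intro α hα h
    apply hα
    have h2 : (α : H → K) = -α := by
      conv_lhs => rw [h]
      rfl
    funext x
    have := congrFun h2 x
    simp only [Pi.neg_apply] at this
    have h3 : (2 : K) * α x = 0 := by linear_combination this
    simpa using h3
  have htri : ∀ α : Weight K H L, α.IsNonZero → (¬ r α (-α) ↔ r (-α) α) := by
    intro α hα
    constructor
    · intro h
      rcases trichotomous_of WellOrderingRel α (-α) with h1 | h1 | h1
      · exact absurd h1 h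
      · exact absurd h1 (hne α hα)
      · exact h1
    · intro h h'
      exact asymm_of WellOrderingRel h h'
  let E : Weight K H L → L := fun α =>
    if hα : α.IsNonZero then
      (if r α (-α) then c α hα else -σ (c (-α) (hneg α hα))) else 0
  refine ⟨⟨E, ?_, ?_, ?_⟩⟩
  · intro α
    by_cases hα : α.IsNonZero
    · simp only [E, dif_pos hα]
      split_ifs with h
      · exact hc1 α hα
      · apply Submodule.neg_mem
        have := sigma_mem σ hσH (hc1 (-α) (hneg α hα))
        rwa [neg_neg] at this
    · simp only [E, dif_neg hα]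
      exact Submodule.zero_mem _
  · intro α hα
    simp only [E, dif_pos hα, dif_pos (hneg α hα), neg_neg]
    by_cases h : r α (-α)
    · have h' : ¬ r (-α) α := fun h' => asymm_of WellOrderingRel h h'
      rw [if_pos h, if_neg h']
      simp
    · rw [if_neg h, if_pos ((htri α hα).1 h)]
      simp [hσ]
  · intro α hα
    simp only [E, dif_pos hα, dif_pos (hneg α hα), neg_neg]
    by_cases h : r α (-α)
    · have h' : ¬ r (-α) α := fun h' => asymm_of WellOrderingRel h h'
      rw [if_pos h, if_neg h', lie_neg, hc2, neg_neg]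
    · rw [if_neg h, if_pos ((htri α hα).1 h), neg_lie, ← lie_skew, neg_neg, hc2]
      simp

variable {σ} (V : Vectors H σ)

include V in
lemma Vectors.ne_zero {α : Weight K H L} (hα : α.IsNonZero) : V.E α ≠ 0 := by
  intro h
  have := V.lie α hα
  rw [h, zero_lie] at this
  have h2 : coroot α = 0 := by
    apply Subtype.ext
    rw [← this]; rfl
  exact hα (coroot_eq_zero_iff.mp h2)

lemma Vectors.isSl2Triple {α : Weight K H L} (hα : α.IsNonZero) :
    IsSl2Triple (coroot α : L) (V.E α) (V.E (-α)) where
  h_ne_zero := by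
    intro h
    have h2 : coroot α = 0 := Subtype.ext h
    exact hα (coroot_eq_zero_iff.mp h2)
  lie_e_f := V.lie α hα
  lie_h_e_nsmul := by
    rw [(mem_rootSpace_iff α _).1 (V.mem α) (coroot α), root_apply_coroot hα]
    rw [← Nat.cast_smul_eq_nsmul K]; rfl
  lie_h_f_nsmul := by
    rw [(mem_rootSpace_iff (-α) _).1 (V.mem (-α)) (coroot α)]
    have : (-α : Weight K H L) (coroot α) = -2 := by
      simp [root_apply_coroot hα]
    rw [this, neg_smul, ← Nat.cast_smul_eq_nsmul K]; rfl

lemma lie_mem {α β γ : Weight K H L} (hγ : (γ : H → K) = α + β) {x y : L}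
    (hx : x ∈ rootSpace H α) (hy : y ∈ rootSpace H β) : ⁅x, y⁆ ∈ rootSpace H γ := by
  rw [hγ]
  exact lie_mem_genWeightSpace_of_mem_genWeightSpace hx hy

lemma Vectors.exists_N {α β γ : Weight K H L} (hγ0 : γ.IsNonZero) (hγ : (γ : H → K) = α + β) :
    ∃ N : K, ⁅V.E α, V.E β⁆ = N • V.E γ :=
  exists_smul_of_mem hγ0 (V.mem γ) (V.ne_zero hγ0) (lie_mem hγ (V.mem α) (V.mem β))

/-- the string formula -/
lemma Vectors.lie_lie {α β : Weight K H L} (hα : α.IsNonZero) (hβ : β.IsNonZero) :
    ⁅V.E (-α), ⁅V.E α, V.E β⁆⁆ =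
      ((chainTopCoeff α β : K) * (chainBotCoeff α β + 1)) • V.E β := by
  have t := V.isSl2Triple hα
  obtain ⟨x, hx, x_ne0⟩ := (chainTop α β).exists_ne_zero
  have prim : t.HasPrimitiveVectorWith x (chainLength α β : K) :=
    have := lie_mem_genWeightSpace_of_mem_genWeightSpace (V.mem α) hx
    ⟨x_ne0, (chainLength_smul _ _ hx).symm, by rwa [genWeightSpace_add_chainTop _ _ hα] at this⟩
  set q := chainTopCoeff α β with hq
  have hmem : (toEnd K L L (V.E (-α)) ^ q) x ∈ rootSpace H β := by
    have := toEnd_pow_apply_mem (V.mem (-α)) hx q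
    convert this using 2
    rw [coe_chainTop', Weight.coe_neg, smul_neg, ← hq, neg_add_cancel_left]
  have hle : q ≤ chainLength α β := chainTopCoeff_le_chainLength α β
  have hne := prim.pow_toEnd_f_ne_zero_of_eq_nat rfl hle
  obtain ⟨c, hc⟩ := exists_smul_of_mem hβ hmem hne (V.mem β)
  have key : ⁅V.E (-α), ⁅V.E α, (toEnd K L L (V.E (-α)) ^ q) x⁆⁆ =
      ((q : K) * (chainBotCoeff α β + 1)) • (toEnd K L L (V.E (-α)) ^ q) x := by
    rcases Nat.eq_zero_or_pos q with h0 | h0
    · rw [h0]
      simp [prim.lie_e]
    · obtain ⟨m, hm⟩ := Nat.exists_eq_add_of_lt h0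
      rw [zero_add] at hm
      rw [hm, prim.lie_e_pow_succ_toEnd_f, lie_smul, prim.lie_f_pow_toEnd_f]
      congr 1
      have h3 : chainBotCoeff α β + q = chainLength α β := chainBotCoeff_add_chainTopCoeff α β
      have h4 : (chainLength α β : K) = chainBotCoeff α β + (m + 1) := by
        rw [← h3, hm]; push_cast; ring
      rw [h4]; push_cast; ring
  rw [hc, lie_smul, lie_smul, key, smul_comm]

/-! ### transport along an equivalence of root systems -/

section Transport

variable {ι M N : Type*} [AddCommGroup M] [Module K M] [AddCommGroup N] [Module K N] [Finite ι]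
  {P : RootPairing ι K M N} [P.IsCrystallographic] [P.IsReduced] (e : P.Equiv (rootSystem H))

/-- the weight corresponding to the index `i` -/
def wt (i : ι) : Weight K H L := ((e.toHom.indexEquiv i : H.root) : Weight K H L)

lemma wt_nonZero (i : ι) : (wt e i).IsNonZero := LieSubalgebra.isNonZero_coe_root _

lemma weightMap_root (i : ι) : e.toHom.weightMap (P.root i) = (wt e i).toLinear := by
  rw [RootPairing.Hom.root_weightMap_apply]
  rfl

lemma exists_wt {χ : Weight K H L} (hχ : χ.IsNonZero) : ∃ i, wt e i = χ := by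
  refine ⟨e.toHom.indexEquiv.symm ⟨χ, by simpa using hχ⟩, ?_⟩
  simp [wt]

lemma toLinear_inj {χ χ' : Weight K H L} (h : χ.toLinear = χ'.toLinear) : χ = χ' := by
  apply DFunLike.coe_injective
  funext x
  exact LinearMap.congr_fun h x

lemma mem_range_iff (x : M) : x ∈ Set.range P.root ↔
    ∃ χ : Weight K H L, χ.IsNonZero ∧ χ.toLinear = e.toHom.weightMap x := by
  constructor
  · rintro ⟨i, rfl⟩
    exact ⟨wt e i, wt_nonZero e i, (weightMap_root e i).symm⟩
  · rintro ⟨χ, h0, h⟩
    obtain ⟨i, rfl⟩ := exists_wt e h0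
    refine ⟨i, e.bijective_weightMap.injective ?_⟩
    rw [weightMap_root, h]

lemma mem_range_iff' (x : M) (hx : x ≠ 0) (f : H → K) (hf : ∀ h, f h = e.toHom.weightMap x h) :
    x ∈ Set.range P.root ↔ rootSpace H f ≠ ⊥ := by
  rw [mem_range_iff e]
  constructor
  · rintro ⟨χ, -, h⟩
    have : (χ : H → K) = f := by
      funext y
      rw [hf, ← h]; rfl
    rw [← this]
    exact χ.2
  · intro h
    refine ⟨⟨f, h⟩, ?_, ?_⟩
    · intro h0
      apply hx
      apply e.bijective_weightMap.injective
      rw [map_zero]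
      ext y
      rw [← hf]
      exact congrFun h0 y
    · ext y
      exact hf y

lemma zsmul_add_mem_iff {i j : ι} (h : LinearIndependent K ![P.root i, P.root j]) (n : ℤ) :
    P.root j + n • P.root i ∈ Set.range P.root ↔
      rootSpace H (n • (wt e i : H → K) + (wt e j : H → K)) ≠ ⊥ := by
  apply mem_range_iff' e
  · intro h0
    have := (LinearIndependent.pair_iff.1 h) (n : K) 1
      (by rw [Int.cast_smul_eq_zsmul, one_smul, add_comm, h0])
    simp at this
  · intro y
    rw [map_add, map_zsmul, weightMap_root, weightMap_root]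
    simp
    ring

lemma chain_eq {i j : ι} (h : LinearIndependent K ![P.root i, P.root j]) :
    P.chainTopCoeff i j = chainTopCoeff (wt e i : H → K) (wt e j) ∧
    P.chainBotCoeff i j = chainBotCoeff (wt e i : H → K) (wt e j) := by
  have key : ∀ n : ℤ, n ∈ Set.Icc (-(P.chainBotCoeff i j : ℤ)) (P.chainTopCoeff i j) ↔
      n ∈ Set.Icc (-(chainBotCoeff (wt e i : H → K) (wt e j) : ℤ))
        (chainTopCoeff (wt e i : H → K) (wt e j)) := by
    intro n
    rw [← RootPairing.root_add_zsmul_mem_range_iff h, zsmul_add_mem_iff e h,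
      rootSpace_zsmul_add_ne_bot_iff _ _ (wt_nonZero e i), Set.mem_Icc, and_comm, neg_le]
  have h1 := Set.ext key
  rw [Set.Icc_eq_Icc_iff (by omega)] at h1
  omega

lemma pairing_eq (i j : ι) : P.pairing i j = wt e i (coroot (wt e j)) := by
  have h1 := RootPairing.Hom.weight_coweight_transpose_apply P (rootSystem H)
    ((rootSystem H).coroot (e.toHom.indexEquiv j)) e.toHom
  have h2 := LinearMap.congr_fun h1 (P.root i)
  rw [RootPairing.Hom.coroot_coweightMap_apply] at h2
  simp only [LinearMap.dualMap_apply, Equiv.symm_apply_apply] at h2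
  rw [weightMap_root] at h2
  exact h2.symm

end Transport

/-! ### structure constants -/

/-- the form `(χ, χ')` induced by the Killing form -/
def frm (χ χ' : Weight K H L) : K := χ ((cartanEquivDual H).symm χ'.toLinear)

lemma frm_comm (χ χ' : Weight K H L) : frm χ χ' = frm χ' χ := by
  have h1 : ∀ χ χ' : Weight K H L, frm χ χ' =
      traceForm K H L ((cartanEquivDual H).symm χ.toLinear)
        ((cartanEquivDual H).symm χ'.toLinear) := by
    intro χ χ'
    exact (LinearMap.BilinForm.apply_toDual_symm_apply
      (hB := traceForm_cartan_nondegenerate K L H) χ.toLinear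
      ((cartanEquivDual H).symm χ'.toLinear)).symm
  rw [h1, h1, traceForm_comm]

lemma frm_self_ne_zero {χ : Weight K H L} (h : χ.IsNonZero) : frm χ χ ≠ 0 :=
  root_apply_cartanEquivDual_symm_ne_zero h

lemma apply_coroot_mul (χ : Weight K H L) {χ' : Weight K H L} (h : χ'.IsNonZero) :
    χ (coroot χ') * frm χ' χ' = 2 * frm χ χ' := by
  have h1 : χ (coroot χ') = 2 * (frm χ' χ')⁻¹ * frm χ χ' := by
    rw [← Weight.toLinear_apply, coroot, map_nsmul, map_smul]
    simp [frm]
    ring
  rw [h1]
  have := frm_self_ne_zero h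
  field_simp

lemma frm_add_self {α β γ : Weight K H L} (h : (γ : H → K) = α + β) :
    frm γ γ = frm α α + frm β β + 2 * frm β α := by
  have h1 : ∀ χ, frm γ χ = frm α χ + frm β χ := fun χ => by
    simp only [frm]
    rw [h]; rfl
  rw [h1, frm_comm α γ, frm_comm β γ, h1, h1, frm_comm α β]
  ring

end Killing

section Constants

variable {K L : Type*} [Field K] [CharZero K] [LieRing L] [LieAlgebra K L]
  [IsKilling K L] [FiniteDimensional K L]
  {H : LieSubalgebra K L} [H.IsCartanSubalgebra] [IsTriangularizable K H L]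
  {σ : L →ₗ⁅K⁆ L} (V : Vectors H σ)

lemma Vectors.killing {α : Weight K H L} (hα : α.IsNonZero) :
    killingForm K L (V.E α) (V.E (-α)) * frm α α = 2 := by
  have h1 := lie_eq_killingForm_smul_of_mem_rootSpace_of_mem_rootSpace_neg (V.mem α) (V.mem (-α))
  rw [V.lie α hα] at h1
  have h2 : coroot α = killingForm K L (V.E α) (V.E (-α)) • (cartanEquivDual H).symm α.toLinear :=
    Subtype.ext h1
  have h3 := root_apply_coroot hα
  rw [h2, ← Weight.toLinear_apply, map_smul] at h3
  exact h3

lemma Vectors.N_sq {ι M N : Type*} [AddCommGroup M] [Module K M] [AddCommGroup N] [Module K N]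
    [Finite ι] {P : RootPairing ι K M N} [P.IsCrystallographic] [P.IsReduced]
    (e : P.Equiv (rootSystem H)) {i j k : ι} (hk : P.root k = P.root i + P.root j) :
    ⁅V.E (wt e i), V.E (wt e j)⁆ = ((P.chainBotCoeff i j + 1 : ℕ) : K) • V.E (wt e k) ∨
    ⁅V.E (wt e i), V.E (wt e j)⁆ = -(((P.chainBotCoeff i j + 1 : ℕ) : K) • V.E (wt e k)) := by
  have hmem : P.root i + P.root j ∈ Set.range P.root := ⟨k, hk⟩
  have hli := P.linearIndependent_of_add_mem_range_root' hmem
  obtain ⟨hq, hr⟩ := chain_eq e hli
  set α := wt e i with hα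
  set β := wt e j with hβ
  set γ := wt e k with hγ
  have hα0 : α.IsNonZero := wt_nonZero e i
  have hβ0 : β.IsNonZero := wt_nonZero e j
  have hγ0 : γ.IsNonZero := wt_nonZero e k
  have hsum : (γ : H → K) = α + β := by
    have h1 : γ.toLinear = α.toLinear + β.toLinear := by
      rw [hγ, hα, hβ, ← weightMap_root, ← weightMap_root, ← weightMap_root, hk, map_add]
    funext y
    exact LinearMap.congr_fun h1 y
  have hsum' : (β : H → K) = (-α : Weight K H L) + γ := by
    rw [hsum]; simp
  obtain ⟨n, hn⟩ := V.exists_N hγ0 hsum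
  obtain ⟨n', hn'⟩ := V.exists_N hβ0 hsum'
  have h1 : ⁅V.E (-α), V.E (-β)⁆ = -(n • V.E (-γ)) := by
    have h2 : ⁅V.E (-α), V.E (-β)⁆ = σ ⁅V.E α, V.E β⁆ := by
      rw [LieHom.map_lie, V.neg α hα0, V.neg β hβ0]
      simp
    rw [h2, hn, map_smul, V.neg γ hγ0, smul_neg]
  have h2 : n' * killingForm K L (V.E β) (V.E (-β)) = n * killingForm K L (V.E γ) (V.E (-γ)) := by
    have h3 : killingForm K L ⁅V.E γ, V.E (-α)⁆ (V.E (-β)) =
        killingForm K L (V.E γ) ⁅V.E (-α), V.E (-β)⁆ := traceForm_apply_lie_apply K L L _ _ _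
    rw [h1, ← lie_skew, hn'] at h3
    simp only [map_neg, map_smul, LinearMap.neg_apply, LinearMap.smul_apply, smul_eq_mul] at h3
    linear_combination -h3
  have hA := frm_self_ne_zero hα0
  have hB := frm_self_ne_zero hβ0
  have hC := frm_self_ne_zero hγ0
  have kB := V.killing hβ0
  have kC := V.killing hγ0
  have h4 : n' * frm γ γ = n * frm β β := by
    have e1 : killingForm K L (V.E β) (V.E (-β)) = 2 / frm β β := by
      field_simp; exact kB
    have e2 : killingForm K L (V.E γ) (V.E (-γ)) = 2 / frm γ γ := by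
      field_simp; exact kC
    rw [e1, e2] at h2
    field_simp at h2
    linear_combination h2
  have h5 : n * n' = (P.chainTopCoeff i j : K) * (P.chainBotCoeff i j + 1) := by
    have h6 := V.lie_lie hα0 hβ0
    rw [hn, lie_smul, hn', smul_smul, ← hq, ← hr] at h6
    exact smul_left_injective K (V.ne_zero hβ0) h6
  have h7 : ((P.chainBotCoeff i j : K) + 1) * frm β β = P.chainTopCoeff i j * frm γ γ := by
    have hp : ∀ a b : ι, ((P.pairingIn ℤ a b : ℤ) : K) = P.pairing a b := fun a b => by
      rw [← P.algebraMap_pairingIn ℤ]; rfl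
    apply ratio P hk (frm α α)
    · rw [hp, hp, pairing_eq e, pairing_eq e, apply_coroot_mul _ (wt_nonZero e i),
        apply_coroot_mul _ (wt_nonZero e j), frm_comm]
    · rw [hp, hp, pairing_eq e, pairing_eq e, apply_coroot_mul _ (wt_nonZero e i),
        apply_coroot_mul _ (wt_nonZero e k), frm_comm]
    · rw [hp, pairing_eq e, apply_coroot_mul _ (wt_nonZero e i), frm_add_self hsum]
  have h8 : n ^ 2 = ((P.chainBotCoeff i j : K) + 1) ^ 2 := by
    apply mul_right_cancel₀ hB
    linear_combination (-n) * h4 + frm γ γ * h5 - (P.chainBotCoeff i j + 1 : K) * h7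
  rcases sq_eq_sq_iff_eq_or_eq_neg.1 h8 with h9 | h9
  · left
    rw [hn, h9]; push_cast; rfl
  · right
    rw [hn, h9, neg_smul]; push_cast; rfl

end Constants

/-! ### lattices closed under the bracket -/

lemma exists_lattice {L X : Type*} [LieRing L] (f : X → L) (hli : LinearIndependent ℤ f)
    (hcl : ∀ a b, ⁅f a, f b⁆ ∈ Submodule.span ℤ (Set.range f)) :
    ∃ (L' : LieSubalgebra ℤ L) (B : Module.Basis X ℤ L'), ∀ x, (B x : L) = f x := by
  let L' : LieSubalgebra ℤ L :=
    { Submodule.span ℤ (Set.range f) with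
      lie_mem' := by
        intro x y hx hy
        change x ∈ Submodule.span ℤ (Set.range f) at hx
        change y ∈ Submodule.span ℤ (Set.range f) at hy
        change ⁅x, y⁆ ∈ Submodule.span ℤ (Set.range f)
        induction hx using Submodule.span_induction with
        | mem x hx =>
          obtain ⟨a, rfl⟩ := hx
          induction hy using Submodule.span_induction with
          | mem y hy =>
            obtain ⟨b, rfl⟩ := hy
            exact hcl a b
          | zero => simp
          | add y z _ _ hy hz => rw [lie_add]; exact add_mem hy hz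
          | smul c y _ hy => rw [lie_smul]; exact Submodule.smul_mem _ _ hy
        | zero => simp
        | add x z _ _ hx hz => rw [add_lie]; exact add_mem hx hz
        | smul c x _ hx => rw [smul_lie]; exact Submodule.smul_mem _ _ hx }
  have hmem : ∀ x, f x ∈ L' := fun x => Submodule.subset_span ⟨x, rfl⟩
  let g : X → L' := fun x => ⟨f x, hmem x⟩
  have hg : LinearIndependent ℤ g := by
    apply LinearIndependent.of_comp L'.toSubmodule.subtype
    exact hli
  have hs : ⊤ ≤ Submodule.span ℤ (Set.range g) := by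
    rintro ⟨y, hy'⟩ -
    have hy : y ∈ Submodule.span ℤ (Set.range f) := hy'
    have h1 : (Submodule.span ℤ (Set.range g)).map L'.toSubmodule.subtype =
        Submodule.span ℤ (Set.range f) := by
      rw [Submodule.map_span, ← Set.range_comp]
      rfl
    rw [← h1] at hy
    obtain ⟨z, hz, hzy⟩ := hy
    have hz' : (⟨y, hy'⟩ : L') = z := Subtype.ext hzy.symm
    rw [hz']
    exact hz
  exact ⟨L', Module.Basis.mk hg hs, fun x => by rw [Module.Basis.mk_apply]⟩

section Final

variable {K L : Type*} [Field K] [CharZero K] [LieRing L] [LieAlgebra K L]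
  [IsKilling K L] [FiniteDimensional K L]
  {H : LieSubalgebra K L} [H.IsCartanSubalgebra] [IsTriangularizable K H L]
  {σ : L →ₗ⁅K⁆ L} (V : Vectors H σ)
  {ι M N : Type*} [AddCommGroup M] [Module K M] [AddCommGroup N] [Module K N]
  [Fintype ι] [DecidableEq ι] {P : RootPairing ι K M N} [P.IsCrystallographic] [P.IsReduced]
  (b : P.Base) (e : P.Equiv (rootSystem H))

/-- The Chevalley basis inside `L`. -/
def vec : b.support ⊕ ι → L := Sum.elim (fun i => (coroot (wt e i) : L)) (fun i => V.E (wt e i))

lemma coweightMap_coroot (i : ι) : e.toHom.coweightMap (coroot (wt e i)) = P.coroot i := by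
  have := RootPairing.Hom.coroot_coweightMap_apply P (rootSystem H) (e.toHom.indexEquiv i) e.toHom
  rw [Equiv.symm_apply_apply] at this
  exact this

lemma wt_injective : Function.Injective (wt e) := by
  intro i j h
  exact e.toHom.indexEquiv.injective (Subtype.ext h)

lemma linearIndependent_vec : LinearIndependent K (vec V b e) := by
  have hind := LieSubmodule.iSupIndep_toSubmodule.mpr (iSupIndep_genWeightSpace K H L)
  apply LinearIndependent.sum_type
  · have h1 : LinearIndependent K (fun i : b.support => coroot (wt e i)) := by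
      apply LinearIndependent.of_comp e.toHom.coweightMap
      have : (e.toHom.coweightMap ∘ fun i : b.support => coroot (wt e i)) =
          fun i : b.support => P.coroot i := by
        funext i
        exact coweightMap_coroot e i
      rw [this]
      exact b.linearIndepOn_coroot
    exact h1.map' H.toSubmodule.subtype (Submodule.ker_subtype _)
  · have hind' := LieSubmodule.iSupIndep_toSubmodule.mpr (iSupIndep_genWeightSpace' K H L)
    exact (hind'.comp (wt_injective e)).linearIndependent _ (fun i => V.mem (wt e i))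
      (fun i => V.ne_zero (wt_nonZero e i))
  · refine Disjoint.mono ?_ ?_ (hind (0 : H → K))
    · rw [Submodule.span_le]
      rintro _ ⟨i, rfl⟩
      change _ ∈ (rootSpace H (0 : H → K)).toSubmodule
      simp
    · rw [Submodule.span_le]
      rintro _ ⟨i, rfl⟩
      have h0 : ((wt e i : Weight K H L) : H → K) ≠ 0 := wt_nonZero e i
      exact (le_iSup₂_of_le (f := fun (χ : H → K) (_ : χ ≠ 0) => (rootSpace H χ).toSubmodule)
        _ h0 le_rfl) (V.mem (wt e i))

lemma coroot_mem_span (i : ι) :
    (coroot (wt e i) : L) ∈ Submodule.span ℤ (Set.range (vec V b e)) := by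
  have h1 := b.coroot_mem_span_int i
  rw [Set.image_eq_range, Submodule.mem_span_range_iff_exists_fun] at h1
  obtain ⟨c, hc⟩ := h1
  have h2 : coroot (wt e i) = ∑ j : b.support, c j • coroot (wt e j) := by
    apply e.bijective_coweightMap.injective
    rw [map_sum, coweightMap_coroot, ← hc]
    refine Finset.sum_congr rfl fun j _ => ?_
    rw [map_zsmul, coweightMap_coroot]
  have h3 : (coroot (wt e i) : L) = ∑ j : b.support, c j • (coroot (wt e j) : L) := by
    rw [h2]
    simp
  rw [h3]
  exact Submodule.sum_mem _ fun j _ => Submodule.smul_mem _ _ (Submodule.subset_span ⟨.inl j, rfl⟩)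

lemma coroot_eq_sum (i : ι) (c : b.support → ℤ) (hc : P.coroot i = ∑ j, c j • P.coroot j) :
    (coroot (wt e i) : L) = ∑ j : b.support, c j • (coroot (wt e j) : L) := by
  have h2 : coroot (wt e i) = ∑ j : b.support, c j • coroot (wt e j) := by
    apply e.bijective_coweightMap.injective
    rw [map_sum, coweightMap_coroot, hc]
    refine Finset.sum_congr rfl fun j _ => ?_
    rw [map_zsmul, coweightMap_coroot]
  rw [h2]
  simp

lemma lie_coroot (i j : ι) :
    ⁅(coroot (wt e i) : L), V.E (wt e j)⁆ = P.pairingIn ℤ j i • V.E (wt e j) := by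
  rw [(mem_rootSpace_iff _ _).1 (V.mem (wt e j)) (coroot (wt e i)), ← pairing_eq e,
    ← P.algebraMap_pairingIn ℤ, algebraMap_smul]

lemma wt_neg {i j : ι} (h : P.root j = -P.root i) : wt e j = -wt e i := by
  apply toLinear_inj
  rw [← weightMap_root, h, map_neg, weightMap_root]
  rfl

lemma lie_zero {i j : ι} (h1 : P.root i + P.root j ∉ Set.range P.root)
    (h2 : P.root i + P.root j ≠ 0) : ⁅V.E (wt e i), V.E (wt e j)⁆ = 0 := by
  have h3 : ⁅V.E (wt e i), V.E (wt e j)⁆ ∈ rootSpace H ((wt e i : H → K) + wt e j) :=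
    lie_mem_genWeightSpace_of_mem_genWeightSpace (V.mem (wt e i)) (V.mem (wt e j))
  rw [mem_range_iff' e _ h2 ((wt e i : H → K) + wt e j), not_not] at h1
  · rw [h1] at h3
    simpa using h3
  · intro y
    rw [map_add, weightMap_root, weightMap_root]
    rfl

lemma lie_neg' {i j : ι} (h : P.root j = -P.root i) :
    ⁅V.E (wt e i), V.E (wt e j)⁆ = coroot (wt e i) := by
  rw [wt_neg e h, V.lie _ (wt_nonZero e i)]

lemma lie_vec (x y : b.support ⊕ ι) :
    ⁅vec V b e x, vec V b e y⁆ ∈ Submodule.span ℤ (Set.range (vec V b e)) := by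
  rcases x with i | i <;> rcases y with j | j
  · have : ⁅vec V b e (.inl i), vec V b e (.inl j)⁆ = 0 := by
      change ⁅((coroot (wt e i) : H) : L), ((coroot (wt e j) : H) : L)⁆ = 0
      rw [← LieSubalgebra.coe_bracket, trivial_lie_zero]
      rfl
    rw [this]
    exact Submodule.zero_mem _
  · change ⁅((coroot (wt e i) : H) : L), V.E (wt e j)⁆ ∈ _
    rw [lie_coroot]
    exact Submodule.smul_mem _ _ (Submodule.subset_span ⟨.inr j, rfl⟩)
  · change ⁅V.E (wt e i), ((coroot (wt e j) : H) : L)⁆ ∈ _
    rw [← lie_skew, lie_coroot]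
    exact Submodule.neg_mem _ (Submodule.smul_mem _ _ (Submodule.subset_span ⟨.inr i, rfl⟩))
  · change ⁅V.E (wt e i), V.E (wt e j)⁆ ∈ _
    by_cases h1 : P.root i + P.root j ∈ Set.range P.root
    · obtain ⟨k, hk⟩ := h1
      have hmem : V.E (wt e k) ∈ Submodule.span ℤ (Set.range (vec V b e)) :=
        Submodule.subset_span ⟨.inr k, rfl⟩
      rcases V.N_sq e hk with h | h
      · rw [h, Nat.cast_smul_eq_nsmul, ← natCast_zsmul]
        exact Submodule.smul_mem _ _ hmem
      · rw [h, Nat.cast_smul_eq_nsmul, ← natCast_zsmul]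
        exact Submodule.neg_mem _ (Submodule.smul_mem _ _ hmem)
    · by_cases h2 : P.root i + P.root j = 0
      · rw [lie_neg' V e (by rw [eq_neg_iff_add_eq_zero, add_comm, h2])]
        exact coroot_mem_span V b e i
      · rw [lie_zero V e h1 h2]
        exact Submodule.zero_mem _

include V e in
theorem exists_of_vectors :
    ∃ L' : LieSubalgebra ℤ L, Nonempty (ChevalleyBasis P b L') := by
  obtain ⟨L', B, hB⟩ := exists_lattice (vec V b e)
    ((linearIndependent_vec V b e).restrict_scalars' ℤ) (lie_vec V b e)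
  have hl : ∀ i : b.support, (B (.inl i) : L) = coroot (wt e i) := fun i => hB _
  have hr : ∀ i : ι, (B (.inr i) : L) = V.E (wt e i) := fun i => hB _
  refine ⟨L', ⟨⟨B, ?_, ?_, ?_, ?_, ?_⟩⟩⟩
  · intro i j
    apply Subtype.ext
    rw [LieSubalgebra.coe_bracket, hl, hl, ← LieSubalgebra.coe_bracket, trivial_lie_zero]
    rfl
  · intro i α
    apply Subtype.ext
    rw [LieSubalgebra.coe_bracket, hl, hr, lie_coroot]
    simp [hr]
  · intro α β c hβ hc
    apply Subtype.ext
    rw [LieSubalgebra.coe_bracket, hr, hr, lie_neg' V e hβ, coroot_eq_sum b e α c hc]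
    simp [hl]
  · intro α β γ hγ
    rcases V.N_sq e hγ with h | h
    · left
      apply Subtype.ext
      rw [LieSubalgebra.coe_bracket, hr, hr, h, Nat.cast_smul_eq_nsmul, ← natCast_zsmul]
      simp [hr]
    · right
      apply Subtype.ext
      rw [LieSubalgebra.coe_bracket, hr, hr, h, Nat.cast_smul_eq_nsmul, ← natCast_zsmul]
      simp [hr]
  · intro α β h1 h2
    apply Subtype.ext
    rw [LieSubalgebra.coe_bracket, hr, hr, lie_zero V e h1 h2]
    rfl

end Final


section Geck

open RootPairing.GeckConstruction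

attribute [local instance 100] LieRing.ofAssociativeRing

universe u v

variable {ι : Type u} {K : Type v} {M N : Type*} [Fintype ι] [DecidableEq ι] [Field K] [CharZero K]
  [AddCommGroup M] [Module K M] [AddCommGroup N] [Module K N]
  {P : RootPairing ι K M N} [P.IsCrystallographic] (b : P.Base)

/-- The involution of Geck's Lie algebra. -/
def sig : lieAlgebra b →ₗ⁅K⁆ lieAlgebra b where
  toFun x := ⟨ωConj b x, ωConj_mem_of_mem x.2⟩
  map_add' x y := Subtype.ext (map_add (ωConj b) _ _)
  map_smul' t x := Subtype.ext (map_smul (ωConj b) _ _)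
  map_lie' := by
    intro x y
    exact Subtype.ext (LieEquiv.map_lie (ωConj b) _ _)

lemma coe_sig (x : lieAlgebra b) : (sig b x : Matrix (b.support ⊕ ι) (b.support ⊕ ι) K) =
  ωConj b (x : Matrix (b.support ⊕ ι) (b.support ⊕ ι) K) := rfl

lemma ωConj_ωConj (x : Matrix (b.support ⊕ ι) (b.support ⊕ ι) K) :
    ωConj b (ωConj b x) = x := (ωConj b).left_inv x

lemma ωConj_span {x : Matrix (b.support ⊕ ι) (b.support ⊕ ι) K}
    (hx : x ∈ Submodule.span K (Set.range (RootPairing.GeckConstruction.h (b := b)))) :
    ωConj b x = -x := by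
  induction hx using Submodule.span_induction with
  | mem x hx =>
    obtain ⟨i, rfl⟩ := hx
    rw [ωConj_toFun, ω_mul_h, mul_assoc, ω_mul_ω, mul_one]
  | zero => simp
  | add x y _ _ hx hy => rw [map_add, hx, hy, neg_add]
  | smul c x _ hx => rw [map_smul, hx, smul_neg]

lemma sig_sig (x : lieAlgebra b) : sig b (sig b x) = x :=
  Subtype.ext (ωConj_ωConj b (x : Matrix (b.support ⊕ ι) (b.support ⊕ ι) K))

lemma sig_h (h : cartanSubalgebra' b) : sig b (h : lieAlgebra b) = -(h : lieAlgebra b) :=
  Subtype.ext (ωConj_span b h.2)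

variable [IsAlgClosed K] [P.IsReduced] [P.IsIrreducible] [P.IsRootSystem]

/-- **Existence of Chevalley bases** (Chevalley): every irreducible reduced crystallographic root
system (over an algebraically closed field of characteristic zero) with a base has a Chevalley
basis. -/
theorem exists_chevalleyBasis :
    ∃ (L : Type (max u v)) (_ : LieRing L), Nonempty (ChevalleyBasis P b L) := by
  obtain ⟨V⟩ := exists_vectors (H := cartanSubalgebra' b) (sig b) (sig_sig b) (sig_h b)
  obtain ⟨L', h⟩ := exists_of_vectors V b (equivRootSystem b)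
  exact ⟨L', inferInstance, h⟩

end Geck

end Pool.Agent.MP_467141.CB
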