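import Pool.Agent.Lib.MP_467141_H17.CB

/-!
# Existence of Chevalley bases, coefficients in an arbitrary field of characteristic zero

Given an irreducible reduced crystallographic root system `P` over a field `k` of characteristic
zero with base `b`, we build the same root system `P'` over `ℂ`, using the integer coordinates
with respect to the base, and transfer a Chevalley basis of `P'` to `P`.
-/

open Module

noncomputable section

set_option linter.unusedSectionVars false

namespace Pool.Agent.MP_467141.CB

universe u v w

section BaseChange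

variable {ι : Type u} {k : Type v} {M N : Type*} [Fintype ι] [DecidableEq ι] [Field k] [CharZero k]
  [AddCommGroup M] [Module k M] [AddCommGroup N] [Module k N]
  {P : RootPairing ι k M N} [P.IsReduced] [P.IsCrystallographic] [P.IsIrreducible]
  [P.IsRootSystem] (b : P.Base)

omit [P.IsReduced] [P.IsIrreducible] [P.IsRootSystem] [DecidableEq ι] [CharZero k]
  [P.IsCrystallographic] in
lemma exists_rc (i : ι) : ∃ c : b.support → ℤ, ∑ s : b.support, c s • P.root s = P.root i := by
  have h1 := b.root_mem_span_int i
  rwa [Set.image_eq_range, Submodule.mem_span_range_iff_exists_fun] at h1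

lemma exists_cc (i : ι) : ∃ c : b.support → ℤ, ∑ s : b.support, c s • P.coroot s = P.coroot i := by
  have h1 := b.coroot_mem_span_int i
  rwa [Set.image_eq_range, Submodule.mem_span_range_iff_exists_fun] at h1

/-- integer coordinates of the roots -/
def rc (i : ι) : b.support → ℤ := (exists_rc b i).choose

/-- integer coordinates of the coroots -/
def cc (i : ι) : b.support → ℤ := (exists_cc b i).choose

lemma rc_spec (i : ι) : ∑ s : b.support, rc b i s • P.root s = P.root i := (exists_rc b i).choose_spec

lemma cc_spec (i : ι) : ∑ s : b.support, cc b i s • P.coroot s = P.coroot i :=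
  (exists_cc b i).choose_spec

/-- the additive map from integer coordinates to `M` -/
def rmap : (b.support → ℤ) →+ M where
  toFun c := ∑ s : b.support, c s • P.root s
  map_zero' := by simp
  map_add' x y := by simp [add_smul, Finset.sum_add_distrib]

def cmap : (b.support → ℤ) →+ N where
  toFun c := ∑ s : b.support, c s • P.coroot s
  map_zero' := by simp
  map_add' x y := by simp [add_smul, Finset.sum_add_distrib]

lemma rmap_injective : Function.Injective (rmap b) := by
  rw [injective_iff_map_eq_zero]
  intro c hc
  have hli : LinearIndependent k (fun s : b.support => P.root s) := b.linearIndepOn_root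
  have hli' : LinearIndependent ℤ (fun s : b.support => P.root s) := hli.restrict_scalars' ℤ
  funext s
  exact Fintype.linearIndependent_iff.1 hli' c hc s

lemma cmap_injective : Function.Injective (cmap b) := by
  rw [injective_iff_map_eq_zero]
  intro c hc
  have hli : LinearIndependent k (fun s : b.support => P.coroot s) := b.linearIndepOn_coroot
  have hli' : LinearIndependent ℤ (fun s : b.support => P.coroot s) := hli.restrict_scalars' ℤ
  funext s
  exact Fintype.linearIndependent_iff.1 hli' c hc s

lemma rmap_rc (i : ι) : rmap b (rc b i) = P.root i := rc_spec b i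

lemma cmap_cc (i : ι) : cmap b (cc b i) = P.coroot i := cc_spec b i

lemma rc_support (s : b.support) : rc b s = Pi.single s 1 := by
  apply rmap_injective b
  rw [rmap_rc]
  change _ = ∑ t : b.support, (Pi.single s (1 : ℤ) : b.support → ℤ) t • P.root t
  rw [Finset.sum_eq_single s]
  · simp
  · intro t _ ht
    simp [Pi.single_eq_of_ne ht]
  · simp

lemma cc_support (s : b.support) : cc b s = Pi.single s 1 := by
  apply cmap_injective b
  rw [cmap_cc]
  change _ = ∑ t : b.support, (Pi.single s (1 : ℤ) : b.support → ℤ) t • P.coroot t
  rw [Finset.sum_eq_single s]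
  · simp
  · intro t _ ht
    simp [Pi.single_eq_of_ne ht]
  · simp

lemma pairingIn_eq (i j : ι) :
    P.pairingIn ℤ i j = ∑ s : b.support, ∑ t : b.support, rc b i s * cc b j t * P.pairingIn ℤ s t := by
  have h : ((P.pairingIn ℤ i j : ℤ) : k) = ((∑ s : b.support, ∑ t : b.support,
      rc b i s * cc b j t * P.pairingIn ℤ s t : ℤ) : k) := by
    have hp : ∀ a c : ι, ((P.pairingIn ℤ a c : ℤ) : k) = P.pairing a c := fun a c => by
      rw [← P.algebraMap_pairingIn ℤ]; rfl
    push_cast
    simp only [hp]
    rw [← P.root_coroot_eq_pairing, ← rc_spec b i, ← cc_spec b j]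
    simp only [map_sum, LinearMap.sum_apply, map_zsmul, LinearMap.smul_apply,
      P.root_coroot_eq_pairing]
    rw [Finset.sum_comm]
    refine Finset.sum_congr rfl fun s _ => ?_
    rw [Finset.smul_sum]
    refine Finset.sum_congr rfl fun t _ => ?_
    rw [← Int.cast_smul_eq_zsmul k, ← Int.cast_smul_eq_zsmul k]
    simp only [smul_eq_mul]
    ring
  exact_mod_cast h

variable (K : Type w) [Field K] [CharZero K]

/-- the bilinear pairing over `K` -/
def pr : (b.support → K) →ₗ[K] (b.support → K) →ₗ[K] K :=
  Matrix.toLinearMap₂' K (b.cartanMatrix.map (Int.castRingHom K))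

lemma pr_apply (x y : b.support → K) :
    pr b K x y = ∑ s : b.support, ∑ t : b.support, x s * y t * (P.pairingIn ℤ s t : ℤ) := by
  rw [pr, Matrix.toLinearMap₂'_apply]
  refine Finset.sum_congr rfl fun s _ => Finset.sum_congr rfl fun t _ => ?_
  simp [RootPairing.Base.cartanMatrixIn_def, mul_assoc]

instance : (pr b K).IsPerfPair := by
  have h1 : (b.cartanMatrix.map (Int.castRingHom K)).Nondegenerate := by
    rw [Matrix.nondegenerate_iff_det_ne_zero]
    have h2 := b.cartanMatrix_nondegenerate
    rw [Matrix.nondegenerate_iff_det_ne_zero] at h2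
    rw [← RingHom.mapMatrix_apply, ← RingHom.map_det]
    simpa using h2
  have h3 : (pr b K).Nondegenerate := Matrix.Nondegenerate.toLinearMap₂' h1
  apply LinearMap.IsPerfPair.of_injective
  · rw [injective_iff_map_eq_zero]
    intro x hx
    exact h3.1 x (fun y => by rw [hx]; rfl)
  · rw [injective_iff_map_eq_zero]
    intro x hx
    exact h3.2 x (fun y => by
      have := LinearMap.congr_fun hx y
      exact this)

lemma pr_rc_cc (i j : ι) :
    pr b K (fun s => (rc b i s : K)) (fun s => (cc b j s : K)) = (P.pairingIn ℤ i j : ℤ) := by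
  rw [pr_apply, pairingIn_eq b i j]
  push_cast
  rfl

lemma rc_reflectionPerm (i j : ι) :
    rc b (P.reflectionPerm i j) = rc b j - P.pairingIn ℤ j i • rc b i := by
  apply rmap_injective b
  rw [rmap_rc, ← P.reflectionPerm_root, map_sub, map_zsmul, rmap_rc, rmap_rc]
  congr 1
  rw [← Int.cast_smul_eq_zsmul k]
  congr 1
  change P.pairing j i = _
  rw [← P.algebraMap_pairingIn ℤ]
  rfl

lemma cc_reflectionPerm (i j : ι) :
    cc b (P.reflectionPerm i j) = cc b j - P.pairingIn ℤ i j • cc b i := by
  apply cmap_injective b
  rw [cmap_cc, ← P.reflectionPerm_coroot, map_sub, map_zsmul, cmap_cc, cmap_cc]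
  congr 1
  rw [← Int.cast_smul_eq_zsmul k]
  congr 1
  change P.pairing i j = _
  rw [← P.algebraMap_pairingIn ℤ]
  rfl

/-- the root system over `K` -/
def P' : RootPairing ι K (b.support → K) (b.support → K) where
  toLinearMap := pr b K
  root := ⟨fun i s => (rc b i s : K), by
    intro i j h
    apply P.root.injective
    rw [← rmap_rc b, ← rmap_rc b]
    congr 1
    funext s
    have h2 := congrFun h s
    simp only at h2
    exact_mod_cast h2⟩
  coroot := ⟨fun i s => (cc b i s : K), by
    intro i j h
    apply P.coroot.injective
    rw [← cmap_cc b, ← cmap_cc b]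
    congr 1
    funext s
    have h2 := congrFun h s
    simp only at h2
    exact_mod_cast h2⟩
  root_coroot_two := by
    intro i
    change pr b K (fun s => (rc b i s : K)) (fun s => (cc b i s : K)) = 2
    rw [pr_rc_cc, P.pairingIn_same]
    norm_num
  reflectionPerm := P.reflectionPerm
  reflectionPerm_root := by
    intro i j
    change (fun s => (rc b j s : K)) - pr b K (fun s => (rc b j s : K)) (fun s => (cc b i s : K)) •
      (fun s => (rc b i s : K)) = (fun s => (rc b (P.reflectionPerm i j) s : K))
    rw [pr_rc_cc, rc_reflectionPerm]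
    funext s
    simp
  reflectionPerm_coroot := by
    intro i j
    change (fun s => (cc b j s : K)) - pr b K (fun s => (rc b i s : K)) (fun s => (cc b j s : K)) •
      (fun s => (cc b i s : K)) = (fun s => (cc b (P.reflectionPerm i j) s : K))
    rw [pr_rc_cc, cc_reflectionPerm]
    funext s
    simp

lemma P'_root (i : ι) : (P' b K).root i = fun s => (rc b i s : K) := rfl

lemma P'_coroot (i : ι) : (P' b K).coroot i = fun s => (cc b i s : K) := rfl

lemma P'_pairing (i j : ι) : (P' b K).pairing i j = (P.pairingIn ℤ i j : ℤ) := pr_rc_cc b K i j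

instance : (P' b K).IsCrystallographic where
  exists_value i j := ⟨P.pairingIn ℤ i j, by rw [P'_pairing]; rfl⟩

lemma P'_pairingIn (i j : ι) : (P' b K).pairingIn ℤ i j = P.pairingIn ℤ i j := by
  have h1 : (((P' b K).pairingIn ℤ i j : ℤ) : K) = (P.pairingIn ℤ i j : ℤ) := by
    rw [← P'_pairing b K i j, ← (P' b K).algebraMap_pairingIn ℤ]; rfl
  exact_mod_cast h1

lemma P'_root_support (s : b.support) : (P' b K).root s = Pi.single s 1 := by
  rw [P'_root, rc_support]
  funext t
  rcases eq_or_ne t s with rfl | h
  · simp
  · simp [Pi.single_eq_of_ne h]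

lemma P'_coroot_support (s : b.support) : (P' b K).coroot s = Pi.single s 1 := by
  rw [P'_coroot, cc_support]
  funext t
  rcases eq_or_ne t s with rfl | h
  · simp
  · simp [Pi.single_eq_of_ne h]

/-- relations between roots are the same -/
lemma root_rel_iff (c : ι → ℤ) :
    ∑ i, c i • P.root i = 0 ↔ ∑ i, c i • (P' b K).root i = 0 := by
  have h1 : ∑ i, c i • P.root i = rmap b (∑ i, c i • rc b i) := by
    rw [map_sum]
    refine Finset.sum_congr rfl fun i _ => ?_
    rw [map_zsmul, rmap_rc]
  rw [h1, map_eq_zero_iff _ (rmap_injective b)]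
  constructor
  · intro h
    funext s
    have := congrFun h s
    simp only [Finset.sum_apply, Pi.smul_apply, smul_eq_mul, Pi.zero_apply] at this
    have h2 : ((∑ i, c i * rc b i s : ℤ) : K) = 0 := by rw [this]; simp
    simp only [Finset.sum_apply, P'_root, Pi.zero_apply, zsmul_eq_mul, Pi.mul_apply,
      Pi.intCast_apply]
    push_cast at h2
    exact h2
  · intro h
    funext s
    have := congrFun h s
    simp only [Finset.sum_apply, P'_root, Pi.zero_apply, zsmul_eq_mul, Pi.mul_apply,
      Pi.intCast_apply] at this
    simp only [Finset.sum_apply, Pi.smul_apply, smul_eq_mul, Pi.zero_apply]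
    exact_mod_cast this

instance : (P' b K).IsRootSystem where
  span_root_eq_top := by
    rw [eq_top_iff]
    rintro x -
    rw [← Finset.univ_sum_single x]
    refine Submodule.sum_mem _ fun s _ => ?_
    have : (Pi.single s (x s) : b.support → K) = x s • (P' b K).root s := by
      rw [P'_root_support, ← Pi.single_smul]; simp
    rw [this]
    exact Submodule.smul_mem _ _ (Submodule.subset_span ⟨s, rfl⟩)
  span_coroot_eq_top := by
    rw [eq_top_iff]
    rintro x -
    rw [← Finset.univ_sum_single x]
    refine Submodule.sum_mem _ fun s _ => ?_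
    have : (Pi.single s (x s) : b.support → K) = x s • (P' b K).coroot s := by
      rw [P'_coroot_support, ← Pi.single_smul]; simp
    rw [this]
    exact Submodule.smul_mem _ _ (Submodule.subset_span ⟨s, rfl⟩)

lemma linearIndependent_iff (i j : ι) :
    LinearIndependent k ![P.root i, P.root j] ↔
      LinearIndependent K ![(P' b K).root i, (P' b K).root j] := by
  have h1 : LinearIndependent K ![(P' b K).root i, (P' b K).root j] ↔
      LinearIndependent ℤ ![rc b i, rc b j] := by
    have h0 := linearIndependent_algebraMap_comp_iff (R := ℤ) (S := K) (v := ![rc b i, rc b j])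
    have : (fun t : Fin 2 => algebraMap ℤ K ∘ (![rc b i, rc b j] t)) =
        ![(P' b K).root i, (P' b K).root j] := by
      funext t
      fin_cases t <;> rfl
    rwa [this] at h0
  have h2 : LinearIndependent k ![(P' b k).root i, (P' b k).root j] ↔
      LinearIndependent ℤ ![rc b i, rc b j] := by
    have h0 := linearIndependent_algebraMap_comp_iff (R := ℤ) (S := k) (v := ![rc b i, rc b j])
    have : (fun t : Fin 2 => algebraMap ℤ k ∘ (![rc b i, rc b j] t)) =
        ![(P' b k).root i, (P' b k).root j] := by
      funext t
      fin_cases t <;> rfl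
    rwa [this] at h0
  rw [h1, ← h2]
  -- the linear map `k^s → M`
  let L : (b.support → k) →ₗ[k] M := Fintype.linearCombination k (fun s : b.support => P.root s)
  have hL : Function.Injective L := by
    rw [injective_iff_map_eq_zero]
    intro c hc
    have hli : LinearIndependent k (fun s : b.support => P.root s) := b.linearIndepOn_root
    funext s
    exact Fintype.linearIndependent_iff.1 hli c hc s
  have hLr : ∀ i, L ((P' b k).root i) = P.root i := by
    intro i
    rw [← rc_spec b i]
    simp only [L, Fintype.linearCombination_apply, P'_root]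
    refine Finset.sum_congr rfl fun s _ => ?_
    rw [Int.cast_smul_eq_zsmul]
  have : ![P.root i, P.root j] = L ∘ ![(P' b k).root i, (P' b k).root j] := by
    funext t
    fin_cases t
    · exact (hLr i).symm
    · exact (hLr j).symm
  rw [this]
  exact L.linearIndependent_iff (LinearMap.ker_eq_bot.2 hL)

/-- relation `γ = x α + y β` -/
lemma rel_iff (i j l : ι) (x y : ℤ) :
    P.root l = x • P.root i + y • P.root j ↔
      (P' b K).root l = x • (P' b K).root i + y • (P' b K).root j := by
  have h1 : P.root l = x • P.root i + y • P.root j ↔ rc b l = x • rc b i + y • rc b j := by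
    rw [← (rmap_injective b).eq_iff, map_add, map_zsmul, map_zsmul, rmap_rc, rmap_rc, rmap_rc]
  rw [h1]
  constructor
  · intro h
    rw [P'_root, h]
    funext s
    simp [P'_root]
  · intro h
    funext s
    have := congrFun h s
    simp only [P'_root, Pi.add_apply, zsmul_eq_mul, Pi.mul_apply,
      Pi.intCast_apply] at this
    simp only [Pi.add_apply, Pi.smul_apply, smul_eq_mul]
    exact_mod_cast this

instance : (P' b K).IsReduced where
  eq_or_eq_neg i j h := by
    rw [← linearIndependent_iff] at h
    rcases RootPairing.IsReduced.eq_or_eq_neg (P := P) i j h with h1 | h1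
    · left
      have := (rel_iff b K j j i 1 0).1 (by simpa using h1)
      simpa using this
    · right
      have := (rel_iff b K j j i (-1) 0).1 (by simpa using h1)
      simpa using this

lemma nonempty_support : Nonempty b.support := by
  by_contra h
  rw [not_nonempty_iff] at h
  have h1 : Nontrivial M := RootPairing.IsIrreducible.nontrivial P
  obtain ⟨x, hx⟩ := exists_ne (0 : M)
  have h2 := RootPairing.IsRootSystem.span_root_eq_top (P := P)
  have h3 : Set.range P.root ⊆ {0} := by
    rintro _ ⟨i, rfl⟩
    rw [← rc_spec b i]
    simp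
  have h4 : Submodule.span k (Set.range P.root) ≤ ⊥ := by
    rw [Submodule.span_le]
    intro y hy
    simpa using h3 hy
  rw [h2] at h4
  exact hx (by simpa using h4 (Submodule.mem_top (x := x)))

instance : (P' b K).IsIrreducible := by
  have h0 := nonempty_support b
  refine RootPairing.IsIrreducible.mk' _ fun q hq hq0 => ?_
  -- some root lies in q
  have hrefl : ∀ i, ∀ x ∈ q, x - (P' b K).toLinearMap x ((P' b K).coroot i) • (P' b K).root i ∈ q := by
    intro i x hx
    have := (Module.End.mem_invtSubmodule _).1 (hq i) hx
    simpa [RootPairing.reflection_apply] using this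
  have hex : ∃ i, (P' b K).root i ∈ q := by
    by_contra hcon
    push Not at hcon
    apply hq0
    rw [eq_bot_iff]
    intro x hx
    have h1 : ∀ i, (P' b K).toLinearMap x ((P' b K).coroot i) = 0 := by
      intro i
      by_contra hne
      apply hcon i
      have h2 := Submodule.sub_mem _ hx (hrefl i x hx)
      rw [sub_sub_cancel] at h2
      exact (Submodule.smul_mem_iff _ hne).1 h2
    have h2 : ∀ y, (P' b K).toLinearMap x y = 0 := by
      intro y
      have hy : y ∈ Submodule.span K (Set.range (P' b K).coroot) := by
        rw [RootPairing.IsRootSystem.span_coroot_eq_top]; trivial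
      induction hy using Submodule.span_induction with
      | mem y hy => obtain ⟨i, rfl⟩ := hy; exact h1 i
      | zero => simp
      | add y z _ _ hy hz => rw [map_add, hy, hz, add_zero]
      | smul c y _ hy => rw [map_smul, hy, smul_zero]
    have h3 : (P' b K).toLinearMap.toPerfPair x = 0 := LinearMap.ext h2
    exact (LinearEquiv.map_eq_zero_iff _).1 h3
  obtain ⟨i0, hi0⟩ := hex
  set S : Set ι := {i | (P' b K).root i ∈ q} with hS
  have hstep : ∀ i ∈ S, ∀ j, P.pairing i j ≠ 0 → j ∈ S := by
    intro i hi j hij
    have h2 := Submodule.sub_mem _ hi (hrefl j _ hi)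
    rw [sub_sub_cancel] at h2
    refine (Submodule.smul_mem_iff _ ?_).1 h2
    rw [(P' b K).root_coroot_eq_pairing, P'_pairing]
    intro h3
    apply hij
    rw [← P.algebraMap_pairingIn ℤ]
    have : P.pairingIn ℤ i j = 0 := by exact_mod_cast h3
    rw [this]; simp
  set q0 : Submodule k M := Submodule.span k (P.root '' S) with hq0'
  have hq0top : q0 = ⊤ := by
    apply RootPairing.IsIrreducible.eq_top_of_invtSubmodule_reflection (P := P) q0
    · intro j
      rw [Module.End.mem_invtSubmodule, hq0', Submodule.span_le]
      rintro _ ⟨i, hi, rfl⟩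
      change P.reflection j (P.root i) ∈ Submodule.span k (P.root '' S)
      rw [RootPairing.reflection_apply_root]
      by_cases hij : P.pairing i j = 0
      · rw [hij, zero_smul, sub_zero]
        exact Submodule.subset_span ⟨i, hi, rfl⟩
      · exact Submodule.sub_mem _ (Submodule.subset_span ⟨i, hi, rfl⟩)
          (Submodule.smul_mem _ _ (Submodule.subset_span ⟨j, hstep i hi j hij, rfl⟩))
    · intro h
      have h1 : P.root i0 ∈ q0 := Submodule.subset_span ⟨i0, hi0, rfl⟩
      rw [h] at h1
      exact P.ne_zero i0 (by simpa using h1)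
  have hall : ∀ j, j ∈ S := by
    intro j
    by_contra hj
    have h1 : ∀ i ∈ S, P.pairing i j = 0 := by
      intro i hi
      by_contra hne
      exact hj (hstep i hi j hne)
    have h2 : ∀ x : M, P.toLinearMap x (P.coroot j) = 0 := by
      intro x
      have hx : x ∈ q0 := by rw [hq0top]; trivial
      rw [hq0'] at hx
      induction hx using Submodule.span_induction with
      | mem x hx => obtain ⟨i, hi, rfl⟩ := hx; exact h1 i hi
      | zero => simp
      | add y z _ _ hy hz => rw [map_add, LinearMap.add_apply, hy, hz, add_zero]
      | smul c y _ hy => rw [map_smul, LinearMap.smul_apply, hy, smul_zero]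
    have h3 := h2 (P.root j)
    rw [P.root_coroot_two] at h3
    exact two_ne_zero h3
  rw [eq_top_iff, ← RootPairing.IsRootSystem.span_root_eq_top (P := P' b K), Submodule.span_le]
  rintro _ ⟨j, rfl⟩
  exact hall j

lemma eq_sum_iff (i : ι) (c : b.support → ℤ) :
    P.coroot i = ∑ s, c s • P.coroot s ↔
      (P' b K).coroot i = ∑ s : b.support, c s • (P' b K).coroot s := by
  have h1 : P.coroot i = ∑ s, c s • P.coroot s ↔ cc b i = c := by
    rw [← (cmap_injective b).eq_iff, cmap_cc]
    rfl
  have h2 : ∑ s : b.support, c s • (P' b K).coroot s = fun s => (c s : K) := by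
    funext t
    simp only [Finset.sum_apply, Pi.smul_apply, P'_coroot_support]
    rw [Finset.sum_eq_single t]
    · simp
    · intro s _ hs
      simp [Pi.single_eq_of_ne hs.symm]
    · simp
  rw [h1, h2, P'_coroot]
  constructor
  · rintro rfl; rfl
  · intro h
    funext s
    have h3 : ((cc b i s : ℤ) : K) = ((c s : ℤ) : K) := congrFun h s
    exact_mod_cast h3

/-- casting coordinates to `K` -/
def castHom : (b.support → ℤ) →+ (b.support → K) where
  toFun c s := (c s : K)
  map_zero' := by funext s; simp
  map_add' x y := by funext s; simp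

lemma closure_aux {X Y : Type*} [AddCommMonoid X] [AddCommMonoid Y] (f : (b.support → ℤ) →+ X)
    (hf : Function.Injective f) (g : (b.support → ℤ) →+ Y) (c : b.support → ℤ)
    (hc : f c ∈ AddSubmonoid.closure (f '' Set.range fun s : b.support => Pi.single s (1 : ℤ))) :
    g c ∈ AddSubmonoid.closure (g '' Set.range fun s : b.support => Pi.single s (1 : ℤ)) := by
  rw [← AddMonoidHom.map_mclosure] at hc ⊢
  obtain ⟨d, hd, hdc⟩ := hc
  rw [hf hdc] at hd
  exact ⟨c, hd, rfl⟩

lemma image_root :
    P.root '' b.support = rmap b '' Set.range fun s : b.support => Pi.single s (1 : ℤ) := by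
  ext x
  constructor
  · rintro ⟨s, hs, rfl⟩
    exact ⟨_, ⟨⟨s, hs⟩, rfl⟩, by
      change rmap b (Pi.single (⟨s, hs⟩ : b.support) 1) = _
      rw [← rc_support, rmap_rc]⟩
  · rintro ⟨_, ⟨s, rfl⟩, rfl⟩
    exact ⟨s, s.2, by
      change _ = rmap b (Pi.single s 1)
      rw [← rc_support, rmap_rc]⟩

lemma image_coroot :
    P.coroot '' b.support = cmap b '' Set.range fun s : b.support => Pi.single s (1 : ℤ) := by
  ext x
  constructor
  · rintro ⟨s, hs, rfl⟩
    exact ⟨_, ⟨⟨s, hs⟩, rfl⟩, by
      change cmap b (Pi.single (⟨s, hs⟩ : b.support) 1) = _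
      rw [← cc_support, cmap_cc]⟩
  · rintro ⟨_, ⟨s, rfl⟩, rfl⟩
    exact ⟨s, s.2, by
      change _ = cmap b (Pi.single s 1)
      rw [← cc_support, cmap_cc]⟩

lemma image_root' :
    (P' b K).root '' b.support =
      castHom b K '' Set.range fun s : b.support => Pi.single s (1 : ℤ) := by
  ext x
  constructor
  · rintro ⟨s, hs, rfl⟩
    exact ⟨_, ⟨⟨s, hs⟩, rfl⟩, by
      change castHom b K (Pi.single (⟨s, hs⟩ : b.support) 1) = _
      rw [← rc_support]; rfl⟩
  · rintro ⟨_, ⟨s, rfl⟩, rfl⟩
    exact ⟨s, s.2, by
      change _ = castHom b K (Pi.single s 1)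
      rw [← rc_support]; rfl⟩

lemma image_coroot' :
    (P' b K).coroot '' b.support =
      castHom b K '' Set.range fun s : b.support => Pi.single s (1 : ℤ) := by
  ext x
  constructor
  · rintro ⟨s, hs, rfl⟩
    exact ⟨_, ⟨⟨s, hs⟩, rfl⟩, by
      change castHom b K (Pi.single (⟨s, hs⟩ : b.support) 1) = _
      rw [← cc_support]; rfl⟩
  · rintro ⟨_, ⟨s, rfl⟩, rfl⟩
    exact ⟨s, s.2, by
      change _ = castHom b K (Pi.single s 1)
      rw [← cc_support]; rfl⟩

/-- the base of `P'` -/
def b' : (P' b K).Base where
  support := b.support
  linearIndepOn_root := by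
    have : (fun s : (b.support : Set ι) => (P' b K).root s) =
        fun s : b.support => (Pi.single s 1 : b.support → K) := by
      funext s
      exact P'_root_support b K s
    change LinearIndependent K (fun s : (b.support : Set ι) => (P' b K).root s)
    rw [this]
    exact Pi.linearIndependent_single_one b.support K
  linearIndepOn_coroot := by
    have : (fun s : (b.support : Set ι) => (P' b K).coroot s) =
        fun s : b.support => (Pi.single s 1 : b.support → K) := by
      funext s
      exact P'_coroot_support b K s
    change LinearIndependent K (fun s : (b.support : Set ι) => (P' b K).coroot s)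
    rw [this]
    exact Pi.linearIndependent_single_one b.support K
  root_mem_or_neg_mem i := by
    rcases b.root_mem_or_neg_mem i with h | h
    · left
      rw [image_root, ← rmap_rc b i] at h
      rw [image_root']
      exact closure_aux b (rmap b) (rmap_injective b) (castHom b K) _ h
    · right
      rw [image_root, ← rmap_rc b i, ← map_neg] at h
      rw [image_root']
      have := closure_aux b (rmap b) (rmap_injective b) (castHom b K) _ h
      rwa [map_neg] at this
  coroot_mem_or_neg_mem i := by
    rcases b.coroot_mem_or_neg_mem i with h | h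
    · left
      rw [image_coroot, ← cmap_cc b i] at h
      rw [image_coroot']
      exact closure_aux b (cmap b) (cmap_injective b) (castHom b K) _ h
    · right
      rw [image_coroot, ← cmap_cc b i, ← map_neg] at h
      rw [image_coroot']
      have := closure_aux b (cmap b) (cmap_injective b) (castHom b K) _ h
      rwa [map_neg] at this

lemma chainBot_eq {i j : ι} (h : LinearIndependent k ![P.root i, P.root j]) :
    (P' b K).chainBotCoeff i j = P.chainBotCoeff i j := by
  have h' := (linearIndependent_iff b K i j).1 h
  have key : ∀ n : ℕ, n ≤ (P' b K).chainBotCoeff i j ↔ n ≤ P.chainBotCoeff i j := by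
    intro n
    rw [← RootPairing.root_sub_nsmul_mem_range_iff_le_chainBotCoeff h,
      ← RootPairing.root_sub_nsmul_mem_range_iff_le_chainBotCoeff h']
    constructor
    · rintro ⟨l, hl⟩
      refine ⟨l, ?_⟩
      have := (rel_iff b K i j l (-n) 1).2 (by rw [hl]; simp; abel)
      rw [this]; simp; abel
    · rintro ⟨l, hl⟩
      refine ⟨l, ?_⟩
      have := (rel_iff b K i j l (-n) 1).1 (by rw [hl]; simp; abel)
      rw [this]; simp; abel
  exact le_antisymm ((key _).1 le_rfl) ((key _).2 le_rfl)

/-- transfer of Chevalley bases -/
def transfer {L : Type*} [LieRing L] (B : ChevalleyBasis (P' b K) (b' b K) L) :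
    ChevalleyBasis P b L where
  basis := B.basis
  lie_h_h := B.lie_h_h
  lie_h_e i α := by
    have := B.lie_h_e i α
    rw [P'_pairingIn] at this
    exact this
  lie_e_neg α β c hβ hc := by
    refine B.lie_e_neg α β c ?_ ?_
    · have := (rel_iff b K α α β (-1) 0).1 (by simpa using hβ)
      simpa using this
    · exact (eq_sum_iff b K α c).1 hc
  lie_e_e α β γ h := by
    have h1 := (rel_iff b K α β γ 1 1).1 (by simpa using h)
    have h2 := B.lie_e_e α β γ (by simpa using h1)
    rw [chainBot_eq b K (P.linearIndependent_of_add_mem_range_root' ⟨γ, h⟩)] at h2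
    exact h2
  lie_e_e_eq_zero α β h1 h2 := by
    refine B.lie_e_e_eq_zero α β ?_ ?_
    · rintro ⟨l, hl⟩
      apply h1
      refine ⟨l, ?_⟩
      have := (rel_iff b K α β l 1 1).2 (by simpa using hl)
      simpa using this
    · intro h
      apply h2
      have h3 : (P' b K).root α = (-1 : ℤ) • (P' b K).root β + (0 : ℤ) • (P' b K).root β := by
        rw [neg_one_zsmul, zero_smul, add_zero]; exact eq_neg_of_add_eq_zero_left h
      have := (rel_iff b K β β α (-1) 0).2 h3
      rw [this, neg_one_zsmul, zero_smul, add_zero, neg_add_cancel]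

end BaseChange

/-- **Existence of Chevalley bases** (Chevalley 1955): every irreducible reduced crystallographic
root system `P` over a field of characteristic zero, with base `b`, has a Chevalley basis. -/
theorem exists_chevalleyBasis_of_charZero {ι : Type u} {k M N : Type*} [Fintype ι] [DecidableEq ι]
    [Field k] [CharZero k] [AddCommGroup M] [Module k M] [AddCommGroup N] [Module k N]
    {P : RootPairing ι k M N} [P.IsReduced] [P.IsCrystallographic] [P.IsIrreducible]
    [P.IsRootSystem] (b : P.Base) :
    ∃ (L : Type u) (_ : LieRing L), Nonempty (ChevalleyBasis P b L) := by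
  obtain ⟨L, i, ⟨B⟩⟩ := exists_chevalleyBasis (b' b ℂ)
  exact ⟨L, i, ⟨transfer b ℂ B⟩⟩

end Pool.Agent.MP_467141.CB
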