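import Mathlib

/-!
# MP_467141: Chevalley groups from a Chevalley basis

Everything the statement needs (apart from `IsCompositionFactor`, which is in
`Pool.Agent.Lib.MP_467141_al.Defs`).

* `ChevalleyBasis P b L`: a Chevalley basis of the Lie ring `L`, relative to the root system `P`
  with base (simple roots) `b`.
* `ChevalleyBasis.dpow B α j`: the integer matrix of `(ad e_α)^j / j!` in the Chevalley basis.
* `ChevalleyBasis.xMat B R α t`: the matrix `x_α(t) = ∑_j t^j (ad e_α)^j / j!` over `R`.
* `ChevalleyBasis.group B K`: the (adjoint) Chevalley group over the field `K`, i.e. the subgroup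
  of `GL(K ⊗ L)` generated by all `x_α(t)`.
* `ChevalleyBasis.groupMap`: the standard embedding `G(K) → G(K')` for a field extension `K'/K`.
-/

open Matrix

noncomputable section

namespace Pool.Agent.MP_467141

variable {ι k M N : Type*} [Field k] [CharZero k] [AddCommGroup M] [Module k M]
  [AddCommGroup N] [Module k N] [Fintype ι] [DecidableEq ι]

/-- A *Chevalley basis* of a Lie ring `L`, of type the root system `P` (over a field `k` of
characteristic zero) with base `b` (whose elements are the simple roots).

`L` is a free abelian group with basis `h_i` (`i` a simple root; `basis (Sum.inl i)`) and `e_α`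
(`α` a root; `basis (Sum.inr α)`) and its bracket satisfies
`[h_i, h_j] = 0`, `[h_i, e_α] = ⟨α, α_i^∨⟩ e_α`, `[e_α, e_{-α}] = h_α` (the coroot `α^∨` written
through the simple coroots), `[e_α, e_β] = ± (r+1) e_{α+β}` if `α + β` is a root, where `r` is the
largest integer with `β - rα` a root, and `[e_α, e_β] = 0` if `α + β` is neither `0` nor a root.

So `ℂ ⊗ L` is the semisimple complex Lie algebra of type `P` and `L` is the integral form spanned
by a Chevalley basis. -/
structure ChevalleyBasis (P : RootPairing ι k M N) [P.IsCrystallographic] (b : P.Base)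
    (L : Type*) [LieRing L] where
  /-- the basis `(h_i)_{i simple}, (e_α)_{α root}` -/
  basis : Module.Basis (b.support ⊕ ι) ℤ L
  lie_h_h : ∀ i j : b.support, ⁅basis (.inl i), basis (.inl j)⁆ = 0
  lie_h_e : ∀ (i : b.support) (α : ι),
    ⁅basis (.inl i), basis (.inr α)⁆ = P.pairingIn ℤ α i • basis (.inr α)
  lie_e_neg : ∀ (α β : ι) (c : b.support → ℤ), P.root β = -P.root α →
    P.coroot α = ∑ i, c i • P.coroot i →
    ⁅basis (.inr α), basis (.inr β)⁆ = ∑ i, c i • basis (.inl i)
  lie_e_e : ∀ α β γ : ι, P.root γ = P.root α + P.root β →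
    ⁅basis (.inr α), basis (.inr β)⁆ = ((P.chainBotCoeff α β + 1 : ℕ) : ℤ) • basis (.inr γ) ∨
    ⁅basis (.inr α), basis (.inr β)⁆ = -(((P.chainBotCoeff α β + 1 : ℕ) : ℤ) • basis (.inr γ))
  lie_e_e_eq_zero : ∀ α β : ι, P.root α + P.root β ∉ Set.range P.root →
    P.root α + P.root β ≠ 0 → ⁅basis (.inr α), basis (.inr β)⁆ = 0

namespace ChevalleyBasis

variable {P : RootPairing ι k M N} [P.IsCrystallographic] {b : P.Base} {L : Type*} [LieRing L]
  (B : ChevalleyBasis P b L)

/-- The integer matrix of `ad e_α` in the Chevalley basis. -/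
def adE (α : ι) : Matrix (b.support ⊕ ι) (b.support ⊕ ι) ℤ :=
  LinearMap.toMatrix B.basis B.basis
    ((LieAlgebra.ad ℤ L (B.basis (.inr α)) : Module.End ℤ L) : L →ₗ[ℤ] L)

/-- The integer matrix of `(ad e_α)^j / j!` in the Chevalley basis: all entries of `(ad e_α)^j`
are divisible by `j!` (`ChevalleyBasis.factorial_smul_dpow` in `T2.lean`), and we divide them. -/
def dpow (α : ι) (j : ℕ) : Matrix (b.support ⊕ ι) (b.support ⊕ ι) ℤ :=
  (B.adE α ^ j).map fun z => z / (j.factorial : ℤ)

/-- The matrix of `x_α(t) = exp (t ad e_α) = ∑_j t^j (ad e_α)^j / j!` over the commutative ring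
`R`, in the Chevalley basis of `R ⊗ L`. (The sum stops at `j = 3` because `(ad e_α)^4 = 0`.) -/
def xMat (R : Type*) [CommRing R] (α : ι) (t : R) :
    Matrix (b.support ⊕ ι) (b.support ⊕ ι) R :=
  ∑ j ∈ Finset.range 4, t ^ j • (B.dpow α j).map (Int.castRingHom R)

/-- The (adjoint) Chevalley group over the field `K`: the group of automorphisms of `K ⊗ L`
generated by all `x_α(t)`, `α` a root, `t ∈ K` (as a group of matrices with respect to the
Chevalley basis). -/
def group (K : Type*) [Field K] : Subgroup (GL (b.support ⊕ ι) K) :=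
  Subgroup.closure {g | ∃ (α : ι) (t : K), (g : Matrix _ _ K) = B.xMat K α t}

lemma map_xMat {R S : Type*} [CommRing R] [CommRing S] (f : R →+* S) (α : ι) (t : R) :
    (B.xMat R α t).map f = B.xMat S α (f t) := by
  ext i j
  simp [xMat, Matrix.sum_apply, Matrix.map_apply, Matrix.smul_apply]

lemma map_mem_group {K K' : Type*} [Field K] [Field K'] (f : K →+* K')
    (g : GL (b.support ⊕ ι) K) (hg : g ∈ B.group K) :
    Matrix.GeneralLinearGroup.map f g ∈ B.group K' := by
  have : (B.group K).map (Matrix.GeneralLinearGroup.map f) ≤ B.group K' := by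
    rw [group, MonoidHom.map_closure, Subgroup.closure_le]
    rintro _ ⟨g, ⟨α, t, h⟩, rfl⟩
    refine Subgroup.subset_closure ⟨α, f t, ?_⟩
    rw [← B.map_xMat f, ← h]
    rfl
  exact this ⟨g, hg, rfl⟩

/-- The standard embedding `G(K) → G(K')` induced by a field extension `K'/K`
(apply the inclusion to the matrix entries); it maps `x_α(t)` to `x_α(t)`. -/
def groupMap (K K' : Type*) [Field K] [Field K'] [Algebra K K'] : B.group K →* B.group K' :=
  ((Matrix.GeneralLinearGroup.map (algebraMap K K')).comp (B.group K).subtype).codRestrict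
    (B.group K') fun g => B.map_mem_group (algebraMap K K') (g : GL (b.support ⊕ ι) K) g.2

end ChevalleyBasis

end Pool.Agent.MP_467141
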