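import Pool.Agent.Lib.MP_467141_H17.T4D

/-! # T4: commutator formula -/

open Matrix

set_option linter.unusedSectionVars false

noncomputable section

namespace Pool.Agent.MP_467141

universe w

variable {ι k M N : Type*} [Field k] [CharZero k] [AddCommGroup M] [Module k M]
  [AddCommGroup N] [Module k N] [Fintype ι] [DecidableEq ι]

namespace ChevalleyBasis

variable {P : RootPairing ι k M N} [P.IsCrystallographic] [P.IsReduced] {b : P.Base}
  {L : Type*} [LieRing L] (B : ChevalleyBasis P b L)

/-- the commutator formula, when `Good P α β` -/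
theorem conj_of_good {α β : ι} (hβ : LinearIndependent k ![P.root α, P.root β])
    (hg : T4.Good P α β) :
    ∃ l : List (ι × ℤ × ℕ × ℕ), (∀ q ∈ l, 1 ≤ q.2.2.1 ∧ 1 ≤ q.2.2.2 ∧
        P.root q.1 = q.2.2.1 • P.root α + q.2.2.2 • P.root β) ∧
      ∀ (R : Type w) [CommRing R] (t u : R), B.x R α t * B.x R β u * B.x R α (-t) =
        B.x R β u * B.cword R t u l := by
  classical
  set m := P.chainTopCoeff α β with hm
  have hex : ∀ i : ℕ, ∃ δ : ι, i ≤ m → P.root δ = P.root β + i • P.root α := by
    intro i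
    by_cases hi : i ≤ m
    · rw [hm, ← P.root_add_nsmul_mem_range_iff_le_chainTopCoeff hβ] at hi
      obtain ⟨δ, hδ⟩ := hi
      exact ⟨δ, fun _ => hδ⟩
    · exact ⟨β, fun h => absurd h hi⟩
  choose δ hδ using hex
  have hδ0 : δ 0 = β := by
    have := hδ 0 (Nat.zero_le _)
    rw [zero_smul, add_zero] at this
    exact P.root.injective this
  set l0 : List (ι × ℤ × ℕ × ℕ) := (List.range m).map fun i =>
    (δ (i + 1), B.dpow α (i + 1) (.inr (δ (i + 1))) (.inr β), i + 1, 1) with hl0
  have hl0' : ((List.range (m + 1)).map fun i =>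
      (δ i, B.dpow α i (.inr (δ i)) (.inr β), i, 1)) = (β, 1, 0, 1) :: l0 := by
    rw [List.range_succ_eq_map, List.map_cons, List.map_map, hδ0, dpow_zero, Matrix.one_apply_eq]
    rfl
  have hl0mem : ∀ q ∈ l0, 1 ≤ q.2.2.1 ∧ 1 ≤ q.2.2.2 ∧
        P.root q.1 = q.2.2.1 • P.root α + q.2.2.2 • P.root β := by
    intro q hq
    rw [hl0, List.mem_map] at hq
    obtain ⟨i, hi, rfl⟩ := hq
    rw [List.mem_range] at hi
    refine ⟨by simp, le_rfl, ?_⟩
    rw [hδ (i + 1) (by omega)]
    module
  by_cases h : ∃ n : ℕ, T4.Mem P α β n 2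
  · obtain ⟨n, ε, hε⟩ := h
    obtain ⟨c, hc⟩ := B.class2 hg hβ m rfl δ hδ hε
    refine ⟨l0 ++ [(ε, c, n, 2)], ?_, ?_⟩
    · intro q hq
      rw [List.mem_append, List.mem_singleton] at hq
      rcases hq with hq | rfl
      · exact hl0mem q hq
      · refine ⟨?_, by simp, ?_⟩
        · change 1 ≤ n
          by_contra hn
          have hn : n = 0 := by omega
          subst hn
          have := T4.not_mem_mul (T4.mem_zero_one (P := P) (α := α) (β := β)) 2 le_rfl
          exact this ⟨ε, by rw [hε]; simp⟩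
        · change P.root ε = n • P.root α + 2 • P.root β
          rw [hε, natCast_zsmul]
          norm_cast
    · intro R _ t u
      rw [← cword_conj, hc, hl0', List.cons_append, cword_cons]
      congr 1
      simp
  · refine ⟨l0, hl0mem, ?_⟩
    intro R _ t u
    rw [B.x_conj_x_of_string' R hβ m rfl δ hδ, prod_eq_cword, hl0', cword_cons]
    · congr 1
      simp
    · intro i hi
      exact h ⟨i, T4.mem_iff_two.2 hi⟩

/-- root subgroups commute if `α + β` is neither `0` nor a root -/
theorem x_comm_x (R : Type w) [CommRing R] {α β : ι}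
    (h : P.root α + P.root β ∉ Set.range P.root)
    (h0 : P.root α + P.root β ≠ 0) (t u : R) :
    B.x R α t * B.x R β u = B.x R β u * B.x R α t := B.x_comm_x' R h h0 t u

/-- the only root `iα + jβ`, `i,j ≥ 1`, is `γ = α + β` -/
theorem x_conj_x_of_add (R : Type w) [CommRing R] {α β γ : ι}
    (h : P.root γ = P.root α + P.root β)
    (h1 : (2 : ℕ) • P.root α + P.root β ∉ Set.range P.root)
    (h2 : P.root α + (2 : ℕ) • P.root β ∉ Set.range P.root) (t u : R) :
    B.x R α t * B.x R β u * B.x R α (-t) =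
      B.x R β u * B.x R γ ((B.adE α (.inr γ) (.inr β) : ℤ) * t * u) :=
  B.x_conj_x_of_add' R h h1 h2 t u

/-- no root of the form `iα + 2β`, `iα + 3β` (`i ≥ 0`): `x_α(t) x_β(u) x_α(-t)` is the product
of the `x_{β+iα}(c_i t^i u)`; here `δ i` is (the index of) the root `β + iα` if `i ≤ m` -/
theorem x_conj_x_of_string (R : Type w) [CommRing R] {α β : ι}
    (hβ : LinearIndependent k ![P.root α, P.root β])
    (m : ℕ) (hm : m = P.chainTopCoeff α β) (δ : ℕ → ι)
    (hδ : ∀ i ≤ m, P.root (δ i) = P.root β + i • P.root α)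
    (h2 : ∀ i : ℕ, (2 : ℕ) • P.root β + i • P.root α ∉ Set.range P.root) (t u : R) :
    B.x R α t * B.x R β u * B.x R α (-t) =
      ((List.range (m + 1)).map fun i =>
        B.x R (δ i) ((B.dpow α i (.inr (δ i)) (.inr β) : ℤ) * t ^ i * u)).prod :=
  B.x_conj_x_of_string' R hβ m hm δ hδ h2 t u

/-- the commutator formula, weak form, all types -/
theorem x_conj_x {α β : ι} (hβ : LinearIndependent k ![P.root α, P.root β]) :
    ∃ l : List (ι × ℤ × ℕ × ℕ), (∀ q ∈ l, 1 ≤ q.2.2.2 ∧
        P.root q.1 = q.2.2.1 • P.root α + q.2.2.2 • P.root β) ∧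
      ∀ (R : Type w) [CommRing R] (t u : R), B.x R α t * B.x R β u * B.x R α (-t) =
        (l.map fun q => B.x R q.1 ((q.2.1 : R) * t ^ q.2.2.1 * u ^ q.2.2.2)).prod := by
  rcases T4.good_or_good hβ with hg | hg
  · obtain ⟨l, hl, hl'⟩ := B.conj_of_good hβ hg
    refine ⟨(β, 1, 0, 1) :: l, ?_, ?_⟩
    · intro q hq
      rw [List.mem_cons] at hq
      rcases hq with rfl | hq
      · simp
      · exact ⟨(hl q hq).2.1, (hl q hq).2.2⟩
    · intro R _ t u
      change _ = B.cword R t u ((β, 1, 0, 1) :: l)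
      rw [hl', cword_cons]
      congr 1
      simp
  · have hβ' : LinearIndependent k ![P.root β, P.root α] := by
      rw [LinearIndependent.pair_symm_iff]; exact hβ
    obtain ⟨l, hl, hl'⟩ := B.conj_of_good hβ' hg
    refine ⟨l.map (fun q => (q.1, (-1) ^ q.2.2.2 * q.2.1, q.2.2.2, q.2.2.1)) ++ [(β, 1, 0, 1)],
      ?_, ?_⟩
    · intro q hq
      rw [List.mem_append, List.mem_singleton, List.mem_map] at hq
      rcases hq with ⟨q', hq', rfl⟩ | rfl
      · refine ⟨(hl q' hq').1, ?_⟩
        rw [(hl q' hq').2.2, add_comm]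
      · simp
    · intro R _ t u
      have h1 := hl' R u (-t)
      have h2 : B.cword R t u (l.map (fun q => (q.1, (-1) ^ q.2.2.2 * q.2.1, q.2.2.2, q.2.2.1)) ++
          [(β, 1, 0, 1)]) = B.cword R u (-t) l * B.x R β u := by
        rw [cword_append, cword, List.map_map]
        congr 1
        · rw [cword]
          congr 1
          refine List.map_congr_left fun q _ => ?_
          rw [Function.comp_apply]
          congr 1
          push_cast
          rw [neg_pow t]
          ring
        · simp [cword]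
      change _ = B.cword R t u _
      rw [h2]
      have h3 : B.cword R u (-t) l = (B.x R α (-t))⁻¹ * (B.x R β u * B.x R α (-t) * B.x R β (-u)) := by
        rw [h1, inv_mul_cancel_left]
      rw [h3, B.x_neg R β u, B.x_neg R α t, inv_inv]
      group

end ChevalleyBasis

end Pool.Agent.MP_467141
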