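import Pool.Agent.Lib.MP_467141_H17.T3
import Pool.Agent.Lib.MP_467141_H17.T4

/-! # T5: Bruhat decomposition `G = U N U` -/

open Matrix

noncomputable section

namespace Pool.Agent.MP_467141

universe w

variable {ι k M N : Type*} [Field k] [CharZero k] [AddCommGroup M] [Module k M]
  [AddCommGroup N] [Module k N] [Fintype ι] [DecidableEq ι]

section roots

variable {P : RootPairing ι k M N} [P.IsCrystallographic] [P.IsReduced] {b : P.Base}

omit [Fintype ι] [DecidableEq ι] [CharZero k] [P.IsCrystallographic] [P.IsReduced] in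
lemma t5_root_neg (P : RootPairing ι k M N) (α : ι) : P.root (neg P α) = -P.root α := by
  simp [neg]

omit [Fintype ι] [DecidableEq ι] [CharZero k] [P.IsCrystallographic] [P.IsReduced] in
lemma t5_neg_neg (P : RootPairing ι k M N) (α : ι) : neg P (neg P α) = α := by
  apply P.root.injective
  rw [t5_root_neg, t5_root_neg, neg_neg]

omit [Fintype ι] [DecidableEq ι] [P.IsCrystallographic] [P.IsReduced] in
lemma t5_height_neg (α : ι) : b.height (neg P α) = -b.height α :=
  b.height_reflectionPerm_self α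

omit [Fintype ι] [DecidableEq ι] [P.IsCrystallographic] [P.IsReduced] in
lemma t5_isPos_neg_iff {α : ι} : b.IsPos (neg P α) ↔ ¬ b.IsPos α :=
  RootPairing.Base.IsPos.neg_iff_not b α

omit [Fintype ι] [DecidableEq ι] [P.IsCrystallographic] in
lemma t5_linearIndependent {α β : ι} (hα : b.IsPos α) (hβ : b.IsPos β) (hne : β ≠ α) :
    LinearIndependent k ![P.root α, P.root β] := by
  refine RootPairing.IsReduced.linearIndependent P hne.symm fun contra => ?_
  have h1 : α = neg P β := P.root.injective (by rw [t5_root_neg, contra])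
  rw [h1, t5_isPos_neg_iff] at hα
  exact hα hβ

omit [Fintype ι] [DecidableEq ι] [P.IsCrystallographic] in
/-- `iα + jβ` (a root, `j > 0`) is positive and different from `α` if `α` is simple and `β ≠ α`
is positive. -/
lemma t5_isPos_of_combination {α β γ : ι} (hα : α ∈ b.support) (hβ : b.IsPos β) (hne : β ≠ α)
    {i j : ℤ} (hj : 0 < j) (h : P.root γ = i • P.root α + j • P.root β) :
    b.IsPos γ ∧ γ ≠ α := by
  classical
  have hli := t5_linearIndependent (b.isPos_of_mem_support hα) hβ hne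
  rw [LinearIndependent.pair_iff] at hli
  constructor
  · obtain ⟨f, hf₀, hf₁, hf₂⟩ := b.exists_root_eq_sum_int β
    have hf₁ : 0 < f := by
      refine hf₁.resolve_right fun h0 => ?_
      rw [RootPairing.Base.isPos_iff, RootPairing.Base.height_eq_sum hf₂] at hβ
      have := Finset.sum_nonpos (s := b.support) (f := f) fun i _ => h0.le i
      omega
    obtain ⟨s, hs, hsα, hfs⟩ : ∃ s ∈ b.support, s ≠ α ∧ f s ≠ 0 := by
      by_contra! hcon
      have h2 : P.root β = f α • P.root α := by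
        rw [hf₂]
        refine Finset.sum_eq_single_of_mem α hα fun s hs hsα => ?_
        rw [hcon s hs hsα, zero_smul]
      have h3 := hli (f α : k) (-1) (by
        rw [h2, Int.cast_smul_eq_zsmul]
        module)
      simp at h3
    have hfs : 0 < f s := lt_of_le_of_ne (hf₁.le s) hfs.symm
    let g : ι → ℤ := fun s => j * f s + if s = α then i else 0
    have hg : P.root γ = ∑ s ∈ b.support, g s • P.root s := by
      simp only [g, add_smul, Finset.sum_add_distrib, ite_smul, zero_smul]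
      rw [Finset.sum_ite_eq' , if_pos hα, h, hf₂, Finset.smul_sum]
      simp only [mul_smul]
      rw [add_comm]
    have hgs : Function.support g ⊆ b.support := by
      intro s hs
      by_contra hsn
      apply hs
      have h1 : f s = 0 := by
        by_contra h1
        exact hsn (hf₀ h1)
      have h2 : s ≠ α := fun h2 => hsn (h2 ▸ hα)
      simp [g, h1, h2]
    have hg0 : 0 < g := by
      refine (b.pos_or_neg_of_sum_smul_root_mem g ⟨γ, hg⟩ hgs).resolve_right fun h0 => ?_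
      have h1 := h0.le s
      simp only [g, if_neg hsα, add_zero, Pi.zero_apply] at h1
      have := mul_pos hj hfs
      omega
    rw [RootPairing.Base.isPos_iff', RootPairing.Base.height_eq_sum hg]
    exact Finset.sum_nonneg fun i _ => hg0.le i
  · rintro rfl
    have h3 := hli (i - 1 : ℤ) (j : k) (by
      rw [Int.cast_smul_eq_zsmul, Int.cast_smul_eq_zsmul, sub_smul, one_smul]
      nth_rewrite 2 [h]
      abel)
    have h4 : j = 0 := by exact_mod_cast h3.2
    omega

end roots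

namespace ChevalleyBasis

variable {P : RootPairing ι k M N} [P.IsCrystallographic] [P.IsReduced] {b : P.Base}
  {L : Type*} [LieRing L] (B : ChevalleyBasis P b L)

/-- the subgroup generated by the root groups `X_β(K)`, `β ∈ s` -/
def rootGroup (K : Type*) [Field K] (s : Set ι) : Subgroup (GL (b.support ⊕ ι) K) :=
  Subgroup.closure {g | ∃ β ∈ s, ∃ t : K, g = B.x K β t}

/-- `U(K)`: generated by the positive root groups -/
abbrev UU (K : Type*) [Field K] : Subgroup (GL (b.support ⊕ ι) K) :=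
  B.rootGroup K {β | b.IsPos β}

/-- `n` is monomial with permutation `w` of the roots -/
structure IsMonomial {K : Type*} [Field K] (n : GL (b.support ⊕ ι) K) (w : Equiv.Perm ι) :
    Prop where
  root : ∀ β γ, P.root γ = -P.root β → P.root (w γ) = -P.root (w β)
  mulVec : ∀ β, ∃ c : Kˣ, n.val *ᵥ ev b K (.inr β) = (c : K) • ev b K (.inr (w β)) ∧
    ∀ u, n * B.x K β u * n⁻¹ = B.x K (w β) ((c : K) * u)
  tor : ∀ (β : ι) (c : Kˣ), n * B.tor K β c * n⁻¹ = B.tor K (w β) c

section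

variable {K : Type*} [Field K]

lemma x_mem_rootGroup {s : Set ι} {β : ι} (h : β ∈ s) (t : K) : B.x K β t ∈ B.rootGroup K s :=
  Subgroup.subset_closure ⟨β, h, t, rfl⟩

lemma rootGroup_mono {s t : Set ι} (h : s ⊆ t) : B.rootGroup K s ≤ B.rootGroup K t := by
  refine Subgroup.closure_mono ?_
  rintro _ ⟨β, hβ, u, rfl⟩
  exact ⟨β, h hβ, u, rfl⟩

/-- conjugation of a root group in `U'_α` by `x_{±α}(t)` -/
lemma t5_conj_mem_aux {α β δ : ι} (hα : α ∈ b.support) (hδ : δ = α ∨ δ = neg P α)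
    (hβ : b.IsPos β) (hne : β ≠ α) (t u : K) :
    B.x K δ t * B.x K β u * B.x K δ (-t) ∈ B.rootGroup K {β | b.IsPos β ∧ β ≠ α} := by
  have hli : LinearIndependent k ![P.root δ, P.root β] := by
    have h := t5_linearIndependent (b.isPos_of_mem_support hα) hβ hne
    rcases hδ with rfl | rfl
    · exact h
    · rw [LinearIndependent.pair_iff] at h ⊢
      intro s t hst
      rw [t5_root_neg] at hst
      have := h (-s) t (by rw [← hst]; module)
      simpa using this
  obtain ⟨l, hl, hl'⟩ := B.x_conj_x hli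
  rw [hl' K t u]
  refine Subgroup.list_prod_mem _ fun g hg => ?_
  rw [List.mem_map] at hg
  obtain ⟨q, hq, rfl⟩ := hg
  refine B.x_mem_rootGroup ?_ _
  obtain ⟨h1, h2⟩ := hl q hq
  refine t5_isPos_of_combination (i := if δ = α then (q.2.2.1 : ℤ) else -(q.2.2.1 : ℤ))
    (j := (q.2.2.2 : ℤ)) hα hβ hne (by exact_mod_cast h1) ?_
  rw [h2]
  rcases hδ with rfl | rfl
  · rw [if_pos rfl]
    simp
  · split_ifs with h3
    · rw [h3]
      simp
    · rw [t5_root_neg]
      simp

lemma rootGroup_conj_mem {α δ : ι} (hα : α ∈ b.support) (hδ : δ = α ∨ δ = neg P α) (t : K)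
    {g : GL (b.support ⊕ ι) K} (hg : g ∈ B.rootGroup K {β | b.IsPos β ∧ β ≠ α}) :
    B.x K δ t * g * B.x K δ (-t) ∈ B.rootGroup K {β | b.IsPos β ∧ β ≠ α} := by
  rw [x_neg]
  induction hg using Subgroup.closure_induction with
  | mem g hg =>
    obtain ⟨β, ⟨hβ, hne⟩, u, rfl⟩ := hg
    rw [← x_neg]
    exact B.t5_conj_mem_aux hα hδ hβ hne t u
  | one => simp
  | mul g h _ _ hg hh =>
    convert mul_mem hg hh using 1
    group
  | inv g _ hg =>
    convert inv_mem hg using 1
    group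

lemma exists_eq_mul_x {α : ι} (hα : α ∈ b.support) {u : GL (b.support ⊕ ι) K} (hu : u ∈ B.UU K) :
    ∃ v ∈ B.rootGroup K {β | b.IsPos β ∧ β ≠ α}, ∃ s : K, u = v * B.x K α s := by
  induction hu using Subgroup.closure_induction with
  | mem g hg =>
    obtain ⟨β, hβ, u, rfl⟩ := hg
    by_cases hne : β = α
    · subst hne
      exact ⟨1, one_mem _, u, by rw [one_mul]⟩
    · exact ⟨B.x K β u, B.x_mem_rootGroup (s := {β | b.IsPos β ∧ β ≠ α}) ⟨hβ, hne⟩ u, 0,
        by rw [x_zero, mul_one]⟩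
  | one => exact ⟨1, one_mem _, 0, by rw [x_zero, mul_one]⟩
  | mul g h _ _ hg hh =>
    obtain ⟨v₁, hv₁, s₁, rfl⟩ := hg
    obtain ⟨v₂, hv₂, s₂, rfl⟩ := hh
    refine ⟨v₁ * (B.x K α s₁ * v₂ * B.x K α (-s₁)),
      mul_mem hv₁ (B.rootGroup_conj_mem hα (Or.inl rfl) s₁ hv₂), s₁ + s₂, ?_⟩
    rw [x_add, x_neg]
    group
  | inv g _ hg =>
    obtain ⟨v, hv, s, rfl⟩ := hg
    refine ⟨B.x K α (-s) * v⁻¹ * B.x K α (- -s), B.rootGroup_conj_mem hα (Or.inl rfl) (-s) (inv_mem hv), -s,
      ?_⟩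
    rw [neg_neg, x_neg]
    group

end

namespace IsMonomial

variable {K : Type*} [Field K] {B}

lemma one : B.IsMonomial (1 : GL (b.support ⊕ ι) K) 1 where
  root β γ h := by simpa using h
  mulVec β := ⟨1, by simp, fun u => by simp⟩
  tor β c := by simp

lemma mul {n₁ n₂ : GL (b.support ⊕ ι) K} {w₁ w₂ : Equiv.Perm ι} (h₁ : B.IsMonomial n₁ w₁)
    (h₂ : B.IsMonomial n₂ w₂) : B.IsMonomial (n₁ * n₂) (w₁ * w₂) where
  root β γ h := by
    rw [Equiv.Perm.mul_apply, Equiv.Perm.mul_apply]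
    exact h₁.root _ _ (h₂.root _ _ h)
  mulVec β := by
    obtain ⟨c₂, h3, h4⟩ := h₂.mulVec β
    obtain ⟨c₁, h5, h6⟩ := h₁.mulVec (w₂ β)
    refine ⟨c₁ * c₂, ?_, fun u => ?_⟩
    · rw [Units.val_mul, ← Matrix.mulVec_mulVec, h3, Matrix.mulVec_smul, h5, smul_smul,
        Units.val_mul, Equiv.Perm.mul_apply, mul_comm]
    · rw [Equiv.Perm.mul_apply, Units.val_mul, mul_assoc (c₁ : K), ← h6, ← h4]
      group
  tor β c := by
    rw [Equiv.Perm.mul_apply, ← h₁.tor, ← h₂.tor]
    group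

lemma n1 (α : ι) : B.IsMonomial (B.n1 K α) (P.reflectionPerm α) where
  root β γ h := by
    rw [P.root_reflectionPerm, P.root_reflectionPerm, h, map_neg]
  mulVec β := by
    obtain ⟨c, hc⟩ : ∃ c : Kˣ, (c : K) = ((B.eps α β : ℤ) : K) := by
      rcases B.eps_eq α β with h | h
      · exact ⟨1, by simp [h]⟩
      · exact ⟨-1, by simp [h]⟩
    refine ⟨c, ?_, fun u => ?_⟩
    · rw [B.n1_mulVec_inr, hc]
    · rw [B.n1_conj_x, hc]
  tor β c := B.n1_conj_tor K α β c

lemma _root_.Pool.Agent.MP_467141.ChevalleyBasis.isMonomial_tor (α : ι) (c : Kˣ) :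
    B.IsMonomial (B.tor K α c) 1 where
  root β γ h := by simpa using h
  mulVec β := ⟨c ^ pr P β α, B.tor_mulVec_inr K α β c, fun u => B.tor_conj_x K α β c u⟩
  tor β d := by
    rw [B.tor_comm, mul_inv_cancel_right]
    rfl

/-- `x_{wβ}(s) n = n x_β(s')` -/
lemma exists_x_mul {n : GL (b.support ⊕ ι) K} {w : Equiv.Perm ι} (h : B.IsMonomial n w)
    {α β : ι} (hβ : w β = α) (s : K) : ∃ s', B.x K α s * n = n * B.x K β s' := by
  obtain ⟨c, -, hc⟩ := h.mulVec β
  refine ⟨(c⁻¹ : Kˣ) * s, ?_⟩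
  have := hc ((c⁻¹ : Kˣ) * s)
  rw [Units.mul_inv_cancel_left, hβ] at this
  rw [← this]
  group

lemma apply_neg {n : GL (b.support ⊕ ι) K} {w : Equiv.Perm ι} (h : B.IsMonomial n w) (β : ι) :
    w (neg P β) = neg P (w β) := by
  apply P.root.injective
  rw [t5_root_neg]
  exact h.root _ _ (t5_root_neg P β)

end IsMonomial

/-- the set `U N U` -/
def UNU (K : Type*) [Field K] : Set (GL (b.support ⊕ ι) K) :=
  {g | ∃ u ∈ B.UU K, ∃ u' ∈ B.UU K, ∃ n ∈ B.group K, ∃ w : Equiv.Perm ι,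
      B.IsMonomial n w ∧ g = u * n * u'}

section

variable {K : Type*} [Field K] {B}

lemma UNU_mul_right {g u : GL (b.support ⊕ ι) K} (hg : g ∈ B.UNU K) (hu : u ∈ B.UU K) :
    g * u ∈ B.UNU K := by
  obtain ⟨u₁, hu₁, u₂, hu₂, n, hn, w, hw, rfl⟩ := hg
  exact ⟨u₁, hu₁, u₂ * u, mul_mem hu₂ hu, n, hn, w, hw, by group⟩

lemma UNU_mul_left {g u : GL (b.support ⊕ ι) K} (hg : g ∈ B.UNU K) (hu : u ∈ B.UU K) :
    u * g ∈ B.UNU K := by
  obtain ⟨u₁, hu₁, u₂, hu₂, n, hn, w, hw, rfl⟩ := hg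
  exact ⟨u * u₁, mul_mem hu hu₁, u₂, hu₂, n, hn, w, hw, by group⟩

lemma mem_UNU_of_monomial {n : GL (b.support ⊕ ι) K} {w : Equiv.Perm ι} (hn : n ∈ B.group K)
    (h : B.IsMonomial n w) : n ∈ B.UNU K :=
  ⟨1, one_mem _, 1, one_mem _, n, hn, w, h, by group⟩

/-- case `w⁻¹ α > 0` -/
lemma x_neg_mul_mem_of_isPos {n : GL (b.support ⊕ ι) K} {w : Equiv.Perm ι} (hn : n ∈ B.group K)
    (h : B.IsMonomial n w) {α β : ι} (hα : α ∈ b.support) (hβ : b.IsPos β) (hwβ : w β = α)
    (t : K) : B.x K (neg P α) t * n ∈ B.UNU K := by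
  by_cases ht : t = 0
  · subst ht
    rw [x_zero, one_mul]
    exact mem_UNU_of_monomial hn h
  · obtain ⟨s', hs'⟩ := h.exists_x_mul hwβ ((t⁻¹ : K))
    have h1 := B.x_neg_eq K α (Units.mk0 t ht)
    rw [Units.val_mk0, Units.val_inv_eq_inv_val, Units.val_mk0] at h1
    rw [h1]
    refine ⟨B.x K α t⁻¹, B.x_mem_rootGroup (b.isPos_of_mem_support hα) _, B.x K β s',
      B.x_mem_rootGroup hβ _, B.tor K α (-(Units.mk0 t ht)⁻¹) * B.n1 K α * n,
      mul_mem (mul_mem (B.tor_mem_group K _ _) (B.n1_mem_group K _)) hn, _,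
      ((isMonomial_tor α _).mul (IsMonomial.n1 α)).mul h, ?_⟩
    rw [mul_assoc, hs']
    group

lemma x_neg_mul_x_mul_mem {n : GL (b.support ⊕ ι) K} {w : Equiv.Perm ι} (hn : n ∈ B.group K)
    (h : B.IsMonomial n w) {α : ι} (hα : α ∈ b.support) (t s : K) :
    B.x K (neg P α) t * (B.x K α s * n) ∈ B.UNU K := by
  by_cases hβ : b.IsPos (w.symm α)
  · obtain ⟨s', hs'⟩ := h.exists_x_mul (w.apply_symm_apply α) s
    rw [hs', ← mul_assoc]
    exact UNU_mul_right (x_neg_mul_mem_of_isPos hn h hα hβ (w.apply_symm_apply α) t)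
      (B.x_mem_rootGroup hβ _)
  · have hγ : b.IsPos (neg P (w.symm α)) := t5_isPos_neg_iff.2 hβ
    have hwγ : w (neg P (w.symm α)) = neg P α := by rw [h.apply_neg, w.apply_symm_apply]
    by_cases hs : s = 0
    · subst hs
      rw [x_zero, one_mul]
      obtain ⟨s', hs'⟩ := h.exists_x_mul hwγ t
      rw [hs']
      exact UNU_mul_right (mem_UNU_of_monomial hn h) (B.x_mem_rootGroup hγ _)
    · obtain ⟨s', hs'⟩ := h.exists_x_mul hwγ s⁻¹
      have h1 := B.x_neg_eq K (neg P α) (Units.mk0 s hs)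
      rw [Units.val_mk0, Units.val_inv_eq_inv_val, Units.val_mk0, t5_neg_neg] at h1
      rw [h1]
      have h2 := ((isMonomial_tor (B := B) (neg P α) (-(Units.mk0 s hs)⁻¹)).mul
        (IsMonomial.n1 (neg P α))).mul h
      have h3 := mul_mem (mul_mem (B.tor_mem_group K (neg P α) (-(Units.mk0 s hs)⁻¹))
        (B.n1_mem_group K (neg P α))) hn
      have h4 := x_neg_mul_mem_of_isPos h3 h2 hα hγ (by
        rw [one_mul, Equiv.Perm.mul_apply, hwγ]
        exact t5_neg_neg P α) (t + s⁻¹)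
      have h5 := UNU_mul_right h4 (B.x_mem_rootGroup hγ s')
      rw [x_add] at h5
      convert h5 using 1
      have h6 : B.x K (neg P α) t * (B.x K (neg P α) s⁻¹ *
          (B.tor K (neg P α) (-(Units.mk0 s hs)⁻¹) * B.n1 K (neg P α)) *
            B.x K (neg P α) s⁻¹ * n) = B.x K (neg P α) t * (B.x K (neg P α) s⁻¹ *
          (B.tor K (neg P α) (-(Units.mk0 s hs)⁻¹) * B.n1 K (neg P α)) *
            (B.x K (neg P α) s⁻¹ * n)) := by group
      rw [h6, hs']
      group

lemma x_neg_mul_mem {α : ι} (hα : α ∈ b.support) (t : K) {g : GL (b.support ⊕ ι) K}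
    (hg : g ∈ B.UNU K) : B.x K (neg P α) t * g ∈ B.UNU K := by
  obtain ⟨u, hu, u', hu', n, hn, w, hw, rfl⟩ := hg
  obtain ⟨v, hv, s, rfl⟩ := B.exists_eq_mul_x hα hu
  have h1 := B.rootGroup_conj_mem hα (Or.inr rfl) t hv
  have h2 := x_neg_mul_x_mul_mem hn hw hα t s
  have h3 := UNU_mul_right (UNU_mul_left h2 (B.rootGroup_mono (fun β hβ => hβ.1) h1)) hu'
  convert h3 using 1
  rw [x_neg]
  group

end

theorem bruhat (K : Type*) [Field K] {g : GL (b.support ⊕ ι) K} (hg : g ∈ B.group K) :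
    ∃ u ∈ B.UU K, ∃ u' ∈ B.UU K, ∃ n ∈ B.group K, ∃ w : Equiv.Perm ι,
      B.IsMonomial n w ∧ g = u * n * u' := by
  change g ∈ B.UNU K
  rw [group_eq_closure_simple] at hg
  induction hg using Subgroup.closure_induction_left with
  | one => exact mem_UNU_of_monomial (one_mem _) IsMonomial.one
  | mul_left x hx y hy ih =>
    obtain ⟨α, hα, t, rfl | rfl⟩ := hx
    · exact UNU_mul_left ih (B.x_mem_rootGroup (b.isPos_of_mem_support hα) _)
    · exact x_neg_mul_mem hα t ih
  | inv_mul_cancel x hx y hy ih =>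
    obtain ⟨α, hα, t, rfl | rfl⟩ := hx
    · rw [← x_neg]
      exact UNU_mul_left ih (B.x_mem_rootGroup (b.isPos_of_mem_support hα) _)
    · rw [← x_neg]
      exact x_neg_mul_mem hα (-t) ih

end ChevalleyBasis

end Pool.Agent.MP_467141
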