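import Pool.Agent.Lib.MP_467141_H17.T3

/-! # T8: a point in general position (polynomial method) -/

open Matrix

noncomputable section

namespace Pool.Agent.MP_467141

universe w

variable {ι k M N : Type*} [Field k] [CharZero k] [AddCommGroup M] [Module k M]
  [AddCommGroup N] [Module k N] [Fintype ι] [DecidableEq ι]

namespace ChevalleyBasis

variable {P : RootPairing ι k M N} [P.IsCrystallographic] [P.IsReduced] {b : P.Base}
  {L : Type*} [LieRing L] (B : ChevalleyBasis P b L)

/-! ### words -/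

/-- the element `x_{w_0}(t_0) ⋯ x_{w_{m-1}}(t_{m-1})` -/
def word (R : Type*) [CommRing R] {m : ℕ} (w : Fin m → ι) (t : Fin m → R) :
    GL (b.support ⊕ ι) R :=
  (List.ofFn fun i => B.x R (w i) (t i)).prod

lemma map_word {R S : Type*} [CommRing R] [CommRing S] (f : R →+* S) {m : ℕ} (w : Fin m → ι)
    (t : Fin m → R) :
    Matrix.GeneralLinearGroup.map f (B.word R w t) = B.word S w (f ∘ t) := by
  rw [word, word, map_list_prod, List.map_ofFn]
  congr 2
  ext1 i
  simp only [Function.comp_apply, B.map_x]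

lemma word_append {R : Type*} [CommRing R] {m n : ℕ} (w : Fin m → ι) (w' : Fin n → ι)
    (t : Fin m → R) (t' : Fin n → R) :
    B.word R (Fin.append w w') (Fin.append t t') = B.word R w t * B.word R w' t' := by
  rw [word, word, word, ← List.prod_append, ← List.ofFn_fin_append]
  congr 2
  ext1 i
  refine Fin.addCases (fun i => ?_) (fun i => ?_) i <;> simp

lemma word_zero {R : Type*} [CommRing R] {m : ℕ} (w : Fin m → ι) : B.word R w 0 = 1 := by
  rw [word]
  apply List.prod_eq_one
  intro g hg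
  rw [List.mem_ofFn] at hg
  obtain ⟨i, rfl⟩ := hg
  simp

lemma word_mem {K : Type*} [Field K] {m : ℕ} (w : Fin m → ι) (t : Fin m → K) :
    B.word K w t ∈ B.group K := by
  refine Subgroup.list_prod_mem _ fun g hg => ?_
  rw [List.mem_ofFn] at hg
  obtain ⟨i, rfl⟩ := hg
  exact B.x_mem_group K _ _

lemma exists_word {K : Type*} [Field K] {g : GL (b.support ⊕ ι) K} (hg : g ∈ B.group K) :
    ∃ (m : ℕ) (w : Fin m → ι) (t : Fin m → K), g = B.word K w t := by
  rw [group_eq_closure] at hg
  induction hg using Subgroup.closure_induction_left with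
  | one => exact ⟨0, Fin.elim0, Fin.elim0, by simp [word]⟩
  | mul_left x hx y hy ih =>
    obtain ⟨⟨α, s⟩, rfl⟩ := hx
    obtain ⟨m, w, t, rfl⟩ := ih
    exact ⟨m + 1, Fin.cons α w, Fin.cons s t, by simp [word, List.ofFn_succ]⟩
  | inv_mul_cancel x hx y hy ih =>
    obtain ⟨⟨α, s⟩, rfl⟩ := hx
    obtain ⟨m, w, t, rfl⟩ := ih
    exact ⟨m + 1, Fin.cons α w, Fin.cons (-s) t, by simp [word, List.ofFn_succ, x_neg]⟩

/-- a common word for finitely many elements -/
lemma exists_common_word {K : Type*} [Field K] (S : Finset (GL (b.support ⊕ ι) K))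
    (hS : ∀ g ∈ S, g ∈ B.group K) :
    ∃ (m : ℕ) (w : Fin m → ι), ∀ g ∈ S, ∃ t : Fin m → K, g = B.word K w t := by
  classical
  induction S using Finset.induction_on with
  | empty => exact ⟨0, Fin.elim0, by simp⟩
  | insert g S hg ih =>
    obtain ⟨m, w, hw⟩ := ih fun h hh => hS h (Finset.mem_insert_of_mem hh)
    obtain ⟨m', w', t', ht'⟩ := B.exists_word (hS g (Finset.mem_insert_self _ _))
    refine ⟨m' + m, Fin.append w' w, fun h hh => ?_⟩
    rw [Finset.mem_insert] at hh
    rcases hh with rfl | hh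
    · exact ⟨Fin.append t' 0, by rw [word_append, word_zero, mul_one, ht']⟩
    · obtain ⟨t, ht⟩ := hw h hh
      exact ⟨Fin.append 0 t, by rw [word_append, word_zero, one_mul, ht]⟩

/-! ### the core of the stabiliser of the line of `e_θ` is trivial -/

lemma exists_conj_ne (K : Type*) [Field K] (hs : IsSimpleGroup (B.group K)) (θ : ι)
    {g : GL (b.support ⊕ ι) K} (hg : g ∈ B.group K) (hg1 : g ≠ 1) :
    ∃ x ∈ B.group K, ∀ c : K,
      (x⁻¹ * g * x).val *ᵥ ev b K (.inr θ) ≠ c • ev b K (.inr θ) := by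
  by_contra! hcon
  let H : Subgroup (B.group K) :=
    { carrier := {g | ∀ x ∈ B.group K, ∃ c : Kˣ,
        (x⁻¹ * (g : GL (b.support ⊕ ι) K) * x).val *ᵥ ev b K (.inr θ) =
          (c : K) • ev b K (.inr θ)}
      one_mem' := fun x _ => ⟨1, by simp⟩
      mul_mem' := by
        rintro g h hg hh x hx
        obtain ⟨c, hc⟩ := hg x hx
        obtain ⟨d, hd⟩ := hh x hx
        refine ⟨c * d, ?_⟩
        have : x⁻¹ * ((g * h : B.group K) : GL (b.support ⊕ ι) K) * x =
            (x⁻¹ * (g : GL (b.support ⊕ ι) K) * x) * (x⁻¹ * (h : GL (b.support ⊕ ι) K) * x) := by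
          rw [Subgroup.coe_mul]
          group
        rw [this, Units.val_mul, ← Matrix.mulVec_mulVec, hd, Matrix.mulVec_smul, hc, smul_smul,
          Units.val_mul, mul_comm]
      inv_mem' := by
        rintro g hg x hx
        obtain ⟨c, hc⟩ := hg x hx
        refine ⟨c⁻¹, ?_⟩
        have : x⁻¹ * ((g⁻¹ : B.group K) : GL (b.support ⊕ ι) K) * x =
            (x⁻¹ * (g : GL (b.support ⊕ ι) K) * x)⁻¹ := by
          rw [Subgroup.coe_inv]
          group
        rw [this]
        have h2 := congrArg (fun v => (x⁻¹ * (g : GL (b.support ⊕ ι) K) * x)⁻¹.val *ᵥ v) hc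
        simp only [Matrix.mulVec_mulVec, Matrix.mulVec_smul] at h2
        rw [← Units.val_mul, inv_mul_cancel, Units.val_one, Matrix.one_mulVec] at h2
        rw [h2, smul_smul, ← Units.val_mul, inv_mul_cancel, Units.val_one, one_smul, ← h2] }
  have hmem : (⟨g, hg⟩ : B.group K) ∈ H := by
    intro x hx
    obtain ⟨c, hc⟩ := hcon x hx
    have hc0 : c ≠ 0 := by
      rintro rfl
      have h2 := congrArg (fun v => (x⁻¹ * g * x)⁻¹.val *ᵥ v) hc
      simp only [Matrix.mulVec_mulVec, zero_smul, Matrix.mulVec_zero] at h2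
      rw [← Units.val_mul, inv_mul_cancel, Units.val_one, Matrix.one_mulVec] at h2
      have h3 := congrFun h2 (.inr θ)
      simp [ev] at h3
    exact ⟨Units.mk0 c hc0, hc⟩
  have hnorm : H.Normal := by
    constructor
    intro h hh y x hx
    obtain ⟨c, hc⟩ := hh ((y : GL (b.support ⊕ ι) K)⁻¹ * x) (mul_mem (inv_mem y.2) hx)
    refine ⟨c, ?_⟩
    rw [← hc]
    congr 2
    simp only [Subgroup.coe_mul, Subgroup.coe_inv]
    group
  have htop : H = ⊤ := by
    refine (hs.eq_bot_or_eq_top_of_normal H hnorm).resolve_left fun h0 => hg1 ?_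
    rw [h0, Subgroup.mem_bot] at hmem
    exact congrArg Subtype.val hmem
  have h1 : (⟨B.n1 K θ, B.n1_mem_group K θ⟩ : B.group K) ∈ H := htop ▸ Subgroup.mem_top _
  obtain ⟨c, hc⟩ := h1 1 (one_mem _)
  rw [inv_one, one_mul, mul_one] at hc
  rw [B.n1_mulVec_inr] at hc
  have hne : P.reflectionPerm θ θ ≠ θ := by
    intro h
    have h2 := congrArg P.root h
    rw [P.root_reflectionPerm, P.reflection_apply_self] at h2
    have h3 : (2 : k) • P.root θ = 0 := by
      rw [two_smul]
      nth_rewrite 1 [← h2]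
      exact neg_add_cancel _
    rcases smul_eq_zero.1 h3 with h4 | h4
    · exact two_ne_zero h4
    · exact P.ne_zero θ h4
  have h4 := congrFun hc (.inr (P.reflectionPerm θ θ))
  simp only [ev, Pi.smul_apply, Pi.single_eq_same, smul_eq_mul, mul_one] at h4
  rw [Pi.single_eq_of_ne (by simpa using hne), mul_zero] at h4
  rcases B.eps_eq θ θ with h5 | h5 <;> rw [h5] at h4 <;> simp at h4

/-- the coordinate `j` of `X⁻¹ g X e_θ`, where `X` is the generic word -/
def genCoord {K : Type*} [Field K] {m : ℕ} (w : Fin m → ι) (g : GL (b.support ⊕ ι) K) (θ : ι)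
    (j : b.support ⊕ ι) : MvPolynomial (Fin m) K :=
  (((B.word (MvPolynomial (Fin m) K) w MvPolynomial.X)⁻¹ *
    Matrix.GeneralLinearGroup.map MvPolynomial.C g *
    B.word (MvPolynomial (Fin m) K) w MvPolynomial.X).val *ᵥ
      ev b (MvPolynomial (Fin m) K) (.inr θ)) j

lemma eval_genCoord {K K' : Type*} [Field K] [CommRing K'] (f : K →+* K') {m : ℕ}
    (w : Fin m → ι) (g : GL (b.support ⊕ ι) K) (θ : ι) (j : b.support ⊕ ι) (a : Fin m → K') :
    MvPolynomial.eval₂Hom f a (B.genCoord w g θ j) =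
      (((B.word K' w a)⁻¹ * Matrix.GeneralLinearGroup.map f g * B.word K' w a).val *ᵥ
        ev b K' (.inr θ)) j := by
  rw [genCoord, RingHom.map_mulVec]
  have h1 : (MvPolynomial.eval₂Hom f a ∘ ev b (MvPolynomial (Fin m) K) (.inr θ)) =
      ev b K' (.inr θ) := by
    ext i
    simp only [ev, Function.comp_apply, Pi.single_apply]
    split_ifs <;> simp
  have h2 : (((B.word (MvPolynomial (Fin m) K) w MvPolynomial.X)⁻¹ *
      Matrix.GeneralLinearGroup.map MvPolynomial.C g *
      B.word (MvPolynomial (Fin m) K) w MvPolynomial.X).val).map (MvPolynomial.eval₂Hom f a) =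
      ((B.word K' w a)⁻¹ * Matrix.GeneralLinearGroup.map f g * B.word K' w a).val := by
    have h3 : (B.word K' w a)⁻¹ * Matrix.GeneralLinearGroup.map f g * B.word K' w a =
        Matrix.GeneralLinearGroup.map (MvPolynomial.eval₂Hom f a)
          ((B.word (MvPolynomial (Fin m) K) w MvPolynomial.X)⁻¹ *
            Matrix.GeneralLinearGroup.map MvPolynomial.C g *
              B.word (MvPolynomial (Fin m) K) w MvPolynomial.X) := by
      have h4 : (MvPolynomial.eval₂Hom f a ∘ MvPolynomial.X) = a := by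
        ext1 i
        simp
      have h5 : Matrix.GeneralLinearGroup.map (MvPolynomial.eval₂Hom f a)
          (Matrix.GeneralLinearGroup.map MvPolynomial.C g) =
          Matrix.GeneralLinearGroup.map f g := by
        ext i j
        simp
      rw [map_mul, map_mul, map_inv, map_word, h4, h5]
    rw [h3]
    rfl
  rw [h1, h2]

/-- `K` finite, `G(K)` simple, `θ` a root: there is `D` such that for every finite field `K0 ⊇ K`
with more than `D` elements there is `x0 ∈ G(K0)` with `x0⁻¹ g x0` not stabilising the line of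
`e_θ` for all `1 ≠ g ∈ G(K)`. -/
theorem exists_generic (K : Type*) [Field K] [Finite K] (hs : IsSimpleGroup (B.group K)) (θ : ι) :
    ∃ D : ℕ, ∀ (K0 : Type w) [Field K0] [Finite K0] (f : K →+* K0), D < Nat.card K0 →
      ∃ x0 ∈ B.group K0, ∀ g ∈ B.group K, g ≠ 1 → ∀ c : K0,
        (x0⁻¹ * Matrix.GeneralLinearGroup.map f g * x0).val *ᵥ ev b K0 (.inr θ) ≠ c • ev b K0 (.inr θ) := by
  classical
  have : Nonempty (b.support ⊕ ι) := ⟨.inr θ⟩
  have : Fintype (GL (b.support ⊕ ι) K) := Fintype.ofFinite _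
  choose! x hx hxne using fun (g : GL (b.support ⊕ ι) K) (hg : g ∈ B.group K ∧ g ≠ 1) =>
    B.exists_conj_ne K hs θ hg.1 hg.2
  let S : Finset (GL (b.support ⊕ ι) K) := Finset.univ.filter fun g => g ∈ B.group K ∧ g ≠ 1
  obtain ⟨m, w, hw⟩ := B.exists_common_word (S.image x) (by
    intro g hg
    rw [Finset.mem_image] at hg
    obtain ⟨h, hh, rfl⟩ := hg
    exact hx h (Finset.mem_filter.1 hh).2)
  choose! t ht using hw
  have hj : ∀ g ∈ S, ∃ j, j ≠ .inr θ ∧ ((x g)⁻¹ * g * x g).val.mulVec (ev b K (.inr θ)) j ≠ 0 := by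
    intro g hg
    by_contra! hcon
    refine hxne g (Finset.mem_filter.1 hg).2
      (((x g)⁻¹ * g * x g).val.mulVec (ev b K (.inr θ)) (.inr θ)) ?_
    ext j
    by_cases hj : j = .inr θ
    · subst hj
      simp [ev]
    · rw [hcon j hj]
      simp [ev, hj]
  choose! j hjne hj0 using hj
  have hp0 : ∀ g ∈ S, B.genCoord w g θ (j g) ≠ 0 := by
    intro g hg h0
    have h1 := B.eval_genCoord (RingHom.id K) w g θ (j g) (t (x g))
    rw [h0, map_zero, ← ht (x g) (Finset.mem_image_of_mem x hg)] at h1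
    refine hj0 g hg ?_
    rw [h1]
    rfl
  let p : MvPolynomial (Fin m) K := ∏ g ∈ S, B.genCoord w g θ (j g)
  have hp : p ≠ 0 := Finset.prod_ne_zero_iff.2 hp0
  refine ⟨p.totalDegree, fun K0 _ _ f hD => ?_⟩
  have : Fintype K0 := Fintype.ofFinite _
  have hmap : MvPolynomial.map f p ≠ 0 := by
    rw [Ne, ← map_zero (MvPolynomial.map f)]
    exact fun h => hp (MvPolynomial.map_injective f f.injective h)
  obtain ⟨a, ha⟩ : ∃ a : Fin m → K0, MvPolynomial.eval a (MvPolynomial.map f p) ≠ 0 := by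
    by_contra! hcon
    refine hmap (MvPolynomial.eq_zero_of_eval_zero_at_prod_finset _ (fun _ => Finset.univ)
      (fun i => ?_) fun a _ => hcon a)
    rw [Finset.card_univ, ← Nat.card_eq_fintype_card]
    refine lt_of_le_of_lt ?_ hD
    refine le_trans ?_ (MvPolynomial.degreeOf_le_totalDegree p i)
    rw [MvPolynomial.degreeOf_def, MvPolynomial.degreeOf_def]
    exact Multiset.count_le_of_le _ MvPolynomial.degrees_map_le
  refine ⟨B.word K0 w a, B.word_mem w a, fun g hg hg1 c hc => ?_⟩
  have hgS : g ∈ S := Finset.mem_filter.2 ⟨Finset.mem_univ _, hg, hg1⟩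
  have h1 := B.eval_genCoord f w g θ (j g) a
  rw [hc] at h1
  have h2 : (c • ev b K0 (.inr θ)) (j g) = 0 := by
    simp [ev, hjne g hgS]
  rw [h2] at h1
  apply ha
  rw [MvPolynomial.eval_map]
  change MvPolynomial.eval₂Hom f a p = 0
  rw [map_prod]
  exact Finset.prod_eq_zero hgS h1

end ChevalleyBasis

end Pool.Agent.MP_467141
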