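import Pool.Agent.Lib.MP_467141_H17.T7b
import Pool.Agent.Lib.MP_467141_H17.T5
import Pool.Agent.Lib.MP_467141_H17.T8

/-! # Key: linear independence -/

open Matrix

set_option linter.unusedSectionVars false

noncomputable section

namespace Pool.Agent.MP_467141

universe u v

variable {ι k M N : Type*} [Field k] [CharZero k] [AddCommGroup M] [Module k M]
  [AddCommGroup N] [Module k N] [Fintype ι] [DecidableEq ι]

namespace ChevalleyBasis

variable {P : RootPairing ι k M N} [P.IsCrystallographic] [P.IsReduced] {b : P.Base}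
  {L : Type*} [LieRing L] (B : ChevalleyBasis P b L)

lemma exists_map_XX {r : ℕ} {K0 K : Type*} [Field K0] [Field K] (f : K0 →+* K)
    {x : GL (b.support ⊕ ι) K} (hx : x ∈ B.XX r f) :
    ∃ x0 ∈ B.XX r (RingHom.id K0), Matrix.GeneralLinearGroup.map f x0 = x := by
  have : B.XX r f ≤ (B.XX r (RingHom.id K0)).map (Matrix.GeneralLinearGroup.map f) := by
    rw [XX, Subgroup.closure_le]
    rintro _ (⟨γ, c, hc, rfl⟩ | ⟨γ, hγ, t, rfl⟩)
    · refine ⟨B.tor K0 γ c, Subgroup.subset_closure (Or.inl ⟨γ, c, hc, ?_⟩), B.map_tor K0 f γ c⟩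
      congr 1
    · exact ⟨B.x K0 γ t, Subgroup.subset_closure (Or.inr ⟨γ, hγ, t, rfl⟩), B.map_x K0 f γ t⟩
  exact this hx

lemma map_mem_XX {r : ℕ} {K0 K : Type*} [Field K0] [Field K] (f : K0 →+* K)
    {x : GL (b.support ⊕ ι) K0} (hx : x ∈ B.XX r (RingHom.id K0)) :
    Matrix.GeneralLinearGroup.map f x ∈ B.XX r f := by
  have : (B.XX r (RingHom.id K0)).map (Matrix.GeneralLinearGroup.map f) ≤ B.XX r f := by
    rw [XX, MonoidHom.map_closure, Subgroup.closure_le]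
    rintro _ ⟨_, ⟨γ, c, hc, rfl⟩ | ⟨γ, hγ, t, rfl⟩, rfl⟩
    · refine Subgroup.subset_closure (Or.inl ⟨γ, c, hc, ?_⟩)
      exact B.map_tor K0 f γ c
    · refine Subgroup.subset_closure (Or.inr ⟨γ, hγ, t, ?_⟩)
      exact B.map_x K0 f γ t
  exact this ⟨x, hx, rfl⟩

lemma UU_le_XX (r : ℕ) (K0 : Type*) [Field K0] : B.UU K0 ≤ B.XX r (RingHom.id K0) := by
  refine Subgroup.closure_mono ?_
  rintro _ ⟨β, hβ, t, rfl⟩
  exact Or.inr ⟨β, hβ, t, rfl⟩

lemma tor_mem_XX {r : ℕ} {K0 : Type*} [Field K0] (γ : ι) {c : K0ˣ} (hc : c ^ r = 1) :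
    B.tor K0 γ c ∈ B.XX r (RingHom.id K0) :=
  Subgroup.subset_closure (Or.inl ⟨γ, c, hc, rfl⟩)

section

variable {θ : ι} (h : IsTheta b θ) {K0 : Type*} [Field K0]

include h

lemma UU_theta {u : GL (b.support ⊕ ι) K0} (hu : u ∈ B.UU K0) :
    u.val (.inr θ) (.inr θ) = 1 := by
  have := (B.XX_theta h (RingHom.id K0) (B.UU_le_XX 1 K0 hu) (B.UU_le_XX 1 K0 hu)).2.1
  simpa using this

lemma UU_mulVec {u : GL (b.support ⊕ ι) K0} (hu : u ∈ B.UU K0) :
    u.val *ᵥ ev b K0 (.inr θ) = ev b K0 (.inr θ) := by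
  have := (B.XX_theta h (RingHom.id K0) (B.UU_le_XX 1 K0 hu) (B.UU_le_XX 1 K0 hu)).2.2
  rw [B.UU_theta h hu, one_smul] at this
  exact this

/-- the element of `X` moved by `y` -/
lemma exists_moved {r : ℕ} {ζ : K0ˣ} (hζ : ζ ^ r = 1) {y : GL (b.support ⊕ ι) K0}
    (hy : y ∈ B.group K0)
    (hyθ : ∀ c : K0, y.val *ᵥ ev b K0 (.inr θ) ≠ c • ev b K0 (.inr θ)) :
    ∃ x ∈ B.XX r (RingHom.id K0), y⁻¹ * x * y ∈ B.XX r (RingHom.id K0) ∧
      x.val (.inr θ) (.inr θ) = ((ζ ^ 2 : K0ˣ) : K0) ∧ ∃ i : ℕ, 1 ≤ i ∧ i ≤ 4 ∧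
      (y⁻¹ * x * y).val (.inr θ) (.inr θ) = ((ζ ^ (2 - i : ℤ) : K0ˣ) : K0) := by
  obtain ⟨u, hu, u', hu', n, hn, w, hw, rfl⟩ := B.bruhat K0 hy
  have hwθ : w θ ≠ θ := by
    intro hwθ
    obtain ⟨c, hc, -⟩ := hw.mulVec θ
    apply hyθ c
    rw [Units.val_mul, Units.val_mul, ← Matrix.mulVec_mulVec, ← Matrix.mulVec_mulVec,
      B.UU_mulVec h hu', hc, Matrix.mulVec_smul, hwθ, B.UU_mulVec h hu]
  have huX := B.UU_le_XX r K0 hu
  have hu'X := B.UU_le_XX r K0 hu'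
  have htor : ∀ γ, (B.tor K0 γ ζ).val (.inr θ) (.inr θ) = ((ζ ^ pr P θ γ : K0ˣ) : K0) := by
    intro γ
    simp [tor]
  have hXθ : ∀ {g g' : GL (b.support ⊕ ι) K0}, g ∈ B.XX r (RingHom.id K0) →
      g' ∈ B.XX r (RingHom.id K0) → (g * g').val (.inr θ) (.inr θ) =
        g.val (.inr θ) (.inr θ) * g'.val (.inr θ) (.inr θ) :=
    fun hg hg' => (B.XX_theta h (RingHom.id K0) hg hg').1
  have hconj : n⁻¹ * B.tor K0 θ ζ * n = B.tor K0 (w.symm θ) ζ := by
    have h1 := hw.tor (w.symm θ) ζ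
    rw [Equiv.apply_symm_apply] at h1
    rw [← h1]
    group
  have hyx : (u * n * u')⁻¹ * (u * B.tor K0 θ ζ * u⁻¹) * (u * n * u') =
      u'⁻¹ * B.tor K0 (w.symm θ) ζ * u' := by
    rw [← hconj]
    group
  refine ⟨u * B.tor K0 θ ζ * u⁻¹, mul_mem (mul_mem huX (B.tor_mem_XX θ hζ)) (inv_mem huX), ?_, ?_,
    ?_⟩
  · rw [hyx]
    exact mul_mem (mul_mem (inv_mem hu'X) (B.tor_mem_XX _ hζ)) hu'X
  · rw [hXθ (mul_mem huX (B.tor_mem_XX θ hζ)) (inv_mem huX), hXθ huX (B.tor_mem_XX θ hζ), htor,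
      B.UU_theta h hu, B.UU_theta h (inv_mem hu)]
    have : pr P θ θ = 2 := by simp
    rw [this, one_mul, mul_one]
    rfl
  · rw [hyx, hXθ (mul_mem (inv_mem hu'X) (B.tor_mem_XX _ hζ)) hu'X,
      hXθ (inv_mem hu'X) (B.tor_mem_XX _ hζ), htor,
      B.UU_theta h hu', B.UU_theta h (inv_mem hu'), one_mul, mul_one]
    -- `ζ ^ ⟨θ, (w⁻¹θ)^∨⟩ = ζ ^ ⟨wθ, θ^∨⟩`
    have h2 : (ζ ^ pr P θ (w.symm θ) : K0ˣ) = ζ ^ pr P (w θ) θ := by
      obtain ⟨c, hc, -⟩ := hw.mulVec θ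
      have h3 : (B.tor K0 θ ζ).val *ᵥ (n.val *ᵥ ev b K0 (.inr θ)) =
          n.val *ᵥ ((B.tor K0 (w.symm θ) ζ).val *ᵥ ev b K0 (.inr θ)) := by
        rw [← hconj, Matrix.mulVec_mulVec, Matrix.mulVec_mulVec, ← Units.val_mul,
          ← Units.val_mul]
        congr 2
        group
      rw [hc, B.tor_mulVec_inr, Matrix.mulVec_smul, Matrix.mulVec_smul, B.tor_mulVec_inr, hc] at h3
      have h4 := congrFun h3 (.inr (w θ))
      simp only [Pi.smul_apply, ev_self, smul_eq_mul, mul_one] at h4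
      rw [mul_comm] at h4
      exact (Units.ext (mul_right_cancel₀ c.ne_zero h4)).symm
    rw [h2]
    rcases h.pr_mem (w θ) with h1 | h1 | h1 | h1 | h1
    · exact ⟨4, by norm_num, by norm_num, by rw [h1]; norm_num⟩
    · exact ⟨3, by norm_num, by norm_num, by rw [h1]; norm_num⟩
    · exact ⟨2, by norm_num, by norm_num, by rw [h1]; norm_num⟩
    · exact ⟨1, by norm_num, by norm_num, by rw [h1]; norm_num⟩
    · exact absurd (h.eq_of_pr_eq_two h1) hwθ

end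

lemma exists_prime_ne {F : Type*} [Field F] (p : ℕ) :
    ∃ r ∈ ({5, 7, 11} : Finset ℕ), r ≠ p ∧ (r : F) ≠ 0 := by
  have h57 : ¬ ((5 : F) = 0 ∧ (7 : F) = 0) := by
    rintro ⟨h5, h7⟩
    have : (1 : F) = 3 * 5 - 2 * 7 := by norm_num
    rw [h5, h7] at this
    simp at this
  have h511 : ¬ ((5 : F) = 0 ∧ (11 : F) = 0) := by
    rintro ⟨h5, h7⟩
    have : (1 : F) = 11 - 2 * 5 := by norm_num
    rw [h5, h7] at this
    simp at this
  have h711 : ¬ ((7 : F) = 0 ∧ (11 : F) = 0) := by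
    rintro ⟨h5, h7⟩
    have : (1 : F) = 2 * 11 - 3 * 7 := by norm_num
    rw [h5, h7] at this
    simp at this
  by_cases h5 : (5 : F) = 0
  · by_cases hp : p = 7
    · exact ⟨11, by simp, by omega, by exact_mod_cast fun h => h511 ⟨h5, h⟩⟩
    · exact ⟨7, by simp, Ne.symm hp, by exact_mod_cast fun h => h57 ⟨h5, h⟩⟩
  · by_cases hp : p = 5
    · by_cases h7 : (7 : F) = 0
      · exact ⟨11, by simp, by omega, by exact_mod_cast fun h => h711 ⟨h7, h⟩⟩
      · exact ⟨7, by simp, by omega, by exact_mod_cast h7⟩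
    · exact ⟨5, by simp, Ne.symm hp, by exact_mod_cast h5⟩

lemma prime_of_mem {r : ℕ} (hr : r ∈ ({5, 7, 11} : Finset ℕ)) : r.Prime ∧ 4 < r := by
  simp only [Finset.mem_insert, Finset.mem_singleton] at hr
  rcases hr with rfl | rfl | rfl <;> norm_num

/-- the linear independence statement -/
theorem key [P.IsIrreducible] (K : Type u) [Field K] [Finite K] [Fintype (B.group K)] (p : ℕ)
    [Fact p.Prime] [CharP K p] (hs : IsSimpleGroup (B.group K)) :
    ∃ m, 1 ≤ m ∧ ∀ (K1 : Type v) [Field K1] [Algebra K K1], Module.finrank K K1 = m →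
      ∀ {F : Type*} [Field F] [IsAlgClosed F] {V : Type*} [AddCommGroup V] [Module F V]
        [FiniteDimensional F V], (p : F) ≠ 0 → ∀ R : Representation F (B.group K1) V,
        (∃ g, R g ≠ 1) → ∀ c : B.group K → F,
          ∑ x, c x • R (B.groupMap K K1 x) = 0 → c 1 = 0 := by
  classical
  have hne : Nonempty ι := by
    by_contra hemp
    rw [not_nonempty_iff] at hemp
    have h1 : B.group K = ⊥ := by
      rw [group, Subgroup.closure_eq_bot_iff]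
      rintro g ⟨α, -⟩
      exact (IsEmpty.false α).elim
    have h2 : Subsingleton (B.group K) := by
      rw [h1]
      infer_instance
    exact not_subsingleton _ h2
  obtain ⟨θ, hθ⟩ := exists_isTheta b
  obtain ⟨D, hD⟩ := B.exists_generic.{v} K hs θ
  obtain ⟨m, hm1, hm⟩ := exists_tower.{u, v} K p (max D 4)
    (Fintype.card {β // pr P β θ = 1} + 1)
  refine ⟨m, hm1, fun K1 _ _ hK1 F _ _ V _ _ _ hpF R hR c hc => ?_⟩
  obtain ⟨K0, K0', _, _, i, j, κ, hij, hfin, hDlt, hgen, hcard, hroots⟩ := hm K1 hK1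
  have hfin' : Finite K0' := Finite.of_injective _ κ.injective
  have hfin0 : Finite K0 := Finite.of_injective _ j.injective
  have hchar : CharP K1 p := charP_of_injective_algebraMap (algebraMap K K1).injective p
  obtain ⟨r, hrmem, hrp, hrF⟩ := exists_prime_ne (F := F) p
  obtain ⟨ζ, hζ⟩ := hroots r hrmem hrp
  obtain ⟨hrprime, hr4⟩ := prime_of_mem hrmem
  obtain ⟨Ω0, hΩ1, hΩm, -, hΩζ⟩ := exists_theta hrprime hrF hζ
  have hle0 : Nat.card K0 ≤ Nat.card K0' := Nat.card_le_card_of_injective _ j.injective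
  have hle1 : Nat.card K0' ≤ Nat.card K1 := Nat.card_le_card_of_injective _ κ.injective
  have h4 : 4 < Nat.card K0 := lt_of_le_of_lt (le_max_right _ _) hDlt
  -- `X_θ(K1)` acts nontrivially
  have hnt : ∃ z, R (B.xg K1 θ z) ≠ 1 := by
    by_contra hcon
    push Not at hcon
    obtain ⟨g, hg⟩ := hR
    apply hg
    have h1 := B.hom_eq_one hθ (K := K1) (by omega) R.toHomUnits (fun z hz => by
      apply Units.ext
      exact hcon z) g
    exact congrArg Units.val h1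
  -- the function `Ω`
  let f : K0 →+* K1 := κ.comp j
  have hf : ∀ x : K0, Function.invFun f (f x) = x := Function.leftInverse_invFun f.injective
  let Ω : B.group K1 → F := fun x => Ω0 (Function.invFun f (x.1.val (.inr θ) (.inr θ)))
  have hΩθ : ∀ x : B.group K1, x.1.val (.inr θ) (.inr θ) = 1 → Ω x = 1 := by
    intro x hx
    have : Ω x = Ω0 (Function.invFun f 1) := by rw [← hx]
    rw [this, ← map_one f, hf, hΩ1]
  have hmap : ∀ (x : B.group K1) (x0 : GL (b.support ⊕ ι) K0),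
      Matrix.GeneralLinearGroup.map f x0 = x.1 → Ω x = Ω0 (x0.val (.inr θ) (.inr θ)) := by
    intro x x0 h1
    have : Ω x = Ω0 (Function.invFun f (f (x0.val (.inr θ) (.inr θ)))) := by
      simp only [Ω, ← h1]
      rfl
    rw [this, hf]
  have hΩmul : ∀ x y : B.group K1, x.1 ∈ B.XX r (κ.comp j) → y.1 ∈ B.XX r (κ.comp j) →
      Ω (x * y) = Ω x * Ω y := by
    intro x y hx hy
    obtain ⟨x0, hx0, hx1⟩ := B.exists_map_XX (κ.comp j) hx
    obtain ⟨y0, hy0, hy1⟩ := B.exists_map_XX (κ.comp j) hy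
    rw [hmap x x0 hx1, hmap y y0 hy1, hmap (x * y) (x0 * y0) (by
      rw [map_mul, hx1, hy1]; rfl)]
    have h1 := B.XX_theta hθ (RingHom.id K0) hx0 hy0
    have h2 := B.XX_theta hθ (RingHom.id K0) hy0 hx0
    rw [h1.1]
    exact hΩm _ _ h1.2.1 h2.2.1
  obtain ⟨hXcard, w, hw0, hw⟩ := B.exists_w hθ R p hpF j κ hcard (by omega) hgen hrprime hrF hnt
    Ω (hΩθ 1 (by simp)) hΩθ hΩmul
  -- the generic point
  obtain ⟨x0, hx0, hgenx⟩ := hD K0 i (lt_of_le_of_lt (le_max_left _ _) hDlt)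
  have hfinK1 : Finite (GL (b.support ⊕ ι) K1) := inferInstance
  refine coeff_one_eq_zero R (B.groupMap K K1) ((B.XX r (κ.comp j)).subgroupOf (B.group K1)) hXcard
    Ω (hΩθ 1 (by simp)) (fun x hx y hy => hΩmul x y hx hy) hw0 (fun x hx => hw x hx)
    ⟨Matrix.GeneralLinearGroup.map f x0, B.map_mem_group f x0 hx0⟩ ?_ c hc
  intro g hg
  have hg1 : (g : GL (b.support ⊕ ι) K) ≠ 1 := fun h' => hg (Subtype.ext h')
  have hy0 : x0⁻¹ * Matrix.GeneralLinearGroup.map i g.1 * x0 ∈ B.group K0 :=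
    mul_mem (mul_mem (inv_mem hx0) (B.map_mem_group i g.1 g.2)) hx0
  have hζu : IsUnit ζ := hζ.isUnit hrprime.ne_zero
  obtain ⟨ζu, hζu⟩ := hζu
  have hζr : ζu ^ r = 1 := by
    apply Units.ext
    rw [Units.val_pow_eq_pow_val, hζu, hζ.pow_eq_one, Units.val_one]
  obtain ⟨x, hx, hyx, hxθ, n, hn1, hn4, hyxθ⟩ := B.exists_moved hθ (r := r) hζr hy0
    (hgenx g.1 g.2 hg1)
  set y0 := x0⁻¹ * Matrix.GeneralLinearGroup.map i g.1 * x0 with hy0def
  have hxg : Matrix.GeneralLinearGroup.map f x ∈ B.group K1 :=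
    B.XX_le_group f r (B.map_mem_XX f hx)
  have hy : ((⟨Matrix.GeneralLinearGroup.map f x0, B.map_mem_group f x0 hx0⟩ : B.group K1)⁻¹ *
      B.groupMap K K1 g * ⟨Matrix.GeneralLinearGroup.map f x0, B.map_mem_group f x0 hx0⟩) =
      ⟨Matrix.GeneralLinearGroup.map f y0, B.map_mem_group f y0 hy0⟩ := by
    apply Subtype.ext
    change (Matrix.GeneralLinearGroup.map f x0)⁻¹ *
      Matrix.GeneralLinearGroup.map (algebraMap K K1) g.1 * Matrix.GeneralLinearGroup.map f x0 =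
      Matrix.GeneralLinearGroup.map f y0
    rw [hy0def, map_mul, map_mul, map_inv, hij]
    rfl
  rw [hy]
  have hconj : ((⟨Matrix.GeneralLinearGroup.map f y0, B.map_mem_group f y0 hy0⟩ : B.group K1)⁻¹ *
      ⟨Matrix.GeneralLinearGroup.map f x, hxg⟩ *
      ⟨Matrix.GeneralLinearGroup.map f y0, B.map_mem_group f y0 hy0⟩).1 =
      Matrix.GeneralLinearGroup.map f (y0⁻¹ * x * y0) := by
    change (Matrix.GeneralLinearGroup.map f y0)⁻¹ * Matrix.GeneralLinearGroup.map f x *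
      Matrix.GeneralLinearGroup.map f y0 = _
    clear_value y0
    rw [map_mul (Matrix.GeneralLinearGroup.map f) (y0⁻¹ * x) y0,
      map_mul (Matrix.GeneralLinearGroup.map f) y0⁻¹ x, map_inv]
  refine ⟨⟨Matrix.GeneralLinearGroup.map f x, hxg⟩, B.map_mem_XX f hx, ?_, ?_⟩
  · rw [Subgroup.mem_subgroupOf, hconj]
    exact B.map_mem_XX f hyx
  · rw [hmap _ _ hconj.symm, hmap ⟨Matrix.GeneralLinearGroup.map f x, hxg⟩ x rfl, hxθ, hyxθ]
    intro heq
    -- `Ω0 (ζ ^ n) = 1`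
    have h1 : ((ζu ^ 2 : K0ˣ) : K0) = ((ζu ^ (2 - n : ℤ) : K0ˣ) : K0) * ζ ^ n := by
      rw [← hζu, ← Units.val_pow_eq_pow_val, ← Units.val_mul]
      congr 1
      rw [← zpow_natCast ζu n, ← _root_.zpow_add, sub_add_cancel]
      rfl
    have h2 : ((ζu ^ (2 - n : ℤ) : K0ˣ) : K0) ^ r = 1 := by
      rw [← Units.val_pow_eq_pow_val, ← zpow_natCast, ← _root_.zpow_mul, mul_comm, _root_.zpow_mul,
        zpow_natCast, hζr, _root_.one_zpow, Units.val_one]
    have h3 : (ζ ^ n) ^ r = 1 := by rw [← pow_mul, mul_comm, pow_mul, hζ.pow_eq_one, one_pow]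
    rw [h1, hΩm _ _ h2 h3] at heq
    have h5 : Ω0 ((ζu ^ (2 - n : ℤ) : K0ˣ) : K0) ≠ 0 := by
      intro h6
      have h7 := hΩm ((ζu ^ (2 - n : ℤ) : K0ˣ) : K0) (((ζu ^ (2 - n : ℤ))⁻¹ : K0ˣ) : K0) h2 (by
        rw [← Units.val_pow_eq_pow_val, inv_pow]
        have : (ζu ^ (2 - n : ℤ)) ^ r = 1 := Units.ext (by simpa using h2)
        rw [this, inv_one, Units.val_one])
      rw [Units.mul_inv, hΩ1, h6, zero_mul] at h7
      exact one_ne_zero h7
    have h6 : Ω0 (ζ ^ n) = 1 := (left_eq_mul₀ h5).1 heq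
    rw [hΩζ] at h6
    have := Nat.le_of_dvd (by omega) h6
    omega

end ChevalleyBasis

end Pool.Agent.MP_467141
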