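import Pool.Agent.Lib.MP_467141_al.Reduction

/-!
# T10: reduction of the composition factor statement to a linear independence statement over
algebraically closed fields
-/

namespace Pool.Agent.Lib.MP_467141_H17

open scoped TensorProduct
open Pool.Agent.Lib.MP_467141_al

universe u v w

/-- Reduction to linear independence over an algebraically closed field: `V` is an irreducible
representation of `G` over `F` of dimension `> 1`, `j : H →* G` a homomorphism from a finite
group. If for every representation `R` of `G` on a finite-dimensional space over an algebraically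
closed field `F'` of the same characteristic as `F`, such that some `R g ≠ 1`, a relation
`∑ c x • R (j x) = 0` always has `c 1 = 0`, then every irreducible representation of `H` is a
composition factor of `V`. -/
theorem reduction_ac {H G : Type*} [Group H] [Fintype H] [Group G] (j : H →* G)
    {F : Type u} [Field F] {V : Type v} [AddCommGroup V]
    [Module F V] [FiniteDimensional F V] (ρ : Representation F G V) (hρ : ρ.IsIrreducible)
    (hd : 1 < Module.finrank F V)
    (key : ∀ (F' : Type u) [Field F'] [IsAlgClosed F'], ringChar F' = ringChar F →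
      ∀ (V' : Type (max u v)) [AddCommGroup V'] [Module F' V'] [FiniteDimensional F' V']
        (R : Representation F' G V'), (∃ g, R g ≠ 1) →
      ∀ (c : H → F'), ∑ x, c x • R (j x) = 0 → c 1 = 0)
    {W : Type w} [AddCommGroup W] [Module F W] (σ : Representation F H W)
    (hσ : σ.IsIrreducible) : IsCompositionFactor (ρ.comp j) σ := by
  classical
  apply isCompositionFactor_of_isSubquot _ _ hσ
  apply isSubquot_of_faithful
  intro a ha
  by_contra hane
  obtain ⟨x0, hx0⟩ : ∃ x, a.coeff x ≠ 0 := by
    by_contra hcon
    push Not at hcon
    exact hane (MonoidAlgebra.coeff_inj.1 (Finsupp.ext hcon))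
  let F' := AlgebraicClosure F
  have hring : ringChar F' = ringChar F := by
    have : CharP F' (ringChar F) :=
      charP_of_injective_algebraMap (algebraMap F F').injective (ringChar F)
    exact ringChar.eq F' (ringChar F)
  let inc : Module.End F V →ₐ[F] Module.End F' (F' ⊗[F] V) := Module.End.baseChangeHom F F' V
  have hinc : Function.Injective inc := LinearMap.baseChangeHom_injective F V F'
  let R : Representation F' G (F' ⊗[F] V) := (inc : Module.End F V →* _).comp ρ
  have hR : ∃ g, R g ≠ 1 := by
    by_contra hcon
    push Not at hcon
    have h1 : ∀ g, ρ g = 1 := by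
      intro g
      apply hinc
      rw [map_one]
      exact hcon g
    have := trivial_dim ρ hρ h1
    omega
  let a' : MonoidAlgebra F H := MonoidAlgebra.of F H x0⁻¹ * a
  have ha' : Representation.asAlgebraHom (ρ.comp j : Representation F H V) a' = 0 := by
    simp only [a']
    rw [map_mul, ha, mul_zero]
  have ha'1 : a'.coeff 1 = a.coeff x0 := by
    simp only [a', MonoidAlgebra.of_apply]
    rw [MonoidAlgebra.coeff_single_mul_apply]
    simp
  have hsum : ∑ x, a'.coeff x • ρ (j x) = 0 := by
    rw [← ha', Representation.asAlgebraHom_def, MonoidAlgebra.lift_apply,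
      Finsupp.sum_fintype]
    · rfl
    · intro i
      simp
  have hfin := key F' hring (F' ⊗[F] V) R hR (fun x => algebraMap F F' (a'.coeff x)) (by
    have h2 : inc (∑ x, a'.coeff x • ρ (j x)) =
        ∑ x, algebraMap F F' (a'.coeff x) • R (j x) := by
      rw [map_sum]
      refine Finset.sum_congr rfl fun x _ => ?_
      rw [map_smul, algebraMap_smul]
      rfl
    rw [← h2, hsum, map_zero])
  rw [map_eq_zero, ha'1] at hfin
  exact hx0 hfin

/-- variant with a prime `p` that is nonzero in the fields. -/
theorem reduction' {H G : Type*} [Group H] [Fintype H] [Group G] (j : H →* G) (p : ℕ)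
    [Fact p.Prime] {F : Type u} [Field F] (hF : (p : F) ≠ 0) {V : Type v} [AddCommGroup V]
    [Module F V] [FiniteDimensional F V] (ρ : Representation F G V) (hρ : ρ.IsIrreducible)
    (hd : 1 < Module.finrank F V)
    (key : ∀ (F' : Type u) [Field F'] [IsAlgClosed F'] (V' : Type (max u v)) [AddCommGroup V']
      [Module F' V'] [FiniteDimensional F' V'], (p : F') ≠ 0 →
      ∀ (R : Representation F' G V'), (∃ g, R g ≠ 1) →
      ∀ (c : H → F'), ∑ x, c x • R (j x) = 0 → c 1 = 0)
    {W : Type w} [AddCommGroup W] [Module F W] (σ : Representation F H W)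
    (hσ : σ.IsIrreducible) : IsCompositionFactor (ρ.comp j) σ := by
  refine reduction_ac j ρ hρ hd ?_ σ hσ
  intro F' _ _ hchar V' _ _ _ R hR c hc
  refine key F' V' ?_ R hR c hc
  intro h0
  apply hF
  rw [ringChar.spec] at h0 ⊢
  rwa [hchar] at h0

end Pool.Agent.Lib.MP_467141_H17
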