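import Pool.Agent.Lib.MP_467141_H17.Key
import Pool.Agent.Lib.MP_467141_H17.T10

/-! # Main theorem -/

open Matrix Pool.Agent.Lib.MP_467141_al

noncomputable section

namespace Pool.Agent.MP_467141

variable {ι k M N : Type*} [Field k] [CharZero k] [AddCommGroup M] [Module k M]
  [AddCommGroup N] [Module k N] [Fintype ι] [DecidableEq ι]

namespace ChevalleyBasis

theorem main {P : RootPairing ι k M N} [P.IsCrystallographic] [P.IsReduced] [P.IsIrreducible]
    {b : P.Base} {L : Type*} [LieRing L] (B : ChevalleyBasis P b L)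
    (K : Type*) [Field K] [Finite K] (hs : IsSimpleGroup (B.group K)) :
    ∃ m : ℕ, 1 ≤ m ∧ ∀ (K1 : Type*) [Field K1] [Algebra K K1], Module.finrank K K1 = m →
      ∀ (F : Type*) [Field F], ringChar F ≠ ringChar K →
      ∀ (V : Type*) [AddCommGroup V] [Module F V] [FiniteDimensional F V]
        (ρ : Representation F (B.group K1) V), ρ.IsIrreducible → 1 < Module.finrank F V →
      ∀ (W : Type*) [AddCommGroup W] [Module F W] (σ : Representation F (B.group K) W),
        σ.IsIrreducible → IsCompositionFactor (ρ.comp (B.groupMap K K1)) σ := by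
  have hp : Fact (ringChar K).Prime := ⟨CharP.char_is_prime K (ringChar K)⟩
  have : Fintype (B.group K) := Fintype.ofFinite _
  obtain ⟨m, hm1, hm⟩ := B.key K (ringChar K) hs
  refine ⟨m, hm1, fun K1 _ _ hK1 F _ hF V _ _ _ ρ hρ hd W _ _ σ hσ => ?_⟩
  have hpF : ((ringChar K : ℕ) : F) ≠ 0 := by
    intro h0
    have h1 := ringChar.dvd h0
    rcases (Nat.dvd_prime hp.out).1 h1 with h2 | h2
    · exact CharP.ringChar_ne_one h2
    · exact hF h2
  refine Pool.Agent.Lib.MP_467141_H17.reduction' (B.groupMap K K1) (ringChar K) hpF ρ hρ hd ?_ σ hσ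
  intro F' _ _ V' _ _ _ hpF' R hR c hc
  exact hm K1 hK1 hpF' R hR c hc

end ChevalleyBasis

end Pool.Agent.MP_467141
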