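import Pool.Agent.Lib.MP_467141_H17.Defs
import Pool.Agent.Lib.MP_467141_al.Defs

/-!
# MP_467141: the last definitions used in the statement

* `ChevalleyBasis.GK B K`: the Chevalley group `G(K)` as a type with its group structure;
* `ChevalleyBasis.emb B K K'`: the standard embedding `G(K) → G(K')`;
* `RestrictsToAll j F`: restricted along `j : H → G`, every irreducible representation of `G` over
  `F` of dimension `> 1` contains all irreducible representations of `H` over `F`.
-/

open Pool.Agent.Lib.MP_467141_al

noncomputable section

namespace Pool.Agent.MP_467141

universe u v w x y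

variable {ι k M N : Type*} [Field k] [CharZero k] [AddCommGroup M] [Module k M]
  [AddCommGroup N] [Module k N] [Fintype ι] [DecidableEq ι]

namespace ChevalleyBasis

variable {P : RootPairing ι k M N} [P.IsCrystallographic] {b : P.Base} {L : Type*} [LieRing L]
  (B : ChevalleyBasis P b L)

/-- The Chevalley group `G(K)` (the subgroup `B.group K` of `GL(K ⊗ L)`) as a type. -/
def GK (K : Type*) [Field K] : Type _ := B.group K

instance instGroupGK (K : Type*) [Field K] : Group (B.GK K) := Subgroup.toGroup (B.group K)

/-- The standard embedding `G(K) → G(K')` (apply `K → K'` to the matrix entries). -/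
def emb (K K' : Type*) [Field K] [Field K'] [Algebra K K'] : B.GK K →* B.GK K' :=
  MonoidHom.mk' (fun g => ⟨Matrix.GeneralLinearGroup.map (algebraMap K K') g.1,
    B.map_mem_group (algebraMap K K') g.1 g.2⟩) fun g h =>
      Subtype.ext (map_mul (Matrix.GeneralLinearGroup.map (algebraMap K K')) g.1 h.1)

end ChevalleyBasis

/-- For every finite-dimensional irreducible representation `V` of `G` over `F` with `dim V > 1`,
every irreducible representation of `H` over `F` is a composition factor of the restriction
of `V` along `j : H → G`. -/
def RestrictsToAll {G : Type u} {H : Type v} [Group G] [Group H] (j : H →* G)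
    (F : Type w) [Field F] : Prop :=
  ∀ (V : Type x) [AddCommGroup V] [Module F V] [FiniteDimensional F V]
    (ρ : Representation F G V), ρ.IsIrreducible → 1 < Module.finrank F V →
  ∀ (W : Type y) [AddCommGroup W] [Module F W] (σ : Representation F H W),
    σ.IsIrreducible → IsCompositionFactor (ρ.comp j) σ

end Pool.Agent.MP_467141
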