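import Mathlib

/-!
# T0: Baker-Campbell-Hausdorff formula in class two

In a `ℚ`-algebra, if `c = a * b - b * a` commutes with `a` and `b`, and `a`, `b`, `c` are
nilpotent, then `a + b` is nilpotent and `exp (a + b) = exp a * exp b * exp (-(1/2) c)`.
-/

namespace Pool.Agent.Lib.MP_467141_H17

open Polynomial IsNilpotent Finset

section

variable {A : Type*} [Ring A] [Algebra ℚ A]

/-- the polynomial `exp (a X)` -/
noncomputable def ePoly (a : A) (N : ℕ) : A[X] :=
  ∑ i ∈ range N, monomial i ((i.factorial : ℚ)⁻¹ • a ^ i)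

lemma ePoly_coeff {a : A} {N : ℕ} (h : a ^ N = 0) (n : ℕ) :
    (ePoly a N).coeff n = (n.factorial : ℚ)⁻¹ • a ^ n := by
  rw [ePoly, finsetSum_coeff]
  simp only [coeff_monomial]
  rw [sum_ite_eq']
  split_ifs with hn
  · rfl
  · rw [mem_range, not_lt] at hn
    rw [pow_eq_zero_of_le hn h, smul_zero]

/-- the polynomial `exp (z X ^ 2)` -/
noncomputable def gPoly (z : A) (N : ℕ) : A[X] :=
  ∑ i ∈ range N, monomial (2 * i) ((i.factorial : ℚ)⁻¹ • z ^ i)

lemma gPoly_coeff_even {z : A} {N : ℕ} (h : z ^ N = 0) (n : ℕ) :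
    (gPoly z N).coeff (2 * n) = (n.factorial : ℚ)⁻¹ • z ^ n := by
  rw [gPoly, finsetSum_coeff]
  simp only [coeff_monomial]
  have : ∀ x : ℕ, (2 * x = 2 * n) ↔ x = n := fun x => by omega
  simp only [this]
  rw [sum_ite_eq']
  split_ifs with hn
  · rfl
  · rw [mem_range, not_lt] at hn
    rw [pow_eq_zero_of_le hn h, smul_zero]

lemma gPoly_coeff_odd (z : A) (N : ℕ) (n : ℕ) :
    (gPoly z N).coeff (2 * n + 1) = 0 := by
  rw [gPoly, finsetSum_coeff]
  apply sum_eq_zero
  intro i _
  rw [coeff_monomial, if_neg (by omega)]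

lemma fact_aux (n : ℕ) : ((n + 1).factorial : ℚ)⁻¹ * (n + 1) = (n.factorial : ℚ)⁻¹ := by
  rw [Nat.factorial_succ]
  have h1 : ((n : ℚ) + 1) ≠ 0 := by positivity
  have h2 : (n.factorial : ℚ) ≠ 0 := by positivity
  push_cast
  field_simp

lemma smul_mul_natCast (q : ℚ) (x : A) (n : ℕ) :
    (q • x) * ((n : A) + 1) = (q * (n + 1)) • x := by
  have : ((n : A) + 1) = algebraMap ℚ A (n + 1) := by simp
  rw [this, ← Algebra.commutes, ← Algebra.smul_def, smul_smul, mul_comm]

lemma ePoly_derivative {a : A} {N : ℕ} (h : a ^ N = 0) :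
    derivative (ePoly a N) = C a * ePoly a N := by
  ext n
  rw [coeff_derivative, coeff_C_mul, ePoly_coeff h, ePoly_coeff h, smul_mul_natCast, fact_aux,
    pow_succ', mul_smul_comm]

lemma gPoly_derivative {z : A} {N : ℕ} (h : z ^ N = 0) :
    derivative (gPoly z N) = C (2 * z) * X * gPoly z N := by
  ext n
  rw [coeff_derivative, mul_assoc, coeff_C_mul]
  cases n with
  | zero =>
    have := gPoly_coeff_odd z N 0
    simp only [mul_zero, zero_add] at this
    simp [this]
  | succ n =>
    rw [coeff_X_mul]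
    rcases Nat.even_or_odd' n with ⟨k, rfl | rfl⟩
    · have h1 := gPoly_coeff_even h (k + 1)
      have h2 := gPoly_coeff_even h k
      have e1 : 2 * k + 1 + 1 = 2 * (k + 1) := by ring
      rw [e1, h1, h2]
      have e2 : (((2 * k + 1 : ℕ) : A) + 1) = 2 * ((k : A) + 1) := by
        push_cast; rw [mul_add, add_assoc]; norm_num
      rw [e2]
      have e3 : (((k + 1).factorial : ℚ)⁻¹ • z ^ (k + 1)) * (2 * ((k : A) + 1)) =
          2 * ((((k + 1).factorial : ℚ)⁻¹ • z ^ (k + 1)) * ((k : A) + 1)) := by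
        rw [← mul_assoc, ← mul_assoc]
        congr 1
        rw [mul_two, two_mul]
      rw [e3, smul_mul_natCast, fact_aux, pow_succ', mul_smul_comm, mul_assoc, mul_smul_comm,
        mul_smul_comm]
    · have h1 := gPoly_coeff_odd z N (k + 1)
      have h2 := gPoly_coeff_odd z N k
      have e1 : 2 * k + 1 + 1 + 1 = 2 * (k + 1) + 1 := by ring
      rw [e1, h1, h2, zero_mul, mul_zero]

omit [Algebra ℚ A] in
lemma pow_mul_comm_aux {a b c : A} (hc : a * b = b * a + c) (hca : c * a = a * c) (n : ℕ) :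
    a ^ n * b = b * a ^ n + n • (c * a ^ (n - 1)) := by
  induction n with
  | zero => simp
  | succ n ih =>
    have hcn : ∀ m : ℕ, a * (c * a ^ m) = c * a ^ (m + 1) := by
      intro m
      rw [← mul_assoc, ← hca, mul_assoc, ← pow_succ']
    rw [pow_succ', mul_assoc, ih, mul_add, ← mul_assoc, hc, add_mul, mul_smul_comm]
    rcases Nat.eq_zero_or_pos n with rfl | hn
    · simp
    · obtain ⟨m, rfl⟩ : ∃ m, n = m + 1 := ⟨n - 1, by omega⟩
      have e1 : m + 1 - 1 = m := by omega
      have e2 : m + 1 + 1 - 1 = m + 1 := by omega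
      rw [e1, e2, hcn, mul_assoc, ← pow_succ', add_assoc, succ_nsmul' (c * a ^ (m + 1)) (m + 1)]

lemma ePoly_mul_C {a b c : A} (hc : a * b = b * a + c) (hca : c * a = a * c) {N : ℕ}
    (h : a ^ N = 0) : ePoly a N * C b = (C b + C c * X) * ePoly a N := by
  ext n
  rw [coeff_mul_C, add_mul, coeff_add, coeff_C_mul, mul_assoc, coeff_C_mul, ePoly_coeff h,
    smul_mul_assoc, pow_mul_comm_aux hc hca, smul_add, ← mul_smul_comm]
  congr 1
  cases n with
  | zero => simp
  | succ n =>
    rw [coeff_X_mul, ePoly_coeff h, ← fact_aux n, mul_smul_comm]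
    have e1 : n + 1 - 1 = n := by omega
    rw [e1, mul_smul, ← Nat.cast_smul_eq_nsmul ℚ]
    push_cast
    rfl

omit [Algebra ℚ A] in
lemma C_mul_X_commute {c : A} {p : A[X]} (h : ∀ n, c * p.coeff n = p.coeff n * c) :
    C c * X * p = p * (C c * X) := by
  rw [← mul_assoc, mul_assoc, X_mul, ← mul_assoc]
  congr 1
  ext n
  rw [coeff_C_mul, coeff_mul_C, h]

theorem bch2 {a b c : A} (hc : a * b - b * a = c) (hca : c * a = a * c) (hcb : c * b = b * c)
    (ha : IsNilpotent a) (hb : IsNilpotent b) (hcn : IsNilpotent c) :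
    IsNilpotent (a + b) ∧
      IsNilpotent.exp (a + b) =
        IsNilpotent.exp a * IsNilpotent.exp b * IsNilpotent.exp (-((1 / 2 : ℚ) • c)) := by
  obtain ⟨Na, hNa⟩ := ha
  obtain ⟨Nb, hNb⟩ := hb
  obtain ⟨Nc, hNc⟩ := hcn
  set z : A := -((1 / 2 : ℚ) • c) with hz
  have hNz : z ^ Nc = 0 := by
    rw [hz, neg_pow, _root_.smul_pow, hNc, smul_zero, mul_zero]
  have h2z : 2 * z = -c := by
    rw [hz, mul_neg, mul_smul_comm, two_mul, smul_add, ← add_smul]
    norm_num
  have hc' : a * b = b * a + c := by rw [← hc]; abel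
  set E : A[X] := ePoly a Na * ePoly b Nb * gPoly z Nc with hE
  have hcomm_a : C c * X * ePoly a Na = ePoly a Na * (C c * X) := by
    apply C_mul_X_commute
    intro n
    rw [ePoly_coeff hNa, mul_smul_comm, smul_mul_assoc]
    congr 1
    exact (Commute.pow_right (show Commute c a from hca) n).eq
  have hcomm_b : C c * X * ePoly b Nb = ePoly b Nb * (C c * X) := by
    apply C_mul_X_commute
    intro n
    rw [ePoly_coeff hNb, mul_smul_comm, smul_mul_assoc]
    congr 1
    exact (Commute.pow_right (show Commute c b from hcb) n).eq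
  have hder : derivative E = C (a + b) * E := by
    rw [hE, derivative_mul, derivative_mul, ePoly_derivative hNa, ePoly_derivative hNb,
      gPoly_derivative hNz, h2z, ← mul_assoc (ePoly a Na), ePoly_mul_C hc' hca hNa]
    have h1 : ePoly a Na * ePoly b Nb * (C (-c) * X * gPoly z Nc) =
        -(C c * X * (ePoly a Na * ePoly b Nb * gPoly z Nc)) := by
      rw [C_neg, neg_mul, neg_mul, mul_neg, ← mul_assoc, mul_assoc (ePoly a Na), ← hcomm_b,
        ← mul_assoc (ePoly a Na), ← hcomm_a]
      simp only [mul_assoc]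
    rw [h1, C_add]
    simp only [add_mul, mul_assoc]
    abel
  have hcoeff : ∀ n, E.coeff n = (n.factorial : ℚ)⁻¹ • (a + b) ^ n := by
    intro n
    induction n with
    | zero =>
      rw [hE, mul_coeff_zero, mul_coeff_zero, ePoly_coeff hNa, ePoly_coeff hNb]
      have := gPoly_coeff_even hNz 0
      rw [mul_zero] at this
      rw [this]
      simp
    | succ n ih =>
      have h1 := congrArg (fun p => coeff p n) hder
      simp only [coeff_derivative, coeff_C_mul] at h1
      rw [ih] at h1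
      have h2 : E.coeff (n + 1) = (((n : ℚ) + 1)⁻¹) • (E.coeff (n + 1) * ((n : A) + 1)) := by
        have h3 := smul_mul_natCast 1 (E.coeff (n + 1)) n
        rw [one_smul, one_mul] at h3
        rw [h3, smul_smul, inv_mul_cancel₀ (by positivity), one_smul]
      rw [h2, h1, mul_smul_comm, ← pow_succ', smul_smul]
      congr 1
      rw [← fact_aux n]
      have : ((n : ℚ) + 1) ≠ 0 := by positivity
      field_simp
  set M := E.natDegree + 1 with hM
  have hnil : (a + b) ^ M = 0 := by
    have h1 := hcoeff M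
    rw [coeff_eq_zero_of_natDegree_lt (by omega)] at h1
    have h2 : (M.factorial : ℚ)⁻¹ ≠ 0 := by positivity
    exact (smul_eq_zero.1 h1.symm).resolve_left h2
  refine ⟨⟨M, hnil⟩, ?_⟩
  let φ : A[X] →+* A := eval₂RingHom' (RingHom.id A) 1 (fun a => Commute.one_right _)
  have hφ : ∀ p : A[X], φ p = p.sum fun _ x => x := by
    intro p
    change eval₂ (RingHom.id A) 1 p = _
    rw [eval₂_eq_sum]
    simp
  have hφm : ∀ (n : ℕ) (x : A), φ (monomial n x) = x := by
    intro n x
    rw [hφ, sum_monomial_index _ _ rfl]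
  have h1 : φ E = IsNilpotent.exp (a + b) := by
    rw [exp_eq_sum hnil, E.as_sum_range, map_sum]
    refine sum_congr rfl fun n _ => ?_
    rw [hφm, hcoeff]
  have h2 : φ (ePoly a Na) = IsNilpotent.exp a := by
    rw [exp_eq_sum hNa, ePoly, map_sum]
    exact sum_congr rfl fun n _ => hφm _ _
  have h3 : φ (ePoly b Nb) = IsNilpotent.exp b := by
    rw [exp_eq_sum hNb, ePoly, map_sum]
    exact sum_congr rfl fun n _ => hφm _ _
  have h4 : φ (gPoly z Nc) = IsNilpotent.exp z := by
    rw [exp_eq_sum hNz, gPoly, map_sum]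
    exact sum_congr rfl fun n _ => hφm _ _
  rw [← h1, hE, map_mul, map_mul, h2, h3, h4]

end

end Pool.Agent.Lib.MP_467141_H17
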