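import Pool.Agent.Lib.MP_467141_H17.Basic

/-! # T1: the highest (long, dominant) root `θ` -/

set_option linter.unusedSectionVars false

noncomputable section

namespace Pool.Agent.MP_467141

variable {ι k M N : Type*} [Field k] [CharZero k] [AddCommGroup M] [Module k M]
  [AddCommGroup N] [Module k N] [Fintype ι] [DecidableEq ι]

variable {P : RootPairing ι k M N} [P.IsCrystallographic] [P.IsReduced] {b : P.Base}

/-- `θ` is a positive, dominant, long root -/
structure IsTheta (b : P.Base) (θ : ι) : Prop where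
  pos : b.IsPos θ
  dom : ∀ β, b.IsPos β → 0 ≤ pr P β θ
  long : ∀ β, β ≠ θ → β ≠ neg P θ → pr P β θ = -1 ∨ pr P β θ = 0 ∨ pr P β θ = 1

omit [CharZero k] [Fintype ι] [DecidableEq ι] [P.IsCrystallographic] [P.IsReduced] in
lemma t1_root_neg (P : RootPairing ι k M N) (α : ι) : P.root (neg P α) = -P.root α := by
  simp [neg]

omit [Fintype ι] [DecidableEq ι] [P.IsReduced] in
lemma t1_pr_neg_left (α β : ι) : pr P (neg P α) β = -pr P α β := by
  simp [neg]

omit [Fintype ι] [DecidableEq ι] [P.IsReduced] in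
lemma t1_pr_neg_right (α β : ι) : pr P α (neg P β) = -pr P α β := by
  simp [neg]

omit [Fintype ι] [DecidableEq ι] [P.IsReduced] in
lemma t1_pr_self (α : ι) : pr P α α = 2 := by simp

omit [Fintype ι] [DecidableEq ι] [P.IsReduced] in
lemma t1_root_refl (α β : ι) :
    P.root (P.reflectionPerm α β) = P.root β - pr P β α • P.root α := by
  rw [P.root_reflectionPerm, P.reflection_apply_root, ← P.algebraMap_pairingIn ℤ]
  simp [pr, Int.cast_smul_eq_zsmul]

omit [Fintype ι] [DecidableEq ι] [P.IsReduced] in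
lemma t1_pr_of_root_eq_add {α β γ : ι} (δ : ι) (h : P.root γ = P.root α + P.root β) :
    pr P γ δ = pr P α δ + pr P β δ := by
  have : P.pairing γ δ = P.pairing α δ + P.pairing β δ := by
    rw [← P.root_coroot'_eq_pairing, ← P.root_coroot'_eq_pairing, ← P.root_coroot'_eq_pairing,
      h, map_add]
  rw [← P.algebraMap_pairingIn ℤ, ← P.algebraMap_pairingIn ℤ, ← P.algebraMap_pairingIn ℤ,
    ← map_add] at this
  exact FaithfulSMul.algebraMap_injective ℤ k this

omit [Fintype ι] [DecidableEq ι] [P.IsReduced] in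
lemma t1_pr_of_root_eq_sub {α β γ : ι} (δ : ι) (h : P.root γ = P.root α - P.root β) :
    pr P γ δ = pr P α δ - pr P β δ := by
  have h2 : P.root γ = P.root α + P.root (neg P β) := by rw [t1_root_neg, h, sub_eq_add_neg]
  rw [t1_pr_of_root_eq_add δ h2, t1_pr_neg_left, sub_eq_add_neg]

omit [Fintype ι] [DecidableEq ι] [P.IsCrystallographic] [P.IsReduced] in
lemma t1_height_neg (b : P.Base) (α : ι) : b.height (neg P α) = -b.height α :=
  b.height_reflectionPerm_self α

omit [DecidableEq ι] [P.IsReduced] in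
lemma t1_rootLength_refl (α β : ι) :
    (P.posRootForm ℤ).rootLength (P.reflectionPerm α β) = (P.posRootForm ℤ).rootLength β := by
  apply FaithfulSMul.algebraMap_injective ℤ k
  rw [RootPairing.RootPositiveForm.algebraMap_rootLength,
    RootPairing.RootPositiveForm.algebraMap_rootLength, P.root_reflectionPerm]
  exact (P.posRootForm ℤ).isOrthogonal_reflection α _ _

omit [DecidableEq ι] in
theorem exists_isTheta [P.IsIrreducible] [Nonempty ι] (b : P.Base) : ∃ θ, IsTheta b θ := by
  classical
  obtain ⟨θ, -, hθ⟩ := Finset.exists_max_image (Finset.univ : Finset ι)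
    (fun α => toLex ((P.posRootForm ℤ).rootLength α, b.height α)) Finset.univ_nonempty
  have hmax : ∀ α, (P.posRootForm ℤ).rootLength α ≤ (P.posRootForm ℤ).rootLength θ := by
    intro α
    have := hθ α (Finset.mem_univ _)
    rw [Prod.Lex.toLex_le_toLex] at this
    rcases this with h | h
    · exact h.le
    · exact h.1.le
  have hmax' : ∀ α, (P.posRootForm ℤ).rootLength α = (P.posRootForm ℤ).rootLength θ →
      b.height α ≤ b.height θ := by
    intro α h
    have := hθ α (Finset.mem_univ _)
    rw [Prod.Lex.toLex_le_toLex] at this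
    rcases this with h' | h'
    · exact absurd h h'.ne
    · exact h'.2
  refine ⟨θ, ?_, ?_, ?_⟩
  · rw [RootPairing.Base.isPos_iff']
    have := hmax' (neg P θ) (by simp [neg])
    rw [t1_height_neg] at this
    linarith
  · intro β hβ
    by_contra hneg
    push Not at hneg
    have h1 : pr P θ β < 0 := (P.pairingIn_lt_zero_iff ℤ).1 hneg
    have h2 := hmax' (P.reflectionPerm β θ) (t1_rootLength_refl β θ)
    have h3 : P.root (P.reflectionPerm β θ) = P.root θ + (-pr P θ β) • P.root β := by
      rw [t1_root_refl, neg_smul, sub_eq_add_neg]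
    rw [b.height_add_zsmul h3, smul_eq_mul] at h2
    rw [RootPairing.Base.isPos_iff] at hβ
    nlinarith
  · intro β h1 h2
    by_contra hneg
    have h3 : P.root β ≠ P.root θ := fun h => h1 (P.root.injective h)
    have h4 : P.root β ≠ -P.root θ := by
      rw [← t1_root_neg]
      exact fun h => h2 (P.root.injective h)
    have h5 := (P.posRootForm ℤ).rootLength_lt_of_pairingIn_notMem h3 h4 (by
      simp only [Set.mem_insert_iff, Set.mem_singleton_iff]
      exact hneg)
    exact absurd (hmax β) (not_le.2 h5)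

namespace IsTheta

variable {θ : ι} (h : IsTheta b θ)
include h

omit [Fintype ι] [DecidableEq ι] [P.IsReduced] in
lemma eq_of_pr_eq_two {β : ι} (hβ : pr P β θ = 2) : β = θ := by
  by_contra h1
  by_cases h2 : β = neg P θ
  · subst h2
    rw [t1_pr_neg_left, t1_pr_self] at hβ
    norm_num at hβ
  · rcases h.long β h1 h2 with h3 | h3 | h3 <;> rw [h3] at hβ <;> norm_num at hβ

omit [Fintype ι] [DecidableEq ι] [P.IsReduced] in
lemma pr_mem (β : ι) : pr P β θ = -2 ∨ pr P β θ = -1 ∨ pr P β θ = 0 ∨ pr P β θ = 1 ∨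
    pr P β θ = 2 := by
  by_cases h1 : β = θ
  · subst h1; simp
  by_cases h2 : β = neg P θ
  · subst h2; left; rw [t1_pr_neg_left, t1_pr_self]
  rcases h.long β h1 h2 with h3 | h3 | h3 <;> simp [h3]

omit [Fintype ι] [DecidableEq ι] [P.IsReduced] in
lemma isPos_of_pr_pos {β : ι} (hβ : 0 < pr P β θ) : b.IsPos β := by
  rcases RootPairing.Base.IsPos.or_neg b β with h1 | h1
  · exact h1
  · have := h.dom (neg P β) h1
    rw [t1_pr_neg_left] at this
    linarith

omit [Fintype ι] [DecidableEq ι] [P.IsReduced] in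
/-- sum of two elements of `Φ_1` which is a root must be `θ` -/
lemma add_eq_theta {β γ δ : ι} (hβ : pr P β θ = 1) (hγ : pr P γ θ = 1)
    (hδ : P.root δ = P.root β + P.root γ) : δ = θ := by
  apply h.eq_of_pr_eq_two
  rw [t1_pr_of_root_eq_add θ hδ, hβ, hγ]
  norm_num

omit [Fintype ι] [DecidableEq ι] [P.IsReduced] in
/-- `θ + β` is not a root (nor `0`) if `⟨β, θ^∨⟩ ≥ 0` -/
lemma theta_add_not_root {β : ι} (hβ : 0 ≤ pr P β θ) :
    P.root θ + P.root β ∉ Set.range P.root ∧ P.root θ + P.root β ≠ 0 := by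
  constructor
  · rintro ⟨δ, hδ⟩
    have h1 := t1_pr_of_root_eq_add θ hδ
    rw [t1_pr_self] at h1
    have h2 : δ = θ := by
      rcases h.pr_mem δ with h3 | h3 | h3 | h3 | h3
      · linarith
      · linarith
      · linarith
      · linarith
      · exact h.eq_of_pr_eq_two h3
    rw [h2] at hδ
    exact P.ne_zero β (by simpa using hδ)
  · intro h1
    have h2 : β = neg P θ := by
      apply P.root.injective
      rw [t1_root_neg]
      exact (neg_eq_of_add_eq_zero_right h1).symm
    rw [h2, t1_pr_neg_left, t1_pr_self] at hβ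
    norm_num at hβ

omit [Fintype ι] [DecidableEq ι] [P.IsReduced] h in
/-- `θ - β` (index `neg (s_θ β)`) for `β ∈ Φ_1` -/
lemma root_theta_sub' {β : ι} (hβ : pr P β θ = 1) :
    P.root (neg P (P.reflectionPerm θ β)) = P.root θ - P.root β ∧
    P.root (P.reflectionPerm θ β) = P.root β - P.root θ ∧
    pr P (neg P (P.reflectionPerm θ β)) θ = 1 := by
  have h1 : P.root (P.reflectionPerm θ β) = P.root β - P.root θ := by
    rw [t1_root_refl, hβ, one_smul]
  refine ⟨?_, h1, ?_⟩
  · rw [t1_root_neg, h1, neg_sub]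
  · rw [t1_pr_neg_left, t1_pr_of_root_eq_sub θ h1, hβ, t1_pr_self]
    norm_num

omit [Fintype ι] [DecidableEq ι] [P.IsReduced] in
/-- `θ - β` (index `neg (s_θ β)`) for `β ∈ Φ_1` -/
lemma root_theta_sub {β : ι} (hβ : pr P β θ = 1) :
    P.root (neg P (P.reflectionPerm θ β)) = P.root θ - P.root β ∧
    P.root (P.reflectionPerm θ β) = P.root β - P.root θ ∧
    pr P (neg P (P.reflectionPerm θ β)) θ = 1 :=
  root_theta_sub' hβ

end IsTheta

omit [DecidableEq ι] [P.IsReduced] in
/-- A nonempty set of roots whose span is stable under all reflections is not orthogonal to any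
root. -/
lemma t1_exists_pr_ne_zero [P.IsIrreducible] (S : Set ι)
    (hne : S.Nonempty) (hS : ∀ α, ∀ β ∈ S, P.root (P.reflectionPerm α β) ∈
      Submodule.span k (P.root '' S)) (α : ι) : ∃ β ∈ S, pr P α β ≠ 0 := by
  by_contra hcon
  push Not at hcon
  have htop : Submodule.span k (P.root '' S) = ⊤ := by
    apply RootPairing.IsIrreducible.eq_top_of_invtSubmodule_reflection (P := P)
    · intro γ
      rw [Module.End.mem_invtSubmodule]
      rw [Submodule.span_le]
      rintro _ ⟨β, hβ, rfl⟩
      have := hS γ β hβ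
      rw [P.root_reflectionPerm] at this
      exact this
    · intro h0
      obtain ⟨β, hβ⟩ := hne
      have h1 : P.root β ∈ Submodule.span k (P.root '' S) := Submodule.subset_span ⟨β, hβ, rfl⟩
      rw [h0, Submodule.mem_bot] at h1
      exact P.ne_zero β h1
  have hker : Submodule.span k (P.root '' S) ≤ LinearMap.ker (P.coroot' α) := by
    rw [Submodule.span_le]
    rintro _ ⟨β, hβ, rfl⟩
    have h1 := hcon β hβ
    have h2 : P.pairing β α = 0 := by
      rw [← P.pairing_eq_zero_iff', ← P.algebraMap_pairingIn ℤ]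
      simp [h1]
    rw [SetLike.mem_coe, LinearMap.mem_ker, P.root_coroot'_eq_pairing, h2]
  rw [htop] at hker
  have h1 : P.root α ∈ LinearMap.ker (P.coroot' α) := hker Submodule.mem_top
  rw [LinearMap.mem_ker, P.root_coroot'_eq_pairing, P.pairing_same] at h1
  exact two_ne_zero h1

namespace IsTheta

variable {θ : ι} (h : IsTheta b θ)
include h

/-- every root in `Φ_0` is a difference of two roots in `Φ_1` -/
lemma exists_sub [P.IsIrreducible] {γ : ι} (hγ : pr P γ θ = 0) :
    ∃ β₁ β₂, pr P β₁ θ = 1 ∧ pr P β₂ θ = 1 ∧ P.root γ = P.root β₁ - P.root β₂ := by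
  obtain ⟨β, hβ, hβ'⟩ := t1_exists_pr_ne_zero (P := P) {β | pr P β θ ≠ 0}
    ⟨θ, by simp⟩ (by
      intro α β hβ
      by_cases hα : pr P α θ = 0
      · apply Submodule.subset_span
        refine ⟨_, ?_, rfl⟩
        have h1 : P.root (P.reflectionPerm α β) + pr P β α • P.root α = P.root β := by
          rw [t1_root_refl]; abel
        have h2 : pr P (P.reflectionPerm α β) θ = pr P β θ := by
          have e1 : P.pairing (P.reflectionPerm α β) θ =
              P.pairing β θ - P.pairing β α * P.pairing α θ := by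
            rw [← P.root_coroot'_eq_pairing, P.root_reflectionPerm, P.reflection_apply_root,
              map_sub, map_smul, P.root_coroot'_eq_pairing, P.root_coroot'_eq_pairing,
              smul_eq_mul]
          have e2 : P.pairing α θ = 0 := by
            rw [← P.algebraMap_pairingIn ℤ]; simp [hα]
          rw [e2, mul_zero, sub_zero, ← P.algebraMap_pairingIn ℤ, ← P.algebraMap_pairingIn ℤ] at e1
          exact FaithfulSMul.algebraMap_injective ℤ k e1
        rw [Set.mem_ofPred_eq, h2]
        exact hβ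
      · rw [t1_root_refl]
        apply Submodule.sub_mem
        · exact Submodule.subset_span ⟨β, hβ, rfl⟩
        · exact zsmul_mem (Submodule.subset_span (Set.mem_image_of_mem P.root hα)) _) γ
  -- make the pairing with θ equal to 1
  obtain ⟨β', h1, h2⟩ : ∃ β', pr P β' θ = 1 ∧ pr P γ β' ≠ 0 := by
    by_cases e1 : β = θ
    · subst e1; exact absurd hγ hβ'
    by_cases e2 : β = neg P θ
    · subst e2
      rw [t1_pr_neg_right, hγ] at hβ'
      exact absurd rfl hβ'
    rcases h.long β e1 e2 with e3 | e3 | e3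
    · exact ⟨neg P β, by rw [t1_pr_neg_left, e3]; norm_num, by
        rw [t1_pr_neg_right]; exact neg_ne_zero.2 hβ'⟩
    · exact absurd e3 hβ
    · exact ⟨β, e3, hβ'⟩
  rcases lt_or_gt_of_ne h2 with h3 | h3
  · have h4 : P.root γ ≠ -P.root β' := by
      intro e
      rw [← t1_root_neg] at e
      have := P.root.injective e
      rw [this, t1_pr_neg_left, h1] at hγ
      norm_num at hγ
    obtain ⟨δ, hδ⟩ := P.root_add_root_mem_of_pairingIn_neg h3 h4
    refine ⟨δ, β', ?_, h1, by rw [hδ]; abel⟩
    rw [t1_pr_of_root_eq_add θ hδ, hγ, h1, zero_add]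
  · have h4 : γ ≠ β' := by
      rintro rfl
      rw [hγ] at h1
      norm_num at h1
    obtain ⟨δ, hδ⟩ := P.root_sub_root_mem_of_pairingIn_pos h3 h4
    refine ⟨β', neg P δ, h1, ?_, by rw [t1_root_neg, hδ]; abel⟩
    rw [t1_pr_neg_left, t1_pr_of_root_eq_sub θ hδ, hγ, h1]
    norm_num

omit [DecidableEq ι] [P.IsReduced] h in
/-- the Weyl orbit of `θ` is not orthogonal to any root -/
lemma exists_pr_ne_zero' [P.IsIrreducible] (S : Set ι) (hθ : θ ∈ S)
    (hS : ∀ α β, β ∈ S → P.reflectionPerm α β ∈ S) (α : ι) : ∃ β ∈ S, pr P α β ≠ 0 :=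
  t1_exists_pr_ne_zero S ⟨θ, hθ⟩
    (fun α β hβ => Submodule.subset_span ⟨_, hS α β hβ, rfl⟩) α

/-- the Weyl orbit of `θ` is not orthogonal to any root -/
lemma exists_pr_ne_zero [P.IsIrreducible] (S : Set ι) (hθ : θ ∈ S)
    (hS : ∀ α β, β ∈ S → P.reflectionPerm α β ∈ S) (α : ι) : ∃ β ∈ S, pr P α β ≠ 0 :=
  exists_pr_ne_zero' S hθ hS α

lemma chainBotCoeff_neg_theta {β : ι} (hβ : pr P β θ = 1) :
    P.chainBotCoeff β (neg P θ) = 0 := by
  rw [P.chainBotCoeff_eq_zero_iff]
  right
  rw [t1_root_neg]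
  rintro ⟨δ, hδ⟩
  apply (h.theta_add_not_root (β := β) (by rw [hβ]; norm_num)).1
  refine ⟨neg P δ, ?_⟩
  rw [t1_root_neg, hδ]
  abel

lemma linearIndependent {β : ι} (hβ : pr P β θ = 1) :
    LinearIndependent k ![P.root β, P.root θ] := by
  apply RootPairing.IsReduced.linearIndependent (P := P)
  · rintro rfl
    rw [t1_pr_self] at hβ
    norm_num at hβ
  · intro e
    rw [← t1_root_neg] at e
    have := P.root.injective e
    rw [this, t1_pr_neg_left, t1_pr_self] at hβ
    norm_num at hβ

end IsTheta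

end Pool.Agent.MP_467141
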