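import Pool.Agent.Lib.MP_467141_H17.Basic

/-! # T2: divided powers, the elements `x_α(t)`, automorphism property -/

open Matrix

set_option linter.unusedSectionVars false

noncomputable section

namespace Pool.Agent.MP_467141

variable {ι k M N : Type*} [Field k] [CharZero k] [AddCommGroup M] [Module k M]
  [AddCommGroup N] [Module k N] [Fintype ι] [DecidableEq ι]

@[simp] lemma root_neg (P : RootPairing ι k M N) (α : ι) : P.root (neg P α) = -P.root α := by
  simp [neg]

@[simp] lemma neg_neg' (P : RootPairing ι k M N) (α : ι) : neg P (neg P α) = α := by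
  apply P.root.injective
  simp

lemma eq_neg_iff (P : RootPairing ι k M N) (α β : ι) : β = neg P α ↔ P.root β = -P.root α := by
  rw [← root_neg]
  exact ⟨fun h => by rw [h], fun h => P.root.injective h⟩

lemma mulVec_ev {P : RootPairing ι k M N} {b : P.Base} {R : Type*} [CommRing R]
    (A : Matrix (b.support ⊕ ι) (b.support ⊕ ι) R) (l : b.support ⊕ ι) :
    A *ᵥ ev b R l = fun i => A i l := by
  ext i
  simp [ev]

lemma ev_apply {P : RootPairing ι k M N} (b : P.Base) {R : Type*} [CommRing R]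
    (l i : b.support ⊕ ι) : ev b R l i = if i = l then 1 else 0 := by
  simp [ev, Pi.single_apply]

lemma ev_self {P : RootPairing ι k M N} (b : P.Base) {R : Type*} [CommRing R]
    (l : b.support ⊕ ι) : ev b R l l = 1 := by
  simp [ev]

namespace ChevalleyBasis

variable {P : RootPairing ι k M N} [P.IsCrystallographic] {b : P.Base} {L : Type*} [LieRing L]
  (B : ChevalleyBasis P b L)

lemma adI_apply (i l' l : b.support ⊕ ι) :
    B.adI i l' l = B.basis.repr ⁅B.basis i, B.basis l⁆ l' := by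
  simp [adI, LinearMap.toMatrix_apply]

lemma adI_inr (α : ι) : B.adI (.inr α) = B.adE α := rfl

lemma adE_apply (α : ι) (l' l : b.support ⊕ ι) :
    B.adE α l' l = B.basis.repr ⁅B.basis (.inr α), B.basis l⁆ l' := B.adI_apply _ _ _

lemma adE_inl (α : ι) (i : b.support) (l' : b.support ⊕ ι) :
    B.adE α l' (.inl i) = if l' = .inr α then -pr P α i else 0 := by
  rw [adE_apply, ← lie_skew, B.lie_h_e]
  simp only [map_neg, map_smul, Finsupp.coe_neg, Pi.neg_apply, Finsupp.smul_apply,
    Module.Basis.repr_self, Finsupp.single_apply, smul_eq_mul]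
  split_ifs with h1 h2 h2
  · simp
  · exact absurd h1.symm h2
  · exact absurd h2.symm h1
  · simp

lemma adE_inr_of_add {α β γ : ι} (h : P.root γ = P.root α + P.root β) (l' : b.support ⊕ ι) :
    B.adE α l' (.inr β) = if l' = .inr γ then B.adE α (.inr γ) (.inr β) else 0 := by
  rw [adE_apply, adE_apply]
  rcases B.lie_e_e α β γ h with h1 | h1 <;> rw [h1] <;>
  · simp only [map_neg, map_smul, Finsupp.coe_neg, Pi.neg_apply, Finsupp.smul_apply,
      Module.Basis.repr_self, Finsupp.single_apply, smul_eq_mul]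
    by_cases h2 : l' = .inr γ
    · simp [h2]
    · simp [h2, Ne.symm h2]

lemma adE_inr_inr {α β γ : ι} (h : P.root γ = P.root α + P.root β) :
    B.adE α (.inr γ) (.inr β) = ((P.chainBotCoeff α β + 1 : ℕ) : ℤ) ∨
    B.adE α (.inr γ) (.inr β) = -((P.chainBotCoeff α β + 1 : ℕ) : ℤ) := by
  rw [adE_apply]
  rcases B.lie_e_e α β γ h with h1 | h1
  · left; rw [h1]; simp
  · right; rw [h1]; simp

lemma adE_inr_of_not_root {α β : ι} (h : P.root α + P.root β ∉ Set.range P.root)
    (h0 : P.root α + P.root β ≠ 0) (l' : b.support ⊕ ι) : B.adE α l' (.inr β) = 0 := by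
  rw [adE_apply, B.lie_e_e_eq_zero α β h h0]
  simp

lemma adE_inr_self (α : ι) (l' : b.support ⊕ ι) : B.adE α l' (.inr α) = 0 := by
  rw [adE_apply, lie_self]
  simp

lemma exists_coroot_eq (b : P.Base) (α : ι) :
    ∃ c : b.support → ℤ, P.coroot α = ∑ i, c i • P.coroot i := by
  have h := b.coroot_mem_span_int α
  rw [Set.image_eq_range, Submodule.mem_span_range_iff_exists_fun] at h
  obtain ⟨c, hc⟩ := h
  exact ⟨c, hc.symm⟩

lemma adE_inr_neg {α β : ι} (c : b.support → ℤ) (h : P.root β = -P.root α)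
    (hc : P.coroot α = ∑ i, c i • P.coroot i) (l' : b.support ⊕ ι) :
    B.adE α l' (.inr β) = Sum.elim c 0 l' := by
  rw [adE_apply, B.lie_e_neg α β c h hc]
  rw [map_sum, Finsupp.finsetSum_apply]
  simp only [map_smul, Finsupp.smul_apply, Module.Basis.repr_self, Finsupp.single_apply,
      smul_eq_mul]
  rcases l' with l' | l'
  · simp
  · simp

/-- `h_α` in terms of the simple coroots -/
lemma coroot_eq_sum_cc (α : ι) : P.coroot α = ∑ i : b.support, B.cc α i • P.coroot i := by
  obtain ⟨c, hc⟩ := exists_coroot_eq b α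
  have h : ∀ i, B.cc α i = c i := fun i => by
    rw [cc, B.adE_inr_neg c (root_neg P α) hc]
    rfl
  simp only [h]
  exact hc

lemma adE_inr_neg' {α β : ι} (h : P.root β = -P.root α) (l' : b.support ⊕ ι) :
    B.adE α l' (.inr β) = Sum.elim (B.cc α) 0 l' :=
  B.adE_inr_neg _ h (B.coroot_eq_sum_cc α) l'

lemma adE_inl_inr {α β : ι} (h : P.root β = -P.root α) (i : b.support) :
    B.adE α (.inl i) (.inr β) = B.cc α i := by
  rw [B.adE_inr_neg' h]; rfl

lemma adE_inr_inl (α : ι) (i : b.support) :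
    B.adE α (.inr α) (.inl i) = -pr P α i := by
  rw [adE_inl, if_pos rfl]

/-- `ad e_α` raises weights by `α` -/
lemma wt_of_adE_ne_zero {α : ι} {i l : b.support ⊕ ι} (h : B.adE α i l ≠ 0) :
    wt b i = wt b l + P.root α := by
  rcases l with l | β
  · rw [adE_inl] at h
    have : i = .inr α := by
      by_contra hi
      rw [if_neg hi] at h
      exact h rfl
    rw [this]
    simp [wt]
  · by_cases h1 : P.root α + P.root β ∈ Set.range P.root
    · obtain ⟨γ, hγ⟩ := h1
      rw [B.adE_inr_of_add hγ] at h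
      have : i = .inr γ := by
        by_contra hi
        rw [if_neg hi] at h
        exact h rfl
      rw [this]
      simp [wt, hγ, add_comm]
    · by_cases h2 : P.root α + P.root β = 0
      · have h3 : P.root β = -P.root α := by rw [eq_neg_iff_add_eq_zero, add_comm]; exact h2
        rw [B.adE_inr_neg' h3] at h
        rcases i with i | i
        · simp [wt, h3]
        · simp at h
      · exact absurd (B.adE_inr_of_not_root h1 h2 i) h

lemma wt_of_pow_ne_zero {α : ι} {j : ℕ} {i l : b.support ⊕ ι} (h : (B.adE α ^ j) i l ≠ 0) :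
    wt b i = wt b l + j • P.root α := by
  induction j generalizing i with
  | zero =>
    rw [pow_zero, Matrix.one_apply] at h
    have : i = l := by by_contra hi; exact h (if_neg hi)
    rw [this]; simp
  | succ j ih =>
    rw [pow_succ', Matrix.mul_apply] at h
    obtain ⟨m, -, hm⟩ := Finset.exists_ne_zero_of_sum_ne_zero h
    have h1 := B.wt_of_adE_ne_zero (left_ne_zero_of_mul hm)
    have h2 := ih (right_ne_zero_of_mul hm)
    rw [h1, h2, succ_nsmul, add_assoc]

section reduced

variable [P.IsReduced]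

lemma torsionFreeM (P : RootPairing ι k M N) : IsAddTorsionFree M :=
  have : Module.IsReflexive k M := .of_isPerfPair P.toLinearMap
  .of_isTorsionFree k M

lemma nsmul_root_ne_zero (P : RootPairing ι k M N) {n : ℕ} (hn : n ≠ 0) (α : ι) :
    n • P.root α ≠ 0 := by
  intro h
  rw [← Nat.cast_smul_eq_nsmul k, smul_eq_zero] at h
  rcases h with h | h
  · exact hn (Nat.cast_eq_zero.1 h)
  · exact P.ne_zero α h

lemma nsmul_notMem (P : RootPairing ι k M N) [P.IsReduced] {n : ℕ} (hn : n ≠ 1) (α : ι) :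
    n • P.root α ∉ Set.range P.root := by
  rcases Nat.lt_or_ge n 2 with h | h
  · have : n = 0 := by omega
    rw [this, zero_smul]
    exact P.zero_notMem_range_root
  · have : n.AtLeastTwo := ⟨h⟩
    have : IsAddTorsionFree M := torsionFreeM P
    exact P.nsmul_notMem_range_root

/-- dichotomy for pairs of roots -/
lemma eq_or_neg_or_indep (P : RootPairing ι k M N) [P.IsReduced] (α β : ι) :
    β = α ∨ β = neg P α ∨ LinearIndependent k ![P.root α, P.root β] := by
  by_cases h1 : β = α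
  · exact Or.inl h1
  · by_cases h2 : β = neg P α
    · exact Or.inr (Or.inl h2)
    · refine Or.inr (Or.inr ?_)
      refine RootPairing.IsReduced.linearIndependent P (Ne.symm h1) ?_
      intro h3
      apply h2
      rw [Pool.Agent.MP_467141.eq_neg_iff, h3, _root_.neg_neg]

lemma adE_pow_self (α : ι) (j : ℕ) (l' : b.support ⊕ ι) :
    (B.adE α ^ (j + 1)) l' (.inr α) = 0 := by
  rw [pow_succ, Matrix.mul_apply]
  exact Finset.sum_eq_zero fun i _ => by rw [adE_inr_self, mul_zero]

lemma adE_pow_inl (α : ι) (j : ℕ) (i : b.support) (l' : b.support ⊕ ι) :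
    (B.adE α ^ (j + 2)) l' (.inl i) = 0 := by
  rw [pow_succ, Matrix.mul_apply]
  refine Finset.sum_eq_zero fun m _ => ?_
  rw [adE_inl]
  split_ifs with h
  · rw [h, adE_pow_self, zero_mul]
  · rw [mul_zero]

lemma sum_cc_mul_pr (α β : ι) : ∑ i : b.support, B.cc α i * pr P β i = pr P β α := by
  have h := B.coroot_eq_sum_cc α
  have h1 : P.pairing β α = ∑ i : b.support, (B.cc α i : k) * P.pairing β i := by
    rw [← P.root_coroot_eq_pairing, h, map_sum]
    refine Finset.sum_congr rfl fun i _ => ?_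
    rw [map_zsmul, P.root_coroot_eq_pairing, zsmul_eq_mul]
  have h2 : ((∑ i : b.support, B.cc α i * pr P β i : ℤ) : k) = ((pr P β α : ℤ) : k) := by
    push_cast
    rw [show ((pr P β α : ℤ) : k) = P.pairing β α from P.algebraMap_pairingIn ℤ β α, h1]
    refine Finset.sum_congr rfl fun i _ => ?_
    rw [show ((pr P β i : ℤ) : k) = P.pairing β i from P.algebraMap_pairingIn ℤ β i]
  exact_mod_cast h2

lemma adE_sq_neg {α β : ι} (h : P.root β = -P.root α) (l' : b.support ⊕ ι) :
    (B.adE α ^ 2) l' (.inr β) = if l' = .inr α then -2 else 0 := by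
  rw [pow_two, Matrix.mul_apply, Fintype.sum_sum_type]
  simp only [B.adE_inr_neg' h, Sum.elim_inl, Sum.elim_inr, Pi.zero_apply, mul_zero,
    Finset.sum_const_zero, add_zero, adE_inl]
  split_ifs with h1
  · have := B.sum_cc_mul_pr α α
    rw [show pr P α α = 2 from P.pairingIn_same ℤ α] at this
    rw [← this, ← Finset.sum_neg_distrib]
    exact Finset.sum_congr rfl fun i _ => by ring
  · simp

lemma adE_pow_three_neg {α β : ι} (h : P.root β = -P.root α) (j : ℕ) (l' : b.support ⊕ ι) :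
    (B.adE α ^ (j + 3)) l' (.inr β) = 0 := by
  rw [show j + 3 = (j + 1) + 2 from rfl, pow_add, Matrix.mul_apply]
  refine Finset.sum_eq_zero fun m _ => ?_
  rw [B.adE_sq_neg h]
  split_ifs with h1
  · rw [h1, adE_pow_self, zero_mul]
  · rw [mul_zero]

lemma adE_pow_string {α β : ι} (hβ : LinearIndependent k ![P.root α, P.root β]) (j : ℕ) :
    (∃ γ, P.root γ = P.root β + j • P.root α ∧ ∃ ε : ℤ, (ε = 1 ∨ ε = -1) ∧
      P.chainBotCoeff α γ = P.chainBotCoeff α β + j ∧
      ∀ l', (B.adE α ^ j) l' (.inr β) =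
        if l' = .inr γ then ε * ((P.chainBotCoeff α β + 1).ascFactorial j : ℕ) else 0) ∨
    (P.root β + j • P.root α ∉ Set.range P.root ∧ ∀ l', (B.adE α ^ j) l' (.inr β) = 0) := by
  induction j with
  | zero =>
    left
    refine ⟨β, by simp, 1, Or.inl rfl, by simp, fun l' => ?_⟩
    rw [pow_zero, Matrix.one_apply]
    simp
  | succ j ih =>
    rcases ih with ⟨γ, hγ, ε, hε, hq, h⟩ | ⟨hγ, h⟩
    · have hcol : ∀ l', (B.adE α ^ (j + 1)) l' (.inr β) =
          B.adE α l' (.inr γ) * (ε * ((P.chainBotCoeff α β + 1).ascFactorial j : ℕ)) := by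
        intro l'
        rw [pow_succ', Matrix.mul_apply]
        simp only [h]
        simp
      have hind : LinearIndependent k ![P.root α, P.root γ] := by
        rw [hγ, ← Nat.cast_smul_eq_nsmul k, add_comm]
        exact (LinearIndependent.pair_add_smul_right_iff _).2 hβ
      by_cases h1 : P.root β + (j + 1) • P.root α ∈ Set.range P.root
      · left
        obtain ⟨δ, hδ⟩ := h1
        have hδ' : P.root δ = P.root α + P.root γ := by rw [hδ, hγ, succ_nsmul]; abel
        have hq' : P.chainBotCoeff α δ = P.chainBotCoeff α β + (j + 1) := by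
          rw [P.chainBotCoeff_of_add hind (by rw [hδ', add_comm]), hq, add_assoc]
        refine ⟨δ, hδ, ?_⟩
        rcases B.adE_inr_inr hδ' with h2 | h2
        · refine ⟨ε, hε, hq', fun l' => ?_⟩
          rw [hcol, B.adE_inr_of_add hδ', h2, hq, Nat.ascFactorial_succ]
          split_ifs
          · push_cast; ring
          · ring
        · refine ⟨-ε, by rcases hε with rfl | rfl <;> simp, hq', fun l' => ?_⟩
          rw [hcol, B.adE_inr_of_add hδ', h2, hq, Nat.ascFactorial_succ]
          split_ifs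
          · push_cast; ring
          · ring
      · right
        refine ⟨h1, fun l' => ?_⟩
        have h2 : P.root α + P.root γ ∉ Set.range P.root := by
          rw [hγ, show P.root α + (P.root β + j • P.root α) = P.root β + (j + 1) • P.root α by
            rw [succ_nsmul]; abel]
          exact h1
        have h3 : P.root α + P.root γ ≠ 0 := by
          intro h3
          rw [LinearIndependent.pair_iff] at hind
          have := hind 1 1 (by simpa using h3)
          simp at this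
        rw [hcol, B.adE_inr_of_not_root h2 h3, zero_mul]
    · right
      constructor
      · intro h1
        apply hγ
        have h2 : ((j + 1 : ℕ)) ≤ P.chainTopCoeff α β :=
          (P.root_add_nsmul_mem_range_iff_le_chainTopCoeff hβ).1 h1
        exact (P.root_add_nsmul_mem_range_iff_le_chainTopCoeff hβ).2 (by omega)
      · intro l'
        rw [pow_succ', Matrix.mul_apply]
        exact Finset.sum_eq_zero fun i _ => by rw [h, mul_zero]

lemma adE_pow_four (α : ι) : B.adE α ^ 4 = 0 := by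
  ext l' l
  rw [Matrix.zero_apply]
  rcases l with i | β
  · exact B.adE_pow_inl α 2 i l'
  · rcases eq_or_neg_or_indep P α β with rfl | h | h
    · exact B.adE_pow_self β 3 l'
    · exact B.adE_pow_three_neg ((Pool.Agent.MP_467141.eq_neg_iff P α β).1 h) 1 l'
    · rcases B.adE_pow_string h 4 with ⟨γ, hγ, -⟩ | ⟨-, h1⟩
      · exfalso
        have h2 : 4 ≤ P.chainTopCoeff α β :=
          (P.root_add_nsmul_mem_range_iff_le_chainTopCoeff h).1 ⟨γ, hγ⟩
        have h3 : P.chainBotCoeff α β + P.chainTopCoeff α β ≤ 3 :=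
          P.chainBotCoeff_add_chainTopCoeff_le_three
        omega
      · exact h1 l'

lemma factorial_dvd_adE_pow (α : ι) (j : ℕ) (l' l : b.support ⊕ ι) :
    (j.factorial : ℤ) ∣ (B.adE α ^ j) l' l := by
  rcases l with i | β
  · match j with
    | 0 => simp
    | 1 => simp
    | j + 2 => rw [adE_pow_inl]; exact dvd_zero _
  · rcases eq_or_neg_or_indep P α β with rfl | h | h
    · match j with
      | 0 => simp
      | j + 1 => rw [adE_pow_self]; exact dvd_zero _
    · have h' := (Pool.Agent.MP_467141.eq_neg_iff P α β).1 h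
      match j with
      | 0 => simp
      | 1 => simp
      | 2 =>
        rw [B.adE_sq_neg h']
        split_ifs
        · exact ⟨-1, by norm_num [Nat.factorial]⟩
        · exact dvd_zero _
      | j + 3 => rw [B.adE_pow_three_neg h']; exact dvd_zero _
    · rcases B.adE_pow_string h j with ⟨γ, -, ε, -, -, h1⟩ | ⟨-, h1⟩
      · rw [h1]
        split_ifs
        · exact Dvd.dvd.mul_left (by exact_mod_cast Nat.factorial_dvd_ascFactorial _ _) _
        · exact dvd_zero _
      · rw [h1]; exact dvd_zero _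

theorem factorial_smul_dpow (α : ι) (j : ℕ) :
    (j.factorial : ℤ) • B.dpow α j = B.adE α ^ j := by
  ext l' l
  rw [Matrix.smul_apply, smul_eq_mul, dpow, Matrix.map_apply]
  exact Int.mul_ediv_cancel' (B.factorial_dvd_adE_pow α j l' l)

lemma dpow_unique {α : ι} {j : ℕ} {D : Matrix (b.support ⊕ ι) (b.support ⊕ ι) ℤ}
    (h : (j.factorial : ℤ) • D = B.adE α ^ j) : B.dpow α j = D := by
  have h1 := B.factorial_smul_dpow α j
  rw [← h] at h1
  have h2 : (j.factorial : ℤ) ≠ 0 := by exact_mod_cast j.factorial_ne_zero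
  ext l' l
  have h3 := congrFun (congrFun h1 l') l
  simp only [Matrix.smul_apply, smul_eq_mul] at h3
  exact mul_left_cancel₀ h2 h3

lemma factorial_mul_dpow_apply (α : ι) (j : ℕ) (l' l : b.support ⊕ ι) :
    (j.factorial : ℤ) * B.dpow α j l' l = (B.adE α ^ j) l' l := by
  rw [← B.factorial_smul_dpow α j, Matrix.smul_apply, smul_eq_mul]

lemma dpow_zero (α : ι) : B.dpow α 0 = 1 := B.dpow_unique (by simp)

lemma dpow_one (α : ι) : B.dpow α 1 = B.adE α := B.dpow_unique (by simp)

lemma dpow_eq_zero (α : ι) {j : ℕ} (hj : 4 ≤ j) : B.dpow α j = 0 := by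
  apply B.dpow_unique
  rw [smul_zero, show j = 4 + (j - 4) by omega, pow_add, B.adE_pow_four, zero_mul]

lemma dpow_mul_dpow (α : ι) (i j : ℕ) :
    B.dpow α i * B.dpow α j = (((i + j).choose i : ℕ) : ℤ) • B.dpow α (i + j) := by
  have h0 : ((i.factorial : ℤ) * (j.factorial : ℤ)) ≠ 0 :=
    mul_ne_zero (by exact_mod_cast i.factorial_ne_zero) (by exact_mod_cast j.factorial_ne_zero)
  have h1 : ((i.factorial : ℤ) * (j.factorial : ℤ)) • (B.dpow α i * B.dpow α j) =
      ((i.factorial : ℤ) * (j.factorial : ℤ)) •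
        ((((i + j).choose i : ℕ) : ℤ) • B.dpow α (i + j)) := by
    rw [smul_smul, mul_comm _ ((((i + j).choose i : ℕ)) : ℤ), ← mul_assoc]
    have h2 : ((((i + j).choose i : ℕ)) : ℤ) * (i.factorial : ℤ) * (j.factorial : ℤ) =
        ((i + j).factorial : ℤ) := by
      have := Nat.add_choose_mul_factorial_mul_factorial i j
      rw [← Nat.choose_symm_add] at this
      exact_mod_cast this
    rw [h2, factorial_smul_dpow, pow_add, ← B.factorial_smul_dpow α i,
      ← B.factorial_smul_dpow α j, smul_mul_smul_comm]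
  ext l' l
  have h3 := congrFun (congrFun h1 l') l
  simp only [Matrix.smul_apply, smul_eq_mul] at h3 ⊢
  exact mul_left_cancel₀ h0 h3

/-- `D_α^j` raises weights by `j α`. -/
lemma wt_of_dpow_ne_zero {α : ι} {j : ℕ} {i l : b.support ⊕ ι} (h : B.dpow α j i l ≠ 0) :
    wt b i = wt b l + j • P.root α := by
  apply B.wt_of_pow_ne_zero (α := α)
  rw [← B.factorial_mul_dpow_apply]
  exact mul_ne_zero (by exact_mod_cast j.factorial_ne_zero) h

lemma dpow_string {α β : ι} (hβ : LinearIndependent k ![P.root α, P.root β]) {γ : ι} {j : ℕ}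
    (h : P.root γ = P.root β + j • P.root α) : ∃ ε : ℤ, (ε = 1 ∨ ε = -1) ∧
    ∀ l', B.dpow α j l' (.inr β) =
      if l' = .inr γ then ε * ((P.chainBotCoeff α β + j).choose j : ℕ) else 0 := by
  rcases B.adE_pow_string hβ j with ⟨γ', hγ', ε, hε, -, h1⟩ | ⟨h1, -⟩
  · have : γ' = γ := P.root.injective (by rw [hγ', h])
    subst this
    refine ⟨ε, hε, fun l' => ?_⟩
    have h2 := B.factorial_mul_dpow_apply α j l' (.inr β)
    rw [h1] at h2
    have h0 : (j.factorial : ℤ) ≠ 0 := by exact_mod_cast j.factorial_ne_zero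
    split_ifs with h3
    · rw [if_pos h3, Nat.ascFactorial_eq_factorial_mul_choose] at h2
      apply mul_left_cancel₀ h0
      rw [h2]
      push_cast
      ring
    · rw [if_neg h3] at h2
      exact (mul_eq_zero.1 h2).resolve_left h0
  · exact absurd ⟨γ, h⟩ h1

/-- matrix entries: `D_α^j e_β = ± choose (q+j) j e_{β+jα}` -/
lemma dpow_inr_inr {α β γ : ι} {j : ℕ} (hβ : LinearIndependent k ![P.root α, P.root β])
    (h : P.root γ = P.root β + j • P.root α) :
    B.dpow α j (.inr γ) (.inr β) = ((P.chainBotCoeff α β + j).choose j : ℕ) ∨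
    B.dpow α j (.inr γ) (.inr β) = -(((P.chainBotCoeff α β + j).choose j : ℕ) : ℤ) := by
  obtain ⟨ε, hε, h1⟩ := B.dpow_string hβ h
  rw [h1, if_pos rfl]
  rcases hε with rfl | rfl
  · left; rw [one_mul]
  · right; rw [neg_one_mul]

lemma dpow_inr_of_not_root {α β : ι} {j : ℕ} (hβ : LinearIndependent k ![P.root α, P.root β])
    (h : P.root β + j • P.root α ∉ Set.range P.root) (l' : b.support ⊕ ι) :
    B.dpow α j l' (.inr β) = 0 := by
  by_contra hne
  have h1 := B.wt_of_dpow_ne_zero hne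
  rcases l' with i | γ
  · simp only [wt, Sum.elim_inl, Sum.elim_inr] at h1
    rw [LinearIndependent.pair_iff] at hβ
    have h2 := hβ j 1 (by rw [one_smul, Nat.cast_smul_eq_nsmul, add_comm]; exact h1.symm)
    simp at h2
  · exact h ⟨γ, h1⟩

lemma cc_neg (α : ι) (i : b.support) : B.cc (neg P α) i = - B.cc α i := by
  have h : P.coroot (neg P α) = ∑ i : b.support, (-B.cc α i) • P.coroot i := by
    simp only [neg_smul, Finset.sum_neg_distrib]
    rw [← B.coroot_eq_sum_cc]
    simp [neg]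
  have h1 := B.adE_inr_neg (α := neg P α) (β := α) _ (by simp) h (.inl i)
  rw [B.adE_inl_inr (by simp)] at h1
  rw [h1]
  rfl

lemma dpow_two_neg (α : ι) : B.dpow α 2 (.inr α) (.inr (neg P α)) = -1 := by
  have h := B.factorial_mul_dpow_apply α 2 (.inr α) (.inr (neg P α))
  rw [B.adE_sq_neg (root_neg P α), if_pos rfl] at h
  norm_num [Nat.factorial] at h
  linarith

end reduced

section x

variable [P.IsReduced] (R : Type*) [CommRing R]

lemma xMat_apply (α : ι) (t : R) (l' l : b.support ⊕ ι) :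
    B.xMat R α t l' l = ∑ j ∈ Finset.range 4, t ^ j * (B.dpow α j l' l : R) := by
  simp [xMat, Matrix.sum_apply]

lemma xMat_zero (α : ι) : B.xMat R α 0 = 1 := by
  rw [xMat, Finset.sum_range_succ']
  simp [dpow_zero]

lemma xMat_add (α : ι) (s t : R) : B.xMat R α (s + t) = B.xMat R α s * B.xMat R α t := by
  have hmul : ∀ i j : ℕ, (B.dpow α i).map (Int.castRingHom R) * (B.dpow α j).map
      (Int.castRingHom R) = (((i + j).choose i : ℕ) : R) • (B.dpow α (i + j)).map
      (Int.castRingHom R) := by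
    intro i j
    rw [← Matrix.map_mul, dpow_mul_dpow]
    ext l' l
    rw [Matrix.map_apply, Matrix.smul_apply, Matrix.smul_apply, Matrix.map_apply, smul_eq_mul,
      smul_eq_mul, map_mul]
    simp
  simp only [xMat, Finset.sum_range_succ, Finset.sum_range_zero, zero_add, add_mul, mul_add,
    smul_mul_smul_comm, hmul, Nat.add_zero]
  norm_num [B.dpow_eq_zero α (le_refl 4), B.dpow_eq_zero α (show 4 ≤ 5 by norm_num),
    B.dpow_eq_zero α (show 4 ≤ 6 by norm_num), Nat.choose]
  module

/-- `x_α(t)` as an element of the general linear group -/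
def x (α : ι) (t : R) : GL (b.support ⊕ ι) R where
  val := B.xMat R α t
  inv := B.xMat R α (-t)
  val_inv := by rw [← xMat_add, add_neg_cancel, xMat_zero]
  inv_val := by rw [← xMat_add, neg_add_cancel, xMat_zero]

@[simp] lemma coe_x (α : ι) (t : R) : (B.x R α t).val = B.xMat R α t := rfl

@[simp] lemma x_zero (α : ι) : B.x R α 0 = 1 := Units.ext (B.xMat_zero R α)

lemma x_add (α : ι) (s t : R) : B.x R α (s + t) = B.x R α s * B.x R α t :=
  Units.ext (B.xMat_add R α s t)

lemma x_neg (α : ι) (t : R) : B.x R α (-t) = (B.x R α t)⁻¹ := by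
  rw [eq_inv_iff_mul_eq_one, ← x_add, neg_add_cancel, x_zero]

lemma map_x {S : Type*} [CommRing S] (f : R →+* S) (α : ι) (t : R) :
    Matrix.GeneralLinearGroup.map f (B.x R α t) = B.x S α (f t) :=
  Units.ext (B.map_xMat f α t)

lemma x_mem_group (K : Type*) [Field K] (α : ι) (t : K) : B.x K α t ∈ B.group K :=
  Subgroup.subset_closure ⟨α, t, rfl⟩

lemma group_eq_closure (K : Type*) [Field K] :
    B.group K = Subgroup.closure (Set.range fun p : ι × K => B.x K p.1 p.2) := by
  rw [group]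
  congr 1
  ext g
  constructor
  · rintro ⟨α, t, h⟩
    exact ⟨(α, t), (Units.ext h).symm⟩
  · rintro ⟨⟨α, t⟩, rfl⟩
    exact ⟨α, t, rfl⟩

/-- support of `x_α(t) e_l` -/
lemma xMat_apply_ne_zero {α : ι} {t : R} {i l : b.support ⊕ ι}
    (h : B.xMat R α t i l ≠ 0) : ∃ j < 4, wt b i = wt b l + j • P.root α := by
  rw [xMat_apply] at h
  obtain ⟨j, hj, h1⟩ := Finset.exists_ne_zero_of_sum_ne_zero h
  refine ⟨j, Finset.mem_range.1 hj, B.wt_of_dpow_ne_zero (α := α) ?_⟩
  intro h2
  rw [h2] at h1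
  simp at h1

lemma xMat_apply_self (α : ι) (t : R) (i : b.support ⊕ ι) : B.xMat R α t i i = 1 := by
  rw [xMat_apply, Finset.sum_range_succ', dpow_zero]
  have : ∀ j ∈ Finset.range 3, t ^ (j + 1) * (B.dpow α (j + 1) i i : R) = 0 := by
    intro j _
    have h : B.dpow α (j + 1) i i = 0 := by
      by_contra h
      have h1 := B.wt_of_dpow_ne_zero h
      have h2 : (j + 1) • P.root α = 0 := by simpa using h1
      exact nsmul_root_ne_zero P (Nat.succ_ne_zero j) α h2
    rw [h]; simp
  rw [Finset.sum_eq_zero this]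
  simp

/-- `x_α(t) e_β = e_β` if `α + β` is not a root and not `0` -/
lemma xMat_mulVec_of_not_root {α β : ι} (t : R) (h : P.root α + P.root β ∉ Set.range P.root)
    (h0 : P.root α + P.root β ≠ 0) : B.xMat R α t *ᵥ ev b R (.inr β) = ev b R (.inr β) := by
  rw [mulVec_ev]
  ext i
  rw [xMat_apply, Finset.sum_range_succ', dpow_zero, ev_apply, Matrix.one_apply]
  have : ∀ j ∈ Finset.range 3, t ^ (j + 1) * (B.dpow α (j + 1) i (.inr β) : R) = 0 := by
    intro j _
    have h : B.dpow α (j + 1) i (.inr β) = 0 := by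
      have h1 := B.factorial_mul_dpow_apply α (j + 1) i (.inr β)
      rw [pow_succ, Matrix.mul_apply] at h1
      simp only [B.adE_inr_of_not_root h h0, mul_zero, Finset.sum_const_zero] at h1
      exact (mul_eq_zero.1 h1).resolve_left (by exact_mod_cast (j + 1).factorial_ne_zero)
    rw [h]; simp
  rw [Finset.sum_eq_zero this]
  simp

/-- `x_α(t) e_α = e_α` -/
lemma xMat_mulVec_self (α : ι) (t : R) :
    B.xMat R α t *ᵥ ev b R (.inr α) = ev b R (.inr α) := by
  apply B.xMat_mulVec_of_not_root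
  · rw [← two_nsmul]; exact nsmul_notMem P (by norm_num) α
  · rw [← two_nsmul]; exact nsmul_root_ne_zero P (by norm_num) α

lemma dpow_inl_of_two_le (α : ι) {j : ℕ} (hj : 2 ≤ j) (i : b.support) (l' : b.support ⊕ ι) :
    B.dpow α j l' (.inl i) = 0 := by
  have h1 := B.factorial_mul_dpow_apply α j l' (.inl i)
  obtain ⟨j, rfl⟩ := Nat.exists_eq_add_of_le' hj
  rw [adE_pow_inl] at h1
  exact (mul_eq_zero.1 h1).resolve_left (by exact_mod_cast (j + 2).factorial_ne_zero)

/-- `x_α(t) h_i = h_i - ⟨α,α_i^∨⟩ t e_α` -/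
lemma xMat_mulVec_inl (α : ι) (t : R) (i : b.support) :
    B.xMat R α t *ᵥ ev b R (.inl i) =
      ev b R (.inl i) - (((pr P α i : ℤ) : R) * t) • ev b R (.inr α) := by
  rw [mulVec_ev]
  ext l'
  rw [xMat_apply]
  simp only [Finset.sum_range_succ, Finset.sum_range_zero, zero_add, dpow_zero, dpow_one,
    B.dpow_inl_of_two_le α (le_refl 2), B.dpow_inl_of_two_le α (show 2 ≤ 3 by norm_num),
    adE_inl, Matrix.one_apply, ev_apply, Pi.sub_apply, Pi.smul_apply, smul_eq_mul]
  split_ifs <;> push_cast <;> ring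

/-- `x_α(t) e_{-α} = e_{-α} + t h_α - t² e_α` -/
lemma xMat_mulVec_neg (α : ι) (t : R) :
    B.xMat R α t *ᵥ ev b R (.inr (neg P α)) =
      ev b R (.inr (neg P α)) + t • B.hvec R α - t ^ 2 • ev b R (.inr α) := by
  have h3 : ∀ l', B.dpow α 3 l' (.inr (neg P α)) = 0 := by
    intro l'
    have h1 := B.factorial_mul_dpow_apply α 3 l' (.inr (neg P α))
    rw [B.adE_pow_three_neg (root_neg P α) 0] at h1
    exact (mul_eq_zero.1 h1).resolve_left (by norm_num [Nat.factorial])
  have h2 : ∀ l', B.dpow α 2 l' (.inr (neg P α)) = if l' = .inr α then -1 else 0 := by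
    intro l'
    have h1 := B.factorial_mul_dpow_apply α 2 l' (.inr (neg P α))
    rw [B.adE_sq_neg (root_neg P α)] at h1
    norm_num [Nat.factorial] at h1
    split_ifs at h1 ⊢ <;> linarith
  rw [mulVec_ev]
  ext l'
  rw [xMat_apply]
  simp only [Finset.sum_range_succ, Finset.sum_range_zero, zero_add, dpow_zero, dpow_one,
    h3, h2, B.adE_inr_neg' (root_neg P α), Matrix.one_apply, ev_apply, Pi.sub_apply,
    Pi.add_apply, Pi.smul_apply, smul_eq_mul, hvec]
  rcases l' with i | γ
  · simp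
  · simp only [Sum.elim_inr, Pi.zero_apply]
    split_ifs <;> push_cast <;> ring

lemma hvec_eq_sum (α : ι) : B.hvec R α = ∑ i : b.support, (B.cc α i : R) • ev b R (.inl i) := by
  ext l'
  simp only [hvec, Finset.sum_apply, Pi.smul_apply, smul_eq_mul, ev_apply]
  rcases l' with i | γ <;> simp

/-- `x_α(t) h_β = h_β - ⟨α,β^∨⟩ t e_α` -/
lemma xMat_mulVec_hvec (α β : ι) (t : R) :
    B.xMat R α t *ᵥ B.hvec R β = B.hvec R β - (((pr P α β : ℤ) : R) * t) • ev b R (.inr α) := by
  rw [hvec_eq_sum, Matrix.mulVec_sum]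
  simp only [Matrix.mulVec_smul, xMat_mulVec_inl, smul_sub, Finset.sum_sub_distrib]
  congr 1
  rw [← B.sum_cc_mul_pr β α]
  push_cast
  simp only [smul_smul, ← Finset.sum_smul, ← mul_assoc, ← Finset.sum_mul]

open scoped Classical in
/-- expansion of `x_α(t) e_β`, `α, β` independent -/
lemma xMat_mulVec_inr {α β : ι} (hβ : LinearIndependent k ![P.root α, P.root β]) (t : R) :
    B.xMat R α t *ᵥ ev b R (.inr β) =
      ∑ j ∈ Finset.range 4, ∑ γ ∈ Finset.univ.filter (fun γ => P.root γ = P.root β + j • P.root α),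
        (((B.dpow α j (.inr γ) (.inr β) : ℤ) : R) * t ^ j) • ev b R (.inr γ) := by
  rw [mulVec_ev]
  ext l'
  rw [xMat_apply, Finset.sum_apply]
  refine Finset.sum_congr rfl fun j _ => ?_
  rw [Finset.sum_apply]
  simp only [Pi.smul_apply, smul_eq_mul, ev_apply]
  by_cases h : ∃ γ, l' = .inr γ ∧ P.root γ = P.root β + j • P.root α
  · obtain ⟨γ, rfl, hγ⟩ := h
    rw [Finset.sum_eq_single γ]
    · rw [if_pos rfl]; ring
    · intro γ' _ hne
      rw [if_neg (by simpa using hne.symm), mul_zero]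
    · intro h
      exfalso
      apply h
      simpa using hγ
  · have h0 : B.dpow α j l' (.inr β) = 0 := by
      by_contra hne
      have h1 := B.wt_of_dpow_ne_zero hne
      rcases l' with i | γ
      · simp only [wt, Sum.elim_inl, Sum.elim_inr] at h1
        rw [LinearIndependent.pair_iff] at hβ
        have h2 := hβ j 1 (by rw [one_smul, Nat.cast_smul_eq_nsmul, add_comm]; exact h1.symm)
        simp at h2
      · exact h ⟨γ, rfl, h1⟩
    rw [h0]
    symm
    simp only [Int.cast_zero, mul_zero]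
    refine Finset.sum_eq_zero fun γ hγ => ?_
    rw [if_neg, mul_zero]
    rintro rfl
    exact h ⟨γ, rfl, by simpa using hγ⟩

end x

section adM

variable (R : Type*) [CommRing R]

lemma adM_ev (i : b.support ⊕ ι) : B.adM R (ev b R i) = (B.adI i).map (Int.castRingHom R) := by
  rw [adM, Finset.sum_eq_single i]
  · rw [ev_self, one_smul]
  · intro j _ hj
    rw [ev_apply, if_neg hj, zero_smul]
  · intro h
    exact absurd (Finset.mem_univ i) h

lemma adM_add (z w : b.support ⊕ ι → R) : B.adM R (z + w) = B.adM R z + B.adM R w := by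
  simp [adM, add_smul, Finset.sum_add_distrib]

lemma adM_smul (c : R) (z : b.support ⊕ ι → R) : B.adM R (c • z) = c • B.adM R z := by
  simp [adM, Finset.smul_sum, smul_smul]

/-- `adM` as a linear map -/
def adMₗ : (b.support ⊕ ι → R) →ₗ[R] Matrix (b.support ⊕ ι) (b.support ⊕ ι) R where
  toFun := B.adM R
  map_add' := B.adM_add R
  map_smul' := B.adM_smul R

lemma adMₗ_apply (z : b.support ⊕ ι → R) : B.adMₗ R z = B.adM R z := rfl

lemma eq_sum_ev (z : b.support ⊕ ι → R) : z = ∑ i, z i • ev b R i := by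
  ext l
  simp [Finset.sum_apply, ev_apply]

lemma adM_mulVec_swap (z w : b.support ⊕ ι → R) : B.adM R z *ᵥ w = -(B.adM R w *ᵥ z) := by
  have key : ∀ i j : b.support ⊕ ι, B.adM R (ev b R i) *ᵥ ev b R j =
      -(B.adM R (ev b R j) *ᵥ ev b R i) := by
    intro i j
    rw [adM_ev, adM_ev, mulVec_ev, mulVec_ev]
    ext l
    rw [Pi.neg_apply, Matrix.map_apply, Matrix.map_apply, adI_apply, adI_apply,
      show ⁅B.basis i, B.basis j⁆ = -⁅B.basis j, B.basis i⁆ from (lie_skew _ _).symm,
      map_neg, Finsupp.neg_apply, map_neg]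
  have h1 : ∀ i : b.support ⊕ ι, ∀ w, B.adM R (ev b R i) *ᵥ w =
      -(B.adM R w *ᵥ ev b R i) := by
    intro i w
    conv_lhs => rw [eq_sum_ev R w, Matrix.mulVec_sum]
    conv_rhs => rw [eq_sum_ev R w, ← adMₗ_apply, map_sum, Matrix.sum_mulVec,
      ← Finset.sum_neg_distrib]
    refine Finset.sum_congr rfl fun j _ => ?_
    rw [Matrix.mulVec_smul, map_smul, Matrix.smul_mulVec, adMₗ_apply, key, smul_neg]
  conv_lhs => rw [eq_sum_ev R z, ← adMₗ_apply, map_sum, Matrix.sum_mulVec]
  conv_rhs => rw [eq_sum_ev R z, Matrix.mulVec_sum, ← Finset.sum_neg_distrib]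
  refine Finset.sum_congr rfl fun j _ => ?_
  rw [Matrix.mulVec_smul, map_smul, Matrix.smul_mulVec, adMₗ_apply, h1, smul_neg]

lemma repr_eq (x : L) : (fun i => B.basis.repr x i) = ⇑(B.basis.repr x) := rfl

/-- `adM ℤ` of coordinates is the matrix of `ad` -/
lemma adM_repr (x : L) : B.adM ℤ (⇑(B.basis.repr x)) =
    LinearMap.toMatrix B.basis B.basis ((LieAlgebra.ad ℤ L x : Module.End ℤ L) : L →ₗ[ℤ] L) := by
  conv_rhs => rw [← B.basis.sum_repr x]
  rw [map_sum, map_sum]
  rw [adM]
  refine Finset.sum_congr rfl fun i _ => ?_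
  rw [map_smul, map_smul, adI]
  congr 1

lemma adM_mulVec_int (i j : b.support ⊕ ι) :
    B.adM ℤ (B.adM ℤ (ev b ℤ i) *ᵥ ev b ℤ j) =
      B.adM ℤ (ev b ℤ i) * B.adM ℤ (ev b ℤ j) - B.adM ℤ (ev b ℤ j) * B.adM ℤ (ev b ℤ i) := by
  have h1 : B.adM ℤ (ev b ℤ i) *ᵥ ev b ℤ j = ⇑(B.basis.repr ⁅B.basis i, B.basis j⁆) := by
    rw [adM_ev, mulVec_ev]
    ext l
    rw [Matrix.map_apply, adI_apply]
    simp
  have h2 : ∀ i, B.adM ℤ (ev b ℤ i) = LinearMap.toMatrix B.basis B.basis
      ((LieAlgebra.ad ℤ L (B.basis i) : Module.End ℤ L) : L →ₗ[ℤ] L) := by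
    intro i
    rw [adM_ev, adI]
    ext l l'
    simp
  have h3 : ((LieAlgebra.ad ℤ L ⁅B.basis i, B.basis j⁆ : Module.End ℤ L) : L →ₗ[ℤ] L) =
      ((LieAlgebra.ad ℤ L (B.basis i) : Module.End ℤ L) : L →ₗ[ℤ] L) ∘ₗ
        ((LieAlgebra.ad ℤ L (B.basis j) : Module.End ℤ L) : L →ₗ[ℤ] L) -
      ((LieAlgebra.ad ℤ L (B.basis j) : Module.End ℤ L) : L →ₗ[ℤ] L) ∘ₗ
        ((LieAlgebra.ad ℤ L (B.basis i) : Module.End ℤ L) : L →ₗ[ℤ] L) := by
    ext x
    simp
  rw [h1, adM_repr, h2, h2, h3, map_sub, LinearMap.toMatrix_comp B.basis B.basis B.basis,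
    LinearMap.toMatrix_comp B.basis B.basis B.basis]

lemma map_adM {S : Type*} [CommRing S] (f : R →+* S) (z : b.support ⊕ ι → R) :
    (B.adM R z).map f = B.adM S (f ∘ z) := by
  ext l l'
  simp [adM, Matrix.sum_apply]

lemma map_ev {S : Type*} [CommRing S] (f : R →+* S) (i : b.support ⊕ ι) :
    f ∘ (ev b R i) = ev b S i := by
  ext l
  simp [ev_apply, apply_ite f]

/-- `ad [z,w] = [ad z, ad w]` -/
lemma adM_mulVec (z w : b.support ⊕ ι → R) :
    B.adM R (B.adM R z *ᵥ w) = B.adM R z * B.adM R w - B.adM R w * B.adM R z := by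
  have key : ∀ i j : b.support ⊕ ι, B.adM R (B.adM R (ev b R i) *ᵥ ev b R j) =
      B.adM R (ev b R i) * B.adM R (ev b R j) - B.adM R (ev b R j) * B.adM R (ev b R i) := by
    intro i j
    have h := congrArg (fun A => Matrix.map A (Int.castRingHom R)) (B.adM_mulVec_int i j)
    simp only [Matrix.map_sub (Int.castRingHom R) (map_sub _), Matrix.map_mul] at h
    rw [map_adM, map_adM, map_adM, map_ev, map_ev] at h
    rw [← h]
    congr 1
    have h3 : (Int.castRingHom R) ∘ (B.adM ℤ (ev b ℤ i) *ᵥ ev b ℤ j) =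
        ((B.adM ℤ (ev b ℤ i)).map (Int.castRingHom R)) *ᵥ ((Int.castRingHom R) ∘ ev b ℤ j) := by
      ext l
      simp only [Function.comp_apply]
      rw [RingHom.map_mulVec]
    rw [h3, map_adM, map_ev, map_ev]
  have h1 : ∀ i : b.support ⊕ ι, ∀ w, B.adM R (B.adM R (ev b R i) *ᵥ w) =
      B.adM R (ev b R i) * B.adM R w - B.adM R w * B.adM R (ev b R i) := by
    intro i w
    conv_lhs => rw [eq_sum_ev R w, Matrix.mulVec_sum, ← adMₗ_apply, map_sum]
    have hw : B.adM R w = ∑ j, w j • B.adM R (ev b R j) := by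
      conv_lhs => rw [eq_sum_ev R w, ← adMₗ_apply, map_sum]
      simp only [map_smul, adMₗ_apply]
    rw [hw, Finset.mul_sum, Finset.sum_mul, ← Finset.sum_sub_distrib]
    refine Finset.sum_congr rfl fun j _ => ?_
    rw [Matrix.mulVec_smul, map_smul, adMₗ_apply, key, smul_sub, mul_smul_comm, smul_mul_assoc]
  have hz : B.adM R z = ∑ j, z j • B.adM R (ev b R j) := by
    conv_lhs => rw [eq_sum_ev R z, ← adMₗ_apply, map_sum]
    simp only [map_smul, adMₗ_apply]
  conv_lhs => rw [hz, Matrix.sum_mulVec, ← adMₗ_apply, map_sum]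
  rw [hz, Finset.mul_sum, Finset.sum_mul, ← Finset.sum_sub_distrib]
  refine Finset.sum_congr rfl fun j _ => ?_
  rw [Matrix.smul_mulVec, map_smul, adMₗ_apply, h1, smul_sub, mul_smul_comm, smul_mul_assoc]

lemma adE_mul_adM (α : ι) (z : b.support ⊕ ι → ℤ) :
    B.adE α * B.adM ℤ z = B.adM ℤ (B.adE α *ᵥ z) + B.adM ℤ z * B.adE α := by
  have h : B.adM ℤ (ev b ℤ (.inr α)) = B.adE α := by
    rw [adM_ev, adI_inr]
    ext l l'
    simp
  have := B.adM_mulVec ℤ (ev b ℤ (.inr α)) z
  rw [h] at this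
  rw [this, sub_add_cancel]

lemma adE_mul_dpow [P.IsReduced] (α : ι) (j : ℕ) :
    B.adE α * B.dpow α j = ((j + 1 : ℕ) : ℤ) • B.dpow α (j + 1) := by
  rw [← B.dpow_one α, dpow_mul_dpow, add_comm 1 j]
  simp

/-- Leibniz rule for the divided powers -/
lemma dpow_mul_adM [P.IsReduced] (α : ι) (z : b.support ⊕ ι → ℤ) (j : ℕ) :
    B.dpow α j * B.adM ℤ z = ∑ ac ∈ Finset.HasAntidiagonal.antidiagonal j,
      B.adM ℤ (B.dpow α ac.1 *ᵥ z) * B.dpow α ac.2 := by
  induction j with
  | zero => simp [dpow_zero]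
  | succ j ih =>
    have h1 : ((j + 1 : ℕ) : ℤ) • (B.dpow α (j + 1) * B.adM ℤ z) =
        ((j + 1 : ℕ) : ℤ) • ∑ ac ∈ Finset.HasAntidiagonal.antidiagonal (j + 1),
          B.adM ℤ (B.dpow α ac.1 *ᵥ z) * B.dpow α ac.2 := by
      rw [← smul_mul_assoc, ← adE_mul_dpow, Matrix.mul_assoc, ih, Finset.mul_sum]
      have h2 : ∀ ac ∈ Finset.HasAntidiagonal.antidiagonal j, B.adE α * (B.adM ℤ (B.dpow α ac.1 *ᵥ z) *
          B.dpow α ac.2) = (((ac.1 + 1 : ℕ) : ℤ) • (B.adM ℤ (B.dpow α (ac.1 + 1) *ᵥ z) *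
          B.dpow α ac.2)) + (((ac.2 + 1 : ℕ) : ℤ) • (B.adM ℤ (B.dpow α ac.1 *ᵥ z) *
          B.dpow α (ac.2 + 1))) := by
        intro ac _
        rw [← Matrix.mul_assoc, adE_mul_adM, Matrix.add_mul, Matrix.mulVec_mulVec, adE_mul_dpow,
          Matrix.smul_mulVec, adM_smul, smul_mul_assoc, Matrix.mul_assoc, adE_mul_dpow,
          mul_smul_comm]
      rw [Finset.sum_congr rfl h2, Finset.sum_add_distrib]
      have h3 : ∑ ac ∈ Finset.HasAntidiagonal.antidiagonal (j + 1), ((ac.1 : ℕ) : ℤ) •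
          (B.adM ℤ (B.dpow α ac.1 *ᵥ z) * B.dpow α ac.2) =
          ∑ ac ∈ Finset.HasAntidiagonal.antidiagonal j, (((ac.1 + 1 : ℕ) : ℤ) •
            (B.adM ℤ (B.dpow α (ac.1 + 1) *ᵥ z) * B.dpow α ac.2)) := by
        rw [Finset.Nat.sum_antidiagonal_succ]
        simp
      have h4 : ∑ ac ∈ Finset.HasAntidiagonal.antidiagonal (j + 1), ((ac.2 : ℕ) : ℤ) •
          (B.adM ℤ (B.dpow α ac.1 *ᵥ z) * B.dpow α ac.2) =
          ∑ ac ∈ Finset.HasAntidiagonal.antidiagonal j, (((ac.2 + 1 : ℕ) : ℤ) •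
            (B.adM ℤ (B.dpow α ac.1 *ᵥ z) * B.dpow α (ac.2 + 1))) := by
        rw [Finset.Nat.sum_antidiagonal_succ']
        simp
      rw [← h3, ← h4, ← Finset.sum_add_distrib, Finset.smul_sum]
      refine Finset.sum_congr rfl fun ac hac => ?_
      rw [← add_smul, ← Finset.HasAntidiagonal.mem_antidiagonal.1 hac]
      push_cast
      rfl
    have h0 : ((j + 1 : ℕ) : ℤ) ≠ 0 := by exact_mod_cast Nat.succ_ne_zero j
    ext l' l
    have h3 := congrFun (congrFun h1 l') l
    rw [Matrix.smul_apply, Matrix.smul_apply, smul_eq_mul, smul_eq_mul] at h3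
    exact mul_left_cancel₀ h0 h3

lemma xMat_mul_adM_ev [P.IsReduced] (α : ι) (t : R) (i : b.support ⊕ ι) :
    B.xMat R α t * B.adM R (ev b R i) = B.adM R (B.xMat R α t *ᵥ ev b R i) * B.xMat R α t := by
  set D : ℕ → Matrix (b.support ⊕ ι) (b.support ⊕ ι) R := fun j =>
    (B.dpow α j).map (Int.castRingHom R) with hD
  have hD4 : ∀ j, 4 ≤ j → D j = 0 := by
    intro j hj
    simp only [hD]
    rw [B.dpow_eq_zero α hj]
    ext; simp
  have key : ∀ j, D j * B.adM R (ev b R i) = ∑ ac ∈ Finset.HasAntidiagonal.antidiagonal j,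
      B.adM R (D ac.1 *ᵥ ev b R i) * D ac.2 := by
    intro j
    have h := congrArg (fun A => Matrix.map A (Int.castRingHom R))
      (B.dpow_mul_adM α (ev b ℤ i) j)
    simp only [Matrix.map_mul] at h
    rw [map_adM, map_ev] at h
    rw [h]
    have h2 : ∀ ac : ℕ × ℕ, (Int.castRingHom R) ∘ (B.dpow α ac.1 *ᵥ ev b ℤ i) =
        D ac.1 *ᵥ ev b R i := by
      intro ac
      ext l
      simp only [Function.comp_apply]
      rw [RingHom.map_mulVec, map_ev]
    ext l' l
    rw [Matrix.map_apply, Matrix.sum_apply, map_sum, Matrix.sum_apply]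
    refine Finset.sum_congr rfl fun ac _ => ?_
    rw [← h2, ← map_adM, ← Matrix.map_mul, Matrix.map_apply]
  have k0 := key 0
  have k1 := key 1
  have k2 := key 2
  have k3 := key 3
  have k4 := key 4
  have k5 := key 5
  have k6 := key 6
  simp only [Finset.Nat.sum_antidiagonal_succ, Finset.Nat.antidiagonal_zero,
    Finset.sum_singleton, Nat.reduceAdd, zero_add] at k0 k1 k2 k3 k4 k5 k6
  have hx : B.xMat R α t = D 0 + t • D 1 + t ^ 2 • D 2 + t ^ 3 • D 3 := by
    simp [xMat, Finset.sum_range_succ, hD]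
  have z4 : D 4 = 0 := hD4 4 (by norm_num)
  have z5 : D 5 = 0 := hD4 5 (by norm_num)
  have z6 : D 6 = 0 := hD4 6 (by norm_num)
  simp only [z4, z5, z6, Matrix.zero_mul, Matrix.mul_zero, Matrix.zero_mulVec, zero_add,
    add_zero, show B.adM R 0 = 0 by simp [adM]] at k4 k5 k6
  rw [hx]
  simp only [Matrix.add_mulVec, Matrix.smul_mulVec, adM_add, adM_smul, add_mul, mul_add,
    smul_mul_assoc, mul_smul_comm, k0, k1, k2, k3]
  linear_combination (norm := module) (t ^ 4) • k4 + (t ^ 5) • k5 + (t ^ 6) • k6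

lemma adM_eq_sum (z : b.support ⊕ ι → R) : B.adM R z = ∑ j, z j • B.adM R (ev b R j) := by
  conv_lhs => rw [eq_sum_ev R z, ← adMₗ_apply, map_sum]
  simp only [map_smul, adMₗ_apply]

/-- `g` is a Lie algebra automorphism of `R ⊗ L` -/
def IsAut (g : GL (b.support ⊕ ι) R) : Prop :=
  ∀ z, g.val * B.adM R z = B.adM R (g.val *ᵥ z) * g.val

lemma isAut_of_ev {g : GL (b.support ⊕ ι) R} (h : ∀ i, g.val * B.adM R (ev b R i) =
    B.adM R (g.val *ᵥ ev b R i) * g.val) : B.IsAut R g := by
  intro z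
  conv_lhs => rw [B.adM_eq_sum R z]
  conv_rhs => rw [eq_sum_ev R z, Matrix.mulVec_sum, ← adMₗ_apply, map_sum]
  rw [Finset.mul_sum, Finset.sum_mul]
  refine Finset.sum_congr rfl fun j _ => ?_
  rw [mul_smul_comm, h, Matrix.mulVec_smul, map_smul, adMₗ_apply, smul_mul_assoc]

lemma isAut_one : B.IsAut R 1 := by
  intro z
  simp

variable {R}

lemma IsAut.mul {g h : GL (b.support ⊕ ι) R} (hg : B.IsAut R g) (hh : B.IsAut R h) :
    B.IsAut R (g * h) := by
  intro z
  rw [Units.val_mul, Matrix.mul_assoc, hh z, ← Matrix.mul_assoc, hg, Matrix.mulVec_mulVec,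
    Matrix.mul_assoc]

lemma IsAut.inv {g : GL (b.support ⊕ ι) R} (hg : B.IsAut R g) : B.IsAut R g⁻¹ := by
  intro z
  have h := hg (g⁻¹.val *ᵥ z)
  rw [Matrix.mulVec_mulVec, ← Units.val_mul, mul_inv_cancel, Units.val_one, Matrix.one_mulVec] at h
  calc g⁻¹.val * B.adM R z = g⁻¹.val * (B.adM R z * g.val) * g⁻¹.val := by
        rw [Matrix.mul_assoc, Matrix.mul_assoc, ← Units.val_mul, mul_inv_cancel, Units.val_one,
          mul_one]
    _ = B.adM R (g⁻¹.val *ᵥ z) * g⁻¹.val := by
        rw [← h, ← Matrix.mul_assoc, ← Units.val_mul, inv_mul_cancel, Units.val_one, one_mul]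

lemma IsAut.mulVec_adM {g : GL (b.support ⊕ ι) R} (hg : B.IsAut R g) (z w : b.support ⊕ ι → R) :
    g.val *ᵥ (B.adM R z *ᵥ w) = B.adM R (g.val *ᵥ z) *ᵥ (g.val *ᵥ w) := by
  rw [Matrix.mulVec_mulVec, hg z, ← Matrix.mulVec_mulVec]

lemma isAut_x [P.IsReduced] (α : ι) (t : R) : B.IsAut R (B.x R α t) :=
  B.isAut_of_ev R fun i => B.xMat_mul_adM_ev R α t i

/-- diagonal matrices graded by an additive weight function are automorphisms -/
lemma isAut_diagonal (g : GL (b.support ⊕ ι) R) (χ : b.support ⊕ ι → R)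
    (hg : g.val = Matrix.diagonal χ)
    (hχ : ∀ i j l, B.adI i l j ≠ 0 → χ l = χ i * χ j) : B.IsAut R g := by
  apply B.isAut_of_ev
  intro i
  rw [hg, mulVec_ev]
  have h1 : (fun l => Matrix.diagonal χ l i) = χ i • ev b R i := by
    ext l
    rw [Matrix.diagonal_apply, Pi.smul_apply, ev_apply, smul_eq_mul]
    split_ifs with h
    · rw [h, mul_one]
    · rw [mul_zero]
  rw [h1, adM_smul]
  ext l j
  rw [Matrix.diagonal_mul, Matrix.smul_mul, Matrix.smul_apply, Matrix.mul_diagonal, adM_ev,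
    Matrix.map_apply, smul_eq_mul]
  by_cases h : B.adI i l j = 0
  · rw [h]; simp
  · rw [hχ i j l h]; ring

lemma wt_of_adI_ne_zero {i j l : b.support ⊕ ι} (h : B.adI i l j ≠ 0) :
    wt b l = wt b i + wt b j := by
  rcases i with i | α
  · have h1 : B.adI (.inl i) l j = - B.adI j l (.inl i) := by
      rw [adI_apply, adI_apply, ← lie_skew, map_neg, Finsupp.neg_apply]
    rw [h1] at h
    have h2 : B.adI j l (.inl i) ≠ 0 := fun h3 => h (by rw [h3, neg_zero])
    rcases j with j | β
    · exfalso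
      apply h2
      rw [adI_apply, B.lie_h_h]
      simp
    · rw [adI_inr] at h2
      have := B.wt_of_adE_ne_zero h2
      rw [this]
      simp [wt]
  · rw [adI_inr] at h
    have := B.wt_of_adE_ne_zero h
    rw [this, add_comm]
    simp [wt]

lemma isAut_tor (α : ι) (c : Rˣ) : B.IsAut R (B.tor R α c) := by
  apply B.isAut_diagonal _ _ rfl
  intro i j l h
  have hw := B.wt_of_adI_ne_zero h
  have key : ∀ m : b.support ⊕ ι, Sum.elim (fun _ => (1 : R))
      (fun β => ((c ^ pr P β α : Rˣ) : R)) m =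
      ((c ^ (Sum.elim (fun _ => (0 : ℤ)) (fun β => pr P β α) m) : Rˣ) : R) := by
    rintro (m | m) <;> simp
  rw [key, key, key, ← Units.val_mul, ← _root_.zpow_add]
  congr 2
  have h2 : ∀ m : b.support ⊕ ι, ((Sum.elim (fun _ => (0 : ℤ)) (fun β => pr P β α) m : ℤ) : k) =
      P.coroot' α (wt b m) := by
    rintro (m | m)
    · simp [wt]
    · simp only [Sum.elim_inr, wt]
      rw [show ((pr P m α : ℤ) : k) = P.pairing m α from P.algebraMap_pairingIn ℤ m α]
      rfl
  have h3 : ((Sum.elim (fun _ => (0 : ℤ)) (fun β => pr P β α) l : ℤ) : k) =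
      ((Sum.elim (fun _ => (0 : ℤ)) (fun β => pr P β α) i +
        Sum.elim (fun _ => (0 : ℤ)) (fun β => pr P β α) j : ℤ) : k) := by
    rw [Int.cast_add, h2, h2, h2, hw, map_add]
  exact_mod_cast h3

lemma isAut_of_mem_group [P.IsReduced] {K : Type*} [Field K] {g : GL (b.support ⊕ ι) K}
    (hg : g ∈ B.group K) : B.IsAut K g := by
  rw [group_eq_closure] at hg
  induction hg using Subgroup.closure_induction with
  | mem g hg =>
    obtain ⟨p, rfl⟩ := hg
    exact B.isAut_x p.1 p.2
  | one => exact B.isAut_one K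
  | mul g h _ _ h1 h2 => exact IsAut.mul B h1 h2
  | inv g _ h1 => exact IsAut.inv B h1

end adM

end ChevalleyBasis

end Pool.Agent.MP_467141
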