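import Pool.Agent.Lib.MP_467141_H17.T2

/-! # T3: Weyl elements and torus -/

open Matrix

set_option linter.unusedSectionVars false

noncomputable section

namespace Pool.Agent.MP_467141

universe w

variable {ι k M N : Type*} [Field k] [CharZero k] [AddCommGroup M] [Module k M]
  [AddCommGroup N] [Module k N] [Fintype ι] [DecidableEq ι]

/-! ### roots -/

lemma t3_root_refl (P : RootPairing ι k M N) [P.IsCrystallographic] (α β : ι) :
    P.root (P.reflectionPerm α β) = P.root β - pr P β α • P.root α := by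
  rw [P.root_reflectionPerm, P.reflection_apply_root, ← P.algebraMap_pairingIn ℤ]
  simp [pr, Int.cast_smul_eq_zsmul]

lemma t3_pr_cast (P : RootPairing ι k M N) [P.IsCrystallographic] (α β : ι) :
    ((pr P α β : ℤ) : k) = P.coroot' β (P.root α) := by
  rw [P.root_coroot'_eq_pairing, ← P.algebraMap_pairingIn ℤ]
  rfl

lemma t3_pr_neg_left (P : RootPairing ι k M N) [P.IsCrystallographic] (α β : ι) :
    pr P (neg P α) β = -pr P α β := by
  simp [neg]

lemma t3_pr_neg_right (P : RootPairing ι k M N) [P.IsCrystallographic] (α β : ι) :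
    pr P α (neg P β) = -pr P α β := by
  simp [neg]

lemma t3_pr_self (P : RootPairing ι k M N) [P.IsCrystallographic] (α : ι) : pr P α α = 2 := by
  simp

lemma t3_pr_refl (P : RootPairing ι k M N) [P.IsCrystallographic] (α β γ : ι) :
    pr P (P.reflectionPerm α β) (P.reflectionPerm α γ) = pr P β γ := by
  rw [pr, ← P.pairingIn_reflectionPerm ℤ]
  simp

/-- a root is determined by its pairings with the simple coroots -/
lemma t3_eq_of_pr (P : RootPairing ι k M N) [P.IsCrystallographic] [P.IsReduced] (b : P.Base)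
    {α β : ι} (h : ∀ i : b.support, pr P α i = pr P β i) : α = β := by
  have h1 : ∀ γ, pr P α γ = pr P β γ := by
    intro γ
    obtain ⟨c, hc⟩ := ChevalleyBasis.exists_coroot_eq b γ
    have key : ∀ δ, ((pr P δ γ : ℤ) : k) = ∑ i : b.support, (c i : k) * ((pr P δ i : ℤ) : k) := by
      intro δ
      rw [t3_pr_cast, P.root_coroot'_eq_pairing, ← P.root_coroot_eq_pairing, hc, map_sum]
      refine Finset.sum_congr rfl fun i _ => ?_
      rw [map_zsmul, zsmul_eq_mul, t3_pr_cast, P.root_coroot'_eq_pairing,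
        P.root_coroot_eq_pairing]
    have : ((pr P α γ : ℤ) : k) = ((pr P β γ : ℤ) : k) := by
      rw [key, key]
      simp only [h]
    exact_mod_cast this
  by_contra hne
  have h2 : P.root α ≠ -P.root β := by
    intro h3
    have h4 : α = neg P β := by
      apply P.root.injective
      rw [h3, root_neg]
    have h5 := h1 β
    rw [h4, t3_pr_neg_left, t3_pr_self] at h5
    norm_num at h5
  have h3 := P.coxeterWeightIn_ne_four ℤ hne h2
  apply h3
  have h4 : pr P α β = 2 := by rw [h1 β, t3_pr_self]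
  have h5 : pr P β α = 2 := by rw [← h1 α, t3_pr_self]
  rw [RootPairing.coxeterWeightIn]
  change pr P α β * pr P β α = 4
  rw [h4, h5]
  norm_num

namespace ChevalleyBasis

variable {P : RootPairing ι k M N} [P.IsCrystallographic] [P.IsReduced] {b : P.Base}
  {L : Type*} [LieRing L] (B : ChevalleyBasis P b L)

/-- `n_α = x_α(1) x_{-α}(-1) x_α(1)` -/
def n1 (R : Type*) [CommRing R] (α : ι) : GL (b.support ⊕ ι) R :=
  B.x R α 1 * B.x R (neg P α) (-1) * B.x R α 1

/-- the sign in `n_α e_β = ± e_{s_α β}` -/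
def eps (α β : ι) : ℤ :=
  (B.n1 ℤ α : Matrix (b.support ⊕ ι) (b.support ⊕ ι) ℤ) (Sum.inr (P.reflectionPerm α β)) (Sum.inr β)

variable (R : Type w) [CommRing R]

lemma map_n1 {S : Type*} [CommRing S] (f : R →+* S) (α : ι) :
    Matrix.GeneralLinearGroup.map f (B.n1 R α) = B.n1 S α := by
  rw [n1, n1, map_mul, map_mul, map_x, map_x, map_one, map_neg, map_one]

lemma isAut_n1 (α : ι) : B.IsAut R (B.n1 R α) :=
  IsAut.mul B (IsAut.mul B (B.isAut_x α 1) (B.isAut_x (neg P α) (-1))) (B.isAut_x α 1)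

lemma t3_hvec_neg (α : ι) : B.hvec R (neg P α) = -B.hvec R α := by
  ext l
  rcases l with i | γ
  · simp [hvec, cc_neg]
  · simp [hvec]

lemma t3_n1_inl (α : ι) (i : b.support) : (B.n1 R α).val *ᵥ ev b R (.inl i) =
    ev b R (.inl i) - ((pr P α i : ℤ) : R) • B.hvec R α := by
  have e1 : B.xMat R (neg P α) (-1) *ᵥ ev b R (.inr α) =
      ev b R (.inr α) + B.hvec R α - ev b R (.inr (neg P α)) := by
    have := B.xMat_mulVec_neg R (neg P α) (-1)
    rw [neg_neg'] at this
    rw [this, t3_hvec_neg]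
    module
  rw [n1, Units.val_mul, Units.val_mul, coe_x, coe_x, ← Matrix.mulVec_mulVec,
    ← Matrix.mulVec_mulVec, xMat_mulVec_inl, Matrix.mulVec_sub, Matrix.mulVec_smul, e1,
    xMat_mulVec_inl]
  simp only [Matrix.mulVec_sub, Matrix.mulVec_add, Matrix.mulVec_smul, xMat_mulVec_inl,
    xMat_mulVec_self, xMat_mulVec_neg, xMat_mulVec_hvec, t3_pr_neg_left, t3_pr_self]
  push_cast
  module

/-- `n_α` stabilises `H` -/
lemma n1_mulVec_inl (α : ι) (i : b.support) (γ : ι) :
    ((B.n1 R α).val *ᵥ ev b R (Sum.inl i)) (Sum.inr γ) = 0 := by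
  rw [t3_n1_inl]
  simp [hvec, ev_apply]

/-- weight of a basis vector with respect to a coroot -/
def t3W (P : RootPairing ι k M N) [P.IsCrystallographic] {b : P.Base} (α : ι) :
    b.support ⊕ ι → ℤ := Sum.elim (fun _ => 0) (fun γ => pr P γ α)

lemma t3_adI_inl (i : b.support) (l' l : b.support ⊕ ι) :
    B.adI (.inl i) l' l = if l' = l then t3W P (i : ι) l else 0 := by
  rw [adI_apply]
  rcases l with j | γ
  · rw [B.lie_h_h]
    simp [t3W]
  · rw [B.lie_h_e, map_smul, Finsupp.smul_apply, Module.Basis.repr_self, Finsupp.single_apply,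
      smul_eq_mul, t3W, Sum.elim_inr]
    by_cases h : l' = .inr γ
    · rw [if_pos h.symm, if_pos h, mul_one]
    · rw [if_neg (fun h' => h h'.symm), if_neg h, mul_zero]

lemma t3_adM_inl (i : b.support) : B.adM R (ev b R (.inl i)) =
    Matrix.diagonal (fun l => ((t3W P (i : ι) l : ℤ) : R)) := by
  rw [adM_ev]
  ext l' l
  rw [Matrix.map_apply, t3_adI_inl, Matrix.diagonal_apply]
  split_ifs with h
  · rw [h]; simp
  · simp

lemma t3_adM_hvec (α : ι) : B.adM R (B.hvec R α) =
    Matrix.diagonal (fun l => ((t3W P α l : ℤ) : R)) := by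
  rw [hvec_eq_sum, ← adMₗ_apply, map_sum]
  simp only [map_smul, adMₗ_apply, t3_adM_inl]
  ext l' l
  rw [Matrix.sum_apply]
  simp only [Matrix.smul_apply, Matrix.diagonal_apply, smul_eq_mul]
  split_ifs with h
  · rcases l' with j | γ
    · simp [t3W]
    · simp only [t3W, Sum.elim_inr]
      rw [← B.sum_cc_mul_pr α γ]
      push_cast
      rfl
  · simp

lemma t3_support (α β : ι) (l : b.support ⊕ ι)
    (h : ((B.n1 ℤ α).val *ᵥ ev b ℤ (.inr β)) l ≠ 0) : l = .inr (P.reflectionPerm α β) := by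
  have key : ∀ i : b.support, pr P β i = t3W P (i : ι) l - pr P α i * t3W P α l := by
    intro i
    have h1 := B.isAut_n1 ℤ α (ev b ℤ (.inl i))
    rw [t3_n1_inl, ← B.adMₗ_apply (R := ℤ), ← B.adMₗ_apply (R := ℤ), map_sub, map_smul,
      adMₗ_apply, adMₗ_apply, t3_adM_inl, t3_adM_hvec] at h1
    have h2 := congrArg (fun A => (A *ᵥ ev b ℤ (.inr β)) l) h1
    simp only [← Matrix.mulVec_mulVec, Matrix.sub_mulVec, Matrix.smul_mulVec, Pi.sub_apply,
      Pi.smul_apply, smul_eq_mul, Matrix.mulVec_diagonal] at h2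
    have h3 : (Matrix.diagonal (fun l => ((t3W P (i : ι) l : ℤ) : ℤ))) *ᵥ ev b ℤ (.inr β) =
        pr P β i • ev b ℤ (.inr β) := by
      ext l
      rw [Matrix.mulVec_diagonal, ev_apply, Pi.smul_apply, ev_apply, smul_eq_mul]
      split_ifs with h
      · rw [h]; simp [t3W]
      · simp
    simp only [Int.cast_id] at h2
    rw [h3, Matrix.mulVec_smul, Pi.smul_apply, smul_eq_mul] at h2
    have h4 : (pr P β i - (t3W P (i : ι) l - pr P α i * t3W P α l)) *
        ((B.n1 ℤ α).val *ᵥ ev b ℤ (.inr β)) l = 0 := by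
      linear_combination h2
    rcases mul_eq_zero.1 h4 with h5 | h5
    · linarith
    · exact absurd h5 h
  rcases l with j | γ
  · exfalso
    have h1 := B.sum_cc_mul_pr β β
    have h2 : ∀ i : b.support, pr P β i = 0 := by
      intro i
      rw [key i]
      simp [t3W]
    simp only [h2, mul_zero, Finset.sum_const_zero, t3_pr_self] at h1
    norm_num at h1
  · congr 1
    have h1 : β = P.reflectionPerm α γ := by
      apply t3_eq_of_pr P b
      intro i
      rw [key i]
      simp only [t3W, Sum.elim_inr]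
      have h2 : ((pr P (P.reflectionPerm α γ) i : ℤ) : k) =
          ((pr P γ i - pr P α i * pr P γ α : ℤ) : k) := by
        push_cast
        rw [t3_pr_cast, t3_root_refl, map_sub, map_zsmul, zsmul_eq_mul, ← t3_pr_cast,
          ← t3_pr_cast]
        ring
      have h3 : pr P (P.reflectionPerm α γ) i = pr P γ i - pr P α i * pr P γ α := by
        exact_mod_cast h2
      exact h3.symm
    rw [h1]
    simp

lemma t3_n1_inr_int (α β : ι) : (B.n1 ℤ α).val *ᵥ ev b ℤ (.inr β) =
    B.eps α β • ev b ℤ (.inr (P.reflectionPerm α β)) := by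
  ext l
  rw [Pi.smul_apply, ev_apply, smul_eq_mul]
  split_ifs with h
  · rw [h, mulVec_ev, mul_one]
    rfl
  · rw [mul_zero]
    by_contra h1
    exact h (B.t3_support α β l h1)

lemma eps_eq (α β : ι) : B.eps α β = 1 ∨ B.eps α β = -1 := by
  have h1 := congrArg (fun v => ((B.n1 ℤ α)⁻¹.val *ᵥ v) (.inr β)) (B.t3_n1_inr_int α β)
  simp only [Matrix.mulVec_mulVec, ← Units.val_mul, inv_mul_cancel, Units.val_one,
    Matrix.one_mulVec, Matrix.mulVec_smul, Pi.smul_apply, smul_eq_mul, ev_self] at h1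
  exact Int.isUnit_iff.1 (IsUnit.of_mul_eq_one _ h1.symm)

lemma t3_val_n1 (α : ι) : (B.n1 R α).val = (B.n1 ℤ α).val.map (Int.castRingHom R) := by
  rw [← B.map_n1 ℤ (Int.castRingHom R) α]
  rfl

/-- `n_α e_β = ± e_{s_α β}` -/
lemma n1_mulVec_inr (α β : ι) : (B.n1 R α).val *ᵥ ev b R (.inr β) =
    (B.eps α β : R) • ev b R (.inr (P.reflectionPerm α β)) := by
  rw [t3_val_n1, mulVec_ev]
  ext l
  have h := congrFun (B.t3_n1_inr_int α β) l
  rw [mulVec_ev] at h
  simp only [Pi.smul_apply, smul_eq_mul] at h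
  rw [Matrix.map_apply, h, map_mul, Pi.smul_apply, smul_eq_mul, ev_apply, ev_apply]
  split_ifs <;> simp

lemma t3_n1_dpow_int (α β : ι) (j : ℕ) : (B.n1 ℤ α).val * B.dpow β j =
    (B.eps α β ^ j) • (B.dpow (P.reflectionPerm α β) j * (B.n1 ℤ α).val) := by
  have h1 : (B.n1 ℤ α).val * B.adE β =
      B.eps α β • (B.adE (P.reflectionPerm α β) * (B.n1 ℤ α).val) := by
    have h := B.isAut_n1 ℤ α (ev b ℤ (.inr β))
    rw [t3_n1_inr_int, ← adMₗ_apply, ← adMₗ_apply, map_smul, adMₗ_apply, adMₗ_apply, adM_ev,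
      adM_ev, adI_inr, adI_inr, smul_mul_assoc] at h
    have h2 : ∀ A : Matrix (b.support ⊕ ι) (b.support ⊕ ι) ℤ, A.map (Int.castRingHom ℤ) = A := by
      intro A
      ext; simp
    rwa [h2, h2] at h
  have h2 : ∀ j, (B.n1 ℤ α).val * B.adE β ^ j =
      (B.eps α β ^ j) • (B.adE (P.reflectionPerm α β) ^ j * (B.n1 ℤ α).val) := by
    intro j
    induction j with
    | zero => simp
    | succ j ih =>
      rw [pow_succ, ← Matrix.mul_assoc, ih, smul_mul_assoc, Matrix.mul_assoc, h1, mul_smul_comm,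
        smul_smul, ← Matrix.mul_assoc, ← pow_succ, ← pow_succ]
  have h3 : (j.factorial : ℤ) • ((B.n1 ℤ α).val * B.dpow β j) = (j.factorial : ℤ) •
      ((B.eps α β ^ j) • (B.dpow (P.reflectionPerm α β) j * (B.n1 ℤ α).val)) := by
    rw [← mul_smul_comm, factorial_smul_dpow, h2, smul_comm, ← smul_mul_assoc (j.factorial : ℤ),
      factorial_smul_dpow]
  have h4 : (j.factorial : ℤ) ≠ 0 := by exact_mod_cast j.factorial_ne_zero
  ext l' l
  have h5 := congrFun (congrFun h3 l') l
  rw [Matrix.smul_apply, Matrix.smul_apply, smul_eq_mul, smul_eq_mul] at h5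
  exact mul_left_cancel₀ h4 h5

lemma t3_n1_dpow (α β : ι) (j : ℕ) :
    (B.n1 R α).val * (B.dpow β j).map (Int.castRingHom R) = ((B.eps α β : R) ^ j) •
      ((B.dpow (P.reflectionPerm α β) j).map (Int.castRingHom R) * (B.n1 R α).val) := by
  have h := congrArg (fun A => Matrix.map A (Int.castRingHom R)) (B.t3_n1_dpow_int α β j)
  simp only [Matrix.map_mul] at h
  rw [t3_val_n1, h, ← Matrix.map_mul]
  ext l' l
  rw [Matrix.map_apply, Matrix.smul_apply, Matrix.smul_apply, Matrix.map_apply, smul_eq_mul,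
    smul_eq_mul, map_mul, map_pow]
  simp

lemma n1_conj_x (α β : ι) (u : R) : B.n1 R α * B.x R β u * (B.n1 R α)⁻¹ =
    B.x R (P.reflectionPerm α β) (B.eps α β * u) := by
  rw [mul_inv_eq_iff_eq_mul]
  apply Units.ext
  rw [Units.val_mul, Units.val_mul, coe_x, coe_x, xMat, xMat, Finset.mul_sum, Finset.sum_mul]
  refine Finset.sum_congr rfl fun j _ => ?_
  rw [mul_smul_comm, t3_n1_dpow, smul_smul, smul_mul_assoc, mul_pow, mul_comm]

lemma tor_val (α : ι) (c : Rˣ) : (B.tor R α c).val =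
    Matrix.diagonal (fun l => ((c ^ (t3W P α l) : Rˣ) : R)) := by
  change Matrix.diagonal _ = _
  congr 1
  ext l
  rcases l with i | γ
  · simp [t3W]
  · simp [t3W]

lemma t3W_of_dpow {α β : ι} {j : ℕ} {l' l : b.support ⊕ ι} (h : B.dpow β j l' l ≠ 0) :
    t3W P α l' = t3W P α l + j * pr P β α := by
  have h1 := B.wt_of_dpow_ne_zero h
  have key : ∀ m : b.support ⊕ ι, ((t3W P α m : ℤ) : k) = P.coroot' α (wt b m) := by
    rintro (m | m)
    · simp [wt, t3W]
    · simp only [wt, t3W, Sum.elim_inr]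
      rw [t3_pr_cast]
  have h2 : ((t3W P α l' : ℤ) : k) = ((t3W P α l + j * pr P β α : ℤ) : k) := by
    push_cast
    rw [key, key, h1, map_add, map_nsmul, t3_pr_cast, nsmul_eq_mul]
  exact_mod_cast h2

lemma tor_conj_x (α β : ι) (c : Rˣ) (u : R) : B.tor R α c * B.x R β u * (B.tor R α c)⁻¹ =
    B.x R β (((c ^ pr P β α : Rˣ) : R) * u) := by
  rw [mul_inv_eq_iff_eq_mul]
  apply Units.ext
  rw [Units.val_mul, Units.val_mul, coe_x, coe_x, tor_val]
  ext l' l
  rw [Matrix.diagonal_mul, Matrix.mul_diagonal, xMat_apply, xMat_apply, Finset.mul_sum,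
    Finset.sum_mul]
  refine Finset.sum_congr rfl fun j _ => ?_
  by_cases h : B.dpow β j l' l = 0
  · rw [h]; simp
  · rw [t3W_of_dpow B h (α := α), _root_.zpow_add, Units.val_mul, mul_pow,
      mul_comm (j : ℤ) (pr P β α), _root_.zpow_mul, zpow_natCast, Units.val_pow_eq_pow_val]
    ring

lemma tor_mulVec (α : ι) (l : b.support ⊕ ι) (c : Rˣ) : (B.tor R α c).val *ᵥ ev b R l =
    ((c ^ (t3W P α l) : Rˣ) : R) • ev b R l := by
  rw [tor_val]
  ext l'
  rw [Matrix.mulVec_diagonal, Pi.smul_apply, smul_eq_mul, ev_apply]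
  split_ifs with h
  · rw [h]
  · simp

lemma tor_mulVec_inr (α β : ι) (c : Rˣ) : (B.tor R α c).val *ᵥ ev b R (.inr β) =
    ((c ^ pr P β α : Rˣ) : R) • ev b R (.inr β) := by
  rw [tor_mulVec]
  rfl

lemma tor_mulVec_inl (α : ι) (i : b.support) (c : Rˣ) :
    (B.tor R α c).val *ᵥ ev b R (.inl i) = ev b R (.inl i) := by
  rw [tor_mulVec]
  simp [t3W]

lemma tor_mul (α : ι) (c d : Rˣ) : B.tor R α (c * d) = B.tor R α c * B.tor R α d := by
  apply Units.ext
  rw [Units.val_mul, tor_val, tor_val, tor_val, Matrix.diagonal_mul_diagonal]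
  congr 1
  ext l
  rw [mul_zpow, Units.val_mul]

lemma tor_comm (α β : ι) (c d : Rˣ) :
    B.tor R α c * B.tor R β d = B.tor R β d * B.tor R α c := by
  apply Units.ext
  rw [Units.val_mul, Units.val_mul, tor_val, tor_val, Matrix.diagonal_mul_diagonal,
    Matrix.diagonal_mul_diagonal]
  congr 1
  ext l
  rw [mul_comm]

lemma map_tor {S : Type*} [CommRing S] (f : R →+* S) (α : ι) (c : Rˣ) :
    Matrix.GeneralLinearGroup.map f (B.tor R α c) = B.tor S α (Units.map f c) := by
  apply Units.ext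
  change (B.tor R α c).val.map f = _
  rw [tor_val, tor_val, Matrix.diagonal_map (map_zero f)]
  congr 1
  ext l
  rw [← map_zpow]
  rfl

lemma t3_ext {g h : GL (b.support ⊕ ι) R} (H : ∀ l, g.val *ᵥ ev b R l = h.val *ᵥ ev b R l) :
    g = h := by
  apply Units.ext
  ext l' l
  have := congrFun (H l) l'
  rwa [mulVec_ev, mulVec_ev] at this

lemma t3_tor_hvec (α β : ι) (c : Rˣ) : (B.tor R α c).val *ᵥ B.hvec R β = B.hvec R β := by
  rw [hvec_eq_sum, Matrix.mulVec_sum]
  refine Finset.sum_congr rfl fun i _ => ?_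
  rw [Matrix.mulVec_smul, tor_mulVec_inl]

lemma n1_conj_tor (α β : ι) (c : Rˣ) : B.n1 R α * B.tor R β c * (B.n1 R α)⁻¹ =
    B.tor R (P.reflectionPerm α β) c := by
  rw [mul_inv_eq_iff_eq_mul]
  apply t3_ext
  intro l
  rw [Units.val_mul, Units.val_mul, ← Matrix.mulVec_mulVec, ← Matrix.mulVec_mulVec]
  rcases l with i | γ
  · rw [tor_mulVec_inl, t3_n1_inl, Matrix.mulVec_sub, Matrix.mulVec_smul, tor_mulVec_inl,
      t3_tor_hvec]
  · rw [tor_mulVec_inr, Matrix.mulVec_smul, n1_mulVec_inr, Matrix.mulVec_smul, tor_mulVec_inr,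
      t3_pr_refl, smul_comm]

/-- the identity `x_α(c) x_{-α}(-c⁻¹) x_α(c) = h_α(c) n_α` for squares -/
lemma t3_x_sq (α : ι) (d : Rˣ) :
    B.x R α ((d * d : Rˣ) : R) * B.x R (neg P α) (-((d * d)⁻¹ : Rˣ)) *
      B.x R α ((d * d : Rˣ) : R) = B.tor R α (d * d) * B.n1 R α := by
  have h1 := B.tor_conj_x R α α d 1
  have h2 := B.tor_conj_x R α (neg P α) d (-1)
  rw [t3_pr_self] at h1
  rw [t3_pr_neg_left, t3_pr_self] at h2
  have e1 : (((d ^ (2 : ℤ) : Rˣ) : R) * 1) = ((d * d : Rˣ) : R) := by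
    rw [mul_one, show (2 : ℤ) = 1 + 1 from rfl, _root_.zpow_add, zpow_one]
  have e2 : (((d ^ (-2 : ℤ) : Rˣ) : R) * (-1)) = -(((d * d)⁻¹ : Rˣ) : R) := by
    rw [mul_neg_one, _root_.zpow_neg, show (2 : ℤ) = 1 + 1 from rfl, _root_.zpow_add, zpow_one]
  rw [e1] at h1
  rw [e2] at h2
  have h3 : B.tor R α d * B.n1 R α * (B.tor R α d)⁻¹ =
      B.x R α ((d * d : Rˣ) : R) * B.x R (neg P α) (-((d * d)⁻¹ : Rˣ)) *
      B.x R α ((d * d : Rˣ) : R) := by
    rw [← h1, ← h2, n1]
    group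
  have h4 := B.n1_conj_tor R α α d
  have h5 : B.tor R (P.reflectionPerm α α) d = (B.tor R α d)⁻¹ := by
    rw [eq_inv_iff_mul_eq_one]
    apply Units.ext
    rw [Units.val_mul, tor_val, tor_val, Matrix.diagonal_mul_diagonal, Units.val_one,
      ← Matrix.diagonal_one]
    congr 1
    ext l
    rw [← Units.val_mul, ← _root_.zpow_add]
    have : t3W P (P.reflectionPerm α α) l + t3W P α l = 0 := by
      rcases l with i | γ
      · simp [t3W]
      · simp only [t3W, Sum.elim_inr]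
        have := t3_pr_neg_right P γ α
        rw [neg] at this
        rw [this]
        ring
    rw [this]
    simp
  rw [h5, mul_inv_eq_iff_eq_mul] at h4
  have h6 : B.n1 R α = (B.tor R α d)⁻¹ * B.n1 R α * (B.tor R α d)⁻¹ := by
    rw [eq_mul_inv_iff_mul_eq, h4]
  rw [← h3, tor_mul]
  conv_lhs => rw [mul_assoc]
  rw [mul_assoc]
  congr 1
  rw [mul_inv_eq_iff_eq_mul, mul_assoc, h4]
  group

lemma t3_map_inj {R : Type*} [CommRing R] {S : Type*} [CommRing S] (f : R →+* S)
    (hf : Function.Injective f) {g h : GL (b.support ⊕ ι) R}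
    (H : Matrix.GeneralLinearGroup.map f g = Matrix.GeneralLinearGroup.map f h) : g = h := by
  apply Units.ext
  ext i j
  apply hf
  exact congrArg (fun g : GL (b.support ⊕ ι) S => g.val i j) H

/-- every unit becomes a square in a (free) ring extension -/
lemma t3_exists_sqrt {R : Type w} [CommRing R] [Nontrivial R] (c : Rˣ) :
    ∃ (S : Type w) (_ : CommRing S) (f : R →+* S) (d : Sˣ), Function.Injective f ∧
      d * d = Units.map f.toMonoidHom c := by
  classical
  let p : Polynomial R := Polynomial.X ^ 2 - Polynomial.C (c : R)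
  have hp : p.Monic := Polynomial.monic_X_pow_sub_C _ two_ne_zero
  have hdeg : p.degree = 2 := Polynomial.degree_X_pow_sub_C two_pos _
  have hroot : AdjoinRoot.root p * AdjoinRoot.root p = AdjoinRoot.of p c := by
    have h1 : AdjoinRoot.mk p p = 0 := AdjoinRoot.mk_self
    have h2 : AdjoinRoot.mk p p = AdjoinRoot.root p ^ 2 - AdjoinRoot.of p c := by
      change AdjoinRoot.mk p (Polynomial.X ^ 2 - Polynomial.C (c : R)) = _
      rw [map_sub, map_pow, AdjoinRoot.mk_X, AdjoinRoot.mk_C]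
    rw [h1] at h2
    linear_combination -h2
  refine ⟨AdjoinRoot p, inferInstance, AdjoinRoot.of p,
    ⟨AdjoinRoot.root p, AdjoinRoot.root p * AdjoinRoot.of p ((c⁻¹ : Rˣ) : R), ?_, ?_⟩, ?_, ?_⟩
  · rw [← mul_assoc, hroot, ← map_mul, Units.mul_inv, map_one]
  · rw [mul_right_comm, hroot, ← map_mul, Units.mul_inv, map_one]
  · rw [injective_iff_map_eq_zero]
    intro r hr
    rw [← AdjoinRoot.mk_C, AdjoinRoot.mk_eq_zero] at hr
    by_contra hne
    refine hp.not_dvd_of_degree_lt (p := p) (q := Polynomial.C r) ?_ ?_ hr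
    · simpa using hne
    · rw [hdeg]
      exact lt_of_le_of_lt Polynomial.degree_C_le (by norm_num)
  · apply Units.ext
    exact hroot

/-- `n_α(c) := x_α(c) x_{-α}(-c⁻¹) x_α(c) = h_α(c) n_α` -/
lemma x_mul_x_neg_mul_x (α : ι) (c : Rˣ) :
    B.x R α c * B.x R (neg P α) (-(c⁻¹ : Rˣ)) * B.x R α c = B.tor R α c * B.n1 R α := by
  rcases subsingleton_or_nontrivial R with hR | hR
  · apply Units.ext
    ext i j
    exact Subsingleton.elim _ _
  obtain ⟨S, _, f, d, hf, hd⟩ := t3_exists_sqrt c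
  apply t3_map_inj f hf
  have h := B.t3_x_sq S α d
  rw [hd] at h
  rw [map_mul, map_mul, map_mul, map_x, map_x, map_tor, map_n1, map_neg]
  exact h

lemma n1_mem_group (K : Type*) [Field K] (α : ι) : B.n1 K α ∈ B.group K :=
  mul_mem (mul_mem (B.x_mem_group K α 1) (B.x_mem_group K (neg P α) (-1))) (B.x_mem_group K α 1)

lemma tor_mem_group (K : Type*) [Field K] (α : ι) (c : Kˣ) : B.tor K α c ∈ B.group K := by
  rw [← mul_inv_cancel_right (B.tor K α c) (B.n1 K α), ← x_mul_x_neg_mul_x]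
  exact mul_mem (mul_mem (mul_mem (B.x_mem_group K α _) (B.x_mem_group K (neg P α) _))
    (B.x_mem_group K α _)) (inv_mem (B.n1_mem_group K α))

omit [P.IsReduced] in
lemma t3_neg_refl (α β : ι) :
    neg P (P.reflectionPerm α β) = P.reflectionPerm α (neg P β) := by
  apply P.root.injective
  rw [root_neg, P.root_reflectionPerm, P.root_reflectionPerm, root_neg, map_neg]

lemma t3_x_refl (K : Type*) [Field K] (α β : ι) (t : K) :
    B.x K (P.reflectionPerm α β) t =
      B.n1 K α * B.x K β (B.eps α β * t) * (B.n1 K α)⁻¹ := by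
  rw [n1_conj_x, ← mul_assoc]
  rcases B.eps_eq α β with h | h <;> rw [h] <;> simp

/-- `G(K)` is generated by the `x_{±α}(t)`, `α` simple. -/
lemma group_eq_closure_simple (K : Type*) [Field K] :
    B.group K = Subgroup.closure
      {g | ∃ α ∈ b.support, ∃ t : K, g = B.x K α t ∨ g = B.x K (neg P α) t} := by
  apply le_antisymm
  · set C := Subgroup.closure
      {g | ∃ α ∈ b.support, ∃ t : K, g = B.x K α t ∨ g = B.x K (neg P α) t} with hC
    have h1 : ∀ i ∈ b.support, ∀ t, B.x K i t ∈ C ∧ B.x K (neg P i) t ∈ C := fun i hi t =>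
      ⟨Subgroup.subset_closure ⟨i, hi, t, Or.inl rfl⟩,
        Subgroup.subset_closure ⟨i, hi, t, Or.inr rfl⟩⟩
    have key : ∀ i, ∀ t, B.x K i t ∈ C ∧ B.x K (neg P i) t ∈ C := by
      intro i
      refine b.induction_reflect i (p := fun i => ∀ t, B.x K i t ∈ C ∧ B.x K (neg P i) t ∈ C)
        ?_ h1 ?_
      · intro i hi t
        refine ⟨(hi t).2, ?_⟩
        have := (hi t).1
        rwa [← neg_neg' (P := P) i] at this
      · intro i j hi hj t
        have hn : B.n1 K j ∈ C := mul_mem (mul_mem (h1 j hj 1).1 (h1 j hj (-1)).2) (h1 j hj 1).1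
        rw [t3_neg_refl, t3_x_refl, t3_x_refl]
        exact ⟨mul_mem (mul_mem hn (hi _).1) (inv_mem hn),
          mul_mem (mul_mem hn (hi _).2) (inv_mem hn)⟩
    rw [group, Subgroup.closure_le]
    rintro g ⟨α, t, h⟩
    have : g = B.x K α t := Units.ext h
    rw [this]
    exact (key α t).1
  · rw [Subgroup.closure_le]
    rintro g ⟨α, -, t, rfl | rfl⟩
    · exact B.x_mem_group K _ _
    · exact B.x_mem_group K _ _

/-- `x_{-α}(t) ∈ X_α (h_α(c) n_α) X_α` for `t ≠ 0` -/
lemma x_neg_eq (α : ι) (c : Rˣ) : B.x R (neg P α) c =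
    B.x R α ((c⁻¹ : Rˣ) : R) * (B.tor R α (-c⁻¹) * B.n1 R α) * B.x R α ((c⁻¹ : Rˣ) : R) := by
  rw [← x_mul_x_neg_mul_x]
  have h1 : ((-c⁻¹ : Rˣ) : R) = -((c⁻¹ : Rˣ) : R) := rfl
  have h2 : -(((-c⁻¹)⁻¹ : Rˣ) : R) = c := by
    rw [inv_neg, inv_inv]
    simp
  rw [h1, h2, x_neg]
  group

end ChevalleyBasis

end Pool.Agent.MP_467141
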