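import Pool.Agent.Lib.MP_467141_H17.Basic

/-! # T4, part 1: rank two root combinatorics -/

set_option linter.unusedSectionVars false

noncomputable section

namespace Pool.Agent.MP_467141

open Set

variable {ι k M N : Type*} [Field k] [CharZero k] [AddCommGroup M] [Module k M]
  [AddCommGroup N] [Module k N] [Fintype ι] [DecidableEq ι]

namespace T4

variable (P : RootPairing ι k M N)

/-- `i α + j β` is a root -/
def Mem (α β : ι) (i j : ℤ) : Prop := i • P.root α + j • P.root β ∈ range P.root

variable {P} [P.IsCrystallographic]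

lemma pr_of_eq {δ α β : ι} {i j : ℤ} (h : P.root δ = i • P.root α + j • P.root β) (γ : ι) :
    pr P δ γ = i * pr P α γ + j * pr P β γ := by
  apply FaithfulSMul.algebraMap_injective ℤ k
  rw [RootPairing.algebraMap_pairingIn, map_add, map_mul, map_mul,
    RootPairing.algebraMap_pairingIn, RootPairing.algebraMap_pairingIn,
    ← RootPairing.root_coroot'_eq_pairing, h, map_add, map_zsmul, map_zsmul,
    RootPairing.root_coroot'_eq_pairing, RootPairing.root_coroot'_eq_pairing]
  simp

lemma pr_self (α : ι) : pr P α α = 2 := by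
  simp

lemma smul_left_inj' {α β : ι} (hli : LinearIndependent k ![P.root α, P.root β]) {i j i' j' : ℤ}
    (h : i • P.root α + j • P.root β = i' • P.root α + j' • P.root β) : i = i' ∧ j = j' := by
  rw [LinearIndependent.pair_iff] at hli
  have := hli ((i - i' : ℤ) : k) ((j - j' : ℤ) : k) (by
    rw [Int.cast_smul_eq_zsmul, Int.cast_smul_eq_zsmul]
    linear_combination (norm := module) h)
  refine ⟨?_, ?_⟩
  · have h1 := this.1
    rw [Int.cast_eq_zero] at h1
    omega
  · have h1 := this.2
    rw [Int.cast_eq_zero] at h1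
    omega

variable [P.IsReduced]

lemma abs_pr_le (δ α : ι) : -3 ≤ pr P δ α ∧ pr P δ α ≤ 3 := by
  have := P.pairingIn_pairingIn_mem_set_of_isCrystal_of_isRed δ α
  simp only [mem_insert_iff, Prod.mk.injEq, mem_singleton_iff] at this
  rcases this with h | h | h | h | h | h | h | h | h | h | h | h | h <;> rw [pr, h.1] <;> norm_num

section

variable {α β : ι} (hli : LinearIndependent k ![P.root α, P.root β])

lemma Mem.comm {i j : ℤ} (h : Mem P α β i j) : Mem P β α j i := by
  rw [Mem, add_comm]; exact h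

lemma mem_one_zero : Mem P α β 1 0 := ⟨α, by simp⟩

lemma mem_zero_one : Mem P α β 0 1 := ⟨β, by simp⟩

/-- bounds for the pairing with `α` -/
lemma Mem.bound_left {i j : ℤ} (h : Mem P α β i j) :
    -3 ≤ 2 * i + j * pr P β α ∧ 2 * i + j * pr P β α ≤ 3 := by
  obtain ⟨δ, hδ⟩ := h
  have h1 := pr_of_eq hδ α
  have h2 := abs_pr_le (P := P) δ α
  rw [pr_self] at h1
  omega

lemma Mem.bound_right {i j : ℤ} (h : Mem P α β i j) :
    -3 ≤ 2 * j + i * pr P α β ∧ 2 * j + i * pr P α β ≤ 3 := h.comm.bound_left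

lemma Mem.reflect_left {i j : ℤ} (h : Mem P α β i j) : Mem P α β (-i - j * pr P β α) j := by
  obtain ⟨δ, hδ⟩ := h
  have h1 := pr_of_eq hδ α
  rw [pr_self] at h1
  refine ⟨P.reflectionPerm α δ, ?_⟩
  rw [RootPairing.root_reflectionPerm, RootPairing.reflection_apply_root,
    ← P.algebraMap_pairingIn ℤ, show P.pairingIn ℤ δ α = pr P δ α from rfl, h1, hδ]
  simp only [algebraMap_int_eq, eq_intCast, Int.cast_smul_eq_zsmul]
  module

lemma Mem.reflect_right {i j : ℤ} (h : Mem P α β i j) : Mem P α β i (-j - i * pr P α β) :=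
  h.comm.reflect_left.comm

/-- multiples of roots are not roots -/
lemma not_mem_mul {i j : ℤ} (h : Mem P α β i j) (n : ℕ) (hn : 2 ≤ n) :
    ¬ Mem P α β (n * i) (n * j) := by
  obtain ⟨δ, hδ⟩ := h
  have : Module.IsReflexive k M := .of_isPerfPair P.toLinearMap
  have : IsAddTorsionFree M := .of_isTorsionFree k M
  have : n.AtLeastTwo := ⟨hn⟩
  have h1 := P.nsmul_notMem_range_root (n := n) (i := δ)
  rw [hδ] at h1
  rw [Mem]
  have h2 : (n * i : ℤ) • P.root α + (n * j : ℤ) • P.root β = n • (i • P.root α + j • P.root β) := by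
    rw [← natCast_zsmul]
    module
  rwa [h2]

include hli

lemma Mem.sub_left {i j : ℤ} (h : Mem P α β i j) (h0 : 0 < 2 * i + j * pr P β α)
    (h1 : j ≠ 0) : Mem P α β (i - 1) j := by
  obtain ⟨δ, hδ⟩ := h
  have h2 := pr_of_eq hδ α
  rw [pr_self] at h2
  have h3 : 0 < P.pairingIn ℤ δ α := by
    change 0 < pr P δ α
    rw [h2]; linarith
  have h4 : δ ≠ α := by
    rintro rfl
    have := smul_left_inj' hli (i := 1) (j := 0) (i' := i) (j' := j) (by rw [← hδ]; simp)
    exact h1 this.2.symm
  have := P.root_sub_root_mem_of_pairingIn_pos h3 h4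
  rw [hδ] at this
  rw [Mem]
  have h2 : (i - 1) • P.root α + j • P.root β = i • P.root α + j • P.root β - P.root α := by
    module
  rwa [h2]

lemma Mem.sub_right {i j : ℤ} (h : Mem P α β i j) (h0 : 0 < 2 * j + i * pr P α β)
    (h1 : i ≠ 0) : Mem P α β i (j - 1) :=
  (h.comm.sub_left (by rw [LinearIndependent.pair_symm_iff]; exact hli) h0 h1).comm

end

/-- the condition under which our commutator formula works directly -/
structure Good (P : RootPairing ι k M N) (α β : ι) : Prop where
  three : ∀ i : ℤ, 0 ≤ i → ¬ Mem P α β i 3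
  unique : ∀ i j : ℤ, 0 ≤ i → 0 ≤ j → Mem P α β i 2 → Mem P α β j 2 → i = j
  sub : ∀ i : ℤ, 0 ≤ i → Mem P α β i 2 → Mem P α β i 1

lemma mem_two_aux {α β : ι} (hli : LinearIndependent k ![P.root α, P.root β])
    (h : pr P α β = -1 ∨ pr P α β = 0 ∨ pr P α β = 1) {i : ℤ} (hi : 0 ≤ i)
    (h2 : Mem P α β i 2) :
    pr P α β = -1 ∧ (pr P β α = -1 ∧ i = 1 ∨ pr P β α = -3 ∧ i = 3) := by
  have h01 : Mem P α β 0 1 := mem_zero_one
  have hb := h2.bound_right
  have ha := h2.bound_left
  have hb' : pr P α β = -1 := by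
    rcases h with h | h | h
    · exact h
    all_goals
      exfalso
      rw [h] at hb
      omega
  have hpair := P.pairingIn_pairingIn_mem_set_of_isCrystal_of_isRed α β
  simp only [mem_insert_iff, Prod.mk.injEq, mem_singleton_iff] at hpair
  change (pr P α β = 0 ∧ pr P β α = 0) ∨ (pr P α β = 1 ∧ pr P β α = 1) ∨
    (pr P α β = -1 ∧ pr P β α = -1) ∨ (pr P α β = 1 ∧ pr P β α = 2) ∨
    (pr P α β = 2 ∧ pr P β α = 1) ∨ (pr P α β = -1 ∧ pr P β α = -2) ∨
    (pr P α β = -2 ∧ pr P β α = -1) ∨ (pr P α β = 1 ∧ pr P β α = 3) ∨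
    (pr P α β = 3 ∧ pr P β α = 1) ∨ (pr P α β = -1 ∧ pr P β α = -3) ∨
    (pr P α β = -3 ∧ pr P β α = -1) ∨ (pr P α β = 2 ∧ pr P β α = 2) ∨
    (pr P α β = -2 ∧ pr P β α = -2) at hpair
  have ha3 : pr P β α = -1 ∨ pr P β α = -2 ∨ pr P β α = -3 := by omega
  have h11 : Mem P α β 1 1 := by
    have := mem_one_zero (P := P) (α := α) (β := β)
    have := this.reflect_right
    rw [hb'] at this
    simpa using this
  rw [hb'] at hb
  refine ⟨hb', ?_⟩
  have h22 : i ≠ 2 := by
    rintro rfl
    exact not_mem_mul h11 2 le_rfl (by simpa using h2)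
  rcases ha3 with ha3 | ha3 | ha3
  · left
    rw [ha3] at ha
    refine ⟨ha3, by omega⟩
  · exfalso
    rw [ha3] at ha
    have : i = 1 ∨ i = 3 := by omega
    rcases this with rfl | rfl
    · have := h2.reflect_right.bound_left
      rw [hb', ha3] at this
      omega
    · have := (h2.sub_right hli (by rw [hb']; norm_num) (by norm_num)).bound_left
      rw [ha3] at this
      omega
  · right
    refine ⟨ha3, ?_⟩
    rw [ha3] at ha
    have : i = 3 ∨ i = 4 := by omega
    rcases this with rfl | rfl
    · rfl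
    · exfalso
      have h31 : Mem P α β 3 1 := by
        have := h01.reflect_left
        rw [ha3] at this
        simpa using this
      have h21 : Mem P α β 2 1 := h31.sub_left hli (by rw [ha3]; norm_num) one_ne_zero
      exact not_mem_mul h21 2 le_rfl (by simpa using h2)

lemma good_of_pr {α β : ι} (hli : LinearIndependent k ![P.root α, P.root β])
    (h : pr P α β = -1 ∨ pr P α β = 0 ∨ pr P α β = 1) : Good P α β where
  three i hi h3 := by
    have h01 : Mem P α β 0 1 := mem_zero_one
    have hb := h3.bound_right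
    have ha := h3.bound_left
    have hb' : pr P α β = -1 := by
      rcases h with h | h | h
      · exact h
      all_goals
        exfalso
        rw [h] at hb
        omega
    have hpair := P.pairingIn_pairingIn_mem_set_of_isCrystal_of_isRed α β
    simp only [mem_insert_iff, Prod.mk.injEq, mem_singleton_iff] at hpair
    change (pr P α β = 0 ∧ pr P β α = 0) ∨ (pr P α β = 1 ∧ pr P β α = 1) ∨
      (pr P α β = -1 ∧ pr P β α = -1) ∨ (pr P α β = 1 ∧ pr P β α = 2) ∨
      (pr P α β = 2 ∧ pr P β α = 1) ∨ (pr P α β = -1 ∧ pr P β α = -2) ∨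
      (pr P α β = -2 ∧ pr P β α = -1) ∨ (pr P α β = 1 ∧ pr P β α = 3) ∨
      (pr P α β = 3 ∧ pr P β α = 1) ∨ (pr P α β = -1 ∧ pr P β α = -3) ∨
      (pr P α β = -3 ∧ pr P β α = -1) ∨ (pr P α β = 2 ∧ pr P β α = 2) ∨
      (pr P α β = -2 ∧ pr P β α = -2) at hpair
    have ha3 : pr P β α = -1 ∨ pr P β α = -2 ∨ pr P β α = -3 := by omega
    have h11 : Mem P α β 1 1 := by
      have := mem_one_zero (P := P) (α := α) (β := β)
      have := this.reflect_right
      rw [hb'] at this
      simpa using this
    rw [hb'] at hb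
    have h33 : i ≠ 3 := by
      rintro rfl
      exact not_mem_mul h11 3 (by norm_num) (by simpa using h3)
    have h42 : pr P β α = -2 ∨ pr P β α = -3 → Mem P α β 2 1 := by
      rintro (ha3 | ha3)
      · have := h01.reflect_left
        rw [ha3] at this
        simpa using this
      · have h31 : Mem P α β 3 1 := by
          have := h01.reflect_left
          rw [ha3] at this
          simpa using this
        exact h31.sub_left hli (by rw [ha3]; norm_num) one_ne_zero
    have h44 : (pr P β α = -2 ∨ pr P β α = -3) → i ≠ 4 := by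
      rintro h' rfl
      have h42' := h3.sub_right hli (by rw [hb']; norm_num) (by norm_num)
      exact not_mem_mul (h42 h') 2 le_rfl (by simpa using h42')
    rcases ha3 with ha3 | ha3 | ha3
    · rw [ha3] at ha
      omega
    · have := h44 (Or.inl ha3)
      rw [ha3] at ha
      omega
    · have := h44 (Or.inr ha3)
      rw [ha3] at ha
      have : i = 5 ∨ i = 6 := by omega
      rcases this with rfl | rfl
      · have := (h3.sub_right hli (by rw [hb']; norm_num) (by norm_num)).bound_left
        rw [ha3] at this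
        omega
      · exact not_mem_mul (h42 (Or.inr ha3)) 3 (by norm_num) (by simpa using h3)
  unique i j hi hj h1 h2 := by
    have h1 := mem_two_aux hli h hi h1
    have h2 := mem_two_aux hli h hj h2
    omega
  sub i hi h1 := by
    have h2 := mem_two_aux hli h hi h1
    refine h1.sub_right hli ?_ ?_
    · rw [h2.1]; omega
    · omega

lemma good_or_good {α β : ι} (hli : LinearIndependent k ![P.root α, P.root β]) :
    Good P α β ∨ Good P β α := by
  have hli' : LinearIndependent k ![P.root β, P.root α] := by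
    rw [LinearIndependent.pair_symm_iff]; exact hli
  have hne := (RootPairing.IsReduced.linearIndependent_iff (P := P)).1 hli
  have hpair := P.pairingIn_pairingIn_mem_set_of_isCrystal_of_isRed' (i := α) (j := β)
    (by simpa using hne.1) hne.2
  simp only [mem_insert_iff, Prod.mk.injEq, mem_singleton_iff] at hpair
  change (pr P α β = 0 ∧ pr P β α = 0) ∨ (pr P α β = 1 ∧ pr P β α = 1) ∨
    (pr P α β = -1 ∧ pr P β α = -1) ∨ (pr P α β = 1 ∧ pr P β α = 2) ∨
    (pr P α β = 2 ∧ pr P β α = 1) ∨ (pr P α β = -1 ∧ pr P β α = -2) ∨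
    (pr P α β = -2 ∧ pr P β α = -1) ∨ (pr P α β = 1 ∧ pr P β α = 3) ∨
    (pr P α β = 3 ∧ pr P β α = 1) ∨ (pr P α β = -1 ∧ pr P β α = -3) ∨
    (pr P α β = -3 ∧ pr P β α = -1) at hpair
  have : (pr P α β = -1 ∨ pr P α β = 0 ∨ pr P α β = 1) ∨
      (pr P β α = -1 ∨ pr P β α = 0 ∨ pr P β α = 1) := by omega
  rcases this with h | h
  · exact Or.inl (good_of_pr hli h)
  · exact Or.inr (good_of_pr hli' h)

end T4

end Pool.Agent.MP_467141
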