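import Pool.Agent.Lib.MP_467141_H17.T2
import Pool.Agent.Lib.MP_467141_H17.T0
import Pool.Agent.Lib.MP_467141_H17.T4Roots

open Matrix

set_option linter.unusedSectionVars false

noncomputable section

namespace Pool.Agent.MP_467141

universe w

namespace T4

section expo

open Pool.Agent.Lib.MP_467141_H17

variable {A : Type*} [Ring A] [Algebra ℚ A]

lemma nilp_smul {a : A} (q : ℚ) (h : IsNilpotent a) : IsNilpotent (q • a) := by
  obtain ⟨n, hn⟩ := h
  exact ⟨n, by rw [_root_.smul_pow, hn, smul_zero]⟩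

lemma lie_sum_aux {a w : A} (l : List A) (h1 : ∀ b ∈ l, ∃ q : ℚ, a * b - b * a = q • w) :
    ∃ q' : ℚ, a * l.sum - l.sum * a = q' • w := by
  induction l with
  | nil => exact ⟨0, by simp⟩
  | cons b l ih =>
    obtain ⟨q1, hq1⟩ := ih (fun c hc => h1 c (by simp [hc]))
    obtain ⟨q2, hq2⟩ := h1 b (by simp)
    refine ⟨q2 + q1, ?_⟩
    rw [List.sum_cons, add_smul, ← hq1, ← hq2]
    noncomm_ring

lemma commute_sum_aux {w : A} (l : List A) (h1 : ∀ b ∈ l, Commute w b) : Commute w l.sum := by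
  induction l with
  | nil => simp
  | cons b l ih =>
    rw [List.sum_cons]
    exact (h1 b (by simp)).add_right (ih (fun c hc => h1 c (by simp [hc])))

/-- class two Baker-Campbell-Hausdorff for a list -/
lemma exp_list {w : A} (hw : IsNilpotent w) (l : List A) (hn : ∀ a ∈ l, IsNilpotent a)
    (hc : ∀ a ∈ l, Commute w a) (h : ∀ a ∈ l, ∀ b ∈ l, ∃ q : ℚ, a * b - b * a = q • w) :
    IsNilpotent l.sum ∧
      ∃ q : ℚ, IsNilpotent.exp l.sum = (l.map IsNilpotent.exp).prod * IsNilpotent.exp (q • w) := by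
  induction l with
  | nil => exact ⟨by simp, 0, by simp⟩
  | cons a l ih =>
    obtain ⟨ih1, q, ih2⟩ := ih (fun b hb => hn b (by simp [hb])) (fun b hb => hc b (by simp [hb]))
      (fun b hb c hc => h b (by simp [hb]) c (by simp [hc]))
    obtain ⟨q', hq'⟩ := lie_sum_aux l (fun b hb => h a (by simp) b (by simp [hb]))
    have hcs := commute_sum_aux l (fun b hb => hc b (by simp [hb]))
    have hb := bch2 hq' ((hc a (by simp)).smul_left q').eq (hcs.smul_left q').eq (hn a (by simp))
      ih1 (nilp_smul q' hw)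
    rw [List.sum_cons]
    refine ⟨hb.1, q - 1 / 2 * q', ?_⟩
    rw [hb.2, ih2, List.map_cons, List.prod_cons, sub_eq_add_neg, add_smul,
      IsNilpotent.exp_add_of_commute (((Commute.refl w).smul_left q).smul_right _)
        (nilp_smul q hw) (nilp_smul _ hw), neg_smul, mul_smul]
    simp only [mul_assoc]

/-- conjugation commutes with `exp` -/
lemma conj_exp (g : Aˣ) {a : A} (ha : IsNilpotent a) :
    (g : A) * IsNilpotent.exp a * (g⁻¹ : Aˣ) = IsNilpotent.exp ((g : A) * a * (g⁻¹ : Aˣ)) := by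
  obtain ⟨n, hn⟩ := ha
  have h1 : ∀ m : ℕ, ((g : A) * a * (g⁻¹ : Aˣ)) ^ m = (g : A) * a ^ m * (g⁻¹ : Aˣ) := by
    intro m
    exact Units.conj_pow g a m
  have h2 : ((g : A) * a * (g⁻¹ : Aˣ)) ^ n = 0 := by
    rw [h1, hn, mul_zero, zero_mul]
  rw [IsNilpotent.exp_eq_sum hn, IsNilpotent.exp_eq_sum h2, Finset.mul_sum, Finset.sum_mul]
  refine Finset.sum_congr rfl fun i _ => ?_
  rw [h1, mul_smul_comm, smul_mul_assoc]

end expo

end T4

variable {ι k M N : Type*} [Field k] [CharZero k] [AddCommGroup M] [Module k M]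
  [AddCommGroup N] [Module k N] [Fintype ι] [DecidableEq ι]

namespace ChevalleyBasis

variable {P : RootPairing ι k M N} [P.IsCrystallographic] [P.IsReduced] {b : P.Base}
  {L : Type*} [LieRing L] (B : ChevalleyBasis P b L)

/-- `ad` as a linear map to matrices -/
def adT : L →ₗ[ℤ] Matrix (b.support ⊕ ι) (b.support ⊕ ι) ℤ where
  toFun x := LinearMap.toMatrix B.basis B.basis
    ((LieAlgebra.ad ℤ L x : Module.End ℤ L) : L →ₗ[ℤ] L)
  map_add' x y := by
    rw [← map_add]
    congr 1
    ext z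
    simp
  map_smul' c x := by
    rw [RingHom.id_apply, ← map_smul]
    congr 1
    ext z
    simp

lemma adE_eq_adT (α : ι) : B.adE α = B.adT (B.basis (.inr α)) := rfl

lemma adT_lie (x y : L) : B.adT x * B.adT y - B.adT y * B.adT x = B.adT ⁅x, y⁆ := by
  change LinearMap.toMatrix B.basis B.basis
      ((LieAlgebra.ad ℤ L x : Module.End ℤ L) : L →ₗ[ℤ] L) *
    LinearMap.toMatrix B.basis B.basis
      ((LieAlgebra.ad ℤ L y : Module.End ℤ L) : L →ₗ[ℤ] L) -
    LinearMap.toMatrix B.basis B.basis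
      ((LieAlgebra.ad ℤ L y : Module.End ℤ L) : L →ₗ[ℤ] L) *
    LinearMap.toMatrix B.basis B.basis
      ((LieAlgebra.ad ℤ L x : Module.End ℤ L) : L →ₗ[ℤ] L) =
    LinearMap.toMatrix B.basis B.basis
      ((LieAlgebra.ad ℤ L ⁅x, y⁆ : Module.End ℤ L) : L →ₗ[ℤ] L)
  rw [← LinearMap.toMatrix_mul, ← LinearMap.toMatrix_mul, ← map_sub]
  congr 1
  ext z
  simp

lemma adE_lie_of_add {α β γ : ι} (h : P.root γ = P.root α + P.root β) :
    ∃ n : ℤ, B.adE α * B.adE β - B.adE β * B.adE α = n • B.adE γ := by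
  rw [adE_eq_adT, adE_eq_adT, adT_lie]
  rcases B.lie_e_e α β γ h with h1 | h1
  · refine ⟨((P.chainBotCoeff α β + 1 : ℕ) : ℤ), ?_⟩
    rw [h1, map_smul, adE_eq_adT]
  · refine ⟨-((P.chainBotCoeff α β + 1 : ℕ) : ℤ), ?_⟩
    rw [h1, map_neg, map_smul, adE_eq_adT, neg_smul]

lemma adE_lie_of_not {α β : ι} (h : P.root α + P.root β ∉ Set.range P.root)
    (h0 : P.root α + P.root β ≠ 0) : B.adE α * B.adE β = B.adE β * B.adE α := by
  rw [← sub_eq_zero, adE_eq_adT, adE_eq_adT, adT_lie, B.lie_e_e_eq_zero α β h h0, map_zero]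

lemma dpow_comm {α β : ι} (h : B.adE α * B.adE β = B.adE β * B.adE α) (i j : ℕ) :
    Commute (B.dpow α i) (B.dpow β j) := by
  have h1 : ((i.factorial : ℤ) * (j.factorial : ℤ)) • (B.dpow α i * B.dpow β j) =
      ((i.factorial : ℤ) * (j.factorial : ℤ)) • (B.dpow β j * B.dpow α i) := by
    rw [mul_smul, ← mul_smul_comm, ← smul_mul_assoc, factorial_smul_dpow, factorial_smul_dpow,
      mul_comm (i.factorial : ℤ), mul_smul, ← mul_smul_comm, ← smul_mul_assoc,
      factorial_smul_dpow, factorial_smul_dpow]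
    exact Commute.pow_pow h i j
  have h2 : ((i.factorial : ℤ) * (j.factorial : ℤ)) ≠ 0 := by positivity
  exact smul_right_injective _ h2 h1

/-- root subgroups commute if `α + β` is neither `0` nor a root -/
theorem x_comm_x' (R : Type*) [CommRing R] {α β : ι} (h : P.root α + P.root β ∉ Set.range P.root)
    (h0 : P.root α + P.root β ≠ 0) (t u : R) :
    B.x R α t * B.x R β u = B.x R β u * B.x R α t := by
  apply Units.ext
  rw [Units.val_mul, Units.val_mul, coe_x, coe_x, xMat, xMat]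
  refine Commute.sum_left _ _ _ fun i _ => Commute.sum_right _ _ _ fun j _ => ?_
  refine (Commute.smul_left ?_ _).smul_right _
  exact (B.dpow_comm (B.adE_lie_of_not h h0) i j).map (RingHom.mapMatrix (Int.castRingHom R))

section exp

variable {A : Type*} [CommRing A] [Algebra ℚ A]

/-- `ad e_α` over `A` -/
def adA (A : Type*) [CommRing A] (α : ι) : Matrix (b.support ⊕ ι) (b.support ⊕ ι) A :=
  (B.adE α).map (Int.castRingHom A)

lemma adA_pow (α : ι) (j : ℕ) : B.adA A α ^ j =
    (j.factorial : ℚ) • (B.dpow α j).map (Int.castRingHom A) := by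
  have h : B.adA A α ^ j = (B.adE α ^ j).map (Int.castRingHom A) :=
    (map_pow (RingHom.mapMatrix (Int.castRingHom A)) (B.adE α) j).symm
  rw [h, ← factorial_smul_dpow]
  ext i l
  rw [Matrix.map_apply, Matrix.smul_apply, Matrix.smul_apply, Matrix.map_apply, smul_eq_mul,
    map_mul, Algebra.smul_def]
  simp

lemma adA_pow_four (α : ι) : B.adA A α ^ 4 = 0 := by
  rw [adA_pow, B.dpow_eq_zero α le_rfl]
  ext i l
  simp

lemma isNilpotent_smul_adA (α : ι) (t : A) : IsNilpotent (t • B.adA A α) :=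
  ⟨4, by rw [_root_.smul_pow, adA_pow_four, smul_zero]⟩

lemma xMat_eq_exp (α : ι) (t : A) : B.xMat A α t = IsNilpotent.exp (t • B.adA A α) := by
  rw [IsNilpotent.exp_eq_sum (k := 4) (by rw [_root_.smul_pow, adA_pow_four, smul_zero]), xMat]
  refine Finset.sum_congr rfl fun j _ => ?_
  rw [_root_.smul_pow, adA_pow, smul_comm (t ^ j), smul_smul, inv_mul_cancel₀ (by positivity),
    one_smul]

lemma adM_sum (R : Type*) [CommRing R] (l : List (b.support ⊕ ι → R)) :
    B.adM R l.sum = (l.map (B.adM R)).sum := by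
  induction l with
  | nil =>
    have := B.adM_smul R 0 0
    rw [zero_smul, zero_smul] at this
    simpa using this
  | cons a l ih => rw [List.sum_cons, adM_add, ih, List.map_cons, List.sum_cons]

lemma adM_smul_ev (α : ι) (c : A) : B.adM A (c • ev b A (.inr α)) = c • B.adA A α := by
  rw [adM_smul, adM_ev, adI_inr]
  rfl

/-- `x_α(t) x_β(u) x_α(-t) = exp (u ad (x_α(t) e_β))` -/
lemma x_conj_eq_exp (α β : ι) (t u : A) :
    (B.x A α t * B.x A β u * B.x A α (-t)).val =
      IsNilpotent.exp (B.adM A (u • (B.xMat A α t *ᵥ ev b A (.inr β)))) := by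
  have h1 : (B.x A α t * B.x A β u * B.x A α (-t)).val =
      (B.x A α t).val * IsNilpotent.exp (u • B.adA A β) * ((B.x A α t)⁻¹ : _).val := by
    rw [x_neg, Units.val_mul, Units.val_mul, ← xMat_eq_exp]
    rfl
  rw [h1, T4.conj_exp _ (B.isNilpotent_smul_adA β u)]
  congr 1
  have h2 := B.isAut_x (R := A) α t (u • ev b A (.inr β))
  rw [adM_smul_ev, mulVec_smul] at h2
  rw [h2, mul_assoc, Units.mul_inv, mul_one]
  rfl

end exp

/-! ### cwords -/

/-- a product of root elements with monomial parameters -/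
def cword (R : Type*) [CommRing R] (t u : R) (l : List (ι × ℤ × ℕ × ℕ)) :
    GL (b.support ⊕ ι) R :=
  (l.map fun q => B.x R q.1 ((q.2.1 : R) * t ^ q.2.2.1 * u ^ q.2.2.2)).prod

lemma cword_nil (R : Type*) [CommRing R] (t u : R) : B.cword R t u [] = 1 := rfl

lemma cword_cons (R : Type*) [CommRing R] (t u : R) (q : ι × ℤ × ℕ × ℕ)
    (l : List (ι × ℤ × ℕ × ℕ)) : B.cword R t u (q :: l) =
      B.x R q.1 ((q.2.1 : R) * t ^ q.2.2.1 * u ^ q.2.2.2) * B.cword R t u l := by
  rw [cword, cword, List.map_cons, List.prod_cons]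

lemma cword_append (R : Type*) [CommRing R] (t u : R) (l l' : List (ι × ℤ × ℕ × ℕ)) :
    B.cword R t u (l ++ l') = B.cword R t u l * B.cword R t u l' := by
  rw [cword, cword, cword, List.map_append, List.prod_append]

lemma map_cword {R S : Type*} [CommRing R] [CommRing S] (f : R →+* S) (t u : R)
    (l : List (ι × ℤ × ℕ × ℕ)) :
    Matrix.GeneralLinearGroup.map f (B.cword R t u l) = B.cword S (f t) (f u) l := by
  rw [cword, map_list_prod, cword, List.map_map]
  congr 1
  refine List.map_congr_left fun q _ => ?_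
  rw [Function.comp_apply, map_x]
  simp

open MvPolynomial in
lemma cword_transfer {l l' : List (ι × ℤ × ℕ × ℕ)}
    (h : B.cword (MvPolynomial (Fin 2) ℚ) (X 0) (X 1) l =
      B.cword (MvPolynomial (Fin 2) ℚ) (X 0) (X 1) l') (R : Type*) [CommRing R] (t u : R) :
    B.cword R t u l = B.cword R t u l' := by
  have h1 : B.cword (MvPolynomial (Fin 2) ℤ) (X 0) (X 1) l =
      B.cword (MvPolynomial (Fin 2) ℤ) (X 0) (X 1) l' := by
    have h2 : Matrix.GeneralLinearGroup.map (MvPolynomial.map (Int.castRingHom ℚ))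
        (B.cword (MvPolynomial (Fin 2) ℤ) (X 0) (X 1) l) =
        Matrix.GeneralLinearGroup.map (MvPolynomial.map (Int.castRingHom ℚ))
        (B.cword (MvPolynomial (Fin 2) ℤ) (X 0) (X 1) l') := by
      rw [map_cword, map_cword, map_X, map_X, h]
    apply Units.ext
    have h3 := congrArg Units.val h2
    ext1 i j
    have h4 := congrFun (congrFun h3 i) j
    exact MvPolynomial.map_injective _ (Int.cast_injective) h4
  have h2 := congrArg (Matrix.GeneralLinearGroup.map
    (MvPolynomial.eval₂Hom (Int.castRingHom R) ![t, u])) h1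
  rw [map_cword, map_cword] at h2
  simpa using h2

end ChevalleyBasis

end Pool.Agent.MP_467141
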