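import Pool.Agent.Lib.MP_467141_H17.T4A

open Matrix

set_option linter.unusedSectionVars false

noncomputable section

namespace Pool.Agent.MP_467141

universe w

variable {ι k M N : Type*} [Field k] [CharZero k] [AddCommGroup M] [Module k M]
  [AddCommGroup N] [Module k N] [Fintype ι] [DecidableEq ι]

lemma T4.sum_list_range {V : Type*} [AddCommMonoid V] (n : ℕ) (f : ℕ → V) :
    ((List.range n).map f).sum = ∑ i ∈ Finset.range n, f i := by
  induction n with
  | zero => simp
  | succ n ih => rw [List.range_succ, List.map_append, List.sum_append, ih,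
      Finset.sum_range_succ]; simp

namespace ChevalleyBasis

variable {P : RootPairing ι k M N} [P.IsCrystallographic] [P.IsReduced] {b : P.Base}
  {L : Type*} [LieRing L] (B : ChevalleyBasis P b L)

section string

variable {α β : ι} (hβ : LinearIndependent k ![P.root α, P.root β])
    (m : ℕ) (hm : m = P.chainTopCoeff α β) (δ : ℕ → ι)
    (hδ : ∀ i ≤ m, P.root (δ i) = P.root β + i • P.root α)
include hβ hm hδ

lemma xMat_mulVec_string (R : Type*) [CommRing R] (t : R) :
    B.xMat R α t *ᵥ ev b R (.inr β) = ((List.range (m + 1)).map fun i =>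
      (((B.dpow α i (.inr (δ i)) (.inr β) : ℤ) : R) * t ^ i) • ev b R (.inr (δ i))).sum := by
  classical
  rw [T4.sum_list_range, B.xMat_mulVec_inr R hβ t]
  have h3 : m ≤ 3 := by
    have := P.chainBotCoeff_add_chainTopCoeff_le_three (i := α) (j := β)
    omega
  symm
  refine Finset.sum_subset_zero_on_sdiff (Finset.range_subset_range.2 (by omega)) ?_ ?_
  · intro j hj
    rw [Finset.mem_sdiff, Finset.mem_range, Finset.mem_range, not_lt] at hj
    refine Finset.sum_eq_zero fun γ hγ => ?_
    rw [Finset.mem_filter] at hγ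
    exfalso
    have h4 : P.root β + j • P.root α ∈ Set.range P.root := ⟨γ, hγ.2⟩
    rw [P.root_add_nsmul_mem_range_iff_le_chainTopCoeff hβ] at h4
    omega
  · intro j hj
    rw [Finset.mem_range] at hj
    have h4 : Finset.univ.filter (fun γ => P.root γ = P.root β + j • P.root α) = {δ j} := by
      ext γ
      rw [Finset.mem_filter, Finset.mem_singleton, ← hδ j (by omega), P.root.injective.eq_iff]
      simp
    rw [h4, Finset.sum_singleton]

lemma conj_rat {A : Type*} [CommRing A] [Algebra ℚ A] (t u : A)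
    {w : Matrix (b.support ⊕ ι) (b.support ⊕ ι) A} (hw : IsNilpotent w)
    (hc : ∀ i ≤ m, Commute w (B.adA A (δ i)))
    (h : ∀ i ≤ m, ∀ j ≤ m, ∃ q : ℚ, (t ^ (i + j) * u ^ 2) •
      (B.adA A (δ i) * B.adA A (δ j) - B.adA A (δ j) * B.adA A (δ i)) = q • w) :
    ∃ q : ℚ, (B.x A α t * B.x A β u * B.x A α (-t)).val =
      ((List.range (m + 1)).map fun i =>
        B.x A (δ i) ((B.dpow α i (.inr (δ i)) (.inr β) : ℤ) * t ^ i * u)).prod.val *
        IsNilpotent.exp (q • w) := by
  set c : ℕ → A := fun i => (B.dpow α i (.inr (δ i)) (.inr β) : ℤ) * t ^ i * u with hcdef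
  rw [x_conj_eq_exp, B.xMat_mulVec_string hβ m hm δ hδ, List.smul_sum, List.map_map]
  have h1 : (List.range (m + 1)).map ((fun x => u • x) ∘ fun i =>
      (((B.dpow α i (.inr (δ i)) (.inr β) : ℤ) : A) * t ^ i) • ev b A (.inr (δ i))) =
      (List.range (m + 1)).map fun i => c i • ev b A (.inr (δ i)) := by
    refine List.map_congr_left fun i _ => ?_
    rw [Function.comp_apply, smul_smul, hcdef]
    congr 1
    ring
  rw [h1, adM_sum, List.map_map]
  have h2 : (List.range (m + 1)).map (B.adM A ∘ fun i => c i • ev b A (.inr (δ i))) =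
      (List.range (m + 1)).map fun i => c i • B.adA A (δ i) := by
    refine List.map_congr_left fun i _ => ?_
    rw [Function.comp_apply, adM_smul_ev]
  rw [h2]
  obtain ⟨-, q, hq⟩ := T4.exp_list hw ((List.range (m + 1)).map fun i => c i • B.adA A (δ i))
    (by
      intro a ha
      rw [List.mem_map] at ha
      obtain ⟨i, -, rfl⟩ := ha
      exact B.isNilpotent_smul_adA _ _)
    (by
      intro a ha
      rw [List.mem_map] at ha
      obtain ⟨i, hi, rfl⟩ := ha
      rw [List.mem_range] at hi
      exact (hc i (by omega)).smul_right _)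
    (by
      intro a ha a' ha'
      rw [List.mem_map] at ha ha'
      obtain ⟨i, hi, rfl⟩ := ha
      obtain ⟨j, hj, rfl⟩ := ha'
      rw [List.mem_range] at hi hj
      obtain ⟨q, hq⟩ := h i (by omega) j (by omega)
      refine ⟨((B.dpow α i (.inr (δ i)) (.inr β) : ℤ) : ℚ) *
        ((B.dpow α j (.inr (δ j)) (.inr β) : ℤ) : ℚ) * q, ?_⟩
      have h5 : ∀ (n : ℤ) (Z : Matrix (b.support ⊕ ι) (b.support ⊕ ι) A),
          (n : ℚ) • Z = (n : A) • Z := by
        intro n Z
        rw [Int.cast_smul_eq_zsmul, Int.cast_smul_eq_zsmul]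
      rw [mul_smul ((_ : ℚ) * _), ← hq, mul_smul (_ : ℚ), h5, h5]
      simp only [hcdef]
      rw [smul_mul_smul_comm, smul_mul_smul_comm, mul_comm (_ * t ^ j * u), ← smul_sub,
        smul_smul, smul_smul]
      congr 1
      ring)
  refine ⟨q, ?_⟩
  rw [hq]
  congr 1
  rw [List.map_map, ← Units.coeHom_apply, map_list_prod, List.map_map]
  congr 1
  refine List.map_congr_left fun i _ => ?_
  rw [Function.comp_apply, Function.comp_apply, Units.coeHom_apply, coe_x, xMat_eq_exp]

end string

end ChevalleyBasis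

end Pool.Agent.MP_467141
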