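import Pool.Agent.Lib.MP_467141_H17.T4B

open Matrix

set_option linter.unusedSectionVars false

noncomputable section

namespace Pool.Agent.MP_467141

universe w

variable {ι k M N : Type*} [Field k] [CharZero k] [AddCommGroup M] [Module k M]
  [AddCommGroup N] [Module k N] [Fintype ι] [DecidableEq ι]

namespace T4

variable {P : RootPairing ι k M N} [P.IsCrystallographic]

lemma mem_iff_two {α β : ι} {i : ℕ} :
    Mem P α β i 2 ↔ (2 : ℕ) • P.root β + i • P.root α ∈ Set.range P.root := by
  rw [Mem, add_comm, natCast_zsmul]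
  norm_cast

lemma ne_zero_of_li {α β : ι} (hli : LinearIndependent k ![P.root α, P.root β]) {i j : ℤ}
    (hj : j ≠ 0) : i • P.root α + j • P.root β ≠ 0 := by
  intro h
  have := smul_left_inj' hli (i := i) (j := j) (i' := 0) (j' := 0) (by rw [h]; simp)
  exact hj this.2

end T4

namespace ChevalleyBasis

variable {P : RootPairing ι k M N} [P.IsCrystallographic] [P.IsReduced] {b : P.Base}
  {L : Type*} [LieRing L] (B : ChevalleyBasis P b L)

lemma adA_comm (A : Type*) [CommRing A] {α β : ι}
    (h : B.adE α * B.adE β = B.adE β * B.adE α) : Commute (B.adA A α) (B.adA A β) :=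
  Commute.map (f := RingHom.mapMatrix (Int.castRingHom A)) h

lemma cword_conj (R : Type*) [CommRing R] (α β : ι) (t u : R) :
    B.cword R t u [(α, 1, 1, 0), (β, 1, 0, 1), (α, -1, 1, 0)] =
      B.x R α t * B.x R β u * B.x R α (-t) := by
  simp [cword, mul_assoc]

lemma prod_eq_cword (R : Type*) [CommRing R] (α β : ι) (m : ℕ) (δ : ℕ → ι) (t u : R) :
    ((List.range (m + 1)).map fun i =>
        B.x R (δ i) ((B.dpow α i (.inr (δ i)) (.inr β) : ℤ) * t ^ i * u)).prod =
    B.cword R t u ((List.range (m + 1)).map fun i =>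
      (δ i, B.dpow α i (.inr (δ i)) (.inr β), i, 1)) := by
  rw [cword, List.map_map]
  congr 1
  refine List.map_congr_left fun i _ => ?_
  simp

lemma string_rat (A : Type*) [CommRing A] [Algebra ℚ A] {α β : ι}
    (hβ : LinearIndependent k ![P.root α, P.root β])
    (m : ℕ) (hm : m = P.chainTopCoeff α β) (δ : ℕ → ι)
    (hδ : ∀ i ≤ m, P.root (δ i) = P.root β + i • P.root α)
    (h2 : ∀ i : ℕ, (2 : ℕ) • P.root β + i • P.root α ∉ Set.range P.root) (t u : A) :
    B.cword A t u [(α, 1, 1, 0), (β, 1, 0, 1), (α, -1, 1, 0)] =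
    B.cword A t u ((List.range (m + 1)).map fun i =>
      (δ i, B.dpow α i (.inr (δ i)) (.inr β), i, 1)) := by
  have hcomm : ∀ i ≤ m, ∀ j ≤ m, Commute (B.adA A (δ i)) (B.adA A (δ j)) := by
    intro i hi j hj
    have h3 : P.root (δ i) + P.root (δ j) =
        (2 : ℕ) • P.root β + (i + j) • P.root α := by
      rw [hδ i hi, hδ j hj]
      module
    apply adA_comm
    apply adE_lie_of_not
    · rw [h3]
      exact h2 _
    · rw [h3]
      have := T4.ne_zero_of_li hβ (i := (i + j : ℕ)) (j := 2) (by norm_num)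
      intro h4
      apply this
      rw [← h4, natCast_zsmul, add_comm]
      norm_cast
  obtain ⟨q, hq⟩ := B.conj_rat hβ m hm δ hδ t u (w := 0) IsNilpotent.zero
    (fun i _ => Commute.zero_left _)
    (fun i hi j hj => ⟨0, by rw [(hcomm i hi j hj).eq, sub_self, smul_zero, zero_smul]⟩)
  rw [smul_zero, IsNilpotent.exp_zero, mul_one] at hq
  rw [cword_conj, ← prod_eq_cword]
  exact Units.ext hq

theorem x_conj_x_of_string' (R : Type w) [CommRing R] {α β : ι}
    (hβ : LinearIndependent k ![P.root α, P.root β])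
    (m : ℕ) (hm : m = P.chainTopCoeff α β) (δ : ℕ → ι)
    (hδ : ∀ i ≤ m, P.root (δ i) = P.root β + i • P.root α)
    (h2 : ∀ i : ℕ, (2 : ℕ) • P.root β + i • P.root α ∉ Set.range P.root) (t u : R) :
    B.x R α t * B.x R β u * B.x R α (-t) =
      ((List.range (m + 1)).map fun i =>
        B.x R (δ i) ((B.dpow α i (.inr (δ i)) (.inr β) : ℤ) * t ^ i * u)).prod := by
  rw [← cword_conj, prod_eq_cword]
  exact B.cword_transfer (B.string_rat _ hβ m hm δ hδ h2 _ _) R t u

theorem x_conj_x_of_add' (R : Type w) [CommRing R] {α β γ : ι}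
    (h : P.root γ = P.root α + P.root β)
    (h1 : (2 : ℕ) • P.root α + P.root β ∉ Set.range P.root)
    (h2 : P.root α + (2 : ℕ) • P.root β ∉ Set.range P.root) (t u : R) :
    B.x R α t * B.x R β u * B.x R α (-t) =
      B.x R β u * B.x R γ ((B.adE α (.inr γ) (.inr β) : ℤ) * t * u) := by
  have hβ : LinearIndependent k ![P.root α, P.root β] :=
    P.linearIndependent_of_add_mem_range_root' ⟨γ, h⟩
  have htop : P.chainTopCoeff α β = 1 := by
    have h3 : 1 ≤ P.chainTopCoeff α β := by
      rw [← P.root_add_nsmul_mem_range_iff_le_chainTopCoeff hβ]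
      exact ⟨γ, by rw [h, one_smul, add_comm]⟩
    have h4 : ¬ 2 ≤ P.chainTopCoeff α β := by
      rw [← P.root_add_nsmul_mem_range_iff_le_chainTopCoeff hβ, add_comm]
      exact h1
    omega
  have hpr : -1 ≤ pr P β α := by
    have := P.chainTopCoeff_sub_chainBotCoeff hβ
    rw [htop] at this
    change _ = -pr P β α at this
    omega
  have h3 : ∀ i : ℕ, ¬ T4.Mem P α β i 2 := by
    intro i
    induction i with
    | zero =>
      have := T4.not_mem_mul (T4.mem_zero_one (P := P) (α := α) (β := β)) 2 le_rfl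
      simpa using this
    | succ i ih =>
      rcases Nat.eq_zero_or_pos i with rfl | hi
      · rw [T4.mem_iff_two]
        rwa [zero_add, one_smul, add_comm]
      · intro h4
        have h5 := h4.sub_left hβ (by push_cast; omega) (by norm_num)
        apply ih
        simpa using h5
  have h4 := B.x_conj_x_of_string' R hβ 1 htop.symm (fun i => if i = 0 then β else γ)
    (by
      intro i hi
      rcases (by omega : i = 0 ∨ i = 1) with rfl | rfl
      · simp
      · simp [h, add_comm])
    (fun i => by rw [← T4.mem_iff_two]; exact h3 i) t u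
  rw [h4]
  simp [List.range_succ, dpow_zero, dpow_one]

end ChevalleyBasis

end Pool.Agent.MP_467141
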