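import Pool.Agent.Lib.MP_467141_H17.T4C

open Matrix

set_option linter.unusedSectionVars false

noncomputable section

namespace Pool.Agent.MP_467141

universe w

variable {ι k M N : Type*} [Field k] [CharZero k] [AddCommGroup M] [Module k M]
  [AddCommGroup N] [Module k N] [Fintype ι] [DecidableEq ι]

namespace ChevalleyBasis

variable {P : RootPairing ι k M N} [P.IsCrystallographic] [P.IsReduced] {b : P.Base}
  {L : Type*} [LieRing L] (B : ChevalleyBasis P b L)

/-- class two formula over `ℚ`-algebras -/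
lemma class2_rat (A : Type*) [CommRing A] [Algebra ℚ A] {α β : ι} (hg : T4.Good P α β)
    (hβ : LinearIndependent k ![P.root α, P.root β])
    (m : ℕ) (hm : m = P.chainTopCoeff α β) (δ : ℕ → ι)
    (hδ : ∀ i ≤ m, P.root (δ i) = P.root β + i • P.root α)
    {n : ℕ} {ε : ι} (hε : P.root ε = (n : ℤ) • P.root α + (2 : ℤ) • P.root β) (t u : A) :
    ∃ q : ℚ, B.cword A t u [(α, 1, 1, 0), (β, 1, 0, 1), (α, -1, 1, 0)] =
    B.cword A t u ((List.range (m + 1)).map fun i =>
      (δ i, B.dpow α i (.inr (δ i)) (.inr β), i, 1)) *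
      B.x A ε (q • (t ^ n * u ^ 2)) := by
  have hw : IsNilpotent ((t ^ n * u ^ 2) • B.adA A ε) := B.isNilpotent_smul_adA _ _
  have hc : ∀ i ≤ m, Commute ((t ^ n * u ^ 2) • B.adA A ε) (B.adA A (δ i)) := by
    intro i hi
    refine Commute.smul_left ?_ _
    have h3 : P.root ε + P.root (δ i) =
        ((n + i : ℕ) : ℤ) • P.root α + (3 : ℤ) • P.root β := by
      rw [hδ i hi, hε, ← natCast_zsmul]
      push_cast
      module
    apply adA_comm
    apply adE_lie_of_not
    · rw [h3]
      exact hg.three _ (by positivity)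
    · rw [h3]
      exact T4.ne_zero_of_li hβ (by norm_num)
  have h : ∀ i ≤ m, ∀ j ≤ m, ∃ q : ℚ, (t ^ (i + j) * u ^ 2) •
      (B.adA A (δ i) * B.adA A (δ j) - B.adA A (δ j) * B.adA A (δ i)) =
        q • ((t ^ n * u ^ 2) • B.adA A ε) := by
    intro i hi j hj
    have h3 : P.root (δ i) + P.root (δ j) =
        ((i + j : ℕ) : ℤ) • P.root α + (2 : ℤ) • P.root β := by
      rw [hδ i hi, hδ j hj, ← natCast_zsmul, ← natCast_zsmul]
      push_cast
      module
    by_cases h4 : P.root (δ i) + P.root (δ j) ∈ Set.range P.root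
    · have h4' : T4.Mem P α β ((i + j : ℕ) : ℤ) 2 := by
        rw [T4.Mem, ← h3]; exact h4
      have h5 : ((i + j : ℕ) : ℤ) = n := hg.unique _ _ (by positivity) (by positivity) h4'
        (by rw [T4.Mem]; exact ⟨ε, hε⟩)
      obtain ⟨N', hN'⟩ := B.adE_lie_of_add (α := δ i) (β := δ j) (γ := ε) (by
        rw [h3, h5, hε])
      refine ⟨(N' : ℚ), ?_⟩
      have h6 : B.adA A (δ i) * B.adA A (δ j) - B.adA A (δ j) * B.adA A (δ i) =
          (N' : ℚ) • B.adA A ε := by
        have h7 := congrArg (RingHom.mapMatrix (Int.castRingHom A)) hN'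
        rw [map_sub, map_mul, map_mul, map_zsmul] at h7
        rw [Int.cast_smul_eq_zsmul]
        exact h7
      rw [h6, smul_comm]
      congr 3
      have : i + j = n := by exact_mod_cast h5
      rw [this]
    · refine ⟨0, ?_⟩
      have h5 : Commute (B.adA A (δ i)) (B.adA A (δ j)) := by
        apply adA_comm
        apply adE_lie_of_not _ h4
        rw [h3]
        exact T4.ne_zero_of_li hβ (by norm_num)
      rw [h5.eq, sub_self, smul_zero, zero_smul]
  obtain ⟨q, hq⟩ := B.conj_rat hβ m hm δ hδ t u hw hc h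
  refine ⟨q, ?_⟩
  rw [cword_conj, ← prod_eq_cword]
  apply Units.ext
  rw [hq, Units.val_mul, coe_x, xMat_eq_exp, smul_assoc]

/-- an entry of `x_ε(s)` -/
lemma xMat_entry (R : Type*) [CommRing R] {α β : ι}
    (hβ : LinearIndependent k ![P.root α, P.root β])
    {n : ℕ} {ε γ β' : ι} (hε : P.root ε = (n : ℤ) • P.root α + (2 : ℤ) • P.root β)
    (hγ : P.root γ = (n : ℤ) • P.root α + (1 : ℤ) • P.root β) (hβ' : P.root β' = -P.root β)
    (s : R) : B.xMat R ε s (.inr γ) (.inr β') = s * (B.adE ε (.inr γ) (.inr β') : ℤ) := by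
  rw [xMat, Matrix.sum_apply, Finset.sum_eq_single 1]
  · rw [dpow_one, pow_one, Matrix.smul_apply, Matrix.map_apply]
    simp
  · intro j _ hj
    rw [Matrix.smul_apply, Matrix.map_apply]
    by_contra h1
    have h2 : B.dpow ε j (.inr γ) (.inr β') ≠ 0 := by
      intro h2
      rw [h2] at h1
      simp at h1
    have h3 := B.wt_of_dpow_ne_zero h2
    simp only [wt, Sum.elim_inr] at h3
    rw [hγ, hβ', hε, ← natCast_zsmul] at h3
    have h4 := T4.smul_left_inj' hβ (i := n) (j := 1) (i' := j * n) (j' := -1 + j * 2) (by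
      rw [h3]
      module)
    omega
  · intro h
    simp at h

theorem class2 {α β : ι} (hg : T4.Good P α β)
    (hβ : LinearIndependent k ![P.root α, P.root β])
    (m : ℕ) (hm : m = P.chainTopCoeff α β) (δ : ℕ → ι)
    (hδ : ∀ i ≤ m, P.root (δ i) = P.root β + i • P.root α)
    {n : ℕ} {ε : ι} (hε : P.root ε = (n : ℤ) • P.root α + (2 : ℤ) • P.root β) :
    ∃ c : ℤ, ∀ (R : Type w) [CommRing R] (t u : R),
      B.cword R t u [(α, 1, 1, 0), (β, 1, 0, 1), (α, -1, 1, 0)] =
      B.cword R t u (((List.range (m + 1)).map fun i =>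
        (δ i, B.dpow α i (.inr (δ i)) (.inr β), i, 1)) ++ [(ε, c, n, 2)]) := by
  obtain ⟨q, hq⟩ := B.class2_rat (MvPolynomial (Fin 2) ℚ) hg hβ m hm δ hδ hε
    (MvPolynomial.X 0) (MvPolynomial.X 1)
  obtain ⟨γ, hγ⟩ := hg.sub n (by positivity) ⟨ε, hε.symm ▸ rfl⟩
  have hβ' : P.root (neg P β) = -P.root β := by
    simp [neg]
  -- the entry is `±1`
  have hbot : P.chainBotCoeff ε (neg P β) = 0 := by
    rw [RootPairing.chainBotCoeff_eq_zero_iff]
    right
    rw [hβ', hε]
    intro h1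
    rw [← RootPairing.neg_mem_range_root_iff] at h1
    apply hg.three n (by positivity)
    rw [T4.Mem]
    convert h1 using 1
    module
  have hent := B.adE_inr_inr (α := ε) (β := neg P β) (γ := γ) (by
    rw [hγ, hε, hβ']
    module)
  rw [hbot] at hent
  set e : ℤ := B.adE ε (.inr γ) (.inr (neg P β)) with he
  have he' : e * e = 1 := by
    rcases hent with h | h <;> rw [h] <;> norm_num
  set l := (List.range (m + 1)).map fun i =>
        (δ i, B.dpow α i (.inr (δ i)) (.inr β), i, 1) with hl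
  set g : GL (b.support ⊕ ι) (MvPolynomial (Fin 2) ℤ) :=
    (B.cword (MvPolynomial (Fin 2) ℤ) (MvPolynomial.X 0) (MvPolynomial.X 1) l)⁻¹ *
      B.cword (MvPolynomial (Fin 2) ℤ) (MvPolynomial.X 0) (MvPolynomial.X 1)
        [(α, 1, 1, 0), (β, 1, 0, 1), (α, -1, 1, 0)] with hgdef
  have h1 : Matrix.GeneralLinearGroup.map (MvPolynomial.map (Int.castRingHom ℚ)) g =
      B.x (MvPolynomial (Fin 2) ℚ) ε
        (q • (MvPolynomial.X 0 ^ n * MvPolynomial.X 1 ^ 2)) := by
    rw [hgdef, map_mul, map_inv, map_cword, map_cword, MvPolynomial.map_X, MvPolynomial.map_X, hq,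
      inv_mul_cancel_left]
  have h2 : MvPolynomial.map (Int.castRingHom ℚ) (g.val (.inr γ) (.inr (neg P β))) =
      (q • (MvPolynomial.X 0 ^ n * MvPolynomial.X 1 ^ 2)) * (e : MvPolynomial (Fin 2) ℚ) := by
    rw [he, ← B.xMat_entry (MvPolynomial (Fin 2) ℚ) hβ hε hγ hβ', ← coe_x, ← h1]
    rfl
  have h3 := congrArg (MvPolynomial.coeff (Finsupp.single 0 n + Finsupp.single 1 2)) h2
  have h4 : MvPolynomial.coeff (Finsupp.single 0 n + Finsupp.single 1 2)
      ((q • (MvPolynomial.X 0 ^ n * MvPolynomial.X 1 ^ 2)) *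
        (e : MvPolynomial (Fin 2) ℚ)) = q * e := by
    rw [← map_intCast (MvPolynomial.C : ℚ →+* MvPolynomial (Fin 2) ℚ), mul_comm,
      MvPolynomial.coeff_C_mul, MvPolynomial.coeff_smul, mul_comm]
    congr 1
    rw [MvPolynomial.X_pow_eq_monomial, MvPolynomial.X_pow_eq_monomial,
      MvPolynomial.monomial_mul, MvPolynomial.coeff_monomial]
    simp
  rw [h4, MvPolynomial.coeff_map] at h3
  set z : ℤ := MvPolynomial.coeff (Finsupp.single 0 n + Finsupp.single 1 2)
    (g.val (.inr γ) (.inr (neg P β))) with hz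
  have h5 : q = ((z * e : ℤ) : ℚ) := by
    have h6 : ((z : ℤ) : ℚ) = q * e := h3
    have h7 : ((e * e : ℤ) : ℚ) = 1 := by rw [he']; norm_num
    push_cast at h7 ⊢
    rw [h6, mul_assoc, h7, mul_one]
  refine ⟨z * e, fun R _ t u => ?_⟩
  refine B.cword_transfer ?_ R t u
  rw [hq, cword_append]
  congr 1
  rw [cword, List.map_singleton, List.prod_singleton]
  congr 1
  rw [h5, Int.cast_smul_eq_zsmul, zsmul_eq_mul, mul_assoc]

end ChevalleyBasis

end Pool.Agent.MP_467141
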