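import Pool.Agent.Lib.MP_467141_H17.T1
import Pool.Agent.Lib.MP_467141_H17.T3
import Pool.Agent.Lib.MP_467141_H17.T4

/-! # T6: the Heisenberg group of the highest root -/

open Matrix

set_option linter.unusedSectionVars false

noncomputable section

namespace Pool.Agent.MP_467141

variable {ι k M N : Type*} [Field k] [CharZero k] [AddCommGroup M] [Module k M]
  [AddCommGroup N] [Module k N] [Fintype ι] [DecidableEq ι]

/-- the index of `θ - β` (for `β ∈ Φ_1`) -/
def op (P : RootPairing ι k M N) (θ β : ι) : ι := neg P (P.reflectionPerm θ β)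

/-! ### generalities on root systems -/

section Roots

variable {P : RootPairing ι k M N} [P.IsCrystallographic] [P.IsReduced] {b : P.Base}

lemma t6_pr_of_lin {α β γ : ι} (m n : ℤ) (δ : ι)
    (h : P.root γ = m • P.root α + n • P.root β) : pr P γ δ = m * pr P α δ + n * pr P β δ := by
  have : ((pr P γ δ : ℤ) : k) = ((m * pr P α δ + n * pr P β δ : ℤ) : k) := by
    push_cast
    rw [t3_pr_cast, t3_pr_cast, t3_pr_cast, h, map_add, map_zsmul, map_zsmul, zsmul_eq_mul,
      zsmul_eq_mul]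
  exact_mod_cast this

lemma t6_pr_right {θ β : ι} (δ : ι) :
    pr P δ (P.reflectionPerm β θ) = pr P (P.reflectionPerm β δ) θ := by
  rw [← t3_pr_refl P β (P.reflectionPerm β δ) θ]
  simp

lemma t6_length_swap (α β : ι) : pr P α β * (P.posRootForm ℤ).rootLength β =
    pr P β α * (P.posRootForm ℤ).rootLength α :=
  (P.posRootForm ℤ).pairingIn_mul_eq_pairingIn_mul_swap β α

end Roots

namespace ChevalleyBasis

variable {P : RootPairing ι k M N} [P.IsCrystallographic] [P.IsReduced] {b : P.Base}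
  {L : Type*} [LieRing L] (B : ChevalleyBasis P b L)

/-- group generated by `x_β(f t)`, `β ∈ s`, `t ∈ S` -/
def rg {S K : Type*} [CommRing S] [CommRing K] (f : S →+* K) (s : Set ι) :
    Subgroup (GL (b.support ⊕ ι) K) :=
  Subgroup.closure {g | ∃ β ∈ s, ∃ t : S, g = B.x K β (f t)}

/-- the Heisenberg group over `S` -/
abbrev QQ (θ : ι) {S K : Type*} [CommRing S] [CommRing K] (f : S →+* K) :
    Subgroup (GL (b.support ⊕ ι) K) := B.rg f {β | 0 < pr P β θ}

/-- torus elements of order dividing `r`, and the root groups of `Φ_0^+` -/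
def Lam (θ : ι) (r : ℕ) {S K : Type*} [CommRing S] [CommRing K] (f : S →+* K) :
    Subgroup (GL (b.support ⊕ ι) K) :=
  Subgroup.closure ({g | ∃ (γ : ι) (c : Sˣ), c ^ r = 1 ∧ g = B.tor K γ (Units.map f c)} ∪
    {g | ∃ γ, (b.IsPos γ ∧ pr P γ θ = 0) ∧ ∃ t : S, g = B.x K γ (f t)})

/-- `X = T_r U` -/
def XX (r : ℕ) {S K : Type*} [CommRing S] [CommRing K] (f : S →+* K) :
    Subgroup (GL (b.support ⊕ ι) K) :=
  Subgroup.closure ({g | ∃ (γ : ι) (c : Sˣ), c ^ r = 1 ∧ g = B.tor K γ (Units.map f c)} ∪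
    {g | ∃ γ, b.IsPos γ ∧ ∃ t : S, g = B.x K γ (f t)})

/-- degree of a basis index with respect to `θ^∨` -/
def deg (b : P.Base) (θ : ι) : b.support ⊕ ι → ℤ := Sum.elim (fun _ => 0) fun β => pr P β θ

/-- the `L_1`-coordinates of an element of `Q`: `g e_{-θ} = e_{-θ} + [v, e_{-θ}] + …` -/
def vv (θ : ι) {K : Type*} [CommRing K] (g : GL (b.support ⊕ ι) K) (β : ι) : K :=
  (B.adE β (.inr (P.reflectionPerm θ β)) (.inr (neg P θ)) : K) *
    g.val (.inr (P.reflectionPerm θ β)) (.inr (neg P θ))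

/-- `N_{β, θ - β}` -/
def NN (θ β : ι) : ℤ := B.adE β (.inr θ) (.inr (op P θ β))

/-! ### induction principles -/

lemma t6_closure_ind {G : Type*} [Group G] {S : Set G} (hS : ∀ g ∈ S, g⁻¹ ∈ S) {p : G → Prop}
    (one : p 1) (mul : ∀ g ∈ S, ∀ y ∈ Subgroup.closure S, p y → p (g * y)) {g : G}
    (hg : g ∈ Subgroup.closure S) : p g := by
  induction hg using Subgroup.closure_induction_left with
  | one => exact one
  | mul_left x hx y hy ih => exact mul x hx y hy ih
  | inv_mul_cancel x hx y hy ih => exact mul x⁻¹ (hS x hx) y hy ih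

lemma t6_rg_ind {S K : Type*} [CommRing S] [CommRing K] {f : S →+* K} {s : Set ι}
    {p : GL (b.support ⊕ ι) K → Prop} (one : p 1)
    (mul : ∀ β ∈ s, ∀ t : S, ∀ y ∈ B.rg f s, p y → p (B.x K β (f t) * y))
    {g : GL (b.support ⊕ ι) K} (hg : g ∈ B.rg f s) : p g := by
  refine t6_closure_ind ?_ one ?_ hg
  · rintro g ⟨β, hβ, t, rfl⟩
    refine ⟨β, hβ, -t, ?_⟩
    rw [map_neg, x_neg]
  · rintro g ⟨β, hβ, t, rfl⟩ y hy ih
    exact mul β hβ t y hy ih

lemma t6_tx_ind {S K : Type*} [CommRing S] [CommRing K] {f : S →+* K} {r : ℕ} {C : ι → Prop}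
    {p : GL (b.support ⊕ ι) K → Prop} (one : p 1)
    (ht : ∀ γ (c : Sˣ), c ^ r = 1 → ∀ y, p y → p (B.tor K γ (Units.map f c) * y))
    (hx : ∀ γ, C γ → ∀ t : S, ∀ y, p y → p (B.x K γ (f t) * y))
    {g : GL (b.support ⊕ ι) K}
    (hg : g ∈ Subgroup.closure
      ({g | ∃ (γ : ι) (c : Sˣ), c ^ r = 1 ∧ g = B.tor K γ (Units.map f c)} ∪
      {g | ∃ γ, C γ ∧ ∃ t : S, g = B.x K γ (f t)})) : p g := by
  refine t6_closure_ind ?_ one ?_ hg
  · rintro g (⟨γ, c, hc, rfl⟩ | ⟨γ, hγ, t, rfl⟩)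
    · refine Or.inl ⟨γ, c⁻¹, by rw [inv_pow, hc, inv_one], ?_⟩
      rw [inv_eq_iff_mul_eq_one, ← tor_mul, map_inv, mul_inv_cancel]
      apply Units.ext
      rw [tor_val, Units.val_one, ← Matrix.diagonal_one]
      congr 1
      ext l
      rw [_root_.one_zpow, Units.val_one]
    · refine Or.inr ⟨γ, hγ, -t, ?_⟩
      rw [map_neg, x_neg]
  · rintro g (⟨γ, c, hc, rfl⟩ | ⟨γ, hγ, t, rfl⟩) y hy ih
    · exact ht γ c hc y ih
    · exact hx γ hγ t y ih

lemma t6_Lam_ind {θ : ι} {S K : Type*} [CommRing S] [CommRing K] {f : S →+* K} {r : ℕ}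
    {p : GL (b.support ⊕ ι) K → Prop} (one : p 1)
    (ht : ∀ γ (c : Sˣ), c ^ r = 1 → ∀ y, p y → p (B.tor K γ (Units.map f c) * y))
    (hx : ∀ γ, b.IsPos γ → pr P γ θ = 0 → ∀ t : S, ∀ y, p y → p (B.x K γ (f t) * y))
    {g : GL (b.support ⊕ ι) K} (hg : g ∈ B.Lam θ r f) : p g :=
  B.t6_tx_ind one ht (fun γ hγ => hx γ hγ.1 hγ.2) hg

lemma t6_XX_ind {S K : Type*} [CommRing S] [CommRing K] {f : S →+* K} {r : ℕ}
    {p : GL (b.support ⊕ ι) K → Prop} (one : p 1)
    (ht : ∀ γ (c : Sˣ), c ^ r = 1 → ∀ y, p y → p (B.tor K γ (Units.map f c) * y))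
    (hx : ∀ γ, b.IsPos γ → ∀ t : S, ∀ y, p y → p (B.x K γ (f t) * y))
    {g : GL (b.support ⊕ ι) K} (hg : g ∈ B.XX r f) : p g :=
  B.t6_tx_ind one ht hx hg

lemma t6_x_mem_QQ {θ : ι} {S K : Type*} [CommRing S] [CommRing K] (f : S →+* K) {β : ι}
    (hβ : 0 < pr P β θ) (t : S) : B.x K β (f t) ∈ B.QQ θ f :=
  Subgroup.subset_closure ⟨β, hβ, t, rfl⟩

lemma t6_QQ_le {θ : ι} {S K : Type*} [CommRing S] [CommRing K] (f : S →+* K) :
    B.QQ θ f ≤ B.QQ θ (RingHom.id K) := by
  refine Subgroup.closure_mono ?_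
  rintro g ⟨β, hβ, t, rfl⟩
  exact ⟨β, hβ, f t, rfl⟩

/-! ### upper triangular matrices with respect to a degree -/

/-- `g` raises the degree `d` strictly off the diagonal -/
def Upper {n K : Type*} [CommRing K] (d : n → ℤ) (A : Matrix n n K) : Prop :=
  ∀ l' l, A l' l ≠ 0 → l' = l ∨ d l < d l'

lemma Upper.mul {n K : Type*} [Fintype n] [CommRing K] {d : n → ℤ} {A A' : Matrix n n K}
    (hA : Upper d A) (hA' : Upper d A') : Upper d (A * A') := by
  intro l' l hne
  rw [Matrix.mul_apply] at hne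
  obtain ⟨m, -, hm⟩ := Finset.exists_ne_zero_of_sum_ne_zero hne
  rcases hA l' m (left_ne_zero_of_mul hm) with h1 | h1 <;>
    rcases hA' m l (right_ne_zero_of_mul hm) with h2 | h2
  · left; rw [h1, h2]
  · right; rw [h1]; exact h2
  · right; rw [← h2]; exact h1
  · right; exact h2.trans h1

lemma Upper.mul_diag {n K : Type*} [Fintype n] [CommRing K] {d : n → ℤ} {A A' : Matrix n n K}
    (hA : Upper d A) (hA' : Upper d A') (l : n) : (A * A') l l = A l l * A' l l := by
  rw [Matrix.mul_apply]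
  refine Finset.sum_eq_single l (fun m _ hm => ?_) (fun h => absurd (Finset.mem_univ _) h)
  by_contra hne
  rcases hA l m (left_ne_zero_of_mul hne) with h1 | h1
  · exact hm h1.symm
  · rcases hA' m l (right_ne_zero_of_mul hne) with h2 | h2
    · exact hm h2
    · exact absurd (h1.trans h2) (lt_irrefl _)

lemma upper_one {n K : Type*} [DecidableEq n] [CommRing K] (d : n → ℤ) :
    Upper d (1 : Matrix n n K) := by
  intro l' l hne
  left
  by_contra h
  exact hne (Matrix.one_apply_ne h)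

lemma upper_diagonal {n K : Type*} [DecidableEq n] [CommRing K] (d : n → ℤ) (χ : n → K) :
    Upper d (Matrix.diagonal χ) := by
  intro l' l hne
  left
  by_contra h
  exact hne (Matrix.diagonal_apply_ne _ h)

lemma upper_xMat {K : Type*} [CommRing K] {d : b.support ⊕ ι → ℤ} {γ : ι}
    (hd : ∀ (j : ℕ) l' l, 0 < j → wt b l' = wt b l + j • P.root γ → d l < d l') (t : K) :
    Upper d (B.xMat K γ t) := by
  intro l' l hne
  rw [xMat_apply] at hne
  obtain ⟨j, -, hj⟩ := Finset.exists_ne_zero_of_sum_ne_zero hne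
  rcases Nat.eq_zero_or_pos j with rfl | hj0
  · left
    by_contra h
    apply hj
    rw [dpow_zero, Matrix.one_apply_ne h]
    simp
  · right
    refine hd j l' l hj0 (B.wt_of_dpow_ne_zero ?_)
    intro h
    apply hj
    rw [h]
    simp

lemma t6_deg_eq (θ : ι) : deg b θ = t3W P θ := rfl

lemma t6_deg_of_wt {θ γ : ι} {l' l : b.support ⊕ ι} {j : ℕ}
    (h : wt b l' = wt b l + j • P.root γ) : deg b θ l' = deg b θ l + j * pr P γ θ := by
  have key : ∀ m : b.support ⊕ ι, ((deg b θ m : ℤ) : k) = P.coroot' θ (wt b m) := by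
    rintro (m | m)
    · simp [wt, deg]
    · simp only [wt, deg, Sum.elim_inr]
      rw [t3_pr_cast]
  have h2 : ((deg b θ l' : ℤ) : k) = ((deg b θ l + j * pr P γ θ : ℤ) : k) := by
    push_cast
    rw [key, key, h, map_add, map_nsmul, t3_pr_cast, nsmul_eq_mul]
  exact_mod_cast h2

variable {θ : ι} (h : IsTheta b θ)
include h

section

variable {K : Type*} [Field K]

omit B in
lemma root_op {β : ι} (hβ : pr P β θ = 1) : P.root (op P θ β) = P.root θ - P.root β :=
  (h.root_theta_sub hβ).1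

omit B in
lemma pr_op {β : ι} (hβ : pr P β θ = 1) : pr P (op P θ β) θ = 1 := (h.root_theta_sub hβ).2.2

omit B in
lemma op_op {β : ι} (hβ : pr P β θ = 1) : op P θ (op P θ β) = β := by
  apply P.root.injective
  rw [root_op h (pr_op h hβ), root_op h hβ]
  abel

omit B in
lemma pr_theta_op {β : ι} (hβ : pr P β θ = 1) : pr P θ (op P θ β) = pr P θ β := by
  rw [op, t3_pr_neg_right]
  have h1 := t3_pr_refl P θ (neg P θ) β
  have h2 : P.reflectionPerm θ (neg P θ) = θ := by
    rw [neg]; simp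
  rw [h2, t3_pr_neg_left] at h1
  rw [h1, neg_neg]

omit B in
lemma op_ne {β : ι} (hβ : pr P β θ = 1) : op P θ β ≠ β := by
  intro h1
  have h2 := root_op h hβ
  rw [h1] at h2
  apply nsmul_notMem P (n := 2) (by norm_num) β
  refine ⟨θ, ?_⟩
  rw [two_smul]
  nth_rewrite 1 [h2]
  abel

omit B in
lemma t6_indep_op {β : ι} (hβ : pr P β θ = 1) :
    LinearIndependent k ![P.root β, P.root (op P θ β)] := by
  rcases eq_or_neg_or_indep P β (op P θ β) with h1 | h1 | h1
  · exact absurd h1 (op_ne h hβ)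
  · exfalso
    have h2 := pr_op h hβ
    rw [h1, t3_pr_neg_left, hβ] at h2
    norm_num at h2
  · exact h1

omit B in
lemma t6_chain_op {β : ι} (hβ : pr P β θ = 1) :
    P.chainTopCoeff β (op P θ β) = 1 ∧ ((P.chainBotCoeff β (op P θ β) + 1 : ℕ) : ℤ) = pr P θ β := by
  have hi := t6_indep_op h hβ
  have h1 : 1 ≤ P.chainTopCoeff β (op P θ β) := by
    rw [← P.root_add_nsmul_mem_range_iff_le_chainTopCoeff hi, one_smul, root_op h hβ]
    exact ⟨θ, by abel⟩
  have h2 : ¬ 2 ≤ P.chainTopCoeff β (op P θ β) := by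
    rw [← P.root_add_nsmul_mem_range_iff_le_chainTopCoeff hi, root_op h hβ]
    have := (h.theta_add_not_root (β := β) (by rw [hβ]; norm_num)).1
    rwa [two_smul, show P.root θ - P.root β + (P.root β + P.root β) = P.root θ + P.root β by abel]
  have h3 : P.chainTopCoeff β (op P θ β) = 1 := by omega
  have h4 := P.chainBotCoeff_sub_chainTopCoeff hi
  have h5 : pr P (op P θ β) β = pr P θ β - 2 := by
    have := t1_pr_of_root_eq_sub β (root_op h hβ)
    rw [t3_pr_self] at this
    exact this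
  rw [h3] at h4
  change _ = pr P (op P θ β) β at h4
  rw [h5] at h4
  refine ⟨h3, ?_⟩
  push_cast at h4 ⊢
  linarith

/-- `N_{β,θ-β} = ± ⟨θ, β^∨⟩` -/
lemma NN_eq {β : ι} (hβ : pr P β θ = 1) : (B.NN θ β = pr P θ β ∨ B.NN θ β = -pr P θ β) ∧
    (pr P θ β = 1 ∨ pr P θ β = 2 ∨ pr P θ β = 3) := by
  obtain ⟨h1, h2⟩ := t6_chain_op h hβ
  constructor
  · rw [← h2, NN]
    apply B.adE_inr_inr
    rw [root_op h hβ]
    abel
  · have h3 := RootPairing.chainBotCoeff_add_chainTopCoeff_le_three (P := P) (i := β)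
      (j := op P θ β)
    rw [h1] at h3
    omega

/-- `N_{β,-θ} = ±1` -/
lemma adE_neg_theta_sq {β : ι} (hβ : pr P β θ = 1) :
    B.adE β (.inr (P.reflectionPerm θ β)) (.inr (neg P θ)) ^ 2 = 1 := by
  have h1 : P.root (P.reflectionPerm θ β) = P.root β + P.root (neg P θ) := by
    rw [(h.root_theta_sub hβ).2.1, root_neg, sub_eq_add_neg]
  rcases B.adE_inr_inr h1 with h2 | h2 <;> rw [h2, h.chainBotCoeff_neg_theta hβ] <;> norm_num

/-- elements of `Q` are unitriangular with respect to the degree -/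
lemma QQ_upper {g : GL (b.support ⊕ ι) K} (hg : g ∈ B.QQ θ (RingHom.id K)) :
    (∀ l, g.val l l = 1) ∧ ∀ l' l, g.val l' l ≠ 0 → l' = l ∨ deg b θ l < deg b θ l' := by
  refine B.t6_rg_ind (p := fun g => (∀ l, g.val l l = 1) ∧ Upper (deg b θ) g.val) ?_ ?_ hg
  · exact ⟨fun l => Matrix.one_apply_eq l, upper_one _⟩
  · rintro β hβ t y hy ⟨h1, h2⟩
    have h3 : Upper (deg b θ) (B.xMat K β t) := by
      apply upper_xMat
      intro j l' l hj hw
      rw [t6_deg_of_wt hw]
      have : 0 < (j : ℤ) * pr P β θ := mul_pos (by exact_mod_cast hj) hβ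
      linarith
    refine ⟨fun l => ?_, h3.mul h2⟩
    have h4 := Upper.mul_diag h3 h2 l
    rw [h1, xMat_apply_self, mul_one] at h4
    exact h4

lemma vv_mul {g g' : GL (b.support ⊕ ι) K} (hg : g ∈ B.QQ θ (RingHom.id K))
    (hg' : g' ∈ B.QQ θ (RingHom.id K)) {β : ι} (hβ : pr P β θ = 1) :
    B.vv θ (g * g') β = B.vv θ g β + B.vv θ g' β := by
  rw [vv, vv, vv, ← mul_add]
  congr 1
  obtain ⟨h1, h2⟩ := B.QQ_upper h hg
  obtain ⟨h1', h2'⟩ := B.QQ_upper h hg'
  have d1 : deg b θ (.inr (P.reflectionPerm θ β)) = -1 := by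
    have h3 := t1_pr_of_root_eq_sub θ (h.root_theta_sub hβ).2.1
    rw [hβ, t3_pr_self] at h3
    exact h3
  have d2 : deg b θ (.inr (neg P θ)) = -2 := by
    change pr P (neg P θ) θ = -2
    rw [t3_pr_neg_left, t3_pr_self]
  have hne : (.inr (P.reflectionPerm θ β) : b.support ⊕ ι) ≠ .inr (neg P θ) := by
    intro h3
    rw [h3] at d1
    omega
  rw [Units.val_mul, Matrix.mul_apply, Finset.sum_eq_add (.inr (P.reflectionPerm θ β))
    (.inr (neg P θ)) hne, h1, h1', one_mul, mul_one, add_comm]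
  · intro m _ hm
    by_contra hne
    rcases h2 _ m (left_ne_zero_of_mul hne) with h3 | h3
    · exact hm.1 h3.symm
    · rcases h2' m _ (right_ne_zero_of_mul hne) with h4 | h4
      · exact hm.2 h4
      · omega
  · intro h3; exact absurd (Finset.mem_univ _) h3
  · intro h3; exact absurd (Finset.mem_univ _) h3

lemma t6_vv_x {α β : ι} (hα : 0 < pr P α θ) (hβ : pr P β θ = 1) (t : K) :
    B.vv θ (B.x K α t) β = if β = α then t else 0 := by
  have hr : P.root (P.reflectionPerm θ β) = P.root β - P.root θ := (h.root_theta_sub hβ).2.1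
  have hwt : ∀ j, B.dpow α j (.inr (P.reflectionPerm θ β)) (.inr (neg P θ)) ≠ 0 →
      j = 1 ∧ β = α := by
    intro j hj
    have h1 := B.wt_of_dpow_ne_zero hj
    have h2 := t6_deg_of_wt (b := b) (θ := θ) h1
    simp only [wt, Sum.elim_inr] at h1
    rw [hr, root_neg] at h1
    have h3 : P.root β = j • P.root α := by
      have := congrArg (fun v => v + P.root θ) h1
      simp only [sub_add_cancel] at this
      rw [this]; abel
    have h4 : j = 1 := by
      by_contra hj1
      exact nsmul_notMem P hj1 α ⟨β, h3⟩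
    rw [h4, one_smul] at h3
    exact ⟨h4, P.root.injective h3⟩
  rw [vv, coe_x, xMat_apply]
  split_ifs with h1
  · subst h1
    rw [Finset.sum_eq_single 1]
    · rw [dpow_one, pow_one, mul_comm, mul_assoc, ← Int.cast_mul, ← sq,
        B.adE_neg_theta_sq h hβ, Int.cast_one, mul_one]
    · intro j _ hj
      have : B.dpow β j (.inr (P.reflectionPerm θ β)) (.inr (neg P θ)) = 0 := by
        by_contra hne
        exact hj (hwt j hne).1
      rw [this]; simp
    · intro h2; simp at h2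
  · rw [Finset.sum_eq_zero, mul_zero]
    intro j _
    have : B.dpow α j (.inr (P.reflectionPerm θ β)) (.inr (neg P θ)) = 0 := by
      by_contra hne
      exact h1 (hwt j hne).2
    rw [this]; simp

lemma vv_x {β γ : ι} (hβ : pr P β θ = 1) (hγ : pr P γ θ = 1) (t : K) :
    B.vv θ (B.x K β t) γ = if γ = β then t else 0 :=
  B.t6_vv_x h (by rw [hβ]; norm_num) hγ t

lemma vv_x_theta {γ : ι} (hγ : pr P γ θ = 1) (z : K) : B.vv θ (B.x K θ z) γ = 0 := by
  rw [B.t6_vv_x h (by rw [t3_pr_self]; norm_num) hγ z, if_neg]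
  rintro rfl
  rw [t3_pr_self] at hγ
  norm_num at hγ

lemma x_theta_comm {γ : ι} (hγ : 0 ≤ pr P γ θ) (t u : K) :
    B.x K θ t * B.x K γ u = B.x K γ u * B.x K θ t :=
  B.x_comm_x K (h.theta_add_not_root hγ).1 (h.theta_add_not_root hγ).2 t u

/-- `x_β(t) x_{θ-β}(u) = x_{θ-β}(u) x_β(t) x_θ(N t u)` -/
lemma x_mul_x_op {β : ι} (hβ : pr P β θ = 1) (t u : K) :
    B.x K β t * B.x K (op P θ β) u = B.x K (op P θ β) u * B.x K β t *
      B.x K θ ((B.NN θ β : K) * t * u) := by
  have hno : ∀ (m n : ℤ), 3 ≤ m + n → ∀ δ, P.root δ ≠ m • P.root β + n • P.root (op P θ β) := by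
    intro m n hmn δ hδ
    have h1 := t6_pr_of_lin m n θ hδ
    rw [hβ, pr_op h hβ] at h1
    rcases h.pr_mem δ with h2 | h2 | h2 | h2 | h2 <;> omega
  have h1 := B.x_conj_x_of_add K (α := β) (β := op P θ β) (γ := θ)
    (by rw [root_op h hβ]; abel)
    (by
      rintro ⟨δ, hδ⟩
      refine hno 2 1 (by norm_num) δ ?_
      rw [hδ, one_smul, ← natCast_zsmul]
      rfl)
    (by
      rintro ⟨δ, hδ⟩
      refine hno 1 2 (by norm_num) δ ?_
      rw [hδ, one_smul, ← natCast_zsmul]
      rfl) t u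
  rw [x_neg, mul_inv_eq_iff_eq_mul, mul_assoc,
    B.x_theta_comm h (γ := β) (by rw [hβ]; norm_num), ← mul_assoc] at h1
  exact h1

lemma x_mul_x_Phi1 {β γ : ι} (hβ : pr P β θ = 1) (hγ : pr P γ θ = 1) (hne : γ ≠ op P θ β)
    (t u : K) : B.x K β t * B.x K γ u = B.x K γ u * B.x K β t := by
  apply B.x_comm_x
  · rintro ⟨δ, hδ⟩
    have h1 := h.add_eq_theta hβ hγ hδ
    apply hne
    apply P.root.injective
    rw [root_op h hβ, ← h1, hδ]
    abel
  · intro h1
    have h2 : γ = neg P β := by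
      rw [eq_neg_iff]
      rw [add_comm] at h1
      exact eq_neg_of_add_eq_zero_left h1
    rw [h2, t3_pr_neg_left, hβ] at hγ
    norm_num at hγ

omit B in
lemma t6_length {x y : ι} (hx : pr P x θ = 1) (hy : pr P y θ = 1) (hxy : pr P θ x = pr P θ y)
    (hne : x ≠ y) : pr P x y = pr P y x ∧ (pr P x y = -1 ∨ pr P x y = 0 ∨ pr P x y = 1) := by
  have h1 := t6_length_swap (P := P) x θ
  have h2 := t6_length_swap (P := P) y θ
  have h3 := t6_length_swap (P := P) x y
  have hθ := (P.posRootForm ℤ).rootLength_pos θ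
  rw [hx] at h1
  rw [hy, ← hxy] at h2
  have h4 : (P.posRootForm ℤ).rootLength x = (P.posRootForm ℤ).rootLength y := by
    have h5 : pr P θ x ≠ 0 := by
      intro h5
      rw [h5] at h1
      linarith
    apply mul_left_cancel₀ h5
    linarith
  rw [h4] at h3
  have h5 : pr P x y = pr P y x :=
    mul_right_cancel₀ ((P.posRootForm ℤ).rootLength_pos y).ne' h3
  have h6 := P.pairingIn_pairingIn_mem_set_of_isCrystal_of_isRed' (i := x) (j := y)
    (fun h => hne (P.root.injective h))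
    (by
      intro h
      rw [← root_neg] at h
      have h7 := P.root.injective h
      rw [h7, t3_pr_neg_left, hy] at hx
      norm_num at hx)
  change (pr P x y, pr P y x) ∈ _ at h6
  rw [h5] at h6
  simp only [Set.mem_insert_iff, Set.mem_singleton_iff, Prod.mk.injEq] at h6
  refine ⟨h5, ?_⟩
  omega

omit B in
lemma t6_not_neg {x y : ι} (hx : 0 < pr P x θ) (hy : 0 ≤ pr P y θ) : y ≠ neg P x := by
  rintro rfl
  rw [t3_pr_neg_left] at hy
  omega

/-- `⟨θ, β^∨⟩ = 2`: `γ = θ - 2β` is a root; formulas in characteristic `2` -/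
lemma special_two (h2 : (2 : K) = 0) {β : ι} (hβ : pr P β θ = 1) (hβ2 : pr P θ β = 2) :
    ∃ γ : ι, pr P γ θ = 0 ∧ (∀ u t : K, B.x K γ u * B.x K β t * B.x K γ (-u) =
        B.x K β t * B.x K (op P θ β) (u * t) * B.x K θ (u * t ^ 2)) ∧
      ∀ δ, pr P δ θ = 1 → pr P θ δ = 2 → δ ≠ β → ∀ u t : K,
        B.x K γ u * B.x K δ t = B.x K δ t * B.x K γ u := by
  obtain ⟨γ, hγdef⟩ : ∃ γ, γ = P.reflectionPerm β θ := ⟨_, rfl⟩
  have hγr : P.root γ = P.root θ - (2 : ℤ) • P.root β := by
    rw [hγdef, t3_root_refl, hβ2]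
  have hγr' : P.root γ = (1 : ℤ) • P.root θ + (-2 : ℤ) • P.root β := by
    rw [hγr]; module
  have hγθ : pr P γ θ = 0 := by
    rw [t6_pr_of_lin _ _ _ hγr', t3_pr_self, hβ]; norm_num
  have hγβ : pr P γ β = -2 := by
    rw [t6_pr_of_lin _ _ _ hγr', t3_pr_self, hβ2]; norm_num
  have hi : LinearIndependent k ![P.root β, P.root γ] := by
    rcases eq_or_neg_or_indep P β γ with h1 | h1 | h1
    · rw [h1, hβ] at hγθ; norm_num at hγθ
    · rw [h1, t3_pr_neg_left, hβ] at hγθ; norm_num at hγθ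
    · exact h1
  have htop : P.chainTopCoeff β γ = 2 := by
    have h1 : 2 ≤ P.chainTopCoeff β γ := by
      rw [← P.root_add_nsmul_mem_range_iff_le_chainTopCoeff hi, hγr]
      exact ⟨θ, by module⟩
    have h3 : ¬ 3 ≤ P.chainTopCoeff β γ := by
      rw [← P.root_add_nsmul_mem_range_iff_le_chainTopCoeff hi, hγr]
      have := (h.theta_add_not_root (β := β) (by rw [hβ]; norm_num)).1
      rwa [show P.root θ - (2 : ℤ) • P.root β + 3 • P.root β = P.root θ + P.root β by module]
    omega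
  have hbot : P.chainBotCoeff β γ = 0 := by
    have h1 := P.chainBotCoeff_sub_chainTopCoeff hi
    change _ = pr P γ β at h1
    rw [htop, hγβ] at h1
    push_cast at h1
    omega
  have hm1 : (-1 : K) = 1 := by linear_combination (-1 : K) * h2
  have hcast : ∀ c : ℤ, (c = 1 ∨ c = -1) → (c : K) = 1 := by
    rintro c (rfl | rfl)
    · simp
    · push_cast; exact hm1
  have hop : P.root (op P θ β) = P.root γ + 1 • P.root β := by
    rw [root_op h hβ, hγr]; module
  have hθ : P.root θ = P.root γ + 2 • P.root β := by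
    rw [hγr]; module
  have c1 := B.dpow_inr_inr hi hop
  have c2 := B.dpow_inr_inr hi hθ
  rw [hbot] at c1 c2
  norm_num at c1 c2
  have hno1 : (2 : ℤ) • P.root θ - (3 : ℤ) • P.root β ∉ Set.range P.root := by
    rintro ⟨δ, hδ⟩
    have hδ' : P.root δ = (2 : ℤ) • P.root θ + (-3 : ℤ) • P.root β := by rw [hδ]; module
    have h3 : pr P δ β = -2 := by
      rw [t6_pr_of_lin _ _ _ hδ', t3_pr_self, hβ2]; norm_num
    have h4 : pr P δ θ = 1 := by
      rw [t6_pr_of_lin _ _ _ hδ', t3_pr_self, hβ]; norm_num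
    have h5 := P.root_add_root_mem_of_pairingIn_neg (i := δ) (j := β)
      (by change pr P δ β < 0; rw [h3]; norm_num)
      (by
        rw [← root_neg]
        intro h6
        have h7 := P.root.injective h6
        rw [h7, t3_pr_neg_left, hβ] at h4
        norm_num at h4)
    apply nsmul_notMem P (n := 2) (by norm_num) (op P θ β)
    convert h5 using 1
    rw [hδ, root_op h hβ]; module
  have E : ∀ t u : K, B.x K β t * B.x K γ u * B.x K β (-t) =
      B.x K γ u * B.x K (op P θ β) (t * u) * B.x K θ (t ^ 2 * u) := by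
    intro t u
    have h1 := B.x_conj_x_of_string K hi 2 htop.symm
      (fun i => if i = 0 then γ else if i = 1 then op P θ β else θ)
      (by
        intro i hi
        interval_cases i
        · simp
        · simp [hop]
        · simp [hθ])
      (by
        intro i
        rw [hγr]
        rintro ⟨δ, hδ⟩
        have hδ' : P.root δ = (2 : ℤ) • P.root θ + (i - 4 : ℤ) • P.root β := by
          rw [hδ]; module
        have h3 := t6_pr_of_lin _ _ θ hδ'
        rw [t3_pr_self, hβ] at h3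
        have h4 : i = 0 ∨ i = 1 ∨ i = 2 := by
          rcases h.pr_mem δ with h5 | h5 | h5 | h5 | h5 <;> omega
        rcases h4 with rfl | rfl | rfl
        · apply nsmul_notMem P (n := 2) (by norm_num) γ
          refine ⟨δ, ?_⟩
          rw [hδ, hγr]; module
        · apply hno1
          refine ⟨δ, ?_⟩
          rw [hδ]; module
        · apply nsmul_notMem P (n := 2) (by norm_num) (op P θ β)
          refine ⟨δ, ?_⟩
          rw [hδ, root_op h hβ]; module) t u
    rw [h1]
    simp only [List.range_succ, List.range_zero, List.nil_append, List.map_append, List.map_cons,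
      List.map_nil, List.prod_append, List.prod_cons, List.prod_nil, mul_one, if_true, pow_zero]
    simp only [one_ne_zero, if_false, pow_one, OfNat.ofNat_ne_zero, dpow_zero,
      Matrix.one_apply_eq, Int.cast_one, one_mul, OfNat.ofNat_ne_one]
    rw [hcast _ c1, hcast _ c2, one_mul, one_mul]
  have hneg : ∀ u : K, -u = u := by
    intro u
    linear_combination (-u) * h2
  have hN : (B.NN θ β : K) = 0 := by
    rcases (B.NN_eq h hβ).1 with h3 | h3 <;> rw [h3, hβ2] <;> push_cast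
    · exact h2
    · rw [h2, neg_zero]
  refine ⟨γ, hγθ, ?_, ?_⟩
  · intro u t
    have h3 := E t u
    rw [x_neg, mul_inv_eq_iff_eq_mul] at h3
    have h4 : B.x K γ (-u) * (B.x K β t * B.x K γ u) =
        B.x K (op P θ β) (t * u) * B.x K θ (t ^ 2 * u) * B.x K β t := by
      rw [h3, x_neg]
      group
    rw [hneg, ← mul_assoc] at h4
    rw [hneg, h4, mul_assoc, B.x_theta_comm h (γ := β) (by rw [hβ]; norm_num), ← mul_assoc]
    have h5 := B.x_mul_x_op h hβ t (t * u)
    rw [hN, zero_mul, zero_mul, x_zero, mul_one] at h5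
    rw [← h5, mul_comm t u, mul_comm (t ^ 2) u]
  · intro δ hδ hδ2 hne u t
    have hpos : ∀ ε, P.root ε ≠ P.root γ + P.root δ := by
      intro ε hε
      have hε' : P.root ε = (1 : ℤ) • P.root γ + (1 : ℤ) • P.root δ := by rw [hε]; module
      have h3 : pr P δ γ = 1 - pr P δ β := by
        rw [hγdef, t6_pr_right]
        have h4 : P.root (P.reflectionPerm β δ) = (1 : ℤ) • P.root δ + (-pr P δ β) • P.root β := by
          rw [t3_root_refl]; module
        rw [t6_pr_of_lin _ _ _ h4, hδ, hβ]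
        ring
      have h4 := (t6_length h hδ hβ (by rw [hδ2, hβ2]) hne).2
      have h5 : pr P ε γ = pr P δ γ + 2 := by
        rw [t6_pr_of_lin _ _ _ hε', t3_pr_self]; ring
      have h6 : pr P ε θ = 1 := by
        rw [t6_pr_of_lin _ _ _ hε', hγθ, hδ]; ring
      have h7 : pr P ε γ = pr P (P.reflectionPerm β ε) θ := by
        rw [hγdef, t6_pr_right]
      rcases h.pr_mem (P.reflectionPerm β ε) with h8 | h8 | h8 | h8 | h8
      · omega
      · omega
      · omega
      · omega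
      · have h9 := h.eq_of_pr_eq_two h8
        have h10 : ε = γ := by
          rw [hγdef, ← h9]; simp
        rw [h10] at h6
        omega
    apply B.x_comm_x
    · rintro ⟨ε, hε⟩
      exact hpos ε hε
    · intro h3
      have h4 : γ = neg P δ := by
        rw [eq_neg_iff]
        exact eq_neg_of_add_eq_zero_left h3
      rw [h4, t3_pr_neg_left, hδ] at hγθ
      norm_num at hγθ

/-! ### conjugation by degree `0` elements -/

lemma t6_x_conj_QQ {S : Type*} [CommRing S] (f : S →+* K) {γ : ι} (hγ : pr P γ θ = 0) (s : S)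
    {g : GL (b.support ⊕ ι) K} (hg : g ∈ B.QQ θ f) :
    B.x K γ (f s) * g * (B.x K γ (f s))⁻¹ ∈ B.QQ θ f := by
  refine B.t6_rg_ind (p := fun g => B.x K γ (f s) * g * (B.x K γ (f s))⁻¹ ∈ B.QQ θ f) ?_ ?_ hg
  · rw [mul_one, mul_inv_cancel]
    exact one_mem _
  · intro β hβ t y _ hy
    have hβ' : 0 < pr P β θ := hβ
    have e : B.x K γ (f s) * (B.x K β (f t) * y) * (B.x K γ (f s))⁻¹ =
        (B.x K γ (f s) * B.x K β (f t) * B.x K γ (-(f s))) *
          (B.x K γ (f s) * y * (B.x K γ (f s))⁻¹) := by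
      rw [x_neg]
      group
    change B.x K γ (f s) * (B.x K β (f t) * y) * (B.x K γ (f s))⁻¹ ∈ B.QQ θ f
    rw [e]
    refine mul_mem ?_ hy
    have hi : LinearIndependent k ![P.root γ, P.root β] := by
      rcases eq_or_neg_or_indep P γ β with h1 | h1 | h1
      · rw [h1, hγ] at hβ'; exact absurd hβ' (lt_irrefl _)
      · rw [h1, t3_pr_neg_left, hγ] at hβ'; simp at hβ'
      · exact h1
    obtain ⟨l, hl, hl'⟩ := B.x_conj_x hi
    rw [hl' K]
    refine list_prod_mem ?_
    intro x hx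
    rw [List.mem_map] at hx
    obtain ⟨q, hq, rfl⟩ := hx
    obtain ⟨h1, h2⟩ := hl q hq
    have h3 : P.root q.1 = (q.2.2.1 : ℤ) • P.root γ + (q.2.2.2 : ℤ) • P.root β := by
      rw [h2, natCast_zsmul, natCast_zsmul]
    have h4 := t6_pr_of_lin _ _ θ h3
    have h5 : 0 < pr P q.1 θ := by
      rw [h4, hγ, mul_zero, zero_add]
      exact mul_pos (by exact_mod_cast h1) hβ'
    have h6 : (q.2.1 : K) * f s ^ q.2.2.1 * f t ^ q.2.2.2 =
        f ((q.2.1 : S) * s ^ q.2.2.1 * t ^ q.2.2.2) := by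
      rw [map_mul, map_mul, map_pow, map_pow, map_intCast]
    rw [h6]
    exact B.t6_x_mem_QQ f h5 _

/-- coordinates of `[z, e_{-θ}]` in degree `-1` -/
lemma t6_adM_f (z : b.support ⊕ ι → K) {β : ι} (hβ : pr P β θ = 1) :
    (B.adM K z *ᵥ ev b K (.inr (neg P θ))) (.inr (P.reflectionPerm θ β)) =
      z (.inr β) * (B.adE β (.inr (P.reflectionPerm θ β)) (.inr (neg P θ)) : K) := by
  have hr : P.root (P.reflectionPerm θ β) = P.root β - P.root θ := (h.root_theta_sub hβ).2.1
  rw [mulVec_ev]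
  change B.adM K z _ _ = _
  rw [adM, Matrix.sum_apply, Finset.sum_eq_single (.inr β)]
  · rw [Matrix.smul_apply, Matrix.map_apply, smul_eq_mul, adI_inr]
    rfl
  · intro a _ ha
    rw [Matrix.smul_apply, Matrix.map_apply]
    have : B.adI a (.inr (P.reflectionPerm θ β)) (.inr (neg P θ)) = 0 := by
      by_contra hne
      have h1 := B.wt_of_adI_ne_zero hne
      simp only [wt, Sum.elim_inr] at h1
      rw [hr, root_neg] at h1
      rcases a with i | δ
      · simp only [Sum.elim_inl] at h1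
        apply P.ne_zero β
        have := congrArg (fun v => v + P.root θ) h1
        simpa using this
      · simp only [Sum.elim_inr] at h1
        apply ha
        congr 1
        apply P.root.injective
        have := congrArg (fun v => v + P.root θ) h1
        simpa using this.symm
    rw [this]
    simp
  · intro h1; exact absurd (Finset.mem_univ _) h1

lemma t6_adM_ev_f {β : ι} (hβ : pr P β θ = 1) :
    B.adM K (ev b K (.inr β)) *ᵥ ev b K (.inr (neg P θ)) =
      (B.adE β (.inr (P.reflectionPerm θ β)) (.inr (neg P θ)) : K) •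
        ev b K (.inr (P.reflectionPerm θ β)) := by
  have h1 : P.root (P.reflectionPerm θ β) = P.root β + P.root (neg P θ) := by
    rw [(h.root_theta_sub hβ).2.1, root_neg, sub_eq_add_neg]
  rw [adM_ev, mulVec_ev]
  ext l
  rw [Matrix.map_apply, adI_inr, B.adE_inr_of_add h1, Pi.smul_apply, ev_apply, smul_eq_mul]
  split_ifs <;> simp

/-- degree preserving -/
def t6DegPres (b : P.Base) (θ : ι) (l : Matrix (b.support ⊕ ι) (b.support ⊕ ι) K) : Prop :=
  ∀ a c, l a c ≠ 0 → deg b θ a = deg b θ c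

omit B h in
lemma t6DegPres.mul {l l' : Matrix (b.support ⊕ ι) (b.support ⊕ ι) K}
    (hl : t6DegPres b θ l) (hl' : t6DegPres b θ l') : t6DegPres b θ (l * l') := by
  intro a c hne
  rw [Matrix.mul_apply] at hne
  obtain ⟨m, -, hm⟩ := Finset.exists_ne_zero_of_sum_ne_zero hne
  rw [hl a m (left_ne_zero_of_mul hm), hl' m c (right_ne_zero_of_mul hm)]

omit B in
lemma t6_deg_f : deg b θ (.inr (neg P θ)) = -2 := by
  change pr P (neg P θ) θ = -2
  rw [t3_pr_neg_left, t3_pr_self]

omit B in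
lemma t6_eq_f {a : b.support ⊕ ι} (ha : deg b θ a = -2) : a = .inr (neg P θ) := by
  rcases a with i | δ
  · simp [deg] at ha
  · congr 1
    have h1 : pr P (neg P δ) θ = 2 := by
      rw [t3_pr_neg_left]
      have : pr P δ θ = -2 := ha
      rw [this]; norm_num
    have h2 := h.eq_of_pr_eq_two h1
    rw [← h2, neg_neg']

omit B in
lemma t6_eq_e {a : b.support ⊕ ι} (ha : deg b θ a = 2) : a = .inr θ := by
  rcases a with i | δ
  · simp [deg] at ha
  · congr 1
    exact h.eq_of_pr_eq_two ha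

omit B in
lemma t6_deg_refl {β : ι} (hβ : pr P β θ = 1) :
    deg b θ (.inr (P.reflectionPerm θ β)) = -1 := by
  have h3 := t1_pr_of_root_eq_sub θ (h.root_theta_sub hβ).2.1
  rw [hβ, t3_pr_self] at h3
  exact h3

lemma t6_vv_conj {l g : GL (b.support ⊕ ι) K} (hl : B.IsAut K l)
    (hd : t6DegPres b θ l.val) (hd' : t6DegPres b θ (l⁻¹).val) {β : ι} (hβ : pr P β θ = 1) :
    B.vv θ (l * g * l⁻¹) β = ∑ δ : {δ // pr P δ θ = 1},
      l.val (.inr β) (.inr δ.1) * B.vv θ g δ.1 := by
  have hlf : l.val *ᵥ ev b K (.inr (neg P θ)) =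
      l.val (.inr (neg P θ)) (.inr (neg P θ)) • ev b K (.inr (neg P θ)) := by
    ext a
    rw [mulVec_ev, Pi.smul_apply, ev_apply, smul_eq_mul]
    split_ifs with h1
    · rw [h1, mul_one]
    · rw [mul_zero]
      by_contra hne
      apply h1
      apply t6_eq_f h
      rw [hd _ _ hne, t6_deg_f h]
  have hcc : l.val (.inr (neg P θ)) (.inr (neg P θ)) *
      (l⁻¹).val (.inr (neg P θ)) (.inr (neg P θ)) = 1 := by
    have h1 : (l.val * (l⁻¹).val) (.inr (neg P θ)) (.inr (neg P θ)) = 1 := by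
      rw [← Units.val_mul, mul_inv_cancel, Units.val_one, Matrix.one_apply_eq]
    rw [Matrix.mul_apply, Finset.sum_eq_single (.inr (neg P θ))] at h1
    · exact h1
    · intro a _ ha
      have : l.val (.inr (neg P θ)) a = 0 := by
        by_contra hne
        apply ha
        apply t6_eq_f h
        rw [← hd _ _ hne, t6_deg_f h]
      rw [this, zero_mul]
    · intro h1; exact absurd (Finset.mem_univ _) h1
  have key : ∀ δ : ι, pr P δ θ = 1 →
      (B.adE δ (.inr (P.reflectionPerm θ δ)) (.inr (neg P θ)) : K) *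
        l.val (.inr (P.reflectionPerm θ β)) (.inr (P.reflectionPerm θ δ)) =
      l.val (.inr (neg P θ)) (.inr (neg P θ)) * (l.val (.inr β) (.inr δ) *
        (B.adE β (.inr (P.reflectionPerm θ β)) (.inr (neg P θ)) : K)) := by
    intro δ hδ
    have h1 := IsAut.mulVec_adM B hl (ev b K (.inr δ)) (ev b K (.inr (neg P θ)))
    rw [B.t6_adM_ev_f h hδ, hlf, Matrix.mulVec_smul, Matrix.mulVec_smul] at h1
    have h2 := congrFun h1 (.inr (P.reflectionPerm θ β))
    rw [Pi.smul_apply, Pi.smul_apply, smul_eq_mul, smul_eq_mul, B.t6_adM_f h _ hβ, mulVec_ev,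
      mulVec_ev] at h2
    exact h2
  have hsq : ∀ δ : ι, pr P δ θ = 1 →
      (B.adE δ (.inr (P.reflectionPerm θ δ)) (.inr (neg P θ)) : K) *
      (B.adE δ (.inr (P.reflectionPerm θ δ)) (.inr (neg P θ)) : K) = 1 := by
    intro δ hδ
    have h1 := B.adE_neg_theta_sq h hδ
    rw [← Int.cast_mul, ← sq, h1, Int.cast_one]
  have e1 : (l * g * l⁻¹).val (.inr (P.reflectionPerm θ β)) (.inr (neg P θ)) =
      (l.val * g.val) (.inr (P.reflectionPerm θ β)) (.inr (neg P θ)) *
        (l⁻¹).val (.inr (neg P θ)) (.inr (neg P θ)) := by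
    rw [Units.val_mul, Units.val_mul, Matrix.mul_apply,
      Finset.sum_eq_single (.inr (neg P θ))]
    · intro a _ ha
      have : (l⁻¹).val a (.inr (neg P θ)) = 0 := by
        by_contra hne
        apply ha
        apply t6_eq_f h
        rw [hd' _ _ hne, t6_deg_f h]
      rw [this, mul_zero]
    · intro h1; exact absurd (Finset.mem_univ _) h1
  have e2 : (l.val * g.val) (.inr (P.reflectionPerm θ β)) (.inr (neg P θ)) =
      ∑ δ : {δ // pr P δ θ = 1}, l.val (.inr (P.reflectionPerm θ β))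
        (.inr (P.reflectionPerm θ δ.1)) * g.val (.inr (P.reflectionPerm θ δ.1))
          (.inr (neg P θ)) := by
    rw [Matrix.mul_apply]
    symm
    apply Fintype.sum_of_injective
      (fun δ : {δ // pr P δ θ = 1} => (.inr (P.reflectionPerm θ δ.1) : b.support ⊕ ι))
    · intro δ δ' hδ
      have h1 := Sum.inr_injective hδ
      exact Subtype.ext ((P.reflectionPerm θ).injective h1)
    · intro a ha
      have : l.val (.inr (P.reflectionPerm θ β)) a = 0 := by
        by_contra hne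
        have h1 := hd _ _ hne
        rw [t6_deg_refl h hβ] at h1
        apply ha
        rcases a with i | δ
        · simp [deg] at h1
        · have h2 : pr P δ θ = -1 := h1.symm
          refine ⟨⟨P.reflectionPerm θ δ, ?_⟩, by simp⟩
          have h3 : P.root (P.reflectionPerm θ δ) = (1 : ℤ) • P.root δ + (1 : ℤ) • P.root θ := by
            rw [t3_root_refl, h2]; module
          rw [t6_pr_of_lin _ _ _ h3, h2, t3_pr_self]; norm_num
      rw [this, zero_mul]
    · intro δ; rfl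
  rw [vv, e1, e2, Finset.sum_mul, Finset.mul_sum]
  refine Finset.sum_congr rfl fun δ _ => ?_
  rw [vv]
  have k1 := key δ.1 δ.2
  have s1 := hsq δ.1 δ.2
  have s2 := hsq β hβ
  generalize (B.adE δ.1 (.inr (P.reflectionPerm θ δ.1)) (.inr (neg P θ)) : K) = εδ at *
  generalize (B.adE β (.inr (P.reflectionPerm θ β)) (.inr (neg P θ)) : K) = εβ at *
  generalize l.val (.inr (neg P θ)) (.inr (neg P θ)) = c at *
  generalize (l⁻¹).val (.inr (neg P θ)) (.inr (neg P θ)) = c' at *
  generalize l.val (.inr (P.reflectionPerm θ β)) (.inr (P.reflectionPerm θ δ.1)) = x at *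
  generalize l.val (.inr β) (.inr δ.1) = y at *
  generalize g.val (.inr (P.reflectionPerm θ δ.1)) (.inr (neg P θ)) = w at *
  -- εδ x = c y εβ ; goal: εβ * (x * w * c') = y * (εδ * w)
  have k2 : x = εδ * (c * (y * εβ)) := by
    rw [← k1, ← mul_assoc, s1, one_mul]
  rw [k2]
  linear_combination (y * εδ * w * c * c') * s2 + (y * εδ * w) * hcc

/-! ### normal form in `Q` -/

omit h in
/-- ordered product of root elements -/
def t6Prod {S : Type*} [CommRing S] (f : S →+* K) (s : ι → S) (l : List ι) :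
    GL (b.support ⊕ ι) K := (l.map fun β => B.x K β (f (s β))).prod

lemma t6_theta_comm_prod {S : Type*} [CommRing S] (f : S →+* K) (s : ι → S) (z : K) (l : List ι)
    (hl : ∀ β ∈ l, pr P β θ = 1) : B.x K θ z * B.t6Prod f s l = B.t6Prod f s l * B.x K θ z := by
  induction l with
  | nil => simp [t6Prod]
  | cons β l ih =>
    have e : B.t6Prod f s (β :: l) = B.x K β (f (s β)) * B.t6Prod f s l := by simp [t6Prod]
    rw [e, ← mul_assoc, B.x_theta_comm h (by rw [hl β (by simp)]; norm_num), mul_assoc,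
      ih (fun β hβ => hl β (by simp [hβ])), mul_assoc]

lemma t6_mul_prod {S : Type*} [CommRing S] (f : S →+* K) (s : ι → S) (l : List ι) (hnd : l.Nodup)
    (hl : ∀ β ∈ l, pr P β θ = 1) (α : ι) (hα : α ∈ l) (t : S) :
    ∃ z : S, B.x K α (f t) * B.t6Prod f s l =
      B.t6Prod f (Function.update s α (t + s α)) l * B.x K θ (f z) := by
  induction l with
  | nil => simp at hα
  | cons β l ih =>
    have e : ∀ s, B.t6Prod f s (β :: l) = B.x K β (f (s β)) * B.t6Prod f s l := by
      intro s; simp [t6Prod]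
    rw [e, e]
    rw [List.nodup_cons] at hnd
    by_cases hαβ : α = β
    · subst hαβ
      refine ⟨0, ?_⟩
      rw [Function.update_self, map_zero, x_zero, mul_one, ← mul_assoc, ← x_add, ← map_add]
      congr 1
      rw [t6Prod, t6Prod]
      congr 1
      apply List.map_congr_left
      intro β hβ
      rw [Function.update_of_ne]
      rintro rfl
      exact hnd.1 hβ
    · have hα' : α ∈ l := by
        rcases List.mem_cons.1 hα with h1 | h1
        · exact absurd h1 hαβ
        · exact h1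
      obtain ⟨z, hz⟩ := ih hnd.2 (fun β hβ => hl β (by simp [hβ])) hα'
      rw [Function.update_of_ne (Ne.symm hαβ)]
      have hβ1 : pr P β θ = 1 := hl β (by simp)
      have hα1 : pr P α θ = 1 := hl α hα
      obtain ⟨z1, hz1⟩ : ∃ z1 : S, B.x K α (f t) * B.x K β (f (s β)) =
          B.x K β (f (s β)) * B.x K α (f t) * B.x K θ (f z1) := by
        by_cases hop : β = op P θ α
        · refine ⟨(B.NN θ α : S) * t * s β, ?_⟩
          rw [map_mul, map_mul, map_intCast]
          have := B.x_mul_x_op h hα1 (f t) (f (s β))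
          rw [← hop] at this
          exact this
        · refine ⟨0, ?_⟩
          rw [map_zero, x_zero, mul_one]
          exact B.x_mul_x_Phi1 h hα1 hβ1 hop _ _
      refine ⟨z + z1, ?_⟩
      rw [← mul_assoc, hz1, mul_assoc, B.t6_theta_comm_prod h f s _ l
        (fun β hβ => hl β (by simp [hβ])), mul_assoc, ← mul_assoc (B.x K α (f t)), hz,
        map_add, x_add]
      simp only [mul_assoc]

lemma t6_normal_form {S : Type*} [CommRing S] (f : S →+* K) {g : GL (b.support ⊕ ι) K}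
    (hg : g ∈ B.QQ θ f) : ∃ (s : ι → S) (z : S),
      g = B.t6Prod f s (Finset.univ.filter fun β => pr P β θ = 1).toList * B.x K θ (f z) := by
  set l := (Finset.univ.filter fun β => pr P β θ = 1).toList with hl
  have hl1 : ∀ β, β ∈ l ↔ pr P β θ = 1 := by
    intro β
    rw [hl, Finset.mem_toList]
    simp
  have hnd : l.Nodup := Finset.nodup_toList _
  refine B.t6_rg_ind (p := fun g => ∃ (s : ι → S) (z : S), g = B.t6Prod f s l * B.x K θ (f z))
    ?_ ?_ hg
  · refine ⟨0, 0, ?_⟩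
    rw [map_zero, x_zero, mul_one, t6Prod]
    symm
    apply List.prod_eq_one
    intro x hx
    rw [List.mem_map] at hx
    obtain ⟨β, -, rfl⟩ := hx
    rw [Pi.zero_apply, map_zero, x_zero]
  · rintro β hβ t y - ⟨s, z, rfl⟩
    have hβ' : 0 < pr P β θ := hβ
    have h1 : pr P β θ = 1 ∨ pr P β θ = 2 := by
      rcases h.pr_mem β with h2 | h2 | h2 | h2 | h2 <;> omega
    rcases h1 with h1 | h1
    · obtain ⟨z', hz'⟩ := B.t6_mul_prod h f s l hnd (fun β hβ => (hl1 β).1 hβ) β ((hl1 β).2 h1) t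
      refine ⟨Function.update s β (t + s β), z' + z, ?_⟩
      rw [← mul_assoc, hz', map_add, x_add, mul_assoc]
    · have h2 := h.eq_of_pr_eq_two h1
      subst h2
      refine ⟨s, t + z, ?_⟩
      rw [← mul_assoc, B.t6_theta_comm_prod h f s _ l (fun β hβ => (hl1 β).1 hβ), map_add, x_add,
        mul_assoc]

lemma t6_prod_mem {S : Type*} [CommRing S] (f : S →+* K) (s : ι → S) (l : List ι)
    (hl : ∀ β ∈ l, pr P β θ = 1) : B.t6Prod f s l ∈ B.QQ θ f := by
  refine list_prod_mem ?_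
  intro x hx
  rw [List.mem_map] at hx
  obtain ⟨β, hβ, rfl⟩ := hx
  exact B.t6_x_mem_QQ f (by rw [hl β hβ]; norm_num) _

lemma t6_vv_one {β : ι} (hβ : pr P β θ = 1) : B.vv θ (1 : GL (b.support ⊕ ι) K) β = 0 := by
  have h1 := B.vv_x_theta (K := K) h hβ 0
  rwa [x_zero] at h1

lemma t6_vv_prod {S : Type*} [CommRing S] (f : S →+* K) (s : ι → S) (l : List ι) (hnd : l.Nodup)
    (hl : ∀ β ∈ l, pr P β θ = 1) {β : ι} (hβ : pr P β θ = 1) :
    B.vv θ (B.t6Prod f s l) β = if β ∈ l then f (s β) else 0 := by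
  induction l with
  | nil => simp [t6Prod, B.t6_vv_one h hβ]
  | cons α l ih =>
    have e : B.t6Prod f s (α :: l) = B.x K α (f (s α)) * B.t6Prod f s l := by simp [t6Prod]
    rw [List.nodup_cons] at hnd
    have hl' : ∀ β ∈ l, pr P β θ = 1 := fun β hβ => hl β (by simp [hβ])
    have hα : pr P α θ = 1 := hl α (by simp)
    rw [e, B.vv_mul h (t6_QQ_le B f (B.t6_x_mem_QQ f (by rw [hα]; norm_num) _))
      (t6_QQ_le B f (B.t6_prod_mem h f s l hl')) hβ, B.vv_x h hα hβ, ih hnd.2 hl']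
    by_cases h1 : β = α
    · subst h1
      simp [hnd.1]
    · simp [h1]

lemma t6_eq_x_theta {S : Type*} [CommRing S] (f : S →+* K) (hf : Function.Injective f)
    {g : GL (b.support ⊕ ι) K} (hg : g ∈ B.QQ θ f)
    (hv : ∀ β, pr P β θ = 1 → B.vv θ g β = 0) : ∃ z : S, g = B.x K θ (f z) := by
  obtain ⟨s, z, rfl⟩ := B.t6_normal_form h f hg
  set l := (Finset.univ.filter fun β => pr P β θ = 1).toList with hl
  have hl1 : ∀ β, β ∈ l ↔ pr P β θ = 1 := by
    intro β
    rw [hl, Finset.mem_toList]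
    simp
  have hnd : l.Nodup := Finset.nodup_toList _
  have hs : ∀ β ∈ l, s β = 0 := by
    intro β hβ
    have hβ' := (hl1 β).1 hβ
    have h1 := hv β hβ'
    rw [B.vv_mul h (t6_QQ_le B f (B.t6_prod_mem h f s l fun β hβ => (hl1 β).1 hβ))
      (t6_QQ_le B f (B.t6_x_mem_QQ f (by rw [t3_pr_self]; norm_num) _)) hβ',
      B.t6_vv_prod h f s l hnd (fun β hβ => (hl1 β).1 hβ) hβ', if_pos hβ,
      B.vv_x_theta h hβ', add_zero] at h1
    exact (map_eq_zero_iff f hf).1 h1
  refine ⟨z, ?_⟩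
  have : B.t6Prod f s l = 1 := by
    rw [t6Prod]
    apply List.prod_eq_one
    intro x hx
    rw [List.mem_map] at hx
    obtain ⟨β, hβ, rfl⟩ := hx
    rw [hs β hβ, map_zero, x_zero]
  rw [this, one_mul]

omit B in
lemma t6_len_eq {x y : ι} (hx : pr P x θ = 1) (hy : pr P y θ = 1) (hxy : pr P θ x = pr P θ y) :
    (P.posRootForm ℤ).rootLength x = (P.posRootForm ℤ).rootLength y := by
  have h1 := t6_length_swap (P := P) x θ
  have h2 := t6_length_swap (P := P) y θ
  have hθ := (P.posRootForm ℤ).rootLength_pos θ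
  rw [hx] at h1
  rw [hy, ← hxy] at h2
  have h5 : pr P θ x ≠ 0 := by
    intro h5
    rw [h5] at h1
    linarith
  apply mul_left_cancel₀ h5
  linarith

lemma t6_degPres_x {γ : ι} (hγ : pr P γ θ = 0) (u : K) : t6DegPres b θ (B.x K γ u).val := by
  intro a c hne
  rw [coe_x] at hne
  obtain ⟨j, -, hj⟩ := B.xMat_apply_ne_zero K hne
  rw [t6_deg_of_wt hj, hγ, mul_zero, add_zero]

/-- `⟨θ, β^∨⟩ = 3` (type `G_2`), in characteristic `3` -/
lemma special_three (h3 : (3 : K) = 0) {β : ι} (hβ : pr P β θ = 1) (h2 : pr P θ β = 3) :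
    ∃ (γ : ι) (c : ℤ), pr P γ θ = 0 ∧ (c = 1 ∨ c = -1) ∧
      (∀ u t : K, B.x K γ u * B.x K β t * B.x K γ (-u) =
        B.x K β t * B.x K (op P θ β) (c * u * t)) ∧
      (∀ u t : K, B.x K γ u * B.x K (op P θ β) t = B.x K (op P θ β) t * B.x K γ u) ∧
      ∀ δ, pr P δ θ = 1 → pr P θ δ = 3 → δ = β ∨ δ = op P θ β := by
  have hopr := root_op h hβ
  have hopr' : P.root (op P θ β) = (1 : ℤ) • P.root θ + (-1 : ℤ) • P.root β := by
    rw [hopr]; module
  have hopβ : pr P (op P θ β) β = 1 := by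
    rw [t6_pr_of_lin _ _ _ hopr', h2, t3_pr_self]; norm_num
  have hopθ := pr_op h hβ
  obtain ⟨γ, hγdef⟩ : ∃ γ, γ = P.reflectionPerm β (op P θ β) := ⟨_, rfl⟩
  have hγr : P.root γ = (1 : ℤ) • P.root θ + (-2 : ℤ) • P.root β := by
    rw [hγdef, t3_root_refl, hopβ, hopr]; module
  have hγθ : pr P γ θ = 0 := by
    rw [t6_pr_of_lin _ _ _ hγr, t3_pr_self, hβ]; norm_num
  have hγβ : pr P γ β = -1 := by
    rw [t6_pr_of_lin _ _ _ hγr, h2, t3_pr_self]; norm_num
  have hβγ : pr P β γ = -1 := by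
    have h4 := t6_length_swap (P := P) β γ
    have h5 : (P.posRootForm ℤ).rootLength γ = (P.posRootForm ℤ).rootLength β := by
      rw [hγdef, t1_rootLength_refl]
      exact t6_len_eq h hopθ hβ (pr_theta_op h hβ)
    rw [h5, hγβ] at h4
    exact mul_right_cancel₀ ((P.posRootForm ℤ).rootLength_pos β).ne' h4
  have hi : LinearIndependent k ![P.root γ, P.root β] := by
    rcases eq_or_neg_or_indep P γ β with h1 | h1 | h1
    · rw [h1, hγθ] at hβ; norm_num at hβ
    · rw [h1, t3_pr_neg_left, hγθ] at hβ; norm_num at hβ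
    · exact h1
  have hi' : LinearIndependent k ![P.root β, P.root θ] := h.linearIndependent hβ
  have hlong : P.root θ - (3 : ℕ) • P.root β ∈ Set.range P.root := by
    rw [P.root_sub_nsmul_mem_range_iff_le_chainBotCoeff hi']
    have h1 := P.chainBotCoeff_sub_chainTopCoeff hi'
    change _ = pr P θ β at h1
    rw [h2] at h1
    omega
  have hbot : P.chainBotCoeff γ β = 1 := by
    have h4 : 1 ≤ P.chainBotCoeff γ β := by
      rw [← P.root_sub_nsmul_mem_range_iff_le_chainBotCoeff hi, hγr]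
      obtain ⟨δ, hδ⟩ := hlong
      refine ⟨neg P δ, ?_⟩
      rw [root_neg, hδ]; module
    have h5 : ¬ 2 ≤ P.chainBotCoeff γ β := by
      rw [← P.root_sub_nsmul_mem_range_iff_le_chainBotCoeff hi, hγr]
      rintro ⟨δ, hδ⟩
      have hδ' : P.root δ = (-2 : ℤ) • P.root θ + (5 : ℤ) • P.root β := by rw [hδ]; module
      have h6 : pr P δ β = 4 := by
        rw [t6_pr_of_lin _ _ _ hδ', h2, t3_pr_self]; norm_num
      have h7 := P.pairingIn_pairingIn_mem_set_of_isCrystal_of_isRed δ β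
      change (pr P δ β, pr P β δ) ∈ _ at h7
      rw [h6] at h7
      simp at h7
    omega
  have htop : P.chainTopCoeff γ β = 2 := by
    have h1 := P.chainBotCoeff_sub_chainTopCoeff hi
    change _ = pr P β γ at h1
    rw [hβγ, hbot] at h1
    push_cast at h1
    omega
  obtain ⟨δ2, hδ2⟩ : P.root β + 2 • P.root γ ∈ Set.range P.root := by
    rw [P.root_add_nsmul_mem_range_iff_le_chainTopCoeff hi, htop]
  have hno3 : P.root β + 3 • P.root γ ∉ Set.range P.root := by
    rw [P.root_add_nsmul_mem_range_iff_le_chainTopCoeff hi, htop]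
    norm_num
  have hop1 : P.root (op P θ β) = P.root β + 1 • P.root γ := by
    rw [hopr, hγr]; module
  obtain ⟨ε, hε, hd1⟩ := B.dpow_string hi hop1
  obtain ⟨ε', hε', hd2⟩ := B.dpow_string hi hδ2
  have hd3 := B.dpow_inr_of_not_root hi hno3
  have hd1' : ∀ l', B.dpow γ 1 l' (.inr β) = if l' = .inr (op P θ β) then ε * 2 else 0 := by
    intro l'
    rw [hd1, hbot]
    rfl
  have hd2' : ∀ l', B.dpow γ 2 l' (.inr β) = if l' = .inr δ2 then ε' * 3 else 0 := by
    intro l'
    rw [hd2, hbot]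
    rfl
  have hx : ∀ (u : K) (l' : b.support ⊕ ι), B.xMat K γ u l' (.inr β) =
      (if l' = .inr β then 1 else 0) +
        u * (if l' = .inr (op P θ β) then ((-ε : ℤ) : K) else 0) := by
    intro u l'
    have e0 : (B.dpow γ 0 l' (.inr β) : K) = if l' = .inr β then 1 else 0 := by
      rw [dpow_zero, Matrix.one_apply]
      split_ifs <;> simp
    have e1 : (B.dpow γ 1 l' (.inr β) : K) =
        if l' = .inr (op P θ β) then ((-ε : ℤ) : K) else 0 := by
      rw [hd1']
      split_ifs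
      · push_cast
        linear_combination (ε : K) * h3
      · simp
    have e2 : (B.dpow γ 2 l' (.inr β) : K) = 0 := by
      rw [hd2']
      split_ifs
      · push_cast
        rw [h3, mul_zero]
      · simp
    have e3 : (B.dpow γ 3 l' (.inr β) : K) = 0 := by
      rw [hd3]; simp
    rw [xMat_apply, Finset.sum_range_succ, Finset.sum_range_succ, Finset.sum_range_succ,
      Finset.sum_range_succ, Finset.sum_range_zero, e0, e1, e2, e3]
    ring
  have hN : (B.NN θ β : K) = 0 := by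
    rcases (B.NN_eq h hβ).1 with h4 | h4 <;> rw [h4, h2] <;> push_cast
    · exact h3
    · rw [h3, neg_zero]
  have hopθ' : 0 < pr P (op P θ β) θ := by rw [hopθ]; norm_num
  have hβθ' : 0 < pr P β θ := by rw [hβ]; norm_num
  have hθβ : (Sum.inr θ : b.support ⊕ ι) ≠ .inr β := by
    intro h4
    rw [← Sum.inr_injective h4, t3_pr_self] at hβ
    norm_num at hβ
  have hθop : (Sum.inr θ : b.support ⊕ ι) ≠ .inr (op P θ β) := by
    intro h4
    have h5 := Sum.inr_injective h4
    rw [← h5, t3_pr_self] at hopθ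
    norm_num at hopθ
  refine ⟨γ, -ε, hγθ, ?_, ?_, ?_, ?_⟩
  · rcases hε with rfl | rfl
    · right; rfl
    · left; norm_num
  · intro u t
    have hg : B.x K γ u * B.x K β t * (B.x K γ u)⁻¹ ∈ B.QQ θ (RingHom.id K) :=
      B.t6_x_conj_QQ h (RingHom.id K) hγθ u (B.t6_x_mem_QQ (RingHom.id K) hβθ' t)
    have hy1 : B.x K β t ∈ B.QQ θ (RingHom.id K) := B.t6_x_mem_QQ (RingHom.id K) hβθ' t
    have hy2 : B.x K (op P θ β) ((-ε : ℤ) * u * t) ∈ B.QQ θ (RingHom.id K) :=
      B.t6_x_mem_QQ (RingHom.id K) hopθ' _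
    have hy : B.x K β t * B.x K (op P θ β) ((-ε : ℤ) * u * t) ∈ B.QQ θ (RingHom.id K) :=
      mul_mem hy1 hy2
    have hvg : ∀ δ, pr P δ θ = 1 → B.vv θ (B.x K γ u * B.x K β t * (B.x K γ u)⁻¹) δ =
        B.vv θ (B.x K β t * B.x K (op P θ β) ((-ε : ℤ) * u * t)) δ := by
      intro δ hδ
      rw [B.t6_vv_conj h (B.isAut_x γ u) (B.t6_degPres_x h hγθ u)
        (by rw [← x_neg]; exact B.t6_degPres_x h hγθ _) hδ, B.vv_mul h hy1 hy2 hδ,
        B.vv_x h hβ hδ, B.vv_x h hopθ hδ, Finset.sum_eq_single ⟨β, hβ⟩]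
      · rw [B.vv_x h hβ hβ, if_pos rfl, coe_x, hx]
        simp only [Sum.inr.injEq]
        split_ifs <;> ring
      · rintro ⟨δ', hδ'⟩ _ hne
        rw [B.vv_x h hβ hδ', if_neg, mul_zero]
        intro h4
        apply hne
        exact Subtype.ext h4
      · intro h4; exact absurd (Finset.mem_univ _) h4
    set g := B.x K γ u * B.x K β t * (B.x K γ u)⁻¹ with hgdef
    set y := B.x K β t * B.x K (op P θ β) ((-ε : ℤ) * u * t) with hydef
    obtain ⟨z, hz⟩ : ∃ z : K, y⁻¹ * g = B.x K θ z := by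
      refine B.t6_eq_x_theta h (RingHom.id K) (fun _ _ h => h) (mul_mem (inv_mem hy) hg) ?_
      intro δ hδ
      have h4 := B.vv_mul h hy (mul_mem (inv_mem hy) hg) hδ
      rw [mul_inv_cancel_left, hvg δ hδ] at h4
      exact (left_eq_add.1 h4)
    have hgy : g = y * B.x K θ z := by rw [← hz]; group
    have hhθ : B.hvec K θ (.inr θ) = 0 := by simp [hvec]
    -- value of `g h_θ` at `e_θ`
    have v1 : (g.val *ᵥ B.hvec K θ) (.inr θ) = 0 := by
      rw [hgdef, ← x_neg, Units.val_mul, Units.val_mul, ← Matrix.mulVec_mulVec,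
        ← Matrix.mulVec_mulVec, coe_x, coe_x, coe_x, xMat_mulVec_hvec, hγθ]
      simp only [Int.cast_zero, zero_mul, zero_smul, sub_zero]
      rw [xMat_mulVec_hvec, Matrix.mulVec_sub, Matrix.mulVec_smul, xMat_mulVec_hvec, hγθ]
      simp only [Int.cast_zero, zero_mul, zero_smul, sub_zero]
      rw [Pi.sub_apply, Pi.smul_apply, hhθ, mulVec_ev]
      change 0 - _ • B.xMat K γ u (.inr θ) (.inr β) = 0
      rw [hx, if_neg hθβ, if_neg hθop]
      simp
    have v2 : (y.val *ᵥ B.hvec K θ) (.inr θ) = 0 := by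
      rw [hydef, Units.val_mul, ← Matrix.mulVec_mulVec, coe_x, coe_x, xMat_mulVec_hvec,
        Matrix.mulVec_sub, Matrix.mulVec_smul, xMat_mulVec_hvec, Pi.sub_apply, Pi.sub_apply,
        Pi.smul_apply, Pi.smul_apply, hhθ, mulVec_ev, ev_apply, if_neg hθβ]
      change 0 - _ • 0 - _ • B.xMat K β t (.inr θ) (.inr (op P θ β)) = 0
      have : B.xMat K β t (.inr θ) (.inr (op P θ β)) = 0 := by
        rw [xMat_apply]
        refine Finset.sum_eq_zero fun j _ => ?_
        by_cases hj : j = 1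
        · subst hj
          rw [dpow_one]
          change _ * (B.NN θ β : K) = 0
          rw [hN, mul_zero]
        · have : B.dpow β j (.inr θ) (.inr (op P θ β)) = 0 := by
            by_contra hne
            have h4 := B.wt_of_dpow_ne_zero hne
            simp only [wt, Sum.elim_inr] at h4
            rw [hopr] at h4
            apply nsmul_notMem P hj β
            refine ⟨β, ?_⟩
            have h5 : P.root θ + P.root β = P.root θ + j • P.root β := by
              nth_rewrite 1 [h4]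
              abel
            exact add_left_cancel h5
          rw [this]; simp
      rw [this]
      simp
    have v3 : y.val *ᵥ ev b K (.inr θ) = ev b K (.inr θ) := by
      have h4 : ∀ (β : ι) (s : K), 0 < pr P β θ →
          B.xMat K β s *ᵥ ev b K (.inr θ) = ev b K (.inr θ) := by
        intro β s hβ
        have h5 := h.theta_add_not_root hβ.le
        exact B.xMat_mulVec_of_not_root K s (by rw [add_comm]; exact h5.1)
          (by rw [add_comm]; exact h5.2)
      rw [hydef, Units.val_mul, ← Matrix.mulVec_mulVec, coe_x, coe_x, h4 _ _ hopθ', h4 _ _ hβθ']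
    have hz0 : z = 0 := by
      have h4 : (g.val *ᵥ B.hvec K θ) (.inr θ) =
          ((y * B.x K θ z).val *ᵥ B.hvec K θ) (.inr θ) :=
        congrArg (fun g : GL (b.support ⊕ ι) K => (g.val *ᵥ B.hvec K θ) (.inr θ)) hgy
      rw [v1, Units.val_mul, ← Matrix.mulVec_mulVec, coe_x, xMat_mulVec_hvec, Matrix.mulVec_sub,
        Matrix.mulVec_smul, v3, Pi.sub_apply, v2, Pi.smul_apply, ev_self, t3_pr_self] at h4
      simp only [smul_eq_mul] at h4
      push_cast at h4
      linear_combination (-1 : K) * h4 + z * h3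
    rw [x_neg, ← hgdef, hgy, hz0, x_zero, mul_one]
  · intro u t
    have h4 : P.root δ2 = P.root γ + P.root (op P θ β) := by
      rw [hδ2, hopr, hγr]; module
    have h5 := B.x_conj_x_of_add K h4
      (by
        intro h6
        apply hno3
        convert h6 using 1
        rw [hopr, hγr]; module)
      (by
        rintro ⟨δ, hδ⟩
        have hδ' : P.root δ = (3 : ℤ) • P.root θ + (-4 : ℤ) • P.root β := by
          rw [hδ, hopr, hγr]; module
        have h6 : pr P δ θ = 2 := by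
          rw [t6_pr_of_lin _ _ _ hδ', t3_pr_self, hβ]; norm_num
        have h7 := t6_pr_of_lin _ _ β hδ'
        rw [h.eq_of_pr_eq_two h6, h2, t3_pr_self] at h7
        norm_num at h7) u t
    have h6 : (B.adE γ (.inr δ2) (.inr (op P θ β)) : K) = 0 := by
      have h7 : P.chainBotCoeff γ (op P θ β) = 2 := by
        rw [RootPairing.chainBotCoeff_of_add hi (by rw [hop1, one_smul]), hbot]
      rcases B.adE_inr_inr h4 with h8 | h8 <;> rw [h8, h7] <;> push_cast
      · linear_combination h3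
      · linear_combination -h3
    rw [h6, zero_mul, zero_mul, x_zero, mul_one, x_neg, mul_inv_eq_iff_eq_mul] at h5
    exact h5
  · intro δ hδ hδ3
    by_contra hne
    push Not at hne
    have h4 := (t6_length h hβ hδ (by rw [h2, hδ3]) (Ne.symm hne.1)).2
    have h5 := (t6_length h hopθ hδ (by rw [pr_theta_op h hβ, h2, hδ3]) (Ne.symm hne.2)).2
    have h6 : pr P (op P θ β) δ = 3 - pr P β δ := by
      rw [t6_pr_of_lin _ _ _ hopr', hδ3]; ring
    omega

end

section

variable {K0 K0' K : Type*} [Field K0] [Field K0'] [Field K] (j : K0 →+* K0') (f : K0' →+* K)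

/-- normal form in `Q`: an element with `vv = 0` is in the centre `X_θ` -/
lemma eq_x_theta {g : GL (b.support ⊕ ι) K} (hg : g ∈ B.QQ θ f)
    (hv : ∀ β, pr P β θ = 1 → B.vv θ g β = 0) : ∃ z : K0', g = B.x K θ (f z) :=
  B.t6_eq_x_theta h f f.injective hg hv

lemma vv_mem {g : GL (b.support ⊕ ι) K} (hg : g ∈ B.QQ θ f) {β : ι} (hβ : pr P β θ = 1) :
    ∃ s : K0', B.vv θ g β = f s := by
  refine B.t6_rg_ind (p := fun g => ∃ s : K0', B.vv θ g β = f s) ?_ ?_ hg
  · exact ⟨0, by rw [B.t6_vv_one h hβ, map_zero]⟩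
  · rintro α hα t y hy ⟨s, hs⟩
    have hα' : 0 < pr P α θ := hα
    refine ⟨(if β = α then t else 0) + s, ?_⟩
    rw [B.vv_mul h (t6_QQ_le B f (B.t6_x_mem_QQ f hα' t)) (t6_QQ_le B f hy) hβ,
      B.t6_vv_x h hα' hβ, hs, map_add]
    congr 1
    split_ifs <;> simp

lemma t6_tor_conj_QQ (γ : ι) (c : K0'ˣ) {g : GL (b.support ⊕ ι) K} (hg : g ∈ B.QQ θ f) :
    B.tor K γ (Units.map f c) * g * (B.tor K γ (Units.map f c))⁻¹ ∈ B.QQ θ f := by
  refine B.t6_rg_ind (p := fun g => B.tor K γ (Units.map f c) * g *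
    (B.tor K γ (Units.map f c))⁻¹ ∈ B.QQ θ f) ?_ ?_ hg
  · rw [mul_one, mul_inv_cancel]
    exact one_mem _
  · intro β hβ t y _ hy
    have hβ' : 0 < pr P β θ := hβ
    have e : B.tor K γ (Units.map f c) * (B.x K β (f t) * y) * (B.tor K γ (Units.map f c))⁻¹ =
        (B.tor K γ (Units.map f c) * B.x K β (f t) * (B.tor K γ (Units.map f c))⁻¹) *
          (B.tor K γ (Units.map f c) * y * (B.tor K γ (Units.map f c))⁻¹) := by
      group
    change B.tor K γ (Units.map f c) * (B.x K β (f t) * y) * (B.tor K γ (Units.map f c))⁻¹ ∈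
      B.QQ θ f
    rw [e]
    refine mul_mem ?_ hy
    rw [tor_conj_x]
    have h6 : ((((Units.map f.toMonoidHom) c) ^ pr P β γ : Kˣ) : K) * f t =
        f (((c ^ pr P β γ : K0'ˣ) : K0') * t) := by
      rw [← map_zpow, map_mul]
      rfl
    have h7 := B.t6_x_mem_QQ f hβ' (((c ^ pr P β γ : K0'ˣ) : K0') * t)
    rw [← h6] at h7
    exact h7

/-- `Λ` normalises `Q` -/
lemma Lam_conj_mem {r : ℕ} {l g : GL (b.support ⊕ ι) K} (hl : l ∈ B.Lam θ r (f.comp j))
    (hg : g ∈ B.QQ θ f) : l * g * l⁻¹ ∈ B.QQ θ f := by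
  refine B.t6_Lam_ind (p := fun l => l * g * l⁻¹ ∈ B.QQ θ f) ?_ ?_ ?_ hl
  · rw [one_mul, inv_one, mul_one]
    exact hg
  · intro γ c _ y hy
    have e : B.tor K γ (Units.map (f.comp j) c) * y * g * (B.tor K γ (Units.map (f.comp j) c) * y)⁻¹ =
        B.tor K γ (Units.map (f : K0' →* K) (Units.map (j : K0 →* K0') c)) * (y * g * y⁻¹) *
          (B.tor K γ (Units.map (f : K0' →* K) (Units.map (j : K0 →* K0') c)))⁻¹ := by
      have : (Units.map ((f.comp j : K0 →+* K) : K0 →* K)) c =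
        (Units.map (f : K0' →* K)) ((Units.map (j : K0 →* K0')) c) := rfl
      rw [this]
      group
    change B.tor K γ (Units.map (f.comp j) c) * y * g *
      (B.tor K γ (Units.map (f.comp j) c) * y)⁻¹ ∈ B.QQ θ f
    rw [e]
    exact B.t6_tor_conj_QQ h f γ _ hy
  · intro γ _ hγ t y hy
    have e : B.x K γ ((f.comp j) t) * y * g * (B.x K γ ((f.comp j) t) * y)⁻¹ =
        B.x K γ (f (j t)) * (y * g * y⁻¹) * (B.x K γ (f (j t)))⁻¹ := by
      rw [RingHom.comp_apply]
      group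
    change B.x K γ ((f.comp j) t) * y * g * (B.x K γ ((f.comp j) t) * y)⁻¹ ∈ B.QQ θ f
    rw [e]
    exact B.t6_x_conj_QQ h f hγ _ hy

lemma t6_degPres_tor (γ : ι) (c : Kˣ) : t6DegPres b θ (B.tor K γ c).val := by
  intro a a' hne
  rw [tor_val] at hne
  by_contra h1
  apply hne
  apply Matrix.diagonal_apply_ne
  rintro rfl
  exact h1 rfl

lemma t6_degPres_Lam {r : ℕ} {l : GL (b.support ⊕ ι) K} (hl : l ∈ B.Lam θ r f) :
    t6DegPres b θ l.val := by
  refine B.t6_Lam_ind (p := fun l => t6DegPres b θ l.val) ?_ ?_ ?_ hl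
  · intro a a' hne
    rw [Units.val_one] at hne
    by_contra h1
    apply hne
    apply Matrix.one_apply_ne
    rintro rfl
    exact h1 rfl
  · intro γ c _ y hy
    exact t6DegPres.mul (B.t6_degPres_tor h γ _) hy
  · intro γ _ hγ t y hy
    exact t6DegPres.mul (B.t6_degPres_x h hγ _) hy

lemma t6_isAut_Lam {r : ℕ} {l : GL (b.support ⊕ ι) K} (hl : l ∈ B.Lam θ r f) :
    B.IsAut K l := by
  refine B.t6_Lam_ind (p := fun l => B.IsAut K l) ?_ ?_ ?_ hl
  · exact B.isAut_one K
  · intro γ c _ y hy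
    exact IsAut.mul B (B.isAut_tor γ _) hy
  · intro γ _ hγ t y hy
    exact IsAut.mul B (B.isAut_x γ _) hy

/-- `Λ` acts linearly on the `L_1`-coordinates -/
lemma vv_conj {r : ℕ} {l g : GL (b.support ⊕ ι) K} (hl : l ∈ B.Lam θ r f)
    (hg : g ∈ B.QQ θ (RingHom.id K)) {β : ι} (hβ : pr P β θ = 1) :
    B.vv θ (l * g * l⁻¹) β = ∑ δ : {δ // pr P δ θ = 1},
      l.val (.inr β) (.inr δ.1) * B.vv θ g δ.1 :=
  B.t6_vv_conj h (B.t6_isAut_Lam h f hl) (B.t6_degPres_Lam h f hl)
    (B.t6_degPres_Lam h f (inv_mem hl)) hβ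

/-- entries of elements of `Λ` over a subfield -/
lemma Lam_entry {r : ℕ} {l : GL (b.support ⊕ ι) K} (hl : l ∈ B.Lam θ r f)
    (i i' : b.support ⊕ ι) : ∃ s : K0', l.val i i' = f s := by
  have key : ∃ l' : GL (b.support ⊕ ι) K0', Matrix.GeneralLinearGroup.map f l' = l := by
    refine B.t6_Lam_ind (p := fun l => ∃ l' : GL (b.support ⊕ ι) K0',
      Matrix.GeneralLinearGroup.map f l' = l) ?_ ?_ ?_ hl
    · exact ⟨1, map_one _⟩
    · rintro γ c _ y ⟨l', rfl⟩
      exact ⟨B.tor K0' γ c * l', by rw [map_mul, map_tor]⟩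
    · rintro γ _ _ t y ⟨l', rfl⟩
      exact ⟨B.x K0' γ t * l', by rw [map_mul, map_x]⟩
  obtain ⟨l', rfl⟩ := key
  exact ⟨l'.val i i', rfl⟩

/-- `X = Λ Q` -/
lemma exists_Lam_mul_QQ {r : ℕ} {g : GL (b.support ⊕ ι) K} (hg : g ∈ B.XX r f) :
    ∃ l ∈ B.Lam θ r f, ∃ q ∈ B.QQ θ f, g = l * q := by
  refine B.t6_XX_ind (p := fun g => ∃ l ∈ B.Lam θ r f, ∃ q ∈ B.QQ θ f, g = l * q) ?_ ?_ ?_ hg
  · exact ⟨1, one_mem _, 1, one_mem _, by rw [one_mul]⟩
  · rintro γ c hc y ⟨l, hl, q, hq, rfl⟩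
    exact ⟨B.tor K γ (Units.map f c) * l,
      mul_mem (Subgroup.subset_closure (Or.inl ⟨γ, c, hc, rfl⟩)) hl, q, hq, by rw [mul_assoc]⟩
  · rintro γ hγ t y ⟨l, hl, q, hq, rfl⟩
    rcases (h.dom γ hγ).eq_or_lt with h1 | h1
    · exact ⟨B.x K γ (f t) * l,
        mul_mem (Subgroup.subset_closure (Or.inr ⟨γ, ⟨hγ, h1.symm⟩, t, rfl⟩)) hl, q, hq,
        by rw [mul_assoc]⟩
    · refine ⟨l, hl, (l⁻¹ * B.x K γ (f t) * l⁻¹⁻¹) * q, mul_mem ?_ hq, by group⟩
      have h2 : l⁻¹ ∈ B.Lam θ r (f.comp (RingHom.id K0')) := inv_mem hl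
      exact B.Lam_conj_mem h (RingHom.id K0') f h2 (B.t6_x_mem_QQ f h1 t)

lemma t6_XX_ev {r : ℕ} {g : GL (b.support ⊕ ι) K} (hg : g ∈ B.XX r f) :
    g.val (.inr θ) (.inr θ) ^ r = 1 ∧
    g.val *ᵥ ev b K (.inr θ) = g.val (.inr θ) (.inr θ) • ev b K (.inr θ) := by
  have key : ∃ c : K, c ^ r = 1 ∧ g.val *ᵥ ev b K (.inr θ) = c • ev b K (.inr θ) := by
    refine B.t6_XX_ind (p := fun g => ∃ c : K, c ^ r = 1 ∧
      g.val *ᵥ ev b K (.inr θ) = c • ev b K (.inr θ)) ?_ ?_ ?_ hg
    · exact ⟨1, one_pow r, by rw [Units.val_one, Matrix.one_mulVec, one_smul]⟩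
    · rintro γ c hc y ⟨d, hd, hy⟩
      refine ⟨d * (((Units.map (f : K0' →* K) c) ^ pr P θ γ : Kˣ) : K), ?_, ?_⟩
      · rw [mul_pow, hd, one_mul, ← Units.val_pow_eq_pow_val, ← zpow_natCast,
          _root_.zpow_comm, zpow_natCast, ← map_pow, hc, map_one, _root_.one_zpow, Units.val_one]
      · rw [Units.val_mul, ← Matrix.mulVec_mulVec, hy, Matrix.mulVec_smul, tor_mulVec_inr,
          smul_smul]
    · rintro γ hγ t y ⟨d, hd, hy⟩
      refine ⟨d, hd, ?_⟩
      have h5 := h.theta_add_not_root (h.dom γ hγ)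
      rw [Units.val_mul, ← Matrix.mulVec_mulVec, hy, Matrix.mulVec_smul, coe_x,
        B.xMat_mulVec_of_not_root K _ (by rw [add_comm]; exact h5.1)
          (by rw [add_comm]; exact h5.2)]
  obtain ⟨c, hc, hg'⟩ := key
  have h1 : g.val (.inr θ) (.inr θ) = c := by
    have h2 := congrFun hg' (.inr θ)
    rw [mulVec_ev, Pi.smul_apply, ev_self, smul_eq_mul, mul_one] at h2
    exact h2
  rw [h1]
  exact ⟨hc, hg'⟩

lemma XX_theta {r : ℕ} {g g' : GL (b.support ⊕ ι) K} (hg : g ∈ B.XX r f) (hg' : g' ∈ B.XX r f) :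
    (g * g').val (.inr θ) (.inr θ) = g.val (.inr θ) (.inr θ) * g'.val (.inr θ) (.inr θ) ∧
    g.val (.inr θ) (.inr θ) ^ r = 1 ∧
    g.val *ᵥ ev b K (.inr θ) = g.val (.inr θ) (.inr θ) • ev b K (.inr θ) := by
  obtain ⟨h1, h2⟩ := B.t6_XX_ev h f hg
  obtain ⟨-, h2'⟩ := B.t6_XX_ev h f hg'
  refine ⟨?_, h1, h2⟩
  have h3 : (g * g').val *ᵥ ev b K (.inr θ) =
      (g.val (.inr θ) (.inr θ) * g'.val (.inr θ) (.inr θ)) • ev b K (.inr θ) := by
    rw [Units.val_mul, ← Matrix.mulVec_mulVec, h2', Matrix.mulVec_smul, h2, smul_smul, mul_comm]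
  have h4 := congrFun h3 (.inr θ)
  rw [mulVec_ev, Pi.smul_apply, ev_self, smul_eq_mul, mul_one] at h4
  exact h4

/-- conjugation of the centre -/
lemma XX_conj_x_theta {r : ℕ} {g : GL (b.support ⊕ ι) K} (hg : g ∈ B.XX r f) (z : K) :
    g * B.x K θ z * g⁻¹ = B.x K θ (g.val (.inr θ) (.inr θ) * z) := by
  have key : ∀ z, g * B.x K θ z * g⁻¹ = B.x K θ (g.val (.inr θ) (.inr θ) * z) ∧
      g ∈ B.XX r f := by
    refine B.t6_XX_ind (p := fun g => ∀ z, g * B.x K θ z * g⁻¹ =
      B.x K θ (g.val (.inr θ) (.inr θ) * z) ∧ g ∈ B.XX r f) ?_ ?_ ?_ hg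
    · intro z
      refine ⟨?_, one_mem _⟩
      rw [Units.val_one, Matrix.one_apply_eq, one_mul, one_mul, inv_one, mul_one]
    · intro γ c hc y hy z
      have h1 : B.tor K γ (Units.map f c) ∈ B.XX r f :=
        Subgroup.subset_closure (Or.inl ⟨γ, c, hc, rfl⟩)
      refine ⟨?_, mul_mem h1 (hy z).2⟩
      rw [(B.XX_theta h f h1 (hy z).2).1]
      have e : B.tor K γ (Units.map f c) * y * B.x K θ z * (B.tor K γ (Units.map f c) * y)⁻¹ =
        B.tor K γ (Units.map f c) * (y * B.x K θ z * y⁻¹) * (B.tor K γ (Units.map f c))⁻¹ := by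
        group
      rw [e, (hy z).1, tor_conj_x, mul_assoc]
      congr 2
      rw [tor_val, Matrix.diagonal_apply_eq]
      rfl
    · intro γ hγ t y hy z
      have h1 : B.x K γ (f t) ∈ B.XX r f :=
        Subgroup.subset_closure (Or.inr ⟨γ, hγ, t, rfl⟩)
      refine ⟨?_, mul_mem h1 (hy z).2⟩
      rw [(B.XX_theta h f h1 (hy z).2).1]
      have e : B.x K γ (f t) * y * B.x K θ z * (B.x K γ (f t) * y)⁻¹ =
        B.x K γ (f t) * (y * B.x K θ z * y⁻¹) * (B.x K γ (f t))⁻¹ := by
        group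
      rw [e, (hy z).1, coe_x, xMat_apply_self, one_mul, ← B.x_theta_comm h (h.dom γ hγ),
        mul_inv_cancel_right]
  exact (key z).1

end

end ChevalleyBasis

end Pool.Agent.MP_467141
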