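import Pool.Agent.Lib.MP_467141_H17.T6

/-! # T6R: rigidity of `Λ` -/

open Matrix

set_option linter.unusedSectionVars false

noncomputable section

namespace Pool.Agent.MP_467141

variable {ι k M N : Type*} [Field k] [CharZero k] [AddCommGroup M] [Module k M]
  [AddCommGroup N] [Module k N] [Fintype ι] [DecidableEq ι]

namespace ChevalleyBasis

variable {P : RootPairing ι k M N} [P.IsCrystallographic] [P.IsReduced] {b : P.Base}
  {L : Type*} [LieRing L] (B : ChevalleyBasis P b L)

section structure_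

/-- the height of a basis index -/
def t6rH (b : P.Base) : b.support ⊕ ι → ℤ := Sum.elim (fun _ => 0) b.height

lemma t6r_ht_of_dpow {β : ι} {j : ℕ} {l' l : b.support ⊕ ι} (h : B.dpow β j l' l ≠ 0) :
    t6rH b l' = t6rH b l + j * b.height β := by
  have hl := B.wt_of_dpow_ne_zero h
  rcases l' with l' | γ' <;> rcases l with l | γ
  · simp only [wt, Sum.elim_inl, zero_add, t6rH] at hl ⊢
    by_cases hj : j = 0
    · simp [hj]
    · exact absurd hl.symm (nsmul_root_ne_zero P hj β)
  · simp only [wt, Sum.elim_inl, Sum.elim_inr, t6rH] at hl ⊢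
    have h1 : P.root γ = P.root β + (-(j : ℤ) - 1) • P.root β := by
      have h2 : P.root γ = -(j • P.root β) := eq_neg_of_add_eq_zero_left hl.symm
      rw [h2]
      module
    rw [b.height_add_zsmul h1, smul_eq_mul]
    ring
  · simp only [wt, Sum.elim_inl, Sum.elim_inr, zero_add, t6rH] at hl ⊢
    have h1 : P.root γ' = P.root β + ((j : ℤ) - 1) • P.root β := by
      rw [hl]
      module
    rw [b.height_add_zsmul h1, smul_eq_mul]
    ring
  · simp only [wt, Sum.elim_inr, t6rH] at hl ⊢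
    have h1 : P.root γ' = P.root γ + (j : ℤ) • P.root β := by
      rw [hl]
      module
    rw [b.height_add_zsmul h1, smul_eq_mul]

lemma t6r_tor_inv {R : Type*} [CommRing R] (α : ι) (c : Rˣ) :
    (B.tor R α c)⁻¹ = B.tor R α c⁻¹ := by
  have h1 : B.tor R α 1 = 1 := by
    have := B.tor_mul R α 1 1
    rw [mul_one] at this
    exact mul_eq_left.1 this.symm
  rw [inv_eq_iff_mul_eq_one, ← tor_mul, mul_inv_cancel, h1]

/-- the group generated by `T_r` and the root groups of `s` -/
def t6rG (s : Set ι) (r : ℕ) {S K : Type*} [CommRing S] [CommRing K] (f : S →+* K) :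
    Subgroup (GL (b.support ⊕ ι) K) :=
  Subgroup.closure ({g | ∃ (γ : ι) (c : Sˣ), c ^ r = 1 ∧ g = B.tor K γ (Units.map f c)} ∪
    {g | ∃ γ, γ ∈ s ∧ ∃ t : S, g = B.x K γ (f t)})

lemma t6rG_induction {s : Set ι} {r : ℕ} {S K : Type*} [CommRing S] [CommRing K] {f : S →+* K}
    {p : GL (b.support ⊕ ι) K → Prop} (h1 : p 1)
    (htor : ∀ (γ : ι) (c : Sˣ), c ^ r = 1 → ∀ y, p y → p (B.tor K γ (Units.map f c) * y))
    (hx : ∀ γ ∈ s, ∀ (t : S) y, p y → p (B.x K γ (f t) * y)) {g : GL (b.support ⊕ ι) K}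
    (hg : g ∈ B.t6rG s r f) : p g := by
  induction hg using Subgroup.closure_induction_left with
  | one => exact h1
  | mul_left x hx' y hy ih =>
    rcases hx' with ⟨γ, c, hc, rfl⟩ | ⟨γ, hγ, t, rfl⟩
    · exact htor γ c hc y ih
    · exact hx γ hγ t y ih
  | inv_mul_cancel x hx' y hy ih =>
    rcases hx' with ⟨γ, c, hc, rfl⟩ | ⟨γ, hγ, t, rfl⟩
    · rw [t6r_tor_inv, ← map_inv]
      exact htor γ c⁻¹ (by rw [inv_pow, hc, inv_one]) y ih
    · rw [← x_neg, ← map_neg]
      exact hx γ hγ (-t) y ih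

lemma t6r_x_entry {R : Type*} [CommRing R] {γ : ι} {t : R} {i i' : b.support ⊕ ι}
    (h : B.xMat R γ t i i' ≠ 0) : i = i' ∨ ∃ j, 1 ≤ j ∧ B.dpow γ j i i' ≠ 0 := by
  rw [xMat_apply] at h
  obtain ⟨j, -, hj⟩ := Finset.exists_ne_zero_of_sum_ne_zero h
  rcases Nat.eq_zero_or_pos j with rfl | hj0
  · left
    rw [dpow_zero, Matrix.one_apply] at hj
    by_contra hne
    rw [if_neg hne] at hj
    simp at hj
  · right
    refine ⟨j, hj0, fun h0 => hj ?_⟩
    rw [h0]
    simp

lemma t6r_tor_entry {R : Type*} [CommRing R] {γ : ι} {c : Rˣ} {i i' : b.support ⊕ ι}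
    (h : (B.tor R γ c).val i i' ≠ 0) : i = i' := by
  by_contra hne
  rw [tor_val, Matrix.diagonal_apply_ne _ hne] at h
  exact h rfl

lemma t6r_deg {s : Set ι} {r : ℕ} {S K : Type*} [CommRing S] [CommRing K] {f : S →+* K}
    {α : ι} (hs : ∀ γ ∈ s, pr P γ α = 0) {g : GL (b.support ⊕ ι) K} (hg : g ∈ B.t6rG s r f)
    {i i' : b.support ⊕ ι} (hne : g.val i i' ≠ 0) : t3W P α i = t3W P α i' := by
  revert i i'
  refine B.t6rG_induction (p := fun g => ∀ {i i' : b.support ⊕ ι}, g.val i i' ≠ 0 →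
    t3W P α i = t3W P α i') ?_ ?_ ?_ hg
  · intro i i' h
    rw [Units.val_one, Matrix.one_apply] at h
    have : i = i' := by by_contra hne; exact h (if_neg hne)
    rw [this]
  · intro γ c _ y ih i i' h
    rw [Units.val_mul, Matrix.mul_apply] at h
    obtain ⟨m, -, hm⟩ := Finset.exists_ne_zero_of_sum_ne_zero h
    rw [B.t6r_tor_entry (left_ne_zero_of_mul hm)]
    exact ih (right_ne_zero_of_mul hm)
  · intro γ hγ t y ih i i' h
    rw [Units.val_mul, Matrix.mul_apply] at h
    obtain ⟨m, -, hm⟩ := Finset.exists_ne_zero_of_sum_ne_zero h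
    rw [← ih (right_ne_zero_of_mul hm)]
    rcases B.t6r_x_entry (left_ne_zero_of_mul hm) with rfl | ⟨j, -, hj⟩
    · rfl
    · rw [B.t3W_of_dpow hj (α := α), hs γ hγ, mul_zero, add_zero]

lemma t6r_upper {s : Set ι} {r : ℕ} {S K : Type*} [CommRing S] [CommRing K] {f : S →+* K}
    (hs : ∀ γ ∈ s, b.IsPos γ) {g : GL (b.support ⊕ ι) K} (hg : g ∈ B.t6rG s r f) :
    (∀ i i' : b.support ⊕ ι, g.val i i' ≠ 0 → i = i' ∨ t6rH b i' < t6rH b i) ∧
      ∀ a : b.support, g.val (.inl a) (.inl a) = 1 := by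
  refine B.t6rG_induction (p := fun g => (∀ i i' : b.support ⊕ ι, g.val i i' ≠ 0 →
    i = i' ∨ t6rH b i' < t6rH b i) ∧ ∀ a : b.support, g.val (.inl a) (.inl a) = 1) ?_ ?_ ?_ hg
  · refine ⟨fun i i' h => Or.inl ?_, fun a => by simp⟩
    rw [Units.val_one, Matrix.one_apply] at h
    by_contra hne
    exact h (if_neg hne)
  · rintro γ c _ y ⟨ih, ih'⟩
    refine ⟨fun i i' h => ?_, fun a => ?_⟩
    · rw [Units.val_mul, Matrix.mul_apply] at h
      obtain ⟨m, -, hm⟩ := Finset.exists_ne_zero_of_sum_ne_zero h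
      rw [B.t6r_tor_entry (left_ne_zero_of_mul hm)]
      exact ih _ _ (right_ne_zero_of_mul hm)
    · rw [Units.val_mul, tor_val, Matrix.diagonal_mul, ih' a]
      simp [t3W]
  · rintro γ hγ t y ⟨ih, ih'⟩
    have hpos : 0 < b.height γ := hs γ hγ
    have hx : ∀ i m : b.support ⊕ ι, (B.x K γ (f t)).val i m ≠ 0 →
        i = m ∨ t6rH b m < t6rH b i := by
      intro i m hm
      rcases B.t6r_x_entry hm with rfl | ⟨j, hj1, hj⟩
      · exact Or.inl rfl
      · right
        rw [B.t6r_ht_of_dpow hj]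
        have : 0 < (j : ℤ) * b.height γ := mul_pos (by exact_mod_cast hj1) hpos
        omega
    refine ⟨fun i i' h => ?_, fun a => ?_⟩
    · rw [Units.val_mul, Matrix.mul_apply] at h
      obtain ⟨m, -, hm⟩ := Finset.exists_ne_zero_of_sum_ne_zero h
      rcases hx i m (left_ne_zero_of_mul hm) with rfl | h1
      · exact ih _ _ (right_ne_zero_of_mul hm)
      · rcases ih _ _ (right_ne_zero_of_mul hm) with rfl | h2
        · exact Or.inr h1
        · exact Or.inr (h2.trans h1)
    · rw [Units.val_mul, Matrix.mul_apply, Finset.sum_eq_single (.inl a), ih' a, mul_one, coe_x,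
        xMat_apply_self]
      · intro m _ hm
        by_contra h0
        rcases hx _ _ (left_ne_zero_of_mul h0) with h1 | h1
        · exact hm h1.symm
        · rcases ih _ _ (right_ne_zero_of_mul h0) with h2 | h2
          · exact hm h2
          · exact lt_irrefl _ (h2.trans h1)
      · intro h0
        exact absurd (Finset.mem_univ _) h0

lemma t6r_isAut {s : Set ι} {r : ℕ} {S K : Type*} [CommRing S] [CommRing K] {f : S →+* K}
    {g : GL (b.support ⊕ ι) K} (hg : g ∈ B.t6rG s r f) : B.IsAut K g := by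
  refine B.t6rG_induction (p := fun g => B.IsAut K g) (B.isAut_one K) ?_ ?_ hg
  · intro γ c _ y ih
    exact IsAut.mul B (B.isAut_tor γ _) ih
  · intro γ _ t y ih
    exact IsAut.mul B (B.isAut_x γ _) ih

lemma t6r_eq_one {K : Type*} [CommRing K] {l : GL (b.support ⊕ ι) K}
    (h : ∀ i, l.val *ᵥ ev b K i = ev b K i) : l = 1 := by
  apply Units.ext
  apply Matrix.ext_of_mulVec_single
  intro i
  rw [Units.val_one, Matrix.one_mulVec]
  exact h i

/-- brackets of root vectors -/
lemma t6r_bracket {K : Type*} [CommRing K] {α β γ : ι} (h : P.root γ = P.root α + P.root β) :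
    B.adM K (ev b K (.inr α)) *ᵥ ev b K (.inr β) =
      ((B.adE α (.inr γ) (.inr β) : ℤ) : K) • ev b K (.inr γ) := by
  rw [adM_ev, adI_inr, mulVec_ev]
  ext i
  rw [Matrix.map_apply, B.adE_inr_of_add h, Pi.smul_apply, ev_apply, smul_eq_mul]
  split_ifs <;> simp

lemma t6r_bracket_zero {K : Type*} [CommRing K] {α β : ι}
    (h : P.root α + P.root β ∉ Set.range P.root) (h0 : P.root α + P.root β ≠ 0) :
    B.adM K (ev b K (.inr α)) *ᵥ ev b K (.inr β) = 0 := by
  rw [adM_ev, adI_inr, mulVec_ev]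
  ext i
  rw [Matrix.map_apply, B.adE_inr_of_not_root h h0]
  simp

lemma t6r_fix_bracket {K : Type*} [CommRing K] {l : GL (b.support ⊕ ι) K} (hl : B.IsAut K l)
    {z w : b.support ⊕ ι → K} (hz : l.val *ᵥ z = z) (hw : l.val *ᵥ w = w) :
    l.val *ᵥ (B.adM K z *ᵥ w) = B.adM K z *ᵥ w := by
  rw [IsAut.mulVec_adM B hl, hz, hw]

/-- if `e_γ` is `± [e_α, e_β]` with `e_α, e_β` fixed, it is fixed -/
lemma t6r_fix_of_bracket {K : Type*} [CommRing K] {l : GL (b.support ⊕ ι) K}
    (hl : B.IsAut K l) {α β γ : ι} (h : P.root γ = P.root α + P.root β)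
    (h1 : B.adE α (.inr γ) (.inr β) ^ 2 = 1)
    (hα : l.val *ᵥ ev b K (.inr α) = ev b K (.inr α))
    (hβ : l.val *ᵥ ev b K (.inr β) = ev b K (.inr β)) :
    l.val *ᵥ ev b K (.inr γ) = ev b K (.inr γ) := by
  have h2 := B.t6r_fix_bracket hl hα hβ
  rw [B.t6r_bracket h, Matrix.mulVec_smul] at h2
  have h3 := congrArg (fun v => ((B.adE α (.inr γ) (.inr β) : ℤ) : K) • v) h2
  simp only [smul_smul] at h3
  have h4 : ((B.adE α (.inr γ) (.inr β) : ℤ) : K) * ((B.adE α (.inr γ) (.inr β) : ℤ) : K) = 1 := by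
    rw [← Int.cast_mul, ← pow_two, h1, Int.cast_one]
  rwa [h4, one_smul, one_smul] at h3

/-- `h_α ≠ 0` over every nontrivial ring -/
lemma t6r_hvec_ne_zero (K : Type*) [CommRing K] [Nontrivial K] (α : ι) : B.hvec K α ≠ 0 := by
  induction α using b.induction_reflect with
  | h₀ α h =>
    have : B.hvec K (neg P α) = -B.hvec K α := B.t3_hvec_neg K α
    change B.hvec K (neg P α) ≠ 0
    rw [this]
    exact neg_ne_zero.2 h
  | h₁ α hα =>
    intro h
    have h1 : P.coroot α = ∑ i : b.support, (Pi.single (⟨α, hα⟩ : b.support) (1 : ℤ) :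
        b.support → ℤ) i • P.coroot i := by
      rw [Finset.sum_eq_single (⟨α, hα⟩ : b.support)]
      · simp
      · intro i _ hi
        rw [Pi.single_eq_of_ne hi, zero_smul]
      · intro h
        exact absurd (Finset.mem_univ _) h
    have h2 := B.adE_inr_neg _ (root_neg P α) h1 (.inl ⟨α, hα⟩)
    have h3 : B.cc α ⟨α, hα⟩ = 1 := by
      rw [cc, h2]
      simp
    have h4 := congrFun h (.inl ⟨α, hα⟩)
    simp only [hvec, Sum.elim_inl, h3, Int.cast_one, Pi.zero_apply] at h4
    exact one_ne_zero h4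
  | h₂ β α h hα =>
    intro h0
    -- `n_α h_β = ± h_{s_α β}`
    have hbr : ∀ δ, B.adM K (ev b K (.inr δ)) *ᵥ ev b K (.inr (neg P δ)) = B.hvec K δ := by
      intro δ
      rw [adM_ev, adI_inr, mulVec_ev]
      ext i
      rw [Matrix.map_apply, B.adE_inr_neg' (root_neg P δ)]
      rcases i with i | i <;> simp [hvec]
    have h1 : (B.n1 K α).val *ᵥ B.hvec K β = 0 := by
      rw [← hbr β, IsAut.mulVec_adM B (B.isAut_n1 K α), n1_mulVec_inr, n1_mulVec_inr,
        adM_smul, Matrix.smul_mulVec, Matrix.mulVec_smul]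
      have h2 : P.reflectionPerm α (neg P β) = neg P (P.reflectionPerm α β) := by
        apply P.root.injective
        rw [root_neg, P.root_reflectionPerm, P.root_reflectionPerm, root_neg, map_neg]
      rw [h2, hbr, h0, smul_zero, smul_zero]
    have h2 := congrArg (fun v => (B.n1 K α)⁻¹.val *ᵥ v) h1
    simp only [Matrix.mulVec_mulVec, Matrix.mulVec_zero] at h2
    rw [← Units.val_mul, inv_mul_cancel, Units.val_one, Matrix.one_mulVec] at h2
    exact h h2

/-- if a unitriangular (in height) automorphism fixes all root vectors, it is trivial -/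
lemma t6r_fix_inl {K : Type*} [Field K] {l : GL (b.support ⊕ ι) K} (hl : B.IsAut K l)
    (hup : ∀ i i' : b.support ⊕ ι, l.val i i' ≠ 0 → i = i' ∨ t6rH b i' < t6rH b i)
    (hdiag : ∀ a : b.support, l.val (.inl a) (.inl a) = 1)
    (hfix : ∀ γ, l.val *ᵥ ev b K (.inr γ) = ev b K (.inr γ)) (a : b.support) :
    l.val *ᵥ ev b K (.inl a) = ev b K (.inl a) := by
  have hinl : ∀ a' : b.support, l.val (.inl a') (.inl a) = ev b K (.inl a) (.inl a') := by
    intro a'
    rw [ev_apply]
    split_ifs with h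
    · rw [h, hdiag]
    · by_contra hne
      rcases hup _ _ hne with h1 | h1
      · exact h h1
      · simp [t6rH] at h1
  have hinr : ∀ δ, l.val (.inr δ) (.inl a) = 0 := by
    intro δ
    -- `[l h - h, e_{-δ}] = 0`
    have h1 : B.adM K (l.val *ᵥ ev b K (.inl a) - ev b K (.inl a)) *ᵥ
        ev b K (.inr (neg P δ)) = 0 := by
      rw [← adMₗ_apply, map_sub, adMₗ_apply, adMₗ_apply, Matrix.sub_mulVec, sub_eq_zero]
      conv_lhs => rw [← hfix (neg P δ)]
      rw [← IsAut.mulVec_adM B hl]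
      have h2 : B.adM K (ev b K (.inl a)) *ᵥ ev b K (.inr (neg P δ)) =
          ((t3W P (a : ι) (.inr (neg P δ) : b.support ⊕ ι) : ℤ) : K) •
            ev b K (.inr (neg P δ)) := by
        rw [t3_adM_inl, mulVec_ev]
        ext i
        rw [Matrix.diagonal_apply, Pi.smul_apply, ev_apply, smul_eq_mul]
        split_ifs with h
        · rw [h, mul_one]
        · rw [mul_zero]
      rw [h2, Matrix.mulVec_smul, hfix]
    have h2 : l.val *ᵥ ev b K (.inl a) - ev b K (.inl a) =
        ∑ δ' : ι, l.val (.inr δ') (.inl a) • ev b K (.inr δ') := by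
      rw [mulVec_ev]
      ext i
      rw [Pi.sub_apply, Finset.sum_apply]
      rcases i with i | i
      · rw [hinl, sub_self]
        symm
        refine Finset.sum_eq_zero fun δ' _ => ?_
        rw [Pi.smul_apply, ev_apply, if_neg (by simp), smul_zero]
      · rw [ev_apply, if_neg (by simp), sub_zero, Finset.sum_eq_single i]
        · rw [Pi.smul_apply, ev_self, smul_eq_mul, mul_one]
        · intro δ' _ hδ'
          rw [Pi.smul_apply, ev_apply, if_neg (by simpa using hδ'.symm), smul_zero]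
        · intro h
          exact absurd (Finset.mem_univ _) h
    rw [h2, ← adMₗ_apply, map_sum, Matrix.sum_mulVec] at h1
    obtain ⟨i, hi⟩ : ∃ i, ((B.cc δ i : ℤ) : K) ≠ 0 := by
      by_contra! hcon
      apply B.t6r_hvec_ne_zero K δ
      ext i
      rcases i with i | i
      · simpa [hvec] using hcon i
      · simp [hvec]
    have h3 := congrFun h1 (.inl i)
    rw [Finset.sum_apply, Finset.sum_eq_single δ] at h3
    · rw [map_smul, Matrix.smul_mulVec, adMₗ_apply, adM_ev, adI_inr, mulVec_ev,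
        Pi.smul_apply, Matrix.map_apply, B.adE_inl_inr (root_neg P δ), smul_eq_mul,
        Pi.zero_apply] at h3
      exact (mul_eq_zero.1 h3).resolve_right hi
    · intro δ' _ hδ'
      rw [map_smul, Matrix.smul_mulVec, adMₗ_apply, adM_ev, adI_inr, mulVec_ev,
        Pi.smul_apply, Matrix.map_apply]
      have h4 : B.adE δ' (.inl i) (.inr (neg P δ)) = 0 := by
        by_contra hne
        have h5 := B.wt_of_adE_ne_zero hne
        simp only [wt, Sum.elim_inl, Sum.elim_inr, root_neg] at h5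
        apply hδ'
        apply P.root.injective
        rw [← sub_eq_zero, sub_eq_neg_add, ← h5]
      rw [h4]
      simp
    · intro h
      exact absurd (Finset.mem_univ _) h
  rw [mulVec_ev]
  ext i
  rcases i with i | i
  · exact hinl i
  · rw [hinr, ev_apply, if_neg (by simp)]

end structure_

variable {θ : ι} (h : IsTheta b θ)
include h

section

variable {K0 K0' K : Type*} [Field K0] [Field K0'] [Field K] (j : K0 →+* K0') (f : K0' →+* K)

omit h in
lemma t6r_Lam_le {r : ℕ} {l : GL (b.support ⊕ ι) K} (hl : l ∈ B.Lam θ r f) :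
    l ∈ B.XX r f := by
  refine Subgroup.closure_mono ?_ hl
  rintro g (hg | ⟨γ, ⟨hγ, -⟩, t, rfl⟩)
  · exact Or.inl hg
  · exact Or.inr ⟨γ, hγ, t, rfl⟩

omit h in
lemma t6r_Lam_deg {r : ℕ} {l : GL (b.support ⊕ ι) K} (hl : l ∈ B.Lam θ r f)
    {i i' : b.support ⊕ ι} (hne : l.val i i' ≠ 0) : t3W P θ i = t3W P θ i' :=
  B.t6r_deg (s := {γ | b.IsPos γ ∧ pr P γ θ = 0}) (fun _ hγ => hγ.2) hl hne

omit B in
lemma t6r_of_deg_two {i : b.support ⊕ ι} (hi : t3W P θ i = 2) : i = .inr θ := by
  rcases i with i | γ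
  · simp [t3W] at hi
  · simp only [t3W, Sum.elim_inr] at hi
    rw [h.eq_of_pr_eq_two hi]

omit B in
lemma t6r_of_deg_neg_two {i : b.support ⊕ ι} (hi : t3W P θ i = -2) : i = .inr (neg P θ) := by
  rcases i with i | γ
  · simp [t3W] at hi
  · simp only [t3W, Sum.elim_inr] at hi
    have : neg P γ = θ := h.eq_of_pr_eq_two (by rw [t3_pr_neg_left, hi]; norm_num)
    rw [← this, neg_neg']

omit h in
/-- a vector supported in degree `d` is mapped to such a vector -/
lemma t6r_mulVec_deg {r : ℕ} {l : GL (b.support ⊕ ι) K} (hl : l ∈ B.Lam θ r f) {d : ℤ}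
    {v : b.support ⊕ ι → K} (hv : ∀ i, v i ≠ 0 → t3W P θ i = d) {i : b.support ⊕ ι}
    (hi : (l.val *ᵥ v) i ≠ 0) : t3W P θ i = d := by
  rw [Matrix.mulVec, dotProduct] at hi
  obtain ⟨m, -, hm⟩ := Finset.exists_ne_zero_of_sum_ne_zero hi
  rw [B.t6r_Lam_deg f hl (left_ne_zero_of_mul hm)]
  exact hv m (right_ne_zero_of_mul hm)

/-- `l e_θ = e_θ` -/
lemma t6r_fix_theta {r : ℕ} {l : GL (b.support ⊕ ι) K} (hl : l ∈ B.Lam θ r f)
    (hθ : l.val (.inr θ) (.inr θ) = 1) : l.val *ᵥ ev b K (.inr θ) = ev b K (.inr θ) := by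
  rw [mulVec_ev]
  ext i
  rw [ev_apply]
  split_ifs with hi
  · rw [hi, hθ]
  · by_contra hne
    have h2 := B.t6r_Lam_deg f hl hne
    rw [show t3W P θ (.inr θ : b.support ⊕ ι) = 2 from t3_pr_self P θ] at h2
    exact hi (t6r_of_deg_two h h2)

/-- `l e_{-θ} = e_{-θ}` -/
lemma t6r_fix_neg_theta {r : ℕ} {l : GL (b.support ⊕ ι) K} (hl : l ∈ B.Lam θ r f)
    (hθ : l.val (.inr θ) (.inr θ) = 1) :
    l.val *ᵥ ev b K (.inr (neg P θ)) = ev b K (.inr (neg P θ)) := by
  have h0 : l.val *ᵥ ev b K (.inr (neg P θ)) =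
      l.val (.inr (neg P θ)) (.inr (neg P θ)) • ev b K (.inr (neg P θ)) := by
    rw [mulVec_ev]
    ext i
    rw [Pi.smul_apply, ev_apply]
    split_ifs with hi
    · rw [hi, smul_eq_mul, mul_one]
    · rw [smul_zero]
      by_contra hne
      have h2 := B.t6r_Lam_deg f hl hne
      rw [show t3W P θ (.inr (neg P θ) : b.support ⊕ ι) = -2 from by
        simp only [t3W, Sum.elim_inr]
        rw [t3_pr_neg_left, t3_pr_self]] at h2
      exact hi (t6r_of_deg_neg_two h h2)
  set c := l.val (.inr (neg P θ)) (.inr (neg P θ)) with hc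
  have h1 := B.XX_conj_x_theta h f (B.t6r_Lam_le f hl) 1
  rw [hθ, one_mul, mul_inv_eq_iff_eq_mul] at h1
  have h2 := congrArg (fun g => g.val *ᵥ ev b K (.inr (neg P θ))) h1
  simp only [Units.val_mul, coe_x, ← Matrix.mulVec_mulVec] at h2
  rw [h0, Matrix.mulVec_smul, xMat_mulVec_neg, Matrix.mulVec_sub, Matrix.mulVec_add, h0,
    Matrix.mulVec_smul, Matrix.mulVec_smul, B.t6r_fix_theta h f hl hθ] at h2
  have h3 := congrFun h2 (.inr θ)
  have hne : (Sum.inr θ : b.support ⊕ ι) ≠ .inr (neg P θ) := by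
    intro h4
    have h5 := congrArg (t3W P θ) h4
    simp only [t3W, Sum.elim_inr] at h5
    rw [t3_pr_neg_left, t3_pr_self] at h5
    norm_num at h5
  have h4 : (l.val *ᵥ B.hvec K θ) (.inr θ) = 0 := by
    by_contra h5
    have h6 := B.t6r_mulVec_deg f hl (d := 0) (v := B.hvec K θ) (by
      intro i hi
      rcases i with i | i
      · simp [t3W]
      · simp [hvec] at hi) h5
    rw [show t3W P θ (.inr θ : b.support ⊕ ι) = 2 from t3_pr_self P θ] at h6
    norm_num at h6
  simp only [Pi.sub_apply, Pi.add_apply, Pi.smul_apply, smul_eq_mul, h4] at h3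
  simp only [ev_self, ev_apply, if_neg hne, hvec, Sum.elim_inr, Pi.zero_apply] at h3
  have h5 : c = 1 := by linear_combination h3
  rw [h0, h5, one_smul]

/-- if `l` fixes `e_β`, `β ∈ Φ_1`, it fixes `e_δ`, `δ ∈ Φ_{-1}` -/
lemma t6r_fix_neg_one {r : ℕ} {l : GL (b.support ⊕ ι) K} (hl : l ∈ B.Lam θ r f)
    (hθ : l.val (.inr θ) (.inr θ) = 1)
    (h1 : ∀ β, pr P β θ = 1 → l.val *ᵥ ev b K (.inr β) = ev b K (.inr β)) {δ : ι}
    (hδ : pr P δ θ = -1) : l.val *ᵥ ev b K (.inr δ) = ev b K (.inr δ) := by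
  have hβ : pr P (P.reflectionPerm θ δ) θ = 1 := by
    have h2 : pr P (P.reflectionPerm θ δ) (P.reflectionPerm θ (neg P θ)) = pr P δ (neg P θ) :=
      t3_pr_refl P _ _ _
    have h3 : P.reflectionPerm θ (neg P θ) = θ := by
      apply P.root.injective
      rw [P.root_reflectionPerm, root_neg, map_neg, P.reflection_apply_self, neg_neg]
    rw [h3, t3_pr_neg_right, hδ] at h2
    rw [h2]
    norm_num
  have h2 := B.adE_neg_theta_sq h hβ
  have h3 : P.reflectionPerm θ (P.reflectionPerm θ δ) = δ := P.reflectionPerm_involutive θ δ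
  rw [h3] at h2
  have h4 := (h.root_theta_sub hβ).2.1
  rw [h3] at h4
  refine B.t6r_fix_of_bracket (B.t6r_isAut (s := {γ | b.IsPos γ ∧ pr P γ θ = 0}) hl)
    (α := P.reflectionPerm θ δ) (β := neg P θ) ?_ h2 (h1 _ hβ) (B.t6r_fix_neg_theta h f hl hθ)
  rw [h4, root_neg, sub_eq_add_neg]

/-- a root vector in degree zero is fixed -/
lemma t6r_fix_zero [P.IsIrreducible] {r : ℕ} {l : GL (b.support ⊕ ι) K} (hl : l ∈ B.Lam θ r f)
    (hθ : l.val (.inr θ) (.inr θ) = 1)
    (h1 : ∀ β, pr P β θ = 1 → l.val *ᵥ ev b K (.inr β) = ev b K (.inr β)) {γ : ι}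
    (hγ : pr P γ θ = 0) : l.val *ᵥ ev b K (.inr γ) = ev b K (.inr γ) := by
  have haut := B.t6r_isAut (s := {γ | b.IsPos γ ∧ pr P γ θ = 0}) hl
  obtain ⟨β₁, β₂, hβ₁, hβ₂, hγe⟩ := h.exists_sub hγ
  have hne := B.t6r_fix_neg_one h f hl hθ h1 (δ := neg P β₂) (by rw [t3_pr_neg_left, hβ₂])
  have hadd : P.root γ = P.root β₁ + P.root (neg P β₂) := by
    rw [hγe, root_neg, sub_eq_add_neg]
  by_cases hcase : P.root β₁ + P.root β₂ = P.root θ
  · -- `γ = 2 β₁ - θ`
    have hent : ∀ β δ, pr P δ θ = 1 → l.val (.inr β) (.inr δ) = if β = δ then 1 else 0 := by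
      intro β δ hδ
      have h2 := congrFun (h1 δ hδ) (.inr β)
      rw [mulVec_ev, ev_apply] at h2
      simp only [Sum.inr.injEq] at h2
      exact h2
    have hxQ : ∀ t : K, B.x K β₁ t ∈ B.QQ θ (RingHom.id K) := fun t =>
      Subgroup.subset_closure ⟨β₁, by simp [hβ₁], t, rfl⟩
    have hq : l * B.x K β₁ 1 * l⁻¹ ∈ B.QQ θ (RingHom.id K) :=
      B.Lam_conj_mem h f (RingHom.id K) (by rwa [RingHom.id_comp]) (hxQ 1)
    obtain ⟨z, hz⟩ := B.eq_x_theta h (RingHom.id K) (mul_mem (hxQ (-1)) hq) (by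
      intro β hβ
      rw [B.vv_mul h (hxQ (-1)) hq hβ, B.vv_conj h f hl (hxQ 1) hβ, B.vv_x h hβ₁ hβ,
        Finset.sum_eq_single (⟨β₁, hβ₁⟩ : {δ // pr P δ θ = 1})]
      · rw [hent β β₁ hβ₁, B.vv_x h hβ₁ hβ₁, if_pos rfl]
        split_ifs <;> simp
      · rintro ⟨δ, hδ⟩ _ hne'
        rw [B.vv_x h hβ₁ hδ, if_neg (fun h0 => hne' (Subtype.ext h0)), mul_zero]
      · intro h0
        exact absurd (Finset.mem_univ _) h0)
    rw [RingHom.id_apply] at hz
    have hz' : l * B.x K β₁ 1 = B.x K β₁ 1 * (B.x K θ z * l) := by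
      rw [← hz, x_neg]
      group
    have hf := B.t6r_fix_neg_theta h f hl hθ
    have h2 := congrArg (fun g => g.val *ᵥ ev b K (.inr (neg P θ))) hz'
    simp only [Units.val_mul, coe_x, ← Matrix.mulVec_mulVec] at h2
    have hnr := h.theta_add_not_root (β := β₁) (by rw [hβ₁]; norm_num)
    rw [hf, xMat_mulVec_neg (t := z), Matrix.mulVec_sub, Matrix.mulVec_add, Matrix.mulVec_smul,
      Matrix.mulVec_smul, xMat_mulVec_hvec, hβ₁, B.xMat_mulVec_of_not_root K (α := β₁) (β := θ) 1
        (by rw [add_comm]; exact hnr.1) (by rw [add_comm]; exact hnr.2)] at h2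
    set u := B.xMat K β₁ 1 *ᵥ ev b K (.inr (neg P θ)) with hu
    -- the degree zero part of `u` is `ε e_γ`
    have hγ2 : P.root γ = P.root (neg P θ) + 2 • P.root β₁ := by
      rw [hγe, root_neg, ← hcase]
      module
    have hli : LinearIndependent k ![P.root β₁, P.root (neg P θ)] := by
      have h3 := h.linearIndependent hβ₁
      rw [LinearIndependent.pair_iff] at h3 ⊢
      intro s t hst
      rw [root_neg] at hst
      have := h3 s (-t) (by rw [← hst]; module)
      simpa using this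
    obtain ⟨ε, hε, hεe⟩ := B.dpow_string hli hγ2
    rw [h.chainBotCoeff_neg_theta hβ₁] at hεe
    have hu0 : ∀ i, t3W P θ i = 0 → u i = if i = .inr γ then (ε : K) else 0 := by
      intro i hi
      rw [hu, mulVec_ev]
      beta_reduce
      rw [xMat_apply, Finset.sum_eq_single 2]
      · rw [hεe]
        split_ifs <;> simp
      · intro j _ hj
        have h3 : B.dpow β₁ j i (.inr (neg P θ)) = 0 := by
          by_contra h4
          have h5 := B.t3W_of_dpow h4 (α := θ)
          simp only [t3W, Sum.elim_inr] at h5 hi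
          rw [hi, t3_pr_neg_left, t3_pr_self, hβ₁] at h5
          apply hj
          omega
        rw [h3]
        simp
      · intro h0
        exact absurd (Finset.mem_range.2 (by norm_num)) h0
    have hεK : (ε : K) * (ε : K) = 1 := by
      rcases hε with rfl | rfl <;> norm_num
    have hlγ : l.val *ᵥ ev b K (.inr γ) = ev b K (.inr γ) + ((ε : K) * z) • B.hvec K θ := by
      rw [mulVec_ev]
      ext i
      by_cases hi : t3W P θ i = 0
      · have h3 := congrFun h2 i
        have h4 : (l.val *ᵥ u) i = l.val i (.inr γ) * (ε : K) := by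
          rw [Matrix.mulVec, dotProduct, Finset.sum_eq_single (.inr γ)]
          · rw [hu0 (.inr γ) (by simpa [t3W] using hγ), if_pos rfl]
          · intro m _ hm
            by_cases hm0 : t3W P θ m = 0
            · rw [hu0 m hm0, if_neg hm, mul_zero]
            · have h5 : l.val i m = 0 := by
                by_contra h6
                exact hm0 ((B.t6r_Lam_deg f hl h6).symm.trans hi)
              rw [h5, zero_mul]
          · intro h0
            exact absurd (Finset.mem_univ _) h0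
        have hi1 : ev b K (.inr β₁) i = 0 := by
          rw [ev_apply, if_neg]
          rintro rfl
          simp only [t3W, Sum.elim_inr] at hi
          omega
        have hi2 : ev b K (.inr θ) i = 0 := by
          rw [ev_apply, if_neg]
          rintro rfl
          simp only [t3W, Sum.elim_inr] at hi
          rw [t3_pr_self] at hi
          omega
        simp only [Pi.add_apply, Pi.sub_apply, Pi.smul_apply, smul_eq_mul, h4, hi1, hi2,
          hu0 i hi] at h3
        simp only [Pi.add_apply, Pi.smul_apply, smul_eq_mul, ev_apply]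
        by_cases hig : i = .inr γ
        · rw [if_pos hig] at h3 ⊢
          linear_combination (ε : K) * h3 - (l.val i (.inr γ) - 1) * hεK
        · rw [if_neg hig] at h3 ⊢
          linear_combination (ε : K) * h3 - (l.val i (.inr γ)) * hεK
      · have h3 : l.val i (.inr γ) = 0 := by
          by_contra h6
          apply hi
          rw [B.t6r_Lam_deg f hl h6]
          simpa [t3W] using hγ
        rcases i with i | i
        · exact absurd (by simp [t3W]) hi
        · rw [h3, Pi.add_apply, ev_apply, if_neg, Pi.smul_apply]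
          · simp [hvec]
          · intro h4
            apply hi
            rw [h4]
            simpa [t3W] using hγ
    -- bracket with `e_{β₁}`
    have hbr : l.val *ᵥ (B.adM K (ev b K (.inr γ)) *ᵥ ev b K (.inr β₁)) =
        B.adM K (ev b K (.inr γ)) *ᵥ ev b K (.inr β₁) := by
      by_cases hroot : P.root γ + P.root β₁ ∈ Set.range P.root
      · obtain ⟨δ, hδ⟩ := hroot
        have hδ1 : pr P δ θ = 1 := by
          rw [t1_pr_of_root_eq_add θ hδ, hγ, hβ₁, zero_add]
        rw [B.t6r_bracket hδ, Matrix.mulVec_smul, h1 δ hδ1]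
      · have hne0 : P.root γ + P.root β₁ ≠ 0 := by
          intro h0
          have h3 : γ = neg P β₁ := by
            apply P.root.injective
            rw [root_neg]
            exact eq_neg_of_add_eq_zero_left h0
          rw [h3, t3_pr_neg_left, hβ₁] at hγ
          norm_num at hγ
        rw [B.t6r_bracket_zero hroot hne0, Matrix.mulVec_zero]
    rw [IsAut.mulVec_adM B haut, hlγ, h1 β₁ hβ₁, adM_add, adM_smul, Matrix.add_mulVec,
      add_eq_left, Matrix.smul_mulVec, t3_adM_hvec] at hbr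
    have h3 := congrFun hbr (.inr β₁)
    rw [Pi.smul_apply, mulVec_ev, Pi.zero_apply] at h3
    beta_reduce at h3
    rw [Matrix.diagonal_apply_eq] at h3
    simp only [t3W, Sum.elim_inr, hβ₁, Int.cast_one, smul_eq_mul, mul_one] at h3
    rw [hlγ, h3, zero_smul, add_zero]
  · refine B.t6r_fix_of_bracket haut hadd ?_ (h1 _ hβ₁) hne
    have h0 : P.chainBotCoeff β₁ (neg P β₂) = 0 := by
      rw [P.chainBotCoeff_eq_zero_iff]
      right
      rintro ⟨δ, hδ⟩
      have h2 : P.root (neg P δ) = P.root β₁ + P.root β₂ := by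
        rw [root_neg, hδ, root_neg]
        abel
      have h3 := h.add_eq_theta hβ₁ hβ₂ h2
      rw [h3] at h2
      exact hcase h2.symm
    rcases B.adE_inr_inr hadd with h2 | h2 <;> rw [h2, h0] <;> norm_num

/-- rigidity -/
lemma Lam_eq_one [P.IsIrreducible] {r : ℕ} {l : GL (b.support ⊕ ι) K} (hl : l ∈ B.Lam θ r f)
    (hθ : l.val (.inr θ) (.inr θ) = 1)
    (h1 : ∀ β γ, pr P β θ = 1 → pr P γ θ = 1 →
      l.val (.inr γ) (.inr β) = if γ = β then 1 else 0) : l = 1 := by
  have haut := B.t6r_isAut (s := {γ | b.IsPos γ ∧ pr P γ θ = 0}) hl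
  obtain ⟨hup, hdiag⟩ := B.t6r_upper (s := {γ | b.IsPos γ ∧ pr P γ θ = 0}) (fun _ hγ => hγ.1) hl
  have h1' : ∀ β, pr P β θ = 1 → l.val *ᵥ ev b K (.inr β) = ev b K (.inr β) := by
    intro β hβ
    rw [mulVec_ev]
    ext i
    by_cases hi : t3W P θ i = 1
    · rcases i with i | γ
      · simp [t3W] at hi
      · rw [h1 β γ hβ (by simpa [t3W] using hi), ev_apply]
        simp only [Sum.inr.injEq]
    · have h3 : l.val i (.inr β) = 0 := by
        by_contra h6
        apply hi
        rw [B.t6r_Lam_deg f hl h6]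
        simpa [t3W] using hβ
      rw [h3, ev_apply, if_neg]
      rintro rfl
      exact hi (by simpa [t3W] using hβ)
  have hfix : ∀ γ, l.val *ᵥ ev b K (.inr γ) = ev b K (.inr γ) := by
    intro γ
    rcases h.pr_mem γ with hγ | hγ | hγ | hγ | hγ
    · have : neg P γ = θ := h.eq_of_pr_eq_two (by rw [t3_pr_neg_left, hγ]; norm_num)
      have h2 : γ = neg P θ := by rw [← this, neg_neg']
      rw [h2]
      exact B.t6r_fix_neg_theta h f hl hθ
    · exact B.t6r_fix_neg_one h f hl hθ h1' hγ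
    · exact B.t6r_fix_zero h f hl hθ h1' hγ
    · exact h1' γ hγ
    · rw [h.eq_of_pr_eq_two hγ]
      exact B.t6r_fix_theta h f hl hθ
  refine t6r_eq_one fun i => ?_
  rcases i with i | i
  · exact B.t6r_fix_inl haut hup hdiag hfix i
  · exact hfix i

/-! ### the strong form -/

/-- diagonal elements given by a character of the root lattice -/
def t6rIsTor (t : GL (b.support ⊕ ι) K) (χ : ι → Kˣ) : Prop :=
  (∀ i, t.val *ᵥ ev b K (.inl i) = ev b K (.inl i)) ∧
  (∀ β, t.val *ᵥ ev b K (.inr β) = (χ β : K) • ev b K (.inr β)) ∧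
  (∀ (α β δ : ι) (i j : ℤ), P.root δ = i • P.root α + j • P.root β →
    χ δ = χ α ^ i * χ β ^ j) ∧
  ∀ β u, t * B.x K β u * t⁻¹ = B.x K β ((χ β : K) * u)

omit h in
lemma t6rIsTor_one : B.t6rIsTor (1 : GL (b.support ⊕ ι) K) 1 :=
  ⟨fun i => by simp, fun β => by simp, fun α β δ i j _ => by simp, fun β u => by simp⟩

omit h in
lemma t6rIsTor_tor (γ : ι) (c : Kˣ) : B.t6rIsTor (B.tor K γ c) (fun β => c ^ pr P β γ) := by
  refine ⟨fun i => B.tor_mulVec_inl K γ i c, fun β => B.tor_mulVec_inr K γ β c,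
    fun α β δ i j hδ => ?_, fun β u => B.tor_conj_x K γ β c u⟩
  have h2 : pr P δ γ = i * pr P α γ + j * pr P β γ := by
    have := RootPairing.pairingIn_eq_add_of_root_eq_smul_add_smul (S := ℤ) (j := γ) hδ
    simpa using this
  simp only
  rw [h2, _root_.zpow_add, mul_comm i, mul_comm j, _root_.zpow_mul, _root_.zpow_mul]

omit h in
lemma t6rIsTor_mul {t t' : GL (b.support ⊕ ι) K} {χ χ' : ι → Kˣ} (ht : B.t6rIsTor t χ)
    (ht' : B.t6rIsTor t' χ') : B.t6rIsTor (t * t') (χ * χ') := by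
  refine ⟨fun i => ?_, fun β => ?_, fun α β δ i j hδ => ?_, fun β u => ?_⟩
  · rw [Units.val_mul, ← Matrix.mulVec_mulVec, ht'.1, ht.1]
  · rw [Units.val_mul, ← Matrix.mulVec_mulVec, ht'.2.1, Matrix.mulVec_smul, ht.2.1, smul_smul,
      Pi.mul_apply, Units.val_mul, mul_comm]
  · simp only [Pi.mul_apply]
    rw [ht.2.2.1 α β δ i j hδ, ht'.2.2.1 α β δ i j hδ, mul_zpow, mul_zpow]
    exact mul_mul_mul_comm _ _ _ _
  · rw [Pi.mul_apply, Units.val_mul, mul_assoc (χ β : K), ← ht.2.2.2, ← ht'.2.2.2]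
    group

omit h in
/-- if there is only one root in `Φ_0^+`, then `Λ` consists of the `t x_γ(u)` -/
lemma t6r_Lam_form {r : ℕ} {γ₀ : ι} (hγ₀ : ∀ γ, b.IsPos γ → pr P γ θ = 0 → γ = γ₀)
    {l : GL (b.support ⊕ ι) K} (hl : l ∈ B.Lam θ r f) :
    ∃ (t : GL (b.support ⊕ ι) K) (χ : ι → Kˣ) (u : K), B.t6rIsTor t χ ∧
      l = t * B.x K γ₀ u := by
  refine B.t6rG_induction (s := {γ | b.IsPos γ ∧ pr P γ θ = 0}) (r := r) (f := f)
    (p := fun l => ∃ (t : GL (b.support ⊕ ι) K) (χ : ι → Kˣ) (u : K), B.t6rIsTor t χ ∧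
      l = t * B.x K γ₀ u) ?_ ?_ ?_ hl
  · exact ⟨1, 1, 0, B.t6rIsTor_one, by rw [x_zero, mul_one]⟩
  · rintro γ c _ _ ⟨t, χ, u, ht, rfl⟩
    exact ⟨_, _, u, B.t6rIsTor_mul (B.t6rIsTor_tor γ _) ht, by rw [mul_assoc]⟩
  · rintro γ ⟨hγ, hγ'⟩ s _ ⟨t, χ, u, ht, rfl⟩
    rw [hγ₀ γ hγ hγ']
    refine ⟨t, χ, ((χ γ₀)⁻¹ : Kˣ) * f s + u, ht, ?_⟩
    have h2 := ht.2.2.2 γ₀ (((χ γ₀)⁻¹ : Kˣ) * f s)
    rw [Units.mul_inv_cancel_left] at h2
    rw [← h2, x_add]
    group

/-- rigidity, strong form (for type `G_2` in characteristic `3`): it is enough to look at the `β`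
with `⟨θ, β^∨⟩ ≠ 3`. -/
lemma Lam_eq_one_strong [P.IsIrreducible] (h3 : (3 : K) = 0) {r : ℕ}
    {l : GL (b.support ⊕ ι) K} (hl : l ∈ B.Lam θ r f)
    (hθ : l.val (.inr θ) (.inr θ) = 1)
    (h1 : ∀ β γ, pr P β θ = 1 → pr P γ θ = 1 → pr P θ β ≠ 3 → pr P θ γ ≠ 3 →
      l.val (.inr γ) (.inr β) = if γ = β then 1 else 0) : l = 1 := by
  by_cases hG : ∃ β, pr P β θ = 1 ∧ pr P θ β = 3
  swap
  · push Not at hG
    exact B.Lam_eq_one h f hl hθ fun β γ hβ hγ => h1 β γ hβ hγ (hG β hβ) (hG γ hγ)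
  obtain ⟨β, hβ, hβ3⟩ := hG
  -- all roots are combinations of `θ` and `β`
  have hspan : ∀ δ, ∃ i j : ℤ, P.root δ = i • P.root θ + j • P.root β := by
    intro δ
    let _ : P.EmbeddedG2 :=
      { long := neg P θ
        short := β
        pairingIn_long_short := by
          change pr P (neg P θ) β = -3
          rw [t3_pr_neg_left, hβ3] }
    have h4 := RootPairing.EmbeddedG2.mem_span_of_mem_allRoots P
      (RootPairing.EmbeddedG2.mem_allRoots P δ)
    rw [Submodule.mem_span_pair] at h4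
    obtain ⟨a, c, hac⟩ := h4
    refine ⟨-a, c, ?_⟩
    rw [← hac]
    change a • P.root (neg P θ) + c • P.root β = _
    rw [root_neg]
    module
  -- the roots `3β - θ` and `2θ - 3β`
  let A : ι := neg P (P.reflectionPerm β θ)
  have hA : P.root A = 3 • P.root β - P.root θ := by
    rw [root_neg, t3_root_refl, hβ3]
    module
  have hpr : ∀ (δ α : ι) (i j : ℤ), P.root δ = i • P.root θ + j • P.root β →
      pr P δ α = i * pr P θ α + j * pr P β α := by
    intro δ α i j hδ
    have := RootPairing.pairingIn_eq_add_of_root_eq_smul_add_smul (S := ℤ) (j := α) hδ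
    simpa using this
  have hAθ : pr P A θ = 1 := by
    rw [hpr A θ (-1) 3 (by rw [hA]; module), t3_pr_self, hβ]
    norm_num
  have hθA : pr P θ A = 1 := by
    have h4 : pr P (P.reflectionPerm β (P.reflectionPerm β θ)) (P.reflectionPerm β θ) =
        pr P (P.reflectionPerm β θ) θ := t3_pr_refl P β _ _
    rw [P.reflectionPerm_involutive β θ] at h4
    rw [t3_pr_neg_right, h4]
    have h5 : pr P A θ = -pr P (P.reflectionPerm β θ) θ := t3_pr_neg_left P _ _
    rw [← h5, hAθ]
  have hCr := (h.root_theta_sub hAθ).1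
  have hCθ := (h.root_theta_sub hAθ).2.2
  set C : ι := neg P (P.reflectionPerm θ A) with hCdef
  have hC : P.root C = 2 • P.root θ - 3 • P.root β := by
    rw [hCr, hA]
    module
  have hθC : pr P θ C = 1 := by
    rw [hCdef, t3_pr_neg_right]
    have h4 : pr P (P.reflectionPerm θ θ) (P.reflectionPerm θ A) = pr P θ A := t3_pr_refl P θ _ _
    have h5 : P.reflectionPerm θ θ = neg P θ := rfl
    rw [h5, t3_pr_neg_left, hθA] at h4
    exact h4
  -- the root `θ - 2β`
  have hli := h.linearIndependent hβ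
  obtain ⟨γ', hγ'⟩ : P.root θ - 2 • P.root β ∈ Set.range P.root := by
    rw [P.root_sub_nsmul_mem_range_iff_le_chainBotCoeff hli]
    have h4 : P.root θ - 3 • P.root β ∈ Set.range P.root := by
      refine ⟨neg P A, ?_⟩
      rw [root_neg, hA]
      module
    rw [P.root_sub_nsmul_mem_range_iff_le_chainBotCoeff hli] at h4
    omega
  have hγ'θ : pr P γ' θ = 0 := by
    rw [hpr γ' θ 1 (-2) (by rw [hγ']; module), t3_pr_self, hβ]
    norm_num
  have hΦ0 : ∀ δ, pr P δ θ = 0 → δ = γ' ∨ δ = neg P γ' := by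
    intro δ hδ
    obtain ⟨i, j, hij⟩ := hspan δ
    have h4 := hpr δ θ i j hij
    rw [hδ, t3_pr_self, hβ] at h4
    have h5 : P.root δ = i • P.root γ' := by
      rw [hij, hγ', show j = -2 * i by omega]
      module
    rcases eq_or_neg_or_indep P γ' δ with h6 | h6 | h6
    · exact Or.inl h6
    · exact Or.inr h6
    · exfalso
      rw [LinearIndependent.pair_iff] at h6
      have := h6 (i : k) (-1) (by
        rw [h5, Int.cast_smul_eq_zsmul]
        module)
      simp at this
  -- the unipotent part vanishes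
  obtain ⟨γ₀, b₀, b₃, hγ₀, hb₀θ, hb₃θ, hθb₀, hθb₃, hb₃, hγ₀θ⟩ : ∃ γ₀ b₀ b₃ : ι,
      (∀ γ, b.IsPos γ → pr P γ θ = 0 → γ = γ₀) ∧ pr P b₀ θ = 1 ∧ pr P b₃ θ = 1 ∧
      pr P θ b₀ = 1 ∧ pr P θ b₃ = 1 ∧ P.root b₃ = P.root b₀ + 3 • P.root γ₀ ∧
      pr P γ₀ θ = 0 := by
    by_cases hpos : b.IsPos γ'
    · refine ⟨γ', A, C, fun γ hγ hγθ => ?_, hAθ, hCθ, hθA, hθC, ?_, hγ'θ⟩
      · rcases hΦ0 γ hγθ with h4 | h4
        · exact h4
        · rw [h4] at hγ
          exact absurd hpos ((RootPairing.Base.IsPos.neg_iff_not b γ').1 hγ)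
      · rw [hC, hA, hγ']
        module
    · refine ⟨neg P γ', C, A, fun γ hγ hγθ => ?_, hCθ, hAθ, hθC, hθA, ?_, ?_⟩
      · rcases hΦ0 γ hγθ with h4 | h4
        · rw [h4] at hγ
          exact absurd hγ hpos
        · exact h4
      · rw [hC, hA, root_neg, hγ']
        module
      · rw [t3_pr_neg_left, hγ'θ, neg_zero]
  obtain ⟨t, χ, u, ht, hltu⟩ := B.t6r_Lam_form f hγ₀ hl
  have hlib : LinearIndependent k ![P.root γ₀, P.root b₀] := by
    rcases eq_or_neg_or_indep P γ₀ b₀ with h6 | h6 | h6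
    · rw [h6, hγ₀θ] at hb₀θ
      norm_num at hb₀θ
    · rw [h6, t3_pr_neg_left, hγ₀θ] at hb₀θ
      norm_num at hb₀θ
    · exact h6
  have hbot : P.chainBotCoeff γ₀ b₀ = 0 := by
    have h4 : P.root b₀ + 3 • P.root γ₀ ∈ Set.range P.root := ⟨b₃, hb₃⟩
    rw [P.root_add_nsmul_mem_range_iff_le_chainTopCoeff hlib] at h4
    have h5 : P.chainBotCoeff γ₀ b₀ + P.chainTopCoeff γ₀ b₀ ≤ 3 :=
      RootPairing.chainBotCoeff_add_chainTopCoeff_le_three
    omega
  obtain ⟨ε, hε, hεe⟩ := B.dpow_string hlib hb₃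
  rw [hbot] at hεe
  have hne : b₃ ≠ b₀ := by
    intro h4
    rw [h4] at hb₃
    exact nsmul_root_ne_zero P (by norm_num : 3 ≠ 0) γ₀ (left_eq_add.1 hb₃)
  have hu : u = 0 := by
    have h4 := h1 b₀ b₃ hb₀θ hb₃θ (by rw [hθb₀]; norm_num) (by rw [hθb₃]; norm_num)
    rw [if_neg hne] at h4
    have h5 : t.val (.inr b₃) (.inr b₃) = χ b₃ := by
      have h6 := congrFun (ht.2.1 b₃) (.inr b₃)
      rw [mulVec_ev, Pi.smul_apply, ev_self, smul_eq_mul, mul_one] at h6
      exact h6
    have h6 : B.xMat K γ₀ u (.inr b₃) (.inr b₀) = u ^ 3 * ε := by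
      rw [xMat_apply, Finset.sum_eq_single 3]
      · rw [hεe, if_pos rfl]
        simp
      · intro j _ hj
        have h7 : B.dpow γ₀ j (.inr b₃) (.inr b₀) = 0 := by
          by_contra h8
          have h9 := B.wt_of_dpow_ne_zero h8
          simp only [wt, Sum.elim_inr] at h9
          rw [hb₃, add_right_inj] at h9
          have h10 : ((3 : k) - j) • P.root γ₀ = 0 := by
            rw [sub_smul, Nat.cast_smul_eq_nsmul, ← h9]
            module
          rcases smul_eq_zero.1 h10 with h11 | h11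
          · apply hj
            have h12 : (j : k) = ((3 : ℕ) : k) := by
              push_cast
              exact (sub_eq_zero.1 h11).symm
            exact_mod_cast h12
          · exact P.ne_zero γ₀ h11
        rw [h7]
        simp
      · intro h0
        exact absurd (Finset.mem_range.2 (by norm_num)) h0
    rw [hltu, Units.val_mul, Matrix.mul_apply, Finset.sum_eq_single (.inr b₃), h5, coe_x, h6] at h4
    · rcases mul_eq_zero.1 h4 with h7 | h7
      · exact absurd h7 (Units.ne_zero _)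
      · rcases mul_eq_zero.1 h7 with h8 | h8
        · exact pow_eq_zero_iff (by norm_num) |>.1 h8
        · exfalso
          rcases hε with rfl | rfl <;> norm_num at h8
    · intro m _ hm
      have h7 : t.val (.inr b₃) m = 0 := by
        rcases m with m | m
        · have h8 := congrFun (ht.1 m) (.inr b₃)
          rw [mulVec_ev, ev_apply, if_neg (by simp)] at h8
          exact h8
        · have h8 := congrFun (ht.2.1 m) (.inr b₃)
          rw [mulVec_ev, Pi.smul_apply, ev_apply, if_neg (by simpa using fun h0 => hm (by rw [h0])),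
            smul_zero] at h8
          exact h8
      rw [h7, zero_mul]
    · intro h0
      exact absurd (Finset.mem_univ _) h0
  rw [hu, x_zero, mul_one] at hltu
  rw [← hltu] at ht
  have hdiag : ∀ δ, l.val (.inr δ) (.inr δ) = χ δ := by
    intro δ
    have h6 := congrFun (ht.2.1 δ) (.inr δ)
    rw [mulVec_ev, Pi.smul_apply, ev_self, smul_eq_mul, mul_one] at h6
    exact h6
  have hχθ : χ θ = 1 := Units.ext (by rw [← hdiag, hθ, Units.val_one])
  have hχA : χ A = 1 := Units.ext (by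
    rw [← hdiag, h1 A A hAθ hAθ (by rw [hθA]; norm_num) (by rw [hθA]; norm_num), if_pos rfl,
      Units.val_one])
  have hχβ : χ β = 1 := by
    have h4 := ht.2.2.1 θ β A (-1) 3 (by rw [hA]; module)
    rw [hχA, hχθ, _root_.one_zpow, one_mul] at h4
    have h5 : ((χ β : K) - 1) ^ 3 = 0 := by
      have h6 : (χ β : K) ^ 3 = 1 := by
        have h7 : χ β ^ 3 = 1 := by exact_mod_cast h4.symm
        rw [← Units.val_pow_eq_pow_val, h7, Units.val_one]
      linear_combination h6 - ((χ β : K) ^ 2 - (χ β : K)) * h3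
    exact Units.ext (by
      rw [Units.val_one]
      exact sub_eq_zero.1 (pow_eq_zero_iff (by norm_num) |>.1 h5))
  refine t6r_eq_one fun i => ?_
  rcases i with i | δ
  · exact ht.1 i
  · obtain ⟨i, j, hij⟩ := hspan δ
    rw [ht.2.1, ht.2.2.1 θ β δ i j hij, hχθ, hχβ, _root_.one_zpow, _root_.one_zpow, mul_one,
      Units.val_one,
      one_smul]

end

end ChevalleyBasis

end Pool.Agent.MP_467141
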