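import Pool.Agent.Lib.MP_467141_H17.T7a
import Pool.Agent.Lib.MP_467141_H17.A3

/-! # T7: the special vector -/

open Matrix

set_option linter.unusedSectionVars false

noncomputable section

namespace Pool.Agent.MP_467141

variable {ι k M N : Type*} [Field k] [CharZero k] [AddCommGroup M] [Module k M]
  [AddCommGroup N] [Module k N] [Fintype ι] [DecidableEq ι]

namespace ChevalleyBasis

variable {P : RootPairing ι k M N} [P.IsCrystallographic] [P.IsReduced] {b : P.Base}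
  {L : Type*} [LieRing L] (B : ChevalleyBasis P b L)

/-- `x_α(t)` as an element of the group -/
def xg (K : Type*) [Field K] (α : ι) (t : K) : B.group K := ⟨B.x K α t, B.x_mem_group K α t⟩

@[simp] lemma coe_xg (K : Type*) [Field K] (α : ι) (t : K) :
    (B.xg K α t : GL (b.support ⊕ ι) K) = B.x K α t := rfl

/-- torus elements as elements of the group -/
def torg (K : Type*) [Field K] (α : ι) (c : Kˣ) : B.group K :=
  ⟨B.tor K α c, B.tor_mem_group K α c⟩

@[simp] lemma coe_torg (K : Type*) [Field K] (α : ι) (c : Kˣ) :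
    (B.torg K α c : GL (b.support ⊕ ι) K) = B.tor K α c := rfl

variable {θ : ι} (h : IsTheta b θ)
include h

lemma NN_cast_two {K : Type*} [Field K] (h2 : (2 : K) = 0) {β : ι} (hβ : pr P β θ = 1)
    (hN : (B.NN θ β : K) = 0) : pr P θ β = 2 := by
  obtain ⟨h1, h3⟩ := B.NN_eq h hβ
  have h4 : ((pr P θ β : ℤ) : K) = 0 := by
    rcases h1 with h1 | h1
    · rw [← h1]; exact hN
    · rw [h1, Int.cast_neg, neg_eq_zero] at hN
      exact hN
  rcases h3 with h3 | h3 | h3
  · rw [h3] at h4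
    simp at h4
  · exact h3
  · rw [h3] at h4
    exfalso
    have : (1 : K) = 3 - 2 := by norm_num
    rw [h2] at this
    simp only [Int.cast_ofNat] at h4
    rw [h4] at this
    simp at this

lemma NN_cast_three {K : Type*} [Field K] (h2 : (2 : K) ≠ 0) {β : ι} (hβ : pr P β θ = 1)
    (hN : (B.NN θ β : K) = 0) : pr P θ β = 3 ∧ (3 : K) = 0 := by
  obtain ⟨h1, h3⟩ := B.NN_eq h hβ
  have h4 : ((pr P θ β : ℤ) : K) = 0 := by
    rcases h1 with h1 | h1
    · rw [← h1]; exact hN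
    · rw [h1, Int.cast_neg, neg_eq_zero] at hN
      exact hN
  rcases h3 with h3 | h3 | h3
  · rw [h3] at h4
    simp at h4
  · rw [h3] at h4
    exact absurd (by simpa using h4) h2
  · rw [h3] at h4
    exact ⟨h3, by simpa using h4⟩

lemma NN_eq_zero_of {K : Type*} [Field K] {β : ι} (hβ : pr P β θ = 1)
    (h0 : ((pr P θ β : ℤ) : K) = 0) : (B.NN θ β : K) = 0 := by
  obtain ⟨h1, -⟩ := B.NN_eq h hβ
  rcases h1 with h1 | h1
  · rw [h1, h0]
  · rw [h1, Int.cast_neg, h0, neg_zero]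

lemma NN_eq_zero_iff {K : Type*} [Field K] {β : ι} (hβ : pr P β θ = 1) :
    (B.NN θ β : K) = 0 ↔ ((pr P θ β : ℤ) : K) = 0 := by
  refine ⟨fun hN => ?_, B.NN_eq_zero_of h hβ⟩
  obtain ⟨h1, -⟩ := B.NN_eq h hβ
  rcases h1 with h1 | h1
  · rw [← h1]; exact hN
  · rw [h1, Int.cast_neg, neg_eq_zero] at hN
    exact hN

/-- the Heisenberg data of the highest root -/
def heis (K : Type*) [Field K] : HeisData (B.group K) K {β // pr P β θ = 1} where
  X β t := B.xg K β.1 t
  Z z := B.xg K θ z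
  op β := ⟨op P θ β.1, pr_op h β.2⟩
  N β := B.NN θ β.1
  X_add β t u := Subtype.ext (B.x_add K _ t u)
  Z_add t u := Subtype.ext (B.x_add K _ t u)
  op_op β := Subtype.ext (op_op h β.2)
  op_ne β hβ := op_ne h β.2 (congrArg Subtype.val hβ)
  N_op β hN := by
    rw [B.NN_eq_zero_iff h (pr_op h β.2), pr_theta_op h β.2, ← B.NN_eq_zero_iff h β.2]
    exact hN
  Z_X β z t := Subtype.ext (B.x_theta_comm h (by rw [β.2]; exact zero_le_one) z t)
  X_X β γ hne t u := Subtype.ext (B.x_mul_x_Phi1 h β.2 γ.2 (fun h' => hne (Subtype.ext h')) t u)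
  X_op β t u := Subtype.ext (B.x_mul_x_op h β.2 t u)
  sp2 β hN h2 := by
    obtain ⟨γ, hγ, h3, h4⟩ := B.special_two h h2 β.2 (B.NN_cast_two h h2 β.2 hN)
    refine ⟨fun u => B.xg K γ u, fun u z => Subtype.ext ?_, fun u t => Subtype.ext ?_,
      fun δ hδ hne u t => Subtype.ext ?_⟩
    · exact (B.x_theta_comm h hγ.ge z u).symm
    · have := h3 u t
      rw [x_neg] at this
      exact this
    · exact h4 δ.1 δ.2 (B.NN_cast_two h h2 δ.2 hδ) (fun h' => hne (Subtype.ext h')) u t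
  sp3 β hN h2 := by
    obtain ⟨hβ3, h3⟩ := B.NN_cast_three h h2 β.2 hN
    obtain ⟨γ, c, hγ, hc, h4, h5, h6⟩ := B.special_three h h3 β.2 hβ3
    refine ⟨fun u => B.xg K γ u, c, ?_, fun u z => Subtype.ext ?_, fun u t => Subtype.ext ?_,
      fun u t => Subtype.ext ?_, fun δ hδ => ?_⟩
    · rcases hc with rfl | rfl <;> simp
    · exact (B.x_theta_comm h hγ.ge z u).symm
    · have := h4 u t
      rw [x_neg] at this
      exact this
    · exact h5 u t
    · rcases h6 δ.1 δ.2 (B.NN_cast_three h h2 δ.2 hδ).1 with h7 | h7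
      · exact Or.inl (Subtype.ext h7)
      · exact Or.inr (Subtype.ext h7)

section rep

variable {K : Type*} [Field K] {F V : Type*} [Field F] [IsAlgClosed F] [AddCommGroup V]
  [Module F V] [FiniteDimensional F V] (ρ : Representation F (B.group K) V)

/-- the vector `v` -/
theorem exists_v [Finite K] (p : ℕ) [Fact p.Prime] [CharP K p] (hpF : (p : F) ≠ 0)
    {K0' : Type*} [Field K0'] [Finite K0'] (κ : K0' →+* K)
    (hcard : Nat.card K = Nat.card K0' ^ 3)
    (hlt : 2 < Nat.card K0') (hnt : ∃ z, ρ (B.xg K θ z) ≠ 1)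
    (ψ : {β // pr P β θ = 1} → AddChar K0' F)
    (hψ : ∀ β, (3 : K) = 0 → pr P θ β.1 = 3 → ψ β = 1) :
    ∃ (v : V) (τ : AddChar K F) (c : K), v ≠ 0 ∧ τ ≠ 1 ∧ c ≠ 0 ∧ (∀ t, τ (c * κ t) = 1) ∧
      (∀ z, ρ (B.xg K θ z) v = τ (c * z) • v) ∧
      ∀ β t, ρ (B.xg K β.1 (κ t)) v = ψ β t • v := by
  obtain ⟨v0, hv0, τ, hτ, hv0τ⟩ := exists_nontrivial_eigenvector ρ (B.xg K θ)
    (fun t u => Subtype.ext (B.x_add K θ t u)) p hpF
    (fun t => by rw [nsmul_eq_mul, CharP.cast_eq_zero, zero_mul]) hnt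
  obtain ⟨u, hu0, hu⟩ := exists_square_annihilator τ κ hcard 1 one_ne_zero
  simp only [one_mul] at hu
  obtain ⟨v, hv, h1, h2⟩ := (B.heis h K).exists_eigenvector (ρ := ρ) (τ := τ) (b := u ^ 2) hτ κ
    hcard hlt (pow_ne_zero 2 hu0) hu ψ
    (fun β hN h2 => hψ β (B.NN_cast_three h h2 β.2 hN).2 (B.NN_cast_three h h2 β.2 hN).1)
    (v0 := ρ (B.torg K θ (Units.mk0 u hu0))⁻¹ v0) (HeisData.rho_inv_ne_zero _ hv0)
    (fun z => by
      have h3 : B.torg K θ (Units.mk0 u hu0) * B.xg K θ z * (B.torg K θ (Units.mk0 u hu0))⁻¹ =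
          B.xg K θ (u ^ 2 * z) := by
        apply Subtype.ext
        have h4 := B.tor_conj_x K θ θ (Units.mk0 u hu0) z
        have h5 : pr P θ θ = 2 := by simp
        rw [h5] at h4
        simpa using h4
      change ρ (B.xg K θ z) _ = _
      rw [HeisData.rho_inv_conj, h3, hv0τ, map_smul])
  exact ⟨v, τ, u ^ 2, hv, hτ, pow_ne_zero 2 hu0, hu, h1, h2⟩

end rep


end ChevalleyBasis

end Pool.Agent.MP_467141
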