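import Pool.Agent.Lib.MP_467141_H17.T6R
import Pool.Agent.Lib.MP_467141_H17.A1

/-! # T7a: orders of elements; the normal closure of the long root group -/

open Matrix

set_option linter.unusedSectionVars false

noncomputable section

namespace Pool.Agent.MP_467141

variable {ι k M N : Type*} [Field k] [CharZero k] [AddCommGroup M] [Module k M]
  [AddCommGroup N] [Module k N] [Fintype ι] [DecidableEq ι]

namespace ChevalleyBasis

variable {P : RootPairing ι k M N} [P.IsCrystallographic] [P.IsReduced] {b : P.Base}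
  {L : Type*} [LieRing L] (B : ChevalleyBasis P b L)

/-- the height of a basis index -/
def hgt (b : P.Base) : b.support ⊕ ι → ℤ := Sum.elim (fun _ => 0) fun β => b.height β

lemma hgt_lt {γ : ι} (hγ : b.IsPos γ) (j : ℕ) (l' l : b.support ⊕ ι) (hj : 0 < j)
    (h : wt b l' = wt b l + j • P.root γ) : hgt b l < hgt b l' := by
  have hγ' : 0 < b.height γ := hγ
  have hj' : (0 : ℤ) < j := by exact_mod_cast hj
  have hpos : 0 < (j : ℤ) * b.height γ := mul_pos hj' hγ'
  have hmul : ∀ β, P.root β = j • P.root γ → b.height β = j * b.height γ := by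
    intro β hβ
    have h1 : P.root β = P.root γ + ((j : ℤ) - 1) • P.root γ := by
      rw [hβ, ← natCast_zsmul, sub_smul, one_smul]
      abel
    rw [b.height_add_zsmul h1, smul_eq_mul]
    ring
  rcases l with i | β <;> rcases l' with i' | β'
  · simp only [wt, Sum.elim_inl, zero_add] at h
    exact absurd h.symm (nsmul_root_ne_zero P hj.ne' γ)
  · simp only [wt, Sum.elim_inl, Sum.elim_inr, zero_add] at h
    simp only [hgt, Sum.elim_inl, Sum.elim_inr]
    rw [hmul β' h]
    exact hpos
  · simp only [wt, Sum.elim_inl, Sum.elim_inr] at h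
    simp only [hgt, Sum.elim_inl, Sum.elim_inr]
    have h1 : P.root (neg P β) = j • P.root γ := by
      rw [root_neg]
      exact neg_eq_of_add_eq_zero_right h.symm
    have h2 := hmul _ h1
    have h3 : b.height (neg P β) = -b.height β := b.height_reflectionPerm_self β
    rw [h3] at h2
    linarith
  · simp only [wt, Sum.elim_inr] at h
    simp only [hgt, Sum.elim_inr]
    rw [← natCast_zsmul] at h
    rw [b.height_add_zsmul h, smul_eq_mul]
    linarith

/-- elements of `X` are upper triangular with respect to the height, with diagonal entries of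
order dividing `r` -/
lemma XX_upper {S K : Type*} [CommRing S] [Field K] {f : S →+* K} {r : ℕ}
    {g : GL (b.support ⊕ ι) K} (hg : g ∈ B.XX r f) :
    Upper (hgt b) g.val ∧ ∀ l, g.val l l ^ r = 1 := by
  refine B.t6_XX_ind (p := fun g => Upper (hgt b) g.val ∧ ∀ l, g.val l l ^ r = 1) ?_ ?_ ?_ hg
  · exact ⟨upper_one _, fun l => by rw [Units.val_one, Matrix.one_apply_eq, one_pow]⟩
  · rintro γ c hc y ⟨h1, h2⟩
    have h3 : Upper (hgt b) (B.tor K γ (Units.map f c)).val := by
      rw [tor_val]
      exact upper_diagonal _ _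
    refine ⟨by rw [Units.val_mul]; exact h3.mul h1, fun l => ?_⟩
    rw [Units.val_mul, Upper.mul_diag h3 h1, mul_pow, h2, mul_one]
    rcases l with i | β
    · simp [tor]
    · simp only [tor, Matrix.diagonal_apply_eq, Sum.elim_inr]
      rw [← Units.val_pow_eq_pow_val, ← zpow_natCast, ← _root_.zpow_mul, mul_comm,
        _root_.zpow_mul, zpow_natCast, ← map_pow, hc, map_one, _root_.one_zpow, Units.val_one]
  · rintro γ hγ t y ⟨h1, h2⟩
    have h3 : Upper (hgt b) (B.x K γ (f t)).val := B.upper_xMat (hgt_lt hγ) _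
    refine ⟨by rw [Units.val_mul]; exact h3.mul h1, fun l => ?_⟩
    rw [Units.val_mul, Upper.mul_diag h3 h1, mul_pow, h2, mul_one]
    change B.xMat K γ (f t) l l ^ r = 1
    rw [xMat_apply_self, one_pow]

/-- elements of prime order `ℓ ≠ p`, `ℓ ∤ r` of `X` are trivial -/
theorem XX_eq_one_of_pow {S K : Type*} [CommRing S] [Field K] (f : S →+* K) (p : ℕ)
    [Fact p.Prime] [CharP K p] {r ℓ : ℕ} (hℓ : ℓ.Prime) (hℓp : ℓ ≠ p) (hℓr : ℓ.Coprime r)
    {g : GL (b.support ⊕ ι) K} (hg : g ∈ B.XX r f) (h : g ^ ℓ = 1) : g = 1 := by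
  rcases isEmpty_or_nonempty (b.support ⊕ ι) with hemp | hnonemp
  · apply Units.ext
    ext l
    exact hemp.elim l
  obtain ⟨hU, hd⟩ := B.XX_upper hg
  -- the diagonal is `1`
  have hpow : ∀ n : ℕ, Upper (hgt b) (g ^ n).val ∧ ∀ l, (g ^ n).val l l = g.val l l ^ n := by
    intro n
    induction n with
    | zero =>
      exact ⟨by rw [pow_zero]; exact upper_one _,
        fun l => by rw [pow_zero, pow_zero, Units.val_one, Matrix.one_apply_eq]⟩
    | succ n ih =>
      refine ⟨by rw [pow_succ, Units.val_mul]; exact ih.1.mul hU, fun l => ?_⟩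
      rw [pow_succ, Units.val_mul, Upper.mul_diag ih.1 hU, ih.2, pow_succ]
  have hdiag : ∀ l, g.val l l = 1 := by
    intro l
    have h1 : g.val l l ^ ℓ = 1 := by
      rw [← (hpow ℓ).2, h, Units.val_one, Matrix.one_apply_eq]
    have h2 : orderOf (g.val l l) ∣ 1 := by
      rw [← hℓr]
      exact Nat.dvd_gcd (orderOf_dvd_of_pow_eq_one h1) (orderOf_dvd_of_pow_eq_one (hd l))
    rwa [Nat.dvd_one, orderOf_eq_one_iff] at h2
  -- `g - 1` is nilpotent
  set A : Matrix (b.support ⊕ ι) (b.support ⊕ ι) K := g.val - 1 with hA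
  have hAlt : ∀ l' l, A l' l ≠ 0 → hgt b l < hgt b l' := by
    intro l' l hne
    by_cases hl : l' = l
    · subst hl
      exfalso
      apply hne
      rw [hA, Matrix.sub_apply, hdiag, Matrix.one_apply_eq, sub_self]
    · rcases hU l' l (by
        rw [hA, Matrix.sub_apply, Matrix.one_apply_ne hl, sub_zero] at hne
        exact hne) with h1 | h1
      · exact absurd h1 hl
      · exact h1
  have hApow : ∀ (n : ℕ) l' l, (A ^ n) l' l ≠ 0 → hgt b l + n ≤ hgt b l' := by
    intro n
    induction n with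
    | zero =>
      intro l' l hne
      rw [pow_zero] at hne
      have : l' = l := by
        by_contra hcon
        exact hne (Matrix.one_apply_ne hcon)
      rw [this]
      simp
    | succ n ih =>
      intro l' l hne
      rw [pow_succ, Matrix.mul_apply] at hne
      obtain ⟨m, -, hm⟩ := Finset.exists_ne_zero_of_sum_ne_zero hne
      have h1 := ih _ _ (left_ne_zero_of_mul hm)
      have h2 := hAlt _ _ (right_ne_zero_of_mul hm)
      push_cast
      linarith
  obtain ⟨C, hC⟩ : ∃ C : ℕ, ∀ l' l, hgt b l' < hgt b l + C := by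
    obtain ⟨C, hC⟩ : ∃ C : ℕ, ∀ q : (b.support ⊕ ι) × (b.support ⊕ ι),
        hgt b q.1 - hgt b q.2 ≤ C := by
      refine ⟨∑ q : (b.support ⊕ ι) × (b.support ⊕ ι), (hgt b q.1 - hgt b q.2).natAbs,
        fun q => ?_⟩
      refine (Int.le_natAbs).trans ?_
      exact_mod_cast Finset.single_le_sum
        (f := fun q : (b.support ⊕ ι) × (b.support ⊕ ι) => (hgt b q.1 - hgt b q.2).natAbs)
        (fun _ _ => Nat.zero_le _) (Finset.mem_univ q)
    refine ⟨C + 1, fun l' l => ?_⟩
    have := hC (l', l)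
    simp only at this
    push_cast
    linarith
  have hAnil : A ^ (p ^ C) = 0 := by
    ext l' l
    rw [Matrix.zero_apply]
    by_contra hne
    have h1 := hApow _ _ _ hne
    have h2 := hC l' l
    have h3 : C < p ^ C := Nat.lt_pow_self (Fact.out (p := p.Prime)).one_lt
    have h4 : (C : ℤ) < ((p ^ C : ℕ) : ℤ) := by exact_mod_cast h3
    linarith
  have hgp : g ^ (p ^ C) = 1 := by
    apply Units.ext
    have h1 : g.val = A + 1 := by rw [hA, sub_add_cancel]
    rw [Units.val_pow_eq_pow_val, h1, add_pow_char_pow_of_commute p C (Commute.one_right A),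
      hAnil, one_pow, zero_add, Units.val_one]
  have h5 : orderOf g ∣ 1 := by
    have h6 : Nat.gcd ℓ (p ^ C) = 1 := by
      apply Nat.Coprime.pow_right
      exact (Nat.coprime_primes hℓ (Fact.out (p := p.Prime))).2 hℓp
    rw [← h6]
    exact Nat.dvd_gcd (orderOf_dvd_of_pow_eq_one h) (orderOf_dvd_of_pow_eq_one hgp)
  rwa [Nat.dvd_one, orderOf_eq_one_iff] at h5

/-- a homomorphism which is trivial on the long root group `X_θ(K)` is trivial -/
theorem hom_eq_one [P.IsIrreducible] {θ : ι} (hθ : IsTheta b θ) {K : Type*} [Field K] [Finite K]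
    (h4 : 4 < Nat.card K) {G' : Type*} [Group G'] (φ : B.group K →* G')
    (h : ∀ z (hz : B.x K θ z ∈ B.group K), φ ⟨B.x K θ z, hz⟩ = 1) (g : B.group K) : φ g = 1 := by
  let X : ι → K → B.group K := fun α t => ⟨B.x K α t, B.x_mem_group K α t⟩
  have hXadd : ∀ α t u, X α (t + u) = X α t * X α u := fun α t u =>
    Subtype.ext (B.x_add K α t u)
  let S : Set ι := {β | ∀ z, φ (X β z) = 1}
  have hθS : θ ∈ S := fun z => h z _
  have hS : ∀ α β, β ∈ S → P.reflectionPerm α β ∈ S := by
    intro α β hβ z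
    have h1 := B.n1_conj_x K α β ((B.eps α β : K) * z)
    have h2 : (B.eps α β : K) * ((B.eps α β : K) * z) = z := by
      rcases B.eps_eq α β with h | h <;> simp [h]
    rw [h2] at h1
    have h3 : (⟨B.n1 K α, B.n1_mem_group K α⟩ : B.group K) * X β ((B.eps α β : K) * z) *
        (⟨B.n1 K α, B.n1_mem_group K α⟩ : B.group K)⁻¹ = X (P.reflectionPerm α β) z :=
      Subtype.ext h1
    rw [← h3, map_mul, map_mul, hβ, map_inv, mul_one, mul_inv_cancel]
  have key : ∀ α t, φ (X α t) = 1 := by
    intro α t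
    obtain ⟨β, hβ, hαβ⟩ := hθ.exists_pr_ne_zero S hθS hS α
    have hnβ : neg P β ∈ S := hS β β hβ
    have hn1 : φ ⟨B.n1 K β, B.n1_mem_group K β⟩ = 1 := by
      have h3 : (⟨B.n1 K β, B.n1_mem_group K β⟩ : B.group K) = X β 1 * X (neg P β) (-1) * X β 1 :=
        rfl
      rw [h3, map_mul, map_mul, hβ, hnβ, one_mul, one_mul]
    have htor : ∀ c : Kˣ, φ ⟨B.tor K β c, B.tor_mem_group K β c⟩ = 1 := by
      intro c
      have h3 : X β c * X (neg P β) (-(c⁻¹ : Kˣ)) * X β c =
          ⟨B.tor K β c, B.tor_mem_group K β c⟩ * ⟨B.n1 K β, B.n1_mem_group K β⟩ :=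
        Subtype.ext (B.x_mul_x_neg_mul_x K β c)
      have h4 := congrArg φ h3
      rw [map_mul, map_mul, map_mul, hβ, hnβ, hn1, one_mul, one_mul, mul_one] at h4
      exact h4.symm
    -- an element `c` with `c ^ ⟨α, β^∨⟩ ≠ 1`
    obtain ⟨c, hc⟩ : ∃ c : Kˣ, c ^ pr P α β ≠ 1 := by
      have hfin : Finite Kˣ := inferInstance
      obtain ⟨c, hc⟩ := IsCyclic.exists_generator (α := Kˣ)
      refine ⟨c, fun h1 => ?_⟩
      have h2 : orderOf c = Nat.card Kˣ := orderOf_eq_card_of_forall_mem_zpowers hc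
      rw [Nat.card_units] at h2
      have h3 : (orderOf c : ℤ) ∣ pr P α β := orderOf_dvd_iff_zpow_eq_one.2 h1
      have h5 : -3 ≤ pr P α β ∧ pr P α β ≤ 3 := by
        have h6 := P.pairingIn_pairingIn_mem_set_of_isCrystal_of_isRed α β
        simp only [Set.mem_insert_iff, Set.mem_singleton_iff, Prod.mk.injEq] at h6
        change -3 ≤ P.pairingIn ℤ α β ∧ P.pairingIn ℤ α β ≤ 3
        omega
      obtain ⟨q, hq⟩ := h3
      have h7 : (4 : ℤ) ≤ orderOf c := by rw [h2]; omega
      have h8 : q ≠ 0 := by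
        rintro rfl
        rw [mul_zero] at hq
        exact hαβ hq
      rcases lt_or_gt_of_ne h8 with h9 | h9
      · nlinarith
      · nlinarith
    have hc' : ((c ^ pr P α β : Kˣ) : K) - 1 ≠ 0 := by
      intro h1
      apply hc
      apply Units.ext
      rw [Units.val_one]
      exact sub_eq_zero.1 h1
    have h5 : ∀ u, φ (X α ((((c ^ pr P α β : Kˣ) : K) - 1) * u)) = 1 := by
      intro u
      have h6 : (⟨B.tor K β c, B.tor_mem_group K β c⟩ : B.group K) * X α u *
          (⟨B.tor K β c, B.tor_mem_group K β c⟩ : B.group K)⁻¹ =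
          X α (((c ^ pr P α β : Kˣ) : K) * u) := Subtype.ext (B.tor_conj_x K β α c u)
      have h7 := congrArg φ h6
      rw [map_mul, map_mul, map_inv, htor, one_mul, inv_one, mul_one] at h7
      have h8 : ((c ^ pr P α β : Kˣ) : K) * u = (((c ^ pr P α β : Kˣ) : K) - 1) * u + u := by ring
      rw [h8, hXadd, map_mul] at h7
      exact (mul_eq_right.1 h7.symm)
    have := h5 ((((c ^ pr P α β : Kˣ) : K) - 1)⁻¹ * t)
    rwa [mul_inv_cancel_left₀ hc'] at this
  -- conclusion
  have hle : B.group K ≤ (φ.ker).map (B.group K).subtype := by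
    conv_lhs => rw [group_eq_closure]
    rw [Subgroup.closure_le]
    rintro _ ⟨⟨α, t⟩, rfl⟩
    exact ⟨X α t, key α t, rfl⟩
  obtain ⟨g', hg', hg''⟩ := hle g.2
  have : g' = g := Subtype.ext hg''
  rw [← this]
  exact hg'

end ChevalleyBasis

end Pool.Agent.MP_467141
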