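import Pool.Agent.Lib.MP_467141_H17.T7

/-! # T7b: the special vector, second part -/

open Matrix

set_option linter.unusedSectionVars false

noncomputable section

namespace Pool.Agent.MP_467141

variable {ι k M N : Type*} [Field k] [CharZero k] [AddCommGroup M] [Module k M]
  [AddCommGroup N] [Module k N] [Fintype ι] [DecidableEq ι]

namespace ChevalleyBasis

variable {P : RootPairing ι k M N} [P.IsCrystallographic] [P.IsReduced] {b : P.Base}
  {L : Type*} [LieRing L] (B : ChevalleyBasis P b L)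

section mono

variable {K0 K0' K : Type*} [Field K0] [Field K0'] [Field K] (j : K0 →+* K0') (f : K0' →+* K)

lemma rg_mono (s : Set ι) : B.rg (f.comp j) s ≤ B.rg f s := by
  refine Subgroup.closure_mono ?_
  rintro _ ⟨β, hβ, t, rfl⟩
  exact ⟨β, hβ, j t, rfl⟩

lemma rg_le_id (s : Set ι) : B.rg f s ≤ B.rg (RingHom.id K) s := by
  refine Subgroup.closure_mono ?_
  rintro _ ⟨β, hβ, t, rfl⟩
  exact ⟨β, hβ, f t, rfl⟩

lemma rg_le_group (s : Set ι) : B.rg f s ≤ B.group K := by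
  rw [rg, Subgroup.closure_le]
  rintro _ ⟨β, -, t, rfl⟩
  exact B.x_mem_group K _ _

lemma XX_le_group (r : ℕ) : B.XX r f ≤ B.group K := by
  rw [XX, Subgroup.closure_le]
  rintro _ (⟨γ, c, -, rfl⟩ | ⟨γ, -, t, rfl⟩)
  · exact B.tor_mem_group K _ _
  · exact B.x_mem_group K _ _

lemma x_mem_rg {s : Set ι} {β : ι} (hβ : β ∈ s) (t : K0') : B.x K β (f t) ∈ B.rg f s :=
  Subgroup.subset_closure ⟨β, hβ, t, rfl⟩

end mono

/-- the group `M` generated by `Q(K0')` and the centre of `Q(K)` -/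
def MM (θ : ι) {K0' K : Type*} [Field K0'] [Field K] (f : K0' →+* K) :
    Subgroup (GL (b.support ⊕ ι) K) :=
  Subgroup.closure ({g | ∃ β, 0 < pr P β θ ∧ ∃ t, g = B.x K β (f t)} ∪
    {g | ∃ z, g = B.x K θ z})

variable {θ : ι} (h : IsTheta b θ)

section

variable {K0 K0' K : Type*} [Field K0] [Field K0'] [Field K] (j : K0 →+* K0') (f : K0' →+* K)

lemma QQ_le_MM : B.QQ θ f ≤ B.MM θ f := by
  refine Subgroup.closure_mono ?_
  rintro _ ⟨β, hβ, t, rfl⟩
  exact Or.inl ⟨β, hβ, t, rfl⟩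

lemma x_theta_mem_MM (z : K) : B.x K θ z ∈ B.MM θ f :=
  Subgroup.subset_closure (Or.inr ⟨z, rfl⟩)

lemma MM_le_group : B.MM θ f ≤ B.group K := by
  rw [MM, Subgroup.closure_le]
  rintro _ (⟨γ, -, t, rfl⟩ | ⟨z, rfl⟩)
  · exact B.x_mem_group K _ _
  · exact B.x_mem_group K _ _

include h

lemma QQ_le_XX (r : ℕ) : B.QQ θ f ≤ B.XX r f := by
  refine Subgroup.closure_mono ?_
  rintro _ ⟨β, hβ, t, rfl⟩
  exact Or.inr ⟨β, h.isPos_of_pr_pos hβ, t, rfl⟩

lemma MM_le_XX : B.MM θ f ≤ B.XX 1 (RingHom.id K) := by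
  refine Subgroup.closure_mono ?_
  rintro _ (⟨β, hβ, t, rfl⟩ | ⟨z, rfl⟩)
  · exact Or.inr ⟨β, h.isPos_of_pr_pos hβ, f t, rfl⟩
  · exact Or.inr ⟨θ, h.pos, z, rfl⟩

lemma conj_mem_MM {r : ℕ} {x m : GL (b.support ⊕ ι) K} (hx : x ∈ B.XX r (f.comp j))
    (hm : m ∈ B.MM θ f) : x * m * x⁻¹ ∈ B.MM θ f := by
  induction hm using Subgroup.closure_induction with
  | mem m hm =>
    rcases hm with ⟨β, hβ, t, rfl⟩ | ⟨z, rfl⟩
    · obtain ⟨l, hl, q, hq, rfl⟩ := B.exists_Lam_mul_QQ h (f.comp j) hx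
      have hq' : q ∈ B.QQ θ f := B.rg_mono j f _ hq
      have h1 : q * B.x K β (f t) * q⁻¹ ∈ B.QQ θ f :=
        mul_mem (mul_mem hq' (B.x_mem_rg f hβ t)) (inv_mem hq')
      have h2 := B.QQ_le_MM f (B.Lam_conj_mem h j f hl h1)
      convert h2 using 1
      group
    · rw [B.XX_conj_x_theta h (f.comp j) hx]
      exact B.x_theta_mem_MM f _
  | one => simp
  | mul a c _ _ ha hc =>
    have : x * (a * c) * x⁻¹ = (x * a * x⁻¹) * (x * c * x⁻¹) := by group
    rw [this]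
    exact mul_mem ha hc
  | inv a _ ha =>
    have : x * a⁻¹ * x⁻¹ = (x * a * x⁻¹)⁻¹ := by group
    rw [this]
    exact inv_mem ha

lemma vv_one {γ : ι} (hγ : pr P γ θ = 1) : B.vv θ (1 : GL (b.support ⊕ ι) K) γ = 0 := by
  have := B.vv_x_theta h hγ (0 : K)
  rwa [x_zero] at this

lemma vv_inv {g : GL (b.support ⊕ ι) K} (hg : g ∈ B.QQ θ (RingHom.id K)) {β : ι}
    (hβ : pr P β θ = 1) : B.vv θ g⁻¹ β = -B.vv θ g β := by
  have := B.vv_mul h hg (inv_mem hg) hβ
  rw [mul_inv_cancel, B.vv_one h hβ] at this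
  exact (neg_eq_of_add_eq_zero_right this.symm).symm

end

section rep

variable {K : Type*} [Field K] {F V : Type*} [Field F] [AddCommGroup V]
  [Module F V] (ρ : Representation F (B.group K) V)

include h

/-- the action of `Q(K0')` on `v` -/
theorem rho_QQ {K0' : Type*} [Field K0'] (κ : K0' →+* K) {v : V} {τ : AddChar K F} {c : K}
    (hc : ∀ t, τ (c * κ t) = 1) (hθv : ∀ z, ρ (B.xg K θ z) v = τ (c * z) • v)
    (ψ : {β // pr P β θ = 1} → AddChar K0' F)
    (hv : ∀ β t, ρ (B.xg K β.1 (κ t)) v = ψ β t • v)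
    {g : GL (b.support ⊕ ι) K} (hg : g ∈ B.QQ θ κ) (hg' : g ∈ B.group K)
    (s : {β // pr P β θ = 1} → K0') (hs : ∀ β, B.vv θ g β.1 = κ (s β)) :
    ρ ⟨g, hg'⟩ v = (∏ β, ψ β (s β)) • v := by
  suffices ∃ s : {β // pr P β θ = 1} → K0', (∀ β, B.vv θ g β.1 = κ (s β)) ∧
      ρ ⟨g, hg'⟩ v = (∏ β, ψ β (s β)) • v by
    obtain ⟨s', hs', h2⟩ := this
    have : s = s' := funext fun β => κ.injective (by rw [← hs, ← hs'])
    rw [this, h2]
  clear hs s
  have hle : B.QQ θ κ ≤ B.QQ θ (RingHom.id K) := B.rg_le_id κ _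
  induction hg using Subgroup.closure_induction with
  | mem g hg =>
    obtain ⟨β, hβ, t, rfl⟩ := hg
    have hβ' : (0 : ℤ) < pr P β θ := hβ
    rcases h.pr_mem β with h1 | h1 | h1 | h1 | h1
    · omega
    · omega
    · omega
    · refine ⟨fun γ => if γ = ⟨β, h1⟩ then t else 0, fun γ => ?_, ?_⟩
      · rw [B.vv_x h h1 γ.2]
        change _ = κ (if γ = ⟨β, h1⟩ then t else 0)
        by_cases h2 : γ.1 = β
        · rw [if_pos h2, if_pos (Subtype.ext h2)]
        · rw [if_neg h2, if_neg (fun h3 => h2 (congrArg Subtype.val h3)), map_zero]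
      · have := hv ⟨β, h1⟩ t
        rw [Finset.prod_eq_single ⟨β, h1⟩]
        · change _ = ψ ⟨β, h1⟩ (if (⟨β, h1⟩ : {β // pr P β θ = 1}) = ⟨β, h1⟩ then t else 0) • v
          rw [if_pos rfl]
          exact this
        · intro γ _ hγ
          change ψ γ (if γ = ⟨β, h1⟩ then t else 0) = 1
          rw [if_neg hγ, AddChar.map_zero_eq_one]
        · intro h2
          exact absurd (Finset.mem_univ _) h2
    · obtain rfl : β = θ := h.eq_of_pr_eq_two h1
      refine ⟨0, fun γ => ?_, ?_⟩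
      · rw [B.vv_x_theta h γ.2, Pi.zero_apply, map_zero]
      · have := hθv (κ t)
        rw [hc, one_smul] at this
        simp only [Pi.zero_apply, AddChar.map_zero_eq_one, Finset.prod_const_one, one_smul]
        exact this
  | one =>
    refine ⟨0, fun γ => ?_, ?_⟩
    · rw [B.vv_one h γ.2, Pi.zero_apply, map_zero]
    · simp only [Pi.zero_apply, AddChar.map_zero_eq_one, Finset.prod_const_one, one_smul]
      have : (⟨1, hg'⟩ : B.group K) = 1 := rfl
      rw [this, map_one, Module.End.one_apply]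
  | mul x y hx hy ihx ihy =>
    obtain ⟨s, hs, hs'⟩ := ihx (B.rg_le_group κ _ hx)
    obtain ⟨s', hs2, hs2'⟩ := ihy (B.rg_le_group κ _ hy)
    refine ⟨s + s', fun γ => ?_, ?_⟩
    · rw [B.vv_mul h (hle hx) (hle hy) γ.2, hs, hs2, Pi.add_apply, map_add]
    · have : (⟨x * y, hg'⟩ : B.group K) =
          ⟨x, B.rg_le_group κ _ hx⟩ * ⟨y, B.rg_le_group κ _ hy⟩ := rfl
      rw [this, map_mul, Module.End.mul_apply, hs2', map_smul, hs', smul_smul,
        ← Finset.prod_mul_distrib]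
      congr 1
      refine Finset.prod_congr rfl fun γ _ => ?_
      rw [Pi.add_apply, AddChar.map_add_eq_mul, mul_comm]
  | inv x hx ihx =>
    obtain ⟨s, hs, hs'⟩ := ihx (B.rg_le_group κ _ hx)
    refine ⟨-s, fun γ => ?_, ?_⟩
    · rw [B.vv_inv h (hle hx) γ.2, hs, Pi.neg_apply, map_neg]
    · have h1 : (∏ β, ψ β ((-s) β)) * (∏ β, ψ β (s β)) = 1 := by
        rw [← Finset.prod_mul_distrib]
        refine Finset.prod_eq_one fun γ _ => ?_
        rw [Pi.neg_apply, ← AddChar.map_add_eq_mul, neg_add_cancel, AddChar.map_zero_eq_one]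
      have : (⟨x⁻¹, hg'⟩ : B.group K) = (⟨x, B.rg_le_group κ _ hx⟩ : B.group K)⁻¹ := rfl
      rw [this]
      have h2 : ρ (⟨x, B.rg_le_group κ _ hx⟩ : B.group K)⁻¹
          (ρ (⟨x, B.rg_le_group κ _ hx⟩ : B.group K) v) = v := by
        rw [← Module.End.mul_apply, ← map_mul, inv_mul_cancel, map_one, Module.End.one_apply]
      rw [hs', map_smul] at h2
      rw [← one_smul F (ρ _ v), ← h1, mul_smul, h2]

/-- the special vector `w` -/
theorem exists_w [P.IsIrreducible] [IsAlgClosed F] [FiniteDimensional F V] [Finite K] (p : ℕ)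
    [Fact p.Prime] [CharP K p]
    (hpF : (p : F) ≠ 0) {K0 K0' : Type*} [Field K0] [Field K0'] [Finite K0'] (j : K0 →+* K0')
    (κ : K0' →+* K) (hcard : Nat.card K = Nat.card K0' ^ 3) (hlt : 2 < Nat.card K0')
    (hgen : Nat.card K0 ^ (Fintype.card {β // pr P β θ = 1} + 1) ≤ Nat.card K0')
    {r : ℕ} (hr : r.Prime) (hrF : (r : F) ≠ 0) (hnt : ∃ z, ρ (B.xg K θ z) ≠ 1)
    (Ω : B.group K → F) (hΩ1 : Ω 1 = 1)
    (hΩθ : ∀ x : B.group K, x.1.val (.inr θ) (.inr θ) = 1 → Ω x = 1)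
    (hΩ : ∀ x y : B.group K, x.1 ∈ B.XX r (κ.comp j) → y.1 ∈ B.XX r (κ.comp j) →
      Ω (x * y) = Ω x * Ω y) :
    (Nat.card ((B.XX r (κ.comp j)).subgroupOf (B.group K)) : F) ≠ 0 ∧
    ∃ w : V, w ≠ 0 ∧ ∀ x : B.group K, x.1 ∈ B.XX r (κ.comp j) → ρ x w = Ω x • w := by
  classical
  have := Fintype.ofFinite K
  have hK0 : Finite K0 := Finite.of_injective _ j.injective
  -- the orders of `X` and `M`
  have hXcard : (Nat.card ((B.XX r (κ.comp j)).subgroupOf (B.group K)) : F) ≠ 0 := by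
    apply card_cast_ne_zero_of_forall_prime
    intro ℓ hℓ hℓF x hx
    have hℓp : ℓ ≠ p := by
      rintro rfl
      exact hpF hℓF
    have hℓr : ℓ.Coprime r := by
      rw [Nat.coprime_primes hℓ hr]
      rintro rfl
      exact hrF hℓF
    apply Subtype.ext
    apply Subtype.ext
    exact B.XX_eq_one_of_pow (κ.comp j) p hℓ hℓp hℓr x.2
      (congrArg (fun y => (y.1.1 : GL (b.support ⊕ ι) K)) hx)
  have hMcard : (Nat.card ((B.MM θ κ).subgroupOf (B.group K)) : F) ≠ 0 := by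
    apply card_cast_ne_zero_of_forall_prime
    intro ℓ hℓ hℓF x hx
    have hℓp : ℓ ≠ p := by
      rintro rfl
      exact hpF hℓF
    apply Subtype.ext
    apply Subtype.ext
    exact B.XX_eq_one_of_pow (RingHom.id K) p hℓ hℓp (Nat.coprime_one_right ℓ)
      (B.MM_le_XX h κ x.2) (congrArg (fun y => (y.1.1 : GL (b.support ⊕ ι) K)) hx)
  refine ⟨hXcard, ?_⟩
  -- generic characters
  let s' := {β : {β // pr P β θ = 1} // ¬ ((3 : K) = 0 ∧ pr P θ β.1 = 3)}
  obtain ⟨τ', hτ'⟩ : ∃ τ' : AddChar K0' F, τ' ≠ 1 := by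
    have : CharP K0' p := (κ.charP κ.injective p)
    exact exists_addChar_ne_one K0' p F hpF
  have hcard' : Nat.card K0 ^ (Fintype.card s' + 1) ≤ Nat.card K0' := by
    refine le_trans (Nat.pow_le_pow_right Nat.card_pos ?_) hgen
    exact Nat.succ_le_succ (Fintype.card_subtype_le _)
  obtain ⟨Ψ, hΨ1, hΨ2⟩ := exists_generic_chars hτ' j s' hcard'
  let ψ : {β // pr P β θ = 1} → AddChar K0' F := fun β =>
    if hβ : ¬ ((3 : K) = 0 ∧ pr P θ β.1 = 3) then Ψ ⟨β, hβ⟩ else 1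
  have hψj : ∀ β t, ψ β (j t) = 1 := by
    intro β t
    by_cases hβ : ¬ ((3 : K) = 0 ∧ pr P θ β.1 = 3)
    · simp only [ψ, dif_pos hβ]
      exact hΨ1 _ t
    · simp only [ψ, dif_neg hβ, AddChar.one_apply]
  have hψprod : ∀ t : {β // pr P β θ = 1} → K0', ∏ β, ψ β (t β) = ∏ β : s', Ψ β (t β.1) := by
    intro t
    have h1 : ∀ β : s', Ψ β (t β.1) = ψ β.1 (t β.1) := by
      intro β
      simp only [ψ, dif_pos β.2]
      rfl
    rw [Finset.prod_congr rfl (fun β _ => h1 β)]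
    rw [← Finset.prod_subtype (Finset.univ.filter
      (fun β : {β // pr P β θ = 1} => ¬ ((3 : K) = 0 ∧ pr P θ β.1 = 3))) (by simp)
      (fun β => ψ β (t β))]
    rw [Finset.prod_filter_of_ne]
    intro β _ hβ hcon
    apply hβ
    simp only [ψ, dif_neg (not_not.2 hcon), AddChar.one_apply]
  obtain ⟨v, τ, c, hv0, hτ, hc0, hcκ, hvθ, hvψ⟩ := B.exists_v h ρ p hpF κ hcard hlt hnt ψ
    (fun β h3 hβ => by simp only [ψ, dif_neg (not_not.2 (And.intro h3 hβ))])
  have hMv' : ∀ m ∈ B.MM θ κ, ∀ hm : m ∈ B.group K, ∃ c : F, ρ ⟨m, hm⟩ v = c • v := by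
    intro m hm
    induction hm using Subgroup.closure_induction with
    | mem m hm =>
      intro hm'
      rcases hm with ⟨β, hβ, t, rfl⟩ | ⟨z, rfl⟩
      · rcases h.pr_mem β with h1 | h1 | h1 | h1 | h1
        · omega
        · omega
        · omega
        · exact ⟨_, hvψ ⟨β, h1⟩ t⟩
        · obtain rfl : β = θ := h.eq_of_pr_eq_two h1
          exact ⟨_, hvθ (κ t)⟩
      · exact ⟨_, hvθ z⟩
    | one =>
      intro hm'
      refine ⟨1, ?_⟩
      have : (⟨1, hm'⟩ : B.group K) = 1 := rfl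
      rw [this, map_one, Module.End.one_apply, one_smul]
    | mul x y hx hy ihx ihy =>
      intro hm'
      obtain ⟨c1, h1⟩ := ihx (B.MM_le_group κ hx)
      obtain ⟨c2, h2⟩ := ihy (B.MM_le_group κ hy)
      refine ⟨c2 * c1, ?_⟩
      have : (⟨x * y, hm'⟩ : B.group K) =
          ⟨x, B.MM_le_group κ hx⟩ * ⟨y, B.MM_le_group κ hy⟩ := rfl
      rw [this, map_mul, Module.End.mul_apply, h2, map_smul, h1, smul_smul]
    | inv x hx ihx =>
      intro hm'
      obtain ⟨c1, h1⟩ := ihx (B.MM_le_group κ hx)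
      refine ⟨c1⁻¹, ?_⟩
      have : (⟨x⁻¹, hm'⟩ : B.group K) = (⟨x, B.MM_le_group κ hx⟩ : B.group K)⁻¹ := rfl
      rw [this]
      have h2 : ρ (⟨x, B.MM_le_group κ hx⟩ : B.group K)⁻¹
          (ρ (⟨x, B.MM_le_group κ hx⟩ : B.group K) v) = v := by
        rw [← Module.End.mul_apply, ← map_mul, inv_mul_cancel, map_one, Module.End.one_apply]
      rw [h1, map_smul] at h2
      have hc1 : c1 ≠ 0 := by
        rintro rfl
        rw [zero_smul] at h2
        exact hv0 h2.symm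
      rw [eq_inv_smul_iff₀ hc1]
      exact h2
  have hMv : ∀ m ∈ (B.MM θ κ).subgroupOf (B.group K), ∃ c : F, ρ m v = c • v :=
    fun m hm => hMv' m.1 hm m.2
  have hst : ∀ x ∈ (B.XX r (κ.comp j)).subgroupOf (B.group K),
      (∀ m ∈ (B.MM θ κ).subgroupOf (B.group K), ρ (x * m * x⁻¹) v = ρ m v) →
      ρ x v = v ∧ Ω x = 1 := by
    rintro ⟨x, hxg⟩ hxX hx
    have hxX' : x ∈ B.XX r (κ.comp j) := hxX
    -- `x` centralises `X_θ`
    have hxθ : x.val (.inr θ) (.inr θ) = 1 := by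
      have h1 : ∀ z, τ (c * x.val (.inr θ) (.inr θ) * z) = τ (c * z) := by
        intro z
        have h2 := hx (B.xg K θ z) (B.x_theta_mem_MM κ z)
        have h3 : (⟨x, hxg⟩ : B.group K) * B.xg K θ z * (⟨x, hxg⟩ : B.group K)⁻¹ =
            B.xg K θ (x.val (.inr θ) (.inr θ) * z) :=
          Subtype.ext (B.XX_conj_x_theta h (κ.comp j) hxX' z)
        rw [h3, hvθ, hvθ] at h2
        rw [mul_assoc]
        exact smul_left_injective F hv0 h2
      have hprim : τ.IsPrimitive := AddChar.IsPrimitive.of_ne_one hτ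
      have hinj := AddChar.to_mulShift_inj_of_isPrimitive hprim
      have h4 : c * x.val (.inr θ) (.inr θ) = c := by
        apply hinj
        ext z
        rw [AddChar.mulShift_apply, AddChar.mulShift_apply]
        exact h1 z
      exact (mul_eq_left₀ hc0).1 h4
    refine ⟨?_, hΩθ _ hxθ⟩
    obtain ⟨l, hl, q, hq, rfl⟩ := B.exists_Lam_mul_QQ h (κ.comp j) hxX'
    have hqκ : q ∈ B.QQ θ κ := B.rg_mono j κ _ hq
    have hqid : q ∈ B.QQ θ (RingHom.id K) := B.rg_le_id κ _ hqκ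
    have hlX : l ∈ B.XX r (κ.comp j) := by
      have h1 := mul_mem hxX' (inv_mem (B.QQ_le_XX h (κ.comp j) r hq))
      rwa [mul_inv_cancel_right] at h1
    have hqX := B.QQ_le_XX h (κ.comp j) r hq
    have hqθ : q.val (.inr θ) (.inr θ) = 1 := (B.QQ_upper h hqid).1 _
    have hlθ : l.val (.inr θ) (.inr θ) = 1 := by
      have := (B.XX_theta h (κ.comp j) hlX hqX).1
      rw [hxθ, hqθ, mul_one] at this
      exact this.symm
    -- the entries of `l`
    have hent := fun i i' => B.Lam_entry h (κ.comp j) hl i i'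
    choose a ha using hent
    have hact : ∀ (β : {β // pr P β θ = 1}) (t : K0'),
        ∏ δ : {β // pr P β θ = 1}, ψ δ (j (a (.inr δ.1) (.inr β.1)) * t) = ψ β t := by
      intro β t
      -- the element `q x_β(t) q⁻¹`
      have hxβ : B.x K β.1 (κ t) ∈ B.QQ θ κ := B.x_mem_rg κ
        (s := {β | 0 < pr P β θ}) (by rw [Set.mem_ofPred_eq, β.2]; exact one_pos) t
      have hxβid := B.rg_le_id κ _ hxβ
      have h1 : q * B.x K β.1 (κ t) * q⁻¹ ∈ B.QQ θ κ := mul_mem (mul_mem hqκ hxβ) (inv_mem hqκ)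
      have h2 : l * (q * B.x K β.1 (κ t) * q⁻¹) * l⁻¹ ∈ B.QQ θ κ := B.Lam_conj_mem h j κ hl h1
      have h3 : ∀ δ : {β // pr P β θ = 1},
          B.vv θ (q * B.x K β.1 (κ t) * q⁻¹) δ.1 = if δ = β then κ t else 0 := by
        intro δ
        rw [B.vv_mul h (mul_mem hqid hxβid) (inv_mem hqid) δ.2,
          B.vv_mul h hqid hxβid δ.2, B.vv_inv h hqid δ.2, B.vv_x h β.2 δ.2]
        simp only [Subtype.ext_iff]
        ring
      have h4 : ∀ δ : {β // pr P β θ = 1},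
          B.vv θ (l * (q * B.x K β.1 (κ t) * q⁻¹) * l⁻¹) δ.1 =
            κ (j (a (.inr δ.1) (.inr β.1)) * t) := by
        intro δ
        rw [B.vv_conj h (κ.comp j) hl (B.rg_le_id κ _ h1) δ.2, Finset.sum_eq_single β]
        · rw [h3 β, if_pos rfl, ha, map_mul]
          rfl
        · intro ε _ hε
          rw [h3 ε, if_neg hε, mul_zero]
        · intro h5
          exact absurd (Finset.mem_univ _) h5
      have h5 := B.rho_QQ h ρ κ hcκ hvθ ψ hvψ h2 (B.rg_le_group κ _ h2) _ h4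
      have h6 := hx (B.xg K β.1 (κ t)) (B.QQ_le_MM κ hxβ)
      have h7 : (⟨l * q, hxg⟩ : B.group K) * B.xg K β.1 (κ t) * (⟨l * q, hxg⟩ : B.group K)⁻¹ =
          ⟨l * (q * B.x K β.1 (κ t) * q⁻¹) * l⁻¹, B.rg_le_group κ _ h2⟩ := by
        apply Subtype.ext
        change l * q * B.x K β.1 (κ t) * (l * q)⁻¹ = _
        group
      rw [h7, h5, hvψ] at h6
      exact smul_left_injective F hv0 h6
    have hent1 : ∀ β γ : s', a (.inr γ.1.1) (.inr β.1.1) = if γ = β then 1 else 0 := by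
      intro β γ
      refine hΨ2 (fun γ β => a (.inr γ.1.1) (.inr β.1.1)) (fun β t => ?_) γ β
      have h1 := hact β.1 t
      rw [hψprod] at h1
      have h2 : ψ β.1 = Ψ β := dif_pos β.2
      rw [h2] at h1
      exact h1
    have hent2 : ∀ β γ, pr P β θ = 1 → pr P γ θ = 1 → ¬ ((3 : K) = 0 ∧ pr P θ β = 3) →
        ¬ ((3 : K) = 0 ∧ pr P θ γ = 3) →
        l.val (.inr γ) (.inr β) = if γ = β then 1 else 0 := by
      intro β γ hβ hγ hβ' hγ'
      rw [ha, hent1 ⟨⟨β, hβ⟩, hβ'⟩ ⟨⟨γ, hγ⟩, hγ'⟩]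
      by_cases h1 : γ = β
      · subst h1
        rw [if_pos rfl, if_pos rfl, map_one]
      · rw [if_neg h1, if_neg (fun h' => h1 (congrArg (fun y => y.1.1) h')), map_zero]
    have hl1 : l = 1 := by
      by_cases h3 : (3 : K) = 0
      · refine B.Lam_eq_one_strong h (κ.comp j) h3 hl hlθ fun β γ hβ hγ hβ' hγ' => ?_
        exact hent2 β γ hβ hγ (fun h' => hβ' h'.2) (fun h' => hγ' h'.2)
      · refine B.Lam_eq_one h (κ.comp j) hl hlθ fun β γ hβ hγ => ?_
        exact hent2 β γ hβ hγ (fun h' => h3 h'.1) (fun h' => h3 h'.1)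
    subst hl1
    -- `q` fixes `v`
    have hs : ∀ β : {β // pr P β θ = 1}, ∃ s : K0, B.vv θ (1 * q) β.1 = κ (j s) := by
      intro β
      rw [one_mul]
      obtain ⟨s, hs⟩ := B.vv_mem h (κ.comp j) hq β.2
      exact ⟨s, hs⟩
    choose s hs using hs
    rw [B.rho_QQ h ρ κ hcκ hvθ ψ hvψ (by rw [one_mul]; exact hqκ) hxg (fun β => j (s β)) hs]
    rw [Finset.prod_eq_one (fun β _ => hψj β (s β)), one_smul]
  obtain ⟨w, hw0, hw⟩ := exists_induced_eigenvector ρ ((B.XX r (κ.comp j)).subgroupOf (B.group K))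
    ((B.MM θ κ).subgroupOf (B.group K)) hXcard hMcard
    (fun x hx m hm => B.conj_mem_MM h j κ hx hm) hv0 hMv Ω hΩ1 (fun x hx y hy => hΩ x y hx hy) hst
  exact ⟨w, hw0, fun x hx => hw x hx⟩

end rep

end ChevalleyBasis

end Pool.Agent.MP_467141
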